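import Mathlib

set_option autoImplicit false

namespace W3283e1

open Complex

/-- The odd primes. -/
abbrev OP : Type := {p : ℕ // p.Prime ∧ p ≠ 2}

/-- The inverse Euler factor `1 - 2 Re(a) p^{-s} + p^{1-2s}` in factored form. -/
noncomputable def fL (a : ℂ) (p : ℕ) (s : ℂ) : ℂ :=
  (1 - a * (p : ℂ) ^ (-s)) * (1 - (starRingEnd ℂ a) * (p : ℂ) ^ (-s))

/-- The inverse Euler factor of the symmetric square without its middle factor, at `2 + w`. -/
noncomputable def fM (a : ℂ) (p : ℕ) (w : ℂ) : ℂ :=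
  (1 - a ^ 2 * (p : ℂ) ^ (-2 - w)) * (1 - (starRingEnd ℂ a) ^ 2 * (p : ℂ) ^ (-2 - w))

/-- `log ((p + 1 - 2 Re a) / p)`. -/
noncomputable def ell (a : ℂ) (p : ℕ) : ℝ := Real.log (((p : ℝ) + 1 - 2 * a.re) / p)

open Classical in
/-- `ell` as a function on the natural numbers, supported on the odd primes. -/
noncomputable def el (α : ℕ → ℂ) (n : ℕ) : ℝ :=
  if n.Prime ∧ n ≠ 2 then ell (α n) n else 0

/-- The summatory function: the logarithm of the product. -/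
noncomputable def AA (α : ℕ → ℂ) (x : ℝ) : ℝ :=
  ∑ n ∈ Finset.Icc 1 ⌊x⌋₊, el α n

/-- The Dirichlet series of `el`. -/
noncomputable def GG (α : ℕ → ℂ) (s : ℂ) : ℂ :=
  LSeries (fun n => (el α n : ℂ)) s

/-- The Euler factor of zeta at `2`, at the point `1 + w`. -/
noncomputable def t2 (w : ℂ) : ℂ := 1 - (2 : ℂ) ^ (-1 - w)

/-- `w ζ(1+w)`, with its value `1` at `0`. -/
noncomputable def ZZ (w : ℂ) : ℂ := if w = 0 then 1 else w * riemannZeta (1 + w)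

/-- The analytic data of the abstract oscillation theorem.  `α p` is the Frobenius eigenvalue,
`L s` is the L-function, and `W w` is the symmetric square L-function at `2 + w` without its
Euler factor at `2`. -/
structure Data (α : ℕ → ℂ) (L W : ℂ → ℂ) : Prop where
  norm_α : ∀ p : ℕ, p.Prime → p ≠ 2 → ‖α p‖ ^ 2 = p
  L_diff : Differentiable ℂ L
  L_prod : ∀ s : ℂ, 3 / 2 < s.re → HasProd (fun p : OP => (fL (α p) p s)⁻¹) (L s)
  L_pos : ∀ σ : ℝ, 1 ≤ σ → 0 < (L σ).re ∧ (L σ).im = 0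
  W_diff : Differentiable ℂ W
  W_prod : ∀ w : ℂ, 0 < w.re →
    HasProd (fun p : OP => (fM (α p) p w)⁻¹) (W w / (riemannZeta (1 + w) * t2 w))
  W_pos : ∀ σ : ℝ, 0 ≤ σ → 0 < (W σ).re ∧ (W σ).im = 0
  W_ne : ∀ w : ℂ, 0 < w.re → W w ≠ 0
  W_low : ∀ γ : ℝ, γ ≠ 0 → ∃ c : ℝ, 0 < c ∧ ∀ σ : ℝ, 0 < σ → σ ≤ 1 →
    c * σ ≤ ‖W (σ + γ * I)‖

end W3283e1
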