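import Pool.Agent.W_MP_3283e1_nt.Prim

set_option autoImplicit false

namespace W3283e1

open Complex

/-! ### Elementary arithmetic of pairs of integers -/

/-- Product of Gaussian integers as pairs. -/
def gm (u v : ℤ × ℤ) : ℤ × ℤ := (u.1 * v.1 - u.2 * v.2, u.1 * v.2 + u.2 * v.1)

theorem cz_gm (u v : ℤ × ℤ) : cz (gm u v) = cz u * cz v := by
  unfold cz gm
  push_cast
  ring_nf
  rw [I_sq]
  ring

theorem PP1_mod {a b c d : ℤ} (h1 : b % 2 = 0) (h2 : (a - b) % 4 = 1) :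
    (d % 2 = 0 ∧ (c - d) % 4 = 1) ↔
      ((a * d + b * c) % 2 = 0 ∧ ((a * c - b * d) - (a * d + b * c)) % 4 = 1) := by
  obtain ⟨b', rfl⟩ : ∃ b', b = 2 * b' := ⟨b / 2, by omega⟩
  obtain ⟨a', rfl⟩ : ∃ a', a = 4 * a' + 1 + 2 * b' := ⟨(a - 2 * b') / 4, by omega⟩
  have e1 : (4 * a' + 1 + 2 * b') * d + 2 * b' * c = d + 2 * (2 * a' * d + b' * d + b' * c) := by
    ring
  have e2 : ((4 * a' + 1 + 2 * b') * c - 2 * b' * d) - ((4 * a' + 1 + 2 * b') * d + 2 * b' * c) =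
      (c - d) + 4 * (a' * c - b' * d - a' * d) := by
    ring
  rw [e2, e1]
  constructor
  · rintro ⟨h3, h4⟩
    constructor <;> omega
  · rintro ⟨h3, h4⟩
    constructor <;> omega

theorem gm_norm (u v : ℤ × ℤ) : (gm u v).1 ^ 2 + (gm u v).2 ^ 2 =
    (u.1 ^ 2 + u.2 ^ 2) * (v.1 ^ 2 + v.2 ^ 2) := by
  unfold gm
  ring

theorem gm_mem {m n : ℕ} {u v : ℤ × ℤ} (hu : u ∈ prF m) (hv : v ∈ prF n) :
    gm u v ∈ prF (m * n) := by
  rw [mem_prF] at hu hv ⊢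
  have h := (PP1_mod (c := v.1) (d := v.2) hu.1 hu.2.1).1 ⟨hv.1, hv.2.1⟩
  refine ⟨h.1, h.2, ?_⟩
  rw [gm_norm, hu.2.2, hv.2.2]
  push_cast
  ring

theorem mem_of_gm {m n : ℕ} {u v : ℤ × ℤ} (hm : m ≠ 0) (hu : u ∈ prF m)
    (h : gm u v ∈ prF (m * n)) : v ∈ prF n := by
  rw [mem_prF] at hu h ⊢
  have h1 := (PP1_mod (c := v.1) (d := v.2) hu.1 hu.2.1).2 ⟨h.1, h.2.1⟩
  refine ⟨h1.1, h1.2, ?_⟩
  have h2 := h.2.2
  rw [gm_norm, hu.2.2] at h2
  push_cast at h2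
  have hm' : (m : ℤ) ≠ 0 := by exact_mod_cast hm
  exact mul_left_cancel₀ hm' h2

theorem gm_inj {u : ℤ × ℤ} (hu : u.1 ^ 2 + u.2 ^ 2 ≠ 0) {v w : ℤ × ℤ} (h : gm u v = gm u w) :
    v = w := by
  unfold gm at h
  rw [Prod.mk.injEq] at h
  obtain ⟨h1, h2⟩ := h
  have e1 : (u.1 ^ 2 + u.2 ^ 2) * (v.1 - w.1) = 0 := by
    linear_combination u.1 * h1 + u.2 * h2
  have e2 : (u.1 ^ 2 + u.2 ^ 2) * (v.2 - w.2) = 0 := by
    linear_combination u.1 * h2 - u.2 * h1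
  have e3 := (mul_eq_zero.1 e1).resolve_left hu
  have e4 := (mul_eq_zero.1 e2).resolve_left hu
  exact Prod.ext (by linarith) (by linarith)

theorem PP1_conj {m : ℕ} {z : ℤ × ℤ} (hz : z ∈ prF m) : ((z.1, -z.2) : ℤ × ℤ) ∈ prF m := by
  rw [mem_prF] at hz ⊢
  obtain ⟨h1, h2, h3⟩ := hz
  refine ⟨by omega, by omega, ?_⟩
  rw [← h3]
  ring

theorem cz_conj (z : ℤ × ℤ) : cz (z.1, -z.2) = starRingEnd ℂ (cz z) := by
  unfold cz
  push_cast
  simp

theorem PP1_one {v : ℤ × ℤ} (hv : v ∈ prF 1) : v = (1, 0) := by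
  rw [mem_prF] at hv
  obtain ⟨h1, h2, h3⟩ := hv
  push_cast at h3
  have h4 : v.2 = 0 := by
    have : v.2 ^ 2 ≤ 1 := by nlinarith [sq_nonneg v.1]
    have h5 : v.2 ≤ 1 := by nlinarith
    have h6 : -1 ≤ v.2 := by nlinarith
    omega
  have h5 : v.1 ^ 2 = 1 := by
    rw [h4] at h3
    linarith
  have h6 : v.1 = 1 ∨ v.1 = -1 := sq_eq_one_iff.1 h5
  rcases h6 with h6 | h6
  · exact Prod.ext h6 h4
  · rw [h6, h4] at h2
    norm_num at h2

/-- Elements of norm `p` coprime coordinates, `p` does not divide them. -/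
theorem PP1_ndvd {p : ℕ} (hp : p.Prime) {z : ℤ × ℤ} (hz : z.1 ^ 2 + z.2 ^ 2 = (p : ℤ)) :
    ¬ (p : ℤ) ∣ z.1 := by
  intro h
  have h2 : (p : ℤ) ∣ z.2 ^ 2 := by
    have : z.2 ^ 2 = p - z.1 ^ 2 := by linarith
    rw [this]
    exact dvd_sub (dvd_refl _) (dvd_pow h two_ne_zero)
  have h3 : (p : ℤ) ∣ z.2 := Int.Prime.dvd_pow' hp h2
  obtain ⟨c, hc⟩ := h
  obtain ⟨d, hd⟩ := h3
  rw [hc, hd] at hz
  have hp0 : (p : ℤ) ≠ 0 := by exact_mod_cast hp.ne_zero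
  have h4 : (p : ℤ) * (c ^ 2 + d ^ 2) = 1 := by
    apply mul_left_cancel₀ hp0
    linear_combination hz
  have h5 : IsUnit (p : ℤ) := IsUnit.of_mul_eq_one _ h4
  rw [Int.isUnit_iff] at h5
  have := hp.two_le
  omega

/-- If `p` divides the real part of `w * conj z`, then `z` divides `w`. -/
theorem PP1_quot {p : ℕ} (hp : p.Prime) {z w : ℤ × ℤ} (hz : z.1 ^ 2 + z.2 ^ 2 = (p : ℤ))
    (hw : (p : ℤ) ∣ w.1 ^ 2 + w.2 ^ 2) (h : (p : ℤ) ∣ z.1 * w.1 + z.2 * w.2) :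
    ∃ v, w = gm z v := by
  have h1 : (p : ℤ) ∣ (z.1 * w.2 - z.2 * w.1) ^ 2 := by
    have : (z.1 * w.2 - z.2 * w.1) ^ 2 = (z.1 ^ 2 + z.2 ^ 2) * (w.1 ^ 2 + w.2 ^ 2) -
        (z.1 * w.1 + z.2 * w.2) ^ 2 := by ring
    rw [this]
    exact dvd_sub (Dvd.dvd.mul_left hw _) (dvd_pow h two_ne_zero)
  have h2 : (p : ℤ) ∣ z.1 * w.2 - z.2 * w.1 := Int.Prime.dvd_pow' hp h1
  obtain ⟨c, hc⟩ := h
  obtain ⟨d, hd⟩ := h2
  have hp0 : (p : ℤ) ≠ 0 := by exact_mod_cast hp.ne_zero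
  refine ⟨(c, d), ?_⟩
  unfold gm
  refine Prod.ext ?_ ?_
  · apply mul_left_cancel₀ hp0
    change (p : ℤ) * w.1 = p * (z.1 * c - z.2 * d)
    linear_combination z.1 * hc - z.2 * hd - w.1 * hz
  · apply mul_left_cancel₀ hp0
    change (p : ℤ) * w.2 = p * (z.1 * d + z.2 * c)
    linear_combination z.1 * hd + z.2 * hc - w.2 * hz

theorem PP1_dich {p : ℕ} (hp : p.Prime) {z w : ℤ × ℤ} (hz : z.1 ^ 2 + z.2 ^ 2 = (p : ℤ))
    (hw : (p : ℤ) ∣ w.1 ^ 2 + w.2 ^ 2) :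
    (p : ℤ) ∣ z.1 * w.1 + z.2 * w.2 ∨ (p : ℤ) ∣ z.1 * w.1 - z.2 * w.2 := by
  have h1 : (p : ℤ) ∣ (z.1 * w.1 + z.2 * w.2) * (z.1 * w.1 - z.2 * w.2) := by
    have : (z.1 * w.1 + z.2 * w.2) * (z.1 * w.1 - z.2 * w.2) =
        z.1 ^ 2 * (w.1 ^ 2 + w.2 ^ 2) - w.2 ^ 2 * (z.1 ^ 2 + z.2 ^ 2) := by ring
    rw [this, hz]
    exact dvd_sub (Dvd.dvd.mul_left hw _) (Dvd.intro_left _ rfl)
  exact Int.Prime.dvd_mul' hp h1

/-- `w` is a multiple of `z` or of its conjugate. -/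
theorem PP1_or {p : ℕ} (hp : p.Prime) {z w : ℤ × ℤ} (hz : z.1 ^ 2 + z.2 ^ 2 = (p : ℤ))
    (hw : (p : ℤ) ∣ w.1 ^ 2 + w.2 ^ 2) :
    (∃ v, w = gm z v) ∨ ∃ v, w = gm (z.1, -z.2) v := by
  rcases PP1_dich hp hz hw with h | h
  · exact Or.inl (PP1_quot hp hz hw h)
  · right
    apply PP1_quot hp (z := (z.1, -z.2)) (by simpa using hz) hw
    have : (z.1, -z.2).1 * w.1 + (z.1, -z.2).2 * w.2 = z.1 * w.1 - z.2 * w.2 := by
      change z.1 * w.1 + -z.2 * w.2 = _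
      ring
    rw [this]
    exact h

/-- A multiple of both is a multiple of `p`. -/
theorem PP1_and {p : ℕ} (hp : p.Prime) (hp2 : p ≠ 2) {z u v : ℤ × ℤ}
    (hz : z.1 ^ 2 + z.2 ^ 2 = (p : ℤ)) (h : gm z u = gm (z.1, -z.2) v) :
    ∃ t, gm z u = gm ((p : ℤ), 0) t := by
  unfold gm at h ⊢
  rw [Prod.mk.injEq] at h
  obtain ⟨h1, h2⟩ := h
  simp only at h1 h2
  have hp0 : (p : ℤ) ≠ 0 := by exact_mod_cast hp.ne_zero
  -- the real part of `w * z` and of `w * conj z` are multiples of `p`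
  have e1 : (p : ℤ) ∣ z.1 * (z.1 * u.1 - z.2 * u.2) + z.2 * (z.1 * u.2 + z.2 * u.1) :=
    ⟨u.1, by linear_combination u.1 * hz⟩
  have e2 : (p : ℤ) ∣ z.1 * (z.1 * u.1 - z.2 * u.2) - z.2 * (z.1 * u.2 + z.2 * u.1) :=
    ⟨v.1, by linear_combination z.1 * h1 - z.2 * h2 + v.1 * hz⟩
  have e3 : (p : ℤ) ∣ 2 * (z.1 * (z.1 * u.1 - z.2 * u.2)) := by
    have := dvd_add e1 e2
    ring_nf at this ⊢
    exact this
  have e4 : ¬ (p : ℤ) ∣ 2 := by
    intro h5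
    have h6 := Int.le_of_dvd (by norm_num) h5
    have := hp.two_le
    have h7 : p = 2 := by omega
    exact hp2 h7
  have e5 := (Int.Prime.dvd_mul' hp e3).resolve_left e4
  have e6 := (Int.Prime.dvd_mul' hp e5).resolve_left (PP1_ndvd hp hz)
  have e7 : (p : ℤ) ∣ z.2 * (z.1 * u.2 + z.2 * u.1) := by
    have := dvd_sub e1 (Dvd.dvd.mul_left e6 z.1)
    simpa using this
  have hz' : ((z.2, z.1) : ℤ × ℤ).1 ^ 2 + ((z.2, z.1) : ℤ × ℤ).2 ^ 2 = (p : ℤ) := by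
    rw [← hz]
    ring
  have e8 := (Int.Prime.dvd_mul' hp e7).resolve_left (PP1_ndvd hp hz')
  obtain ⟨c, hc⟩ := e6
  obtain ⟨d, hd⟩ := e8
  refine ⟨(c, d), ?_⟩
  rw [hc, hd]
  simp

/-- A prime `p ≡ 1 mod 4` is the norm of a primary Gaussian integer
(`Nat.Prime.sq_add_sq`: one of the two squares is even; adjust the sign of the odd one). -/
theorem prF_nonempty (p : ℕ) (hp : p.Prime) (h1 : p % 4 = 1) : (prF p).Nonempty := by
  have : Fact p.Prime := ⟨hp⟩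
  obtain ⟨a, b, hab⟩ := Nat.Prime.sq_add_sq (p := p) (by omega)
  -- one is even
  have key : ∀ a b : ℤ, a ^ 2 + b ^ 2 = p → b % 2 = 0 → (prF p).Nonempty := by
    intro a b h hb
    have ha : a % 2 = 1 := by
      by_contra h2
      have h3 : a % 2 = 0 := by omega
      obtain ⟨c, rfl⟩ : ∃ c, a = 2 * c := ⟨a / 2, by omega⟩
      obtain ⟨d, rfl⟩ : ∃ d, b = 2 * d := ⟨b / 2, by omega⟩
      have h4 : 4 * (c ^ 2 + d ^ 2) = (p : ℤ) := by
        rw [← h]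
        ring
      omega
    by_cases h3 : (a - b) % 4 = 1
    · exact ⟨(a, b), (mem_prF _ _).2 ⟨hb, h3, h⟩⟩
    · refine ⟨(-a, b), (mem_prF _ _).2 ⟨hb, ?_, ?_⟩⟩
      · change (-a - b) % 4 = 1
        omega
      · change (-a) ^ 2 + b ^ 2 = (p : ℤ)
        rw [← h]
        ring
  have hab' : (a : ℤ) ^ 2 + (b : ℤ) ^ 2 = p := by exact_mod_cast hab
  by_cases hb : (b : ℤ) % 2 = 0
  · exact key a b hab' hb
  · have ha : (a : ℤ) % 2 = 0 := by
      by_contra h2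
      obtain ⟨c, hc⟩ : ∃ c : ℤ, (a : ℤ) = 2 * c + 1 := ⟨(a : ℤ) / 2, by omega⟩
      obtain ⟨d, hd⟩ : ∃ d : ℤ, (b : ℤ) = 2 * d + 1 := ⟨(b : ℤ) / 2, by omega⟩
      rw [hc, hd] at hab'
      have h4 : 2 * (2 * (c ^ 2 + c + d ^ 2 + d) + 1) = (p : ℤ) := by
        rw [← hab']
        ring
      omega
    exact key b a (by rw [← hab']; ring) ha

theorem PP1_z2 {p : ℕ} (hp : p.Prime) {z : ℤ × ℤ} (hz : z.1 ^ 2 + z.2 ^ 2 = (p : ℤ)) :
    z.2 ≠ 0 := by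
  intro h
  have hz' : ((z.2, z.1) : ℤ × ℤ).1 ^ 2 + ((z.2, z.1) : ℤ × ℤ).2 ^ 2 = (p : ℤ) := by
    rw [← hz]
    ring
  apply PP1_ndvd hp hz'
  change (p : ℤ) ∣ z.2
  rw [h]
  exact dvd_zero _

/-- The two primary elements of norm `p`: `z` and its conjugate (they are different as
`z.2 ≠ 0`; uniqueness of the representation `p = A² + B²` with `A` odd, `B` even up to signs,
and the sign of `A` is fixed by `B mod 4`). -/
theorem prF_prime (p : ℕ) (hp : p.Prime) (h1 : p % 4 = 1) (z : ℤ × ℤ) (hz : z ∈ prF p) :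
    prF p = {z, (z.1, -z.2)} ∧ z ≠ (z.1, -z.2) := by
  have hzn := ((mem_prF _ _).1 hz).2.2
  constructor
  · ext w
    simp only [Finset.mem_insert, Finset.mem_singleton]
    constructor
    · intro hw
      have hwn := ((mem_prF _ _).1 hw).2.2
      rcases PP1_or hp hzn (w := w) (by rw [hwn]) with ⟨v, hv⟩ | ⟨v, hv⟩
      · left
        have h2 : v ∈ prF 1 := mem_of_gm hp.ne_zero hz (by rw [← hv, mul_one]; exact hw)
        rw [hv, PP1_one h2]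
        simp [gm]
      · right
        have h2 : v ∈ prF 1 := mem_of_gm hp.ne_zero (PP1_conj hz)
          (by rw [← hv, mul_one]; exact hw)
        rw [hv, PP1_one h2]
        simp [gm]
    · rintro (rfl | rfl)
      · exact hz
      · exact PP1_conj hz
  · intro h
    have h2 := congrArg Prod.snd h
    simp only at h2
    exact PP1_z2 hp hzn (by omega)

/-- The value at `p`. -/
theorem cc_p1 (k p : ℕ) (hp : p.Prime) (h1 : p % 4 = 1) (z : ℤ × ℤ) (hz : z ∈ prF p) :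
    cc k p = cz z ^ k + (starRingEnd ℂ (cz z)) ^ k := by
  obtain ⟨h2, h3⟩ := prF_prime p hp h1 z hz
  unfold cc
  rw [h2, Finset.sum_pair h3, cz_conj]

/-- The recursion at the powers of `p ≡ 1 mod 4`.  The primary elements of norm `p^e` are
exactly `z^i conj(z)^(e-i)`, `0 ≤ i ≤ e`, pairwise different (unique factorization in
`GaussianInt`: `z` is prime as its norm is prime, `z` and `conj z` are not associated), so
`cc k (p^e) = ∑_i Z^i Z'^(e-i)` with `Z = cz z ^ k`, `Z' = conj Z`, `Z Z' = p^k`. -/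
theorem cc_p1_rec (k p e : ℕ) (hp : p.Prime) (h1 : p % 4 = 1) (z : ℤ × ℤ) (hz : z ∈ prF p) :
    cc k (p ^ (e + 2)) = (cz z ^ k + (starRingEnd ℂ (cz z)) ^ k) * cc k (p ^ (e + 1))
      - (p : ℂ) ^ k * cc k (p ^ e) := by
  have hzn := ((mem_prF _ _).1 hz).2.2
  have hp2 : p ≠ 2 := by omega
  have hp0 : (p : ℤ) ≠ 0 := by exact_mod_cast hp.ne_zero
  have hz' := PP1_conj hz
  have hzn' := ((mem_prF _ _).1 hz').2.2
  have hpp : (((p : ℤ), 0) : ℤ × ℤ) ∈ prF (p ^ 2) := by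
    rw [mem_prF]
    refine ⟨by simp, ?_, ?_⟩
    · change ((p : ℤ) - 0) % 4 = 1
      omega
    · push_cast
      ring
  have n1 : z.1 ^ 2 + z.2 ^ 2 ≠ 0 := by rw [hzn]; exact hp0
  have n2 : ((z.1, -z.2) : ℤ × ℤ).1 ^ 2 + ((z.1, -z.2) : ℤ × ℤ).2 ^ 2 ≠ 0 := by
    rw [hzn']; exact hp0
  have n3 : (((p : ℤ), 0) : ℤ × ℤ).1 ^ 2 + (((p : ℤ), 0) : ℤ × ℤ).2 ^ 2 ≠ 0 := by
    have := ((mem_prF _ _).1 hpp).2.2
    rw [this]
    exact_mod_cast pow_ne_zero 2 hp.ne_zero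
  have hU : prF (p ^ (e + 2)) = (prF (p ^ (e + 1))).image (gm z) ∪
      (prF (p ^ (e + 1))).image (gm (z.1, -z.2)) := by
    ext w
    simp only [Finset.mem_union, Finset.mem_image]
    constructor
    · intro hw
      have hwn := ((mem_prF _ _).1 hw).2.2
      have hd : (p : ℤ) ∣ w.1 ^ 2 + w.2 ^ 2 := by
        rw [hwn]
        push_cast
        exact dvd_pow_self _ (by omega)
      rcases PP1_or hp hzn hd with ⟨v, hv⟩ | ⟨v, hv⟩
      · left
        refine ⟨v, mem_of_gm hp.ne_zero hz ?_, hv.symm⟩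
        rw [← hv, ← pow_succ']
        exact hw
      · right
        refine ⟨v, mem_of_gm hp.ne_zero hz' ?_, hv.symm⟩
        rw [← hv, ← pow_succ']
        exact hw
    · rintro (⟨v, hv, rfl⟩ | ⟨v, hv, rfl⟩)
      · have := gm_mem hz hv
        rwa [← pow_succ'] at this
      · have := gm_mem hz' hv
        rwa [← pow_succ'] at this
  have hI : (prF (p ^ (e + 1))).image (gm z) ∩ (prF (p ^ (e + 1))).image (gm (z.1, -z.2)) =
      (prF (p ^ e)).image (gm ((p : ℤ), 0)) := by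
    ext w
    simp only [Finset.mem_inter, Finset.mem_image]
    constructor
    · rintro ⟨⟨u, hu, rfl⟩, ⟨v, hv, hvu⟩⟩
      obtain ⟨t, ht⟩ := PP1_and hp hp2 hzn hvu.symm
      refine ⟨t, mem_of_gm (pow_ne_zero 2 hp.ne_zero) hpp ?_, ht.symm⟩
      rw [← ht]
      have := gm_mem hz hu
      have e1 : p * p ^ (e + 1) = p ^ 2 * p ^ e := by ring
      rwa [e1] at this
    · rintro ⟨t, ht, rfl⟩
      constructor
      · refine ⟨gm (z.1, -z.2) t, ?_, ?_⟩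
        · have := gm_mem hz' ht
          rwa [← pow_succ'] at this
        · unfold gm
          refine Prod.ext ?_ ?_
          · simp only
            linear_combination t.1 * hzn
          · simp only
            linear_combination t.2 * hzn
      · refine ⟨gm z t, ?_, ?_⟩
        · have := gm_mem hz ht
          rwa [← pow_succ'] at this
        · unfold gm
          refine Prod.ext ?_ ?_
          · simp only
            linear_combination t.1 * hzn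
          · simp only
            linear_combination t.2 * hzn
  have hs := Finset.sum_union_inter (s₁ := (prF (p ^ (e + 1))).image (gm z))
    (s₂ := (prF (p ^ (e + 1))).image (gm (z.1, -z.2))) (f := fun w => cz w ^ k)
  rw [← hU, hI, Finset.sum_image (fun a _ b _ h => gm_inj n1 h),
    Finset.sum_image (fun a _ b _ h => gm_inj n2 h),
    Finset.sum_image (fun a _ b _ h => gm_inj n3 h)] at hs
  simp only [cz_gm, mul_pow, cz_conj, ← Finset.mul_sum] at hs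
  have hcp : cz ((p : ℤ), 0) = p := by
    unfold cz
    simp
  rw [hcp] at hs
  unfold cc
  linear_combination hs

end W3283e1
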