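import Pool.Agent.W_MP_3283e1_nt.Prim
import Pool.Agent.W_MP_3283e1_nt.PP1
import Pool.Agent.W_MP_3283e1_nt.Defs

set_option autoImplicit false

namespace W3283e1

open Complex

open Classical in
/-- A chosen primary element of norm `p`. -/
noncomputable def zp (p : ℕ) : ℤ × ℤ := if h : (prF p).Nonempty then h.choose else (0, 0)

theorem zp_mem (p : ℕ) (hp : p.Prime) (h1 : p % 4 = 1) : zp p ∈ prF p := by
  have h := prF_nonempty p hp h1
  unfold zp
  rw [dif_pos h]
  exact h.choose_spec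

/-- The quadratic character mod 8 as a complex function. -/
noncomputable def chi8 (m : ℕ) : ℂ := ((ZMod.χ₈ (m : ZMod 8) : ℤ) : ℂ)

/-- The coefficients of the two L-functions of degree two: `j = 0` for conductor `32`, `j = 1` for
conductor `64`. -/
noncomputable def cE (j m : ℕ) : ℂ := chi8 m ^ j * cc 1 m

/-- The Frobenius eigenvalues. -/
noncomputable def alpha (j p : ℕ) : ℂ :=
  if p % 4 = 1 then chi8 p ^ j * cz (zp p) else I * (Real.sqrt p : ℂ)

/-- The inverse Euler factors of `∑ cc k m m^{-s}`. -/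
noncomputable def fC (k p : ℕ) (s : ℂ) : ℂ :=
  if p % 4 = 1 then (1 - cz (zp p) ^ k * (p : ℂ) ^ (-s)) *
      (1 - (starRingEnd ℂ (cz (zp p))) ^ k * (p : ℂ) ^ (-s))
  else 1 - (-(p : ℂ)) ^ k * (p : ℂ) ^ (-(2 * s))

theorem norm_chi8 (m : ℕ) (hm : m % 2 ≠ 0) : ‖chi8 m‖ = 1 := by
  unfold chi8
  rw [ZMod.χ₈_nat_eq_if_mod_eight, if_neg hm]
  split_ifs <;> simp

/-- `|alpha|² = p` (`norm_cz`; `chi8 p = ±1` for odd `p`). -/
theorem norm_alpha (j p : ℕ) (hp : p.Prime) (h2 : p ≠ 2) : ‖alpha j p‖ ^ 2 = p := by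
  have hodd : p % 2 ≠ 0 := by
    rcases hp.eq_two_or_odd with h | h
    · exact absurd h h2
    · omega
  unfold alpha
  split_ifs with h
  · rw [norm_mul, norm_pow, norm_chi8 p hodd, one_pow, one_mul]
    exact norm_cz p _ (zp_mem p hp h)
  · rw [norm_mul, norm_I, one_mul, Complex.norm_real, Real.norm_eq_abs, sq_abs,
      Real.sq_sqrt (Nat.cast_nonneg p)]

end W3283e1
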