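import Pool.Agent.W_MP_3283e1_nt.Jac
import Pool.Agent.W_MP_3283e1_nt.EulerA

set_option autoImplicit false

namespace W3283e1

/-- The point counts of the four curves.  For `p ≡ 3 mod 4` both sides are `p + 1` (`npts_p3`,
`alpha` is purely imaginary).  For `p ≡ 1 mod 4`: `npts_p1` with `prF_prime` (all elements of
`prF p` have the same first coordinate), `npts_4`, `npts_m4`, `npts_1`, and
`quadraticChar (ZMod p) 2 = χ₈ p` (`quadraticChar_two`). -/
theorem npts_alpha (p : ℕ) (hp : p.Prime) (hp2 : p ≠ 2) :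
    ((npts (-1) 0 p : ℝ) = p + 1 - 2 * (alpha 0 p).re) ∧
    ((npts 4 0 p : ℝ) = p + 1 - 2 * (alpha 0 p).re) ∧
    ((npts (-4) 0 p : ℝ) = p + 1 - 2 * (alpha 1 p).re) ∧
    ((npts 1 0 p : ℝ) = p + 1 - 2 * (alpha 1 p).re) := by
  have : Fact p.Prime := ⟨hp⟩
  have hodd : p % 4 = 1 ∨ p % 4 = 3 := by
    have h1 := hp.eq_two_or_odd
    omega
  rcases hodd with h1 | h3
  · obtain ⟨z, hz, hn⟩ := npts_p1 p hp h1
    have hzp := zp_mem p hp h1
    have hfst : z.1 = (zp p).1 := by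
      have h2 := (prF_prime p hp h1 (zp p) hzp).1
      rw [h2] at hz
      simp only [Finset.mem_insert, Finset.mem_singleton] at hz
      rcases hz with hz | hz
      · rw [hz]
      · rw [hz]
    have hchi : (quadraticChar (ZMod p) 2 : ℤ) = ZMod.χ₈ (p : ZMod 8) := by
      have h2 : ringChar (ZMod p) ≠ 2 := by
        rw [ZMod.ringChar_zmod_n]
        exact hp2
      rw [quadraticChar_two h2, ZMod.card]
    have hre0 : (alpha 0 p).re = ((zp p).1 : ℝ) := by
      unfold alpha cz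
      rw [if_pos h1]
      simp
    have hre1 : (alpha 1 p).re = ((ZMod.χ₈ (p : ZMod 8) : ℤ) : ℝ) * ((zp p).1 : ℝ) := by
      unfold alpha cz chi8
      rw [if_pos h1]
      simp
    have e1 : (npts (-1) 0 p : ℝ) = p + 1 - 2 * ((zp p).1 : ℝ) := by
      rw [← hfst]
      exact_mod_cast hn
    have e4 : (npts (-4) 0 p : ℝ) =
        p + 1 - 2 * (((ZMod.χ₈ (p : ZMod 8) : ℤ) : ℝ) * ((zp p).1 : ℝ)) := by
      have h2 := npts_m4 p hp2
      rw [hn, hchi, hfst] at h2
      have h3 : (npts (-4) 0 p : ℝ) =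
          (p : ℝ) + 1 + ((ZMod.χ₈ (p : ZMod 8) : ℤ) : ℝ) *
            ((p : ℝ) + 1 - 2 * ((zp p).1 : ℝ) - p - 1) := by
        exact_mod_cast h2
      rw [h3]
      ring
    refine ⟨?_, ?_, ?_, ?_⟩
    · rw [e1, hre0]
    · rw [npts_4 p h1, e1, hre0]
    · rw [e4, hre1]
    · rw [npts_1 p h1, e4, hre1]
  · have h1 : ¬ p % 4 = 1 := by omega
    have hre : ∀ j, (alpha j p).re = 0 := by
      intro j
      unfold alpha
      rw [if_neg h1]
      simp
    have hn : ∀ a : ℤ, (npts a 0 p : ℝ) = p + 1 := by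
      intro a
      rw [npts_p3 a p hp h3]
      push_cast
      ring
    refine ⟨?_, ?_, ?_, ?_⟩ <;> rw [hn, hre] <;> ring

end W3283e1
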