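import Pool.Agent.W_MP_3283e1_nt.Inst

set_option autoImplicit false

namespace W3283e1

open Complex

/-- The Birch and Swinnerton-Dyer product `∏ #E(F_p)/p` over the primes `p ≤ x` not dividing
`16 (4a³ + 27b²)`. -/
noncomputable def bsdProd (a b : ℤ) (x : ℝ) : ℝ :=
  ∏ p ∈ (Finset.range (⌊x⌋₊ + 1)).filter
      (fun p : ℕ => Nat.Prime p ∧ ¬ ((p : ℤ) ∣ 16 * (4 * a ^ 3 + 27 * b ^ 2))),
    (npts a b p : ℝ) / (p : ℝ)

/-- The count in terms of `alpha`. -/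
theorem npts_alpha' (a : ℤ) (j : ℕ)
    (h : ((a = -1 ∨ a = 4) ∧ j = 0) ∨ ((a = 1 ∨ a = -4) ∧ j = 1)) (p : ℕ) (hp : p.Prime)
    (hp2 : p ≠ 2) : (npts a 0 p : ℝ) = p + 1 - 2 * (alpha j p).re := by
  obtain ⟨h1, h2, h3, h4⟩ := npts_alpha p hp hp2
  rcases h with ⟨h | h, hj⟩ | ⟨h | h, hj⟩ <;> subst h <;> subst hj
  · exact h1
  · exact h2
  · exact h4
  · exact h3

/-- The primes not dividing `16 (4 a³)` are the odd ones. -/
theorem prime_cond (a : ℤ) (h : a = -1 ∨ a = 4 ∨ a = 1 ∨ a = -4) (p : ℕ) (hp : p.Prime) :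
    (p : ℤ) ∣ 16 * (4 * a ^ 3 + 27 * (0 : ℤ) ^ 2) ↔ p = 2 := by
  have key : ∀ k : ℕ, 1 ≤ k → ((p : ℤ) ∣ (2 : ℤ) ^ k ↔ p = 2) := by
    intro k hk
    constructor
    · intro hd
      have hd' : p ∣ 2 ^ k := by exact_mod_cast hd
      exact (Nat.prime_dvd_prime_iff_eq hp Nat.prime_two).1 (hp.dvd_of_dvd_pow hd')
    · intro hd
      subst hd
      exact dvd_pow_self _ (by omega)
  rcases h with h | h | h | h <;> subst h
  · rw [← key 6 (by norm_num), ← dvd_neg]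
    norm_num
  · rw [← key 12 (by norm_num)]
    norm_num
  · rw [← key 6 (by norm_num)]
    norm_num
  · rw [← key 12 (by norm_num), ← dvd_neg]
    norm_num

/-- The four curves, with `j = 0` for `a = -1, 4` and `j = 1` for `a = 1, -4`.  The primes not
dividing `64 a³` are the odd ones; `npts_alpha`. -/
theorem bsdProd_eq (a : ℤ) (j : ℕ) (h : ((a = -1 ∨ a = 4) ∧ j = 0) ∨ ((a = 1 ∨ a = -4) ∧ j = 1))
    (x : ℝ) : bsdProd a 0 x = PP (alpha j) x := by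
  have ha : a = -1 ∨ a = 4 ∨ a = 1 ∨ a = -4 := by tauto
  unfold bsdProd PP
  have hset : (Finset.range (⌊x⌋₊ + 1)).filter
      (fun p : ℕ => Nat.Prime p ∧ ¬ ((p : ℤ) ∣ 16 * (4 * a ^ 3 + 27 * (0 : ℤ) ^ 2))) =
      (Finset.range (⌊x⌋₊ + 1)).filter (fun p => p.Prime ∧ p ≠ 2) := by
    apply Finset.filter_congr
    intro p _
    constructor
    · rintro ⟨hp, hd⟩
      exact ⟨hp, fun h2 => hd ((prime_cond a ha p hp).2 h2)⟩
    · rintro ⟨hp, hd⟩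
      exact ⟨hp, fun h2 => hd ((prime_cond a ha p hp).1 h2)⟩
  rw [hset]
  refine Finset.prod_congr (by congr) ?_
  intro p hp
  have hp' := (Finset.mem_filter.1 hp).2
  rw [npts_alpha' a j h p hp'.1 hp'.2]

/-- The Euler factor: `fL (alpha j p) p s = 1 - (p + 1 - npts) p^{-s} + p^{1-2s}`. -/
theorem euler_factor (a : ℤ) (j : ℕ)
    (h : ((a = -1 ∨ a = 4) ∧ j = 0) ∨ ((a = 1 ∨ a = -4) ∧ j = 1)) (p : ℕ) (hp : p.Prime)
    (hp2 : p ≠ 2) (s : ℂ) :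
    fL (alpha j p) p s =
      1 - ((p : ℂ) + 1 - (npts a 0 p : ℂ)) * (p : ℂ) ^ (-s) + (p : ℂ) ^ (1 - 2 * s) := by
  have hn := npts_alpha' a j h p hp hp2
  have hnC : (npts a 0 p : ℂ) = (p : ℂ) + 1 - 2 * ((alpha j p).re : ℂ) := by
    have : ((npts a 0 p : ℝ) : ℂ) = ((p + 1 - 2 * (alpha j p).re : ℝ) : ℂ) := by rw [hn]
    push_cast at this
    exact this
  have hp0 : (p : ℂ) ≠ 0 := by exact_mod_cast hp.ne_zero
  have hpow : (p : ℂ) ^ (1 - 2 * s) = (p : ℂ) * ((p : ℂ) ^ (-s)) ^ 2 := by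
    rw [show (1 - 2 * s : ℂ) = 1 + (-s + -s) by ring, Complex.cpow_add _ _ hp0,
      Complex.cpow_add _ _ hp0, Complex.cpow_one]
    ring
  have hsum : alpha j p + (starRingEnd ℂ) (alpha j p) = 2 * ((alpha j p).re : ℂ) := by
    rw [Complex.add_conj]
    push_cast
    ring
  have hmul : alpha j p * (starRingEnd ℂ) (alpha j p) = (p : ℂ) := by
    rw [Complex.mul_conj, Complex.normSq_eq_norm_sq, norm_alpha j p hp hp2]
    push_cast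
    rfl
  unfold fL
  rw [hpow, hnC]
  have e1 : (1 - alpha j p * (p : ℂ) ^ (-s)) * (1 - (starRingEnd ℂ) (alpha j p) * (p : ℂ) ^ (-s))
      = 1 - (alpha j p + (starRingEnd ℂ) (alpha j p)) * (p : ℂ) ^ (-s) +
        (alpha j p * (starRingEnd ℂ) (alpha j p)) * ((p : ℂ) ^ (-s)) ^ 2 := by ring
  rw [e1, hsum, hmul]
  ring

/-- The oscillation theorem for the four curves. -/
theorem main4 (a : ℤ) (h : a = -1 ∨ a = 4 ∨ a = 1 ∨ a = -4) :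
    ∃ L : ℂ → ℂ, Differentiable ℂ L ∧
      (∀ s : ℂ, 3 / 2 < s.re → HasProd (fun p : {p : ℕ // p.Prime ∧ p ≠ 2} =>
        (1 - ((p : ℂ) + 1 - (npts a 0 p : ℂ)) * (p : ℂ) ^ (-s) + (p : ℂ) ^ (1 - 2 * s))⁻¹)
        (L s)) ∧
      (L 1).im = 0 ∧ 0 < (L 1).re ∧
      ∃ c : ℝ, 0 < c ∧
        (∀ X : ℝ, ∃ x : ℝ, X ≤ x ∧
          Real.sqrt 2 / (L 1).re * (1 + c / Real.log x) ≤ bsdProd a 0 x) ∧
        (∀ X : ℝ, ∃ x : ℝ, X ≤ x ∧
          bsdProd a 0 x ≤ Real.sqrt 2 / (L 1).re * (1 - c / Real.log x)) := by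
  obtain ⟨j, hj, hj'⟩ : ∃ j : ℕ, (((a = -1 ∨ a = 4) ∧ j = 0) ∨ ((a = 1 ∨ a = -4) ∧ j = 1)) ∧
      (j = 0 ∨ j = 1) := by
    rcases h with h | h | h | h
    · exact ⟨0, Or.inl ⟨Or.inl h, rfl⟩, Or.inl rfl⟩
    · exact ⟨0, Or.inl ⟨Or.inr h, rfl⟩, Or.inl rfl⟩
    · exact ⟨1, Or.inr ⟨Or.inl h, rfl⟩, Or.inr rfl⟩
    · exact ⟨1, Or.inr ⟨Or.inr h, rfl⟩, Or.inr rfl⟩
  have hD := data_inst j hj'
  have h1 := hD.L_pos 1 le_rfl
  rw [Complex.ofReal_one] at h1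
  refine ⟨LE j, hD.L_diff, ?_, h1.2, h1.1, ?_⟩
  · intro s hs
    have := hD.L_prod s hs
    refine this.congr_fun ?_
    intro p
    rw [euler_factor a j hj p p.2.1 p.2.2 s]
  · obtain ⟨c, hc, hA, hB⟩ := omega_inst j hj'
    refine ⟨c, hc, ?_, ?_⟩
    · intro X
      obtain ⟨x, hx, hxx⟩ := hA X
      exact ⟨x, hx, by rw [bsdProd_eq a j hj]; exact hxx⟩
    · intro X
      obtain ⟨x, hx, hxx⟩ := hB X
      exact ⟨x, hx, by rw [bsdProd_eq a j hj]; exact hxx⟩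

end W3283e1
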