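import Mathlib

set_option autoImplicit false

namespace W3283e1

open MeasureTheory ProbabilityTheory Set Filter
open scoped Topology ENNReal NNReal

/-- The extension step: a power series argument at the abscissa of convergence. -/
theorem landau_step {Ω : Type*} [MeasurableSpace Ω] {μ : Measure Ω} {X : Ω → ℝ}
    (hXm : Measurable X) (hX : ∀ᵐ ω ∂μ, X ω ≤ 0) (F : ℝ → ℝ) (c : ℝ)
    (hFc : AnalyticAt ℝ F c) (hint : ∀ σ : ℝ, c < σ → Integrable (fun ω => Real.exp (σ * X ω)) μ)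
    (heq : ∀ σ : ℝ, c < σ → F σ = mgf X μ σ) (δ : ℝ) (hδ : 0 < δ) :
    ∃ τ : ℝ, τ < c ∧ c - δ < τ ∧ Integrable (fun ω => Real.exp (τ * X ω)) μ := by
  have hmem : ∀ σ : ℝ, c < σ → σ ∈ interior (integrableExpSet X μ) := by
    intro σ hσ
    rw [mem_interior]
    exact ⟨Ioi c, fun τ hτ => hint τ hτ, isOpen_Ioi, hσ⟩
  obtain ⟨p, r, hp⟩ := hFc
  -- a positive real radius
  obtain ⟨ρ', hρ0', hρr'⟩ : ∃ ρ : ℝ, 0 < ρ ∧ ENNReal.ofReal ρ < r := by
    obtain ⟨q, hq0, hqr⟩ := ENNReal.lt_iff_exists_nnreal_btwn.1 hp.r_pos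
    refine ⟨q, by exact_mod_cast hq0, by rwa [ENNReal.ofReal_coe_nnreal]⟩
  obtain ⟨ρ, hρ0, hρr, hρδ⟩ : ∃ ρ : ℝ, 0 < ρ ∧ ENNReal.ofReal ρ < r ∧ ρ ≤ δ :=
    ⟨min ρ' δ, lt_min hρ0' hδ,
      lt_of_le_of_lt (ENNReal.ofReal_le_ofReal (min_le_left _ _)) hρr', min_le_right _ _⟩
  -- the new centre
  set y : ℝ := ρ / 4 with hy
  have hy0 : 0 < y := by positivity
  set b : ℝ := c + y with hb
  have hyn : ‖y‖ = y := by rw [Real.norm_eq_abs, abs_of_pos hy0]
  have hyy : (‖y‖₊ : ℝ≥0∞) = ENNReal.ofReal y := by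
    rw [ENNReal.ofReal_eq_coe_nnreal hy0.le]
    congr 1
    ext
    exact hyn
  have hylt : (‖y‖₊ : ℝ≥0∞) < r := by
    rw [hyy]
    refine lt_of_le_of_lt (ENNReal.ofReal_le_ofReal ?_) hρr
    rw [hy]
    linarith
  have hq := hp.changeOrigin hylt
  -- the coefficients
  have hbmem : b ∈ interior (integrableExpSet X μ) := hmem b (by rw [hb]; linarith)
  have hF_eq : F =ᶠ[𝓝 b] mgf X μ := by
    filter_upwards [Ioi_mem_nhds (show c < b by rw [hb]; linarith)] with σ hσ using heq σ hσ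
  have h1 : HasFPowerSeriesAt (mgf X μ) (p.changeOrigin y) b := (hq.hasFPowerSeriesAt).congr hF_eq
  have h2 := hasFPowerSeriesAt_mgf hbmem
  have hqe := h1.eq_formalMultilinearSeries h2
  -- the value at `b - 2y`
  have hz : (-(2 * y)) ∈ Metric.eball (0 : ℝ) (r - ‖y‖₊) := by
    have h3 : ENNReal.ofReal (2 * y) + ENNReal.ofReal y < r := by
      rw [← ENNReal.ofReal_add (by positivity) hy0.le]
      refine lt_of_le_of_lt (ENNReal.ofReal_le_ofReal ?_) hρr
      rw [hy]
      linarith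
    rw [hyy, Metric.mem_eball, edist_dist, dist_zero_right, norm_neg, Real.norm_eq_abs,
      abs_of_pos (by positivity)]
    exact lt_tsub_iff_right.2 h3
  have hs := hq.hasSum hz
  simp only [FormalMultilinearSeries.apply_eq_pow_smul_coeff, smul_eq_mul] at hs
  have hterm : ∀ n : ℕ, (-(2 * y)) ^ n * (p.changeOrigin y).coeff n =
      ∫ ω, ((-(2 * y) * X ω) ^ n / (n.factorial : ℝ)) * Real.exp (b * X ω) ∂μ := by
    intro n
    rw [hqe, FormalMultilinearSeries.coeff_ofScalars, mul_div_assoc', ← integral_const_mul,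
      ← integral_div]
    apply integral_congr_ae
    filter_upwards with ω
    simp only [mul_pow]
    ring
  simp only [hterm] at hs
  -- Tonelli
  have hfint : ∀ n : ℕ, Integrable
      (fun ω => ((-(2 * y) * X ω) ^ n / (n.factorial : ℝ)) * Real.exp (b * X ω)) μ := by
    intro n
    have := (integrable_pow_mul_exp_of_mem_interior_integrableExpSet hbmem n).const_mul
      ((-(2 * y)) ^ n / (n.factorial : ℝ))
    refine this.congr ?_
    filter_upwards with ω
    simp only [mul_pow]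
    ring
  have hnn : ∀ n : ℕ, ∀ᵐ ω ∂μ,
      0 ≤ ((-(2 * y) * X ω) ^ n / (n.factorial : ℝ)) * Real.exp (b * X ω) := by
    intro n
    filter_upwards [hX] with ω hω
    have : 0 ≤ -(2 * y) * X ω := by nlinarith
    positivity
  have hIn : ∀ n : ℕ, 0 ≤ ∫ ω, ((-(2 * y) * X ω) ^ n / (n.factorial : ℝ)) *
      Real.exp (b * X ω) ∂μ := fun n => integral_nonneg_of_ae (hnn n)
  refine ⟨c - y, by linarith, by rw [hy]; linarith, ?_⟩
  -- the pointwise sum
  have hpt : ∀ x : ℝ, HasSum (fun n : ℕ => ((-(2 * y) * x) ^ n / (n.factorial : ℝ)) *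
      Real.exp (b * x)) (Real.exp ((c - y) * x)) := by
    intro x
    have h3 : HasSum (fun n : ℕ => (-(2 * y) * x) ^ n / (n.factorial : ℝ))
        (Real.exp (-(2 * y) * x)) := by
      rw [Real.exp_eq_exp_ℝ]
      exact NormedSpace.expSeries_div_hasSum_exp _
    have h4 := h3.mul_right (Real.exp (b * x))
    rw [← Real.exp_add] at h4
    have he : (c - y) * x = -(2 * y) * x + b * x := by
      rw [hb]
      ring
    rw [he]
    exact h4
  have hlin : ∫⁻ ω, ENNReal.ofReal (Real.exp ((c - y) * X ω)) ∂μ ≠ ∞ := by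
    have e1 : ∫⁻ ω, ENNReal.ofReal (Real.exp ((c - y) * X ω)) ∂μ =
        ∫⁻ ω, ∑' n : ℕ, ENNReal.ofReal (((-(2 * y) * X ω) ^ n / (n.factorial : ℝ)) *
          Real.exp (b * X ω)) ∂μ := by
      apply lintegral_congr_ae
      filter_upwards [hX] with ω hω
      rw [← (hpt (X ω)).tsum_eq, ENNReal.ofReal_tsum_of_nonneg _ (hpt (X ω)).summable]
      intro n
      have : 0 ≤ -(2 * y) * X ω := by nlinarith
      positivity
    rw [e1, lintegral_tsum (fun n => ((hfint n).aestronglyMeasurable.aemeasurable).ennreal_ofReal)]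
    have e3 : ∀ n : ℕ, ∫⁻ ω, ENNReal.ofReal (((-(2 * y) * X ω) ^ n / (n.factorial : ℝ)) *
        Real.exp (b * X ω)) ∂μ = ENNReal.ofReal (∫ ω, ((-(2 * y) * X ω) ^ n /
        (n.factorial : ℝ)) * Real.exp (b * X ω) ∂μ) :=
      fun n => (ofReal_integral_eq_lintegral_ofReal (hfint n) (hnn n)).symm
    simp only [e3]
    rw [← ENNReal.ofReal_tsum_of_nonneg hIn hs.summable]
    exact ENNReal.ofReal_ne_top
  refine ⟨(Real.measurable_exp.comp (hXm.const_mul _)).aestronglyMeasurable, ?_⟩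
  rw [hasFiniteIntegral_iff_ofReal (by filter_upwards with ω using (Real.exp_pos _).le)]
  exact lt_top_iff_ne_top.2 hlin

/-- Landau's lemma for moment generating functions of nonpositive variables. -/
theorem landau_mgf {Ω : Type*} [MeasurableSpace Ω] {μ : Measure Ω} {X : Ω → ℝ}
    (hXm : Measurable X) (hX : ∀ᵐ ω ∂μ, X ω ≤ 0) (F : ℝ → ℝ) (σ0 σ1 : ℝ)
    (hF : ∀ σ : ℝ, σ0 < σ → AnalyticAt ℝ F σ)
    (hint : ∀ σ : ℝ, σ1 < σ → Integrable (fun ω => Real.exp (σ * X ω)) μ)
    (heq : ∀ σ : ℝ, σ1 < σ → F σ = mgf X μ σ) :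
    ∀ σ : ℝ, σ0 < σ → Integrable (fun ω => Real.exp (σ * X ω)) μ ∧ F σ = mgf X μ σ := by
  -- upward closedness
  have hup : ∀ σ τ : ℝ, σ ≤ τ → Integrable (fun ω => Real.exp (σ * X ω)) μ →
      Integrable (fun ω => Real.exp (τ * X ω)) μ := by
    intro σ τ hστ h
    refine h.mono' (Real.measurable_exp.comp (hXm.const_mul _)).aestronglyMeasurable ?_
    filter_upwards [hX] with ω hω
    rw [Real.norm_eq_abs, abs_of_pos (Real.exp_pos _)]
    apply Real.exp_le_exp.2
    nlinarith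
  -- the set of good abscissas
  set T : Set ℝ := {τ : ℝ | σ0 < τ ∧ Integrable (fun ω => Real.exp (τ * X ω)) μ} with hT
  have hTne : T.Nonempty := by
    refine ⟨max σ0 σ1 + 1, ?_, hint _ ?_⟩
    · linarith [le_max_left σ0 σ1]
    · linarith [le_max_right σ0 σ1]
  have hTbd : BddBelow T := ⟨σ0, fun τ hτ => hτ.1.le⟩
  set c := sInf T with hc
  have hc0 : σ0 ≤ c := le_csInf hTne (fun τ hτ => hτ.1.le)
  have habove : ∀ σ : ℝ, c < σ → Integrable (fun ω => Real.exp (σ * X ω)) μ := by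
    intro σ hσ
    obtain ⟨τ, hτ, hτσ⟩ := exists_lt_of_csInf_lt hTne hσ
    exact hup τ σ hτσ.le hτ.2
  have hmem : ∀ σ : ℝ, c < σ → σ ∈ interior (integrableExpSet X μ) := by
    intro σ hσ
    rw [mem_interior]
    exact ⟨Ioi c, fun τ hτ => habove τ hτ, isOpen_Ioi, hσ⟩
  -- the identity theorem
  have heqc : EqOn F (mgf X μ) (Ioi c) := by
    have hA : AnalyticOnNhd ℝ F (Ioi c) := fun σ hσ => hF σ (lt_of_le_of_lt hc0 hσ)
    have hB : AnalyticOnNhd ℝ (mgf X μ) (Ioi c) := fun σ hσ => analyticAt_mgf (hmem σ hσ)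
    have hz : max c σ1 + 1 ∈ Ioi c := by
      simp only [mem_Ioi]
      linarith [le_max_left c σ1]
    refine hA.eqOn_of_preconnected_of_eventuallyEq hB isPreconnected_Ioi hz ?_
    filter_upwards [Ioi_mem_nhds (show max c σ1 < max c σ1 + 1 by linarith)] with σ hσ
    exact heq σ (lt_of_le_of_lt (le_max_right _ _) hσ)
  -- the abscissa is at most `σ0`
  have hcσ : c = σ0 := by
    by_contra hne
    have hlt : σ0 < c := lt_of_le_of_ne hc0 (Ne.symm hne)
    obtain ⟨τ, hτ1, hτ2, hτ3⟩ := landau_step hXm hX F c (hF c hlt) habove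
      (fun σ hσ => heqc hσ) (c - σ0) (by linarith)
    have : τ ∈ T := ⟨by linarith, hτ3⟩
    have := csInf_le hTbd this
    linarith
  intro σ hσ
  rw [← hcσ] at hσ
  exact ⟨habove σ hσ, heqc hσ⟩

/-- Landau's lemma for Mellin type transforms of nonnegative functions.
Let `T` be the set of `τ ≥ σ0` such that the integral converges for all `σ > τ`, and `c` its
infimum; suppose `c > σ0`.  By the real analyticity of `F` and of the transform on `(c, ∞)`
(`ProbabilityTheory.analyticOnNhd_mgf`, measure `B(t) t^{-1} dt`, `X t = -log t`) and the identity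
theorem, `F` equals the transform on `(c,∞)`.  `F` is analytic at `c`, so for some `ε > 0` its
power series at the point `b = c + ε` converges to `F` on a neighbourhood of `[c - ε, b]`
(`HasFPowerSeriesOnBall.changeOrigin`; with radius `ρ` at `c`, take `ε < ρ/4`; real coefficients).
The coefficients at `b` are `(-1)^k/k! ∫ B(t) (log t)^k t^{-(b+1)} dt`
(`ProbabilityTheory.iteratedDeriv_mgf` / `hasFPowerSeriesAt_mgf`), so
`F(b - h) = ∑ h^k/k! ∫ B (log t)^k t^{-(b+1)}` for `h = 2ε`, a convergent series of nonnegative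
terms; by Tonelli (`lintegral_tsum`) it equals `∫ B t^{-(b-h+1)}`, which is finite.
So the integral converges at `c - ε`, hence for all larger `σ`: contradiction.  Thus `c = σ0`,
and the equality on `(σ0,∞)` is the identity theorem again. -/
theorem landau (B : ℝ → ℝ) (hB : Measurable B) (h0 : ∀ t, 1 < t → 0 ≤ B t)
    (F : ℝ → ℝ) (σ0 σ1 : ℝ) (hF : ∀ σ : ℝ, σ0 < σ → AnalyticAt ℝ F σ)
    (hint : ∀ σ : ℝ, σ1 < σ →
      IntegrableOn (fun t : ℝ => B t * t ^ (-(σ + 1))) (Set.Ioi 1))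
    (heq : ∀ σ : ℝ, σ1 < σ → F σ = ∫ t in Set.Ioi (1 : ℝ), B t * t ^ (-(σ + 1))) :
    ∀ σ : ℝ, σ0 < σ →
      IntegrableOn (fun t : ℝ => B t * t ^ (-(σ + 1))) (Set.Ioi 1) ∧
      F σ = ∫ t in Set.Ioi (1 : ℝ), B t * t ^ (-(σ + 1)) := by
  set ν : Measure ℝ := (volume.restrict (Ioi 1)).withDensity
    (fun t => ENNReal.ofReal (B t * t⁻¹)) with hν
  have hden : Measurable (fun t : ℝ => ENNReal.ofReal (B t * t⁻¹)) :=
    (hB.mul measurable_inv).ennreal_ofReal
  have hXm : Measurable (fun t : ℝ => -Real.log t) := Real.measurable_log.neg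
  have hX : ∀ᵐ t ∂ν, -Real.log t ≤ 0 := by
    have h1 : ∀ᵐ t ∂(volume.restrict (Ioi (1 : ℝ))), -Real.log t ≤ 0 := by
      filter_upwards [ae_restrict_mem measurableSet_Ioi] with t ht
      have := Real.log_nonneg (le_of_lt (show (1 : ℝ) < t from ht))
      linarith
    exact (withDensity_absolutelyContinuous _ _).ae_le h1
  have hpt : ∀ σ : ℝ, ∀ᵐ t ∂(volume.restrict (Ioi (1 : ℝ))),
      (ENNReal.ofReal (B t * t⁻¹)).toReal • Real.exp (σ * (-Real.log t)) =
        B t * t ^ (-(σ + 1)) := by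
    intro σ
    filter_upwards [ae_restrict_mem measurableSet_Ioi] with t ht
    have ht1 : (1 : ℝ) < t := ht
    have ht0 : (0 : ℝ) < t := by linarith
    rw [ENNReal.toReal_ofReal (mul_nonneg (h0 t ht1) (inv_nonneg.2 ht0.le)), smul_eq_mul,
      Real.rpow_def_of_pos ht0, mul_assoc]
    congr 1
    rw [← Real.exp_log ht0, ← Real.exp_neg, ← Real.exp_add, Real.log_exp]
    congr 1
    ring
  have hI : ∀ σ : ℝ, Integrable (fun t => Real.exp (σ * (-Real.log t))) ν ↔
      IntegrableOn (fun t : ℝ => B t * t ^ (-(σ + 1))) (Set.Ioi 1) := by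
    intro σ
    rw [hν, integrable_withDensity_iff_integrable_smul' hden
      (by filter_upwards with t using ENNReal.ofReal_lt_top)]
    exact integrable_congr (hpt σ)
  have hM : ∀ σ : ℝ, mgf (fun t => -Real.log t) ν σ =
      ∫ t in Set.Ioi (1 : ℝ), B t * t ^ (-(σ + 1)) := by
    intro σ
    rw [mgf, hν, integral_withDensity_eq_integral_toReal_smul hden
      (by filter_upwards with t using ENNReal.ofReal_lt_top)]
    exact integral_congr_ae (hpt σ)
  intro σ hσ
  have := landau_mgf (μ := ν) hXm hX F σ0 σ1 hF (fun τ hτ => (hI τ).2 (hint τ hτ))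
    (fun τ hτ => by rw [hM]; exact heq τ hτ) σ hσ
  exact ⟨(hI σ).1 this.1, by rw [this.2, hM]⟩

end W3283e1
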