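import Pool.Agent.W_MP_3283e1_nt.Param

set_option autoImplicit false

namespace W3283e1

open Complex MeasureTheory

/-- `∫_X^∞ t^{-s-1} / log t dt`. -/
noncomputable def H0 (X : ℝ) (s : ℂ) : ℂ :=
  ∫ t in Set.Ioi X, ((1 / Real.log t : ℝ) : ℂ) * (t : ℂ) ^ (-(s + 1))

theorem H0_one_le_log {t : ℝ} (ht : 3 ≤ t) : 1 ≤ Real.log t := by
  rw [Real.le_log_iff_exp_le (by linarith)]
  have := Real.exp_one_lt_d9
  linarith

theorem H0_meas : Measurable fun t : ℝ => 1 / Real.log t := by
  simp only [one_div]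
  exact Real.measurable_log.inv

/-- `1/log t ≤ 1` for `t ≥ 3` and `t^{-σ-1}` is integrable. -/
theorem H0_integrable (X : ℝ) (hX : 3 ≤ X) (σ : ℝ) (hσ : 0 < σ) :
    IntegrableOn (fun t : ℝ => (1 / Real.log t) * t ^ (-(σ + 1))) (Set.Ioi X) := by
  have h1 : IntegrableOn (fun t : ℝ => t ^ (-(σ + 1))) (Set.Ioi X) :=
    integrableOn_Ioi_rpow_of_lt (by linarith) (by linarith)
  refine Integrable.mono' h1 ?_ ?_
  · exact (H0_meas.mul (measurable_id.pow_const _)).aestronglyMeasurable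
  · refine (ae_restrict_iff' measurableSet_Ioi).2 (Filter.Eventually.of_forall fun t ht => ?_)
    have ht' : X < t := ht
    have h2 := H0_one_le_log (t := t) (by linarith)
    have h3 : 0 ≤ t ^ (-(σ + 1)) := Real.rpow_nonneg (by linarith) _
    rw [norm_mul, Real.norm_of_nonneg h3, Real.norm_of_nonneg (by positivity)]
    have h4 : 1 / Real.log t ≤ 1 := by
      rw [div_le_one (by linarith)]
      exact h2
    nlinarith

/-- `param` for `B t = 1/log t` on `t > X`, `0` on `t ≤ X`. -/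
theorem H0_diff (X : ℝ) (hX : 3 ≤ X) : DifferentiableOn ℂ (H0 X) {s : ℂ | 0 < s.re} := by
  have hsub : Set.Ioi (1 : ℝ) ∩ Set.Ioi X = Set.Ioi X := by
    ext t
    simp only [Set.mem_inter_iff, Set.mem_Ioi]
    constructor
    · exact fun h => h.2
    · exact fun h => ⟨by linarith, h⟩
  have h := param ((Set.Ioi X).indicator fun t => 1 / Real.log t)
    (H0_meas.indicator measurableSet_Ioi) (by
      intro t ht
      refine Set.indicator_nonneg (fun t ht => ?_) t
      have ht' : X < t := ht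
      have h2 := H0_one_le_log (t := t) (by linarith)
      positivity) 0 (by
      intro σ hσ
      have h1 : (fun t : ℝ => (Set.Ioi X).indicator (fun t => 1 / Real.log t) t * t ^ (-(σ + 1))) =
          (Set.Ioi X).indicator fun t : ℝ => (1 / Real.log t) * t ^ (-(σ + 1)) := by
        funext t
        by_cases ht : t ∈ Set.Ioi X
        · rw [Set.indicator_of_mem ht, Set.indicator_of_mem ht]
        · rw [Set.indicator_of_notMem ht, Set.indicator_of_notMem ht, zero_mul]
      rw [h1, integrableOn_indicator_iff measurableSet_Ioi, Set.inter_comm, hsub]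
      exact H0_integrable X hX σ hσ)
  refine h.congr fun s _ => ?_
  have h1 : (fun t : ℝ => (((Set.Ioi X).indicator (fun t => 1 / Real.log t) t : ℝ) : ℂ) *
      (t : ℂ) ^ (-(s + 1))) =
      (Set.Ioi X).indicator fun t : ℝ => ((1 / Real.log t : ℝ) : ℂ) * (t : ℂ) ^ (-(s + 1)) := by
    funext t
    by_cases ht : t ∈ Set.Ioi X
    · rw [Set.indicator_of_mem ht, Set.indicator_of_mem ht]
    · rw [Set.indicator_of_notMem ht, Set.indicator_of_notMem ht, ofReal_zero, zero_mul]
  rw [h1, setIntegral_indicator measurableSet_Ioi, hsub]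
  rfl

/-- The integrand is real for real `s`. -/
theorem H0_real (X : ℝ) (hX : 3 ≤ X) (σ : ℝ) : (H0 X σ).im = 0 ∧
    (H0 X σ).re = ∫ t in Set.Ioi X, (1 / Real.log t) * t ^ (-(σ + 1)) := by
  have h : H0 X σ = ((∫ t in Set.Ioi X, (1 / Real.log t) * t ^ (-(σ + 1)) : ℝ) : ℂ) := by
    rw [← integral_complex_ofReal]
    unfold H0
    refine setIntegral_congr_fun measurableSet_Ioi fun t ht => ?_
    have ht' : X < t := ht
    have h1 : ((t ^ (-(σ + 1)) : ℝ) : ℂ) = (t : ℂ) ^ (-((σ : ℂ) + 1)) := by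
      rw [Complex.ofReal_cpow (by linarith)]
      push_cast
      rfl
    change _ = (((1 / Real.log t) * t ^ (-(σ + 1)) : ℝ) : ℂ)
    rw [Complex.ofReal_mul, h1]
  rw [h]
  exact ⟨Complex.ofReal_im _, Complex.ofReal_re _⟩

/-- Upper bound on the real axis.  Let `Y = e^{1/σ}`.  On `(X, ∞)`:
`t^{-σ-1}/log t ≤ 1_{t ≤ Y} /(t log t) + σ t^{-σ-1} 1_{t > Y}`; the first integral is at most
`log log Y - log log X ≤ log(1/σ)` if `X < Y` (and `0` otherwise), the second at most
`Y^{-σ} = 1/e ≤ 1` (if `Y < X`, it is `X^{-σ} ≤ 1`). -/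
theorem H0_upper (X : ℝ) (hX : 3 ≤ X) (σ : ℝ) (hσ : 0 < σ) (hσ1 : σ ≤ 1) :
    (H0 X σ).re ≤ Real.log (1 / σ) + 1 := by
  rw [(H0_real X hX σ).2]
  set f : ℝ → ℝ := fun t => (1 / Real.log t) * t ^ (-(σ + 1)) with hf
  have hfi := H0_integrable X hX σ hσ
  have hσinv : 1 ≤ 1 / σ := by
    rw [le_div_iff₀ hσ]
    linarith
  -- the tail
  have tail : ∀ Z : ℝ, X ≤ Z → Real.exp (1 / σ) ≤ Z → ∫ t in Set.Ioi Z, f t ≤ 1 := by
    intro Z hZ hZ'
    have hZ0 : 0 < Z := by linarith
    have h1 : IntegrableOn (fun t : ℝ => σ * t ^ (-(σ + 1))) (Set.Ioi Z) :=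
      (integrableOn_Ioi_rpow_of_lt (by linarith) hZ0).const_mul σ
    have h2 : ∫ t in Set.Ioi Z, f t ≤ ∫ t in Set.Ioi Z, σ * t ^ (-(σ + 1)) := by
      refine setIntegral_mono_on (hfi.mono_set (Set.Ioi_subset_Ioi hZ)) h1 measurableSet_Ioi ?_
      intro t ht
      have ht' : Z < t := ht
      have h3 : 1 / σ ≤ Real.log t := by
        rw [Real.le_log_iff_exp_le (by linarith)]
        linarith
      have h4 : 1 / Real.log t ≤ σ := by
        rw [div_le_iff₀ (by linarith)]
        rw [div_le_iff₀ hσ] at h3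
        linarith
      exact mul_le_mul_of_nonneg_right h4 (Real.rpow_nonneg (by linarith) _)
    refine h2.trans ?_
    rw [integral_const_mul, integral_Ioi_rpow_of_lt (by linarith) hZ0]
    have h5 : -(σ + 1) + 1 = -σ := by ring
    rw [h5, neg_div_neg_eq, mul_div_cancel₀ _ hσ.ne']
    exact Real.rpow_le_one_of_one_le_of_nonpos (by linarith) (by linarith)
  by_cases hXY : Real.exp (1 / σ) ≤ X
  · have h1 := tail X le_rfl hXY
    have h2 : 0 ≤ Real.log (1 / σ) := Real.log_nonneg hσinv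
    linarith
  · push Not at hXY
    set Y := Real.exp (1 / σ) with hY
    have h1 := tail Y hXY.le le_rfl
    have h2 := intervalIntegral.integral_Ioi_sub_Ioi hfi hXY.le
    have hlog : ∀ t ∈ Set.uIcc X Y, 1 ≤ Real.log t ∧ 0 < t := by
      intro t ht
      rw [Set.uIcc_of_le hXY.le] at ht
      exact ⟨H0_one_le_log (by linarith [ht.1]), by linarith [ht.1]⟩
    have hder : ∀ t ∈ Set.uIcc X Y, HasDerivAt (fun t => Real.log (Real.log t))
        (t⁻¹ / Real.log t) t := by
      intro t ht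
      obtain ⟨h3, h4⟩ := hlog t ht
      exact (Real.hasDerivAt_log h4.ne').log (by linarith)
    have hint : IntervalIntegrable (fun t => t⁻¹ / Real.log t) volume X Y := by
      refine ContinuousOn.intervalIntegrable ?_
      intro t ht
      obtain ⟨h3, h4⟩ := hlog t ht
      refine ContinuousAt.continuousWithinAt ?_
      exact (continuousAt_inv₀ h4.ne').div (Real.continuousAt_log h4.ne') (by linarith)
    have h3 := intervalIntegral.integral_eq_sub_of_hasDerivAt hder hint
    have h4 : ∫ t in X..Y, f t ≤ ∫ t in X..Y, t⁻¹ / Real.log t := by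
      refine intervalIntegral.integral_mono_on hXY.le ?_ hint ?_
      · rw [intervalIntegrable_iff_integrableOn_Ioc_of_le hXY.le]
        exact hfi.mono_set Set.Ioc_subset_Ioi_self
      · intro t ht
        obtain ⟨h5, h6⟩ := hlog t (by rw [Set.uIcc_of_le hXY.le]; exact ht)
        have h7 : t ^ (-(σ + 1)) ≤ t⁻¹ := by
          rw [← Real.rpow_neg_one]
          exact Real.rpow_le_rpow_of_exponent_le (by linarith [ht.1]) (by linarith)
        have h8 : 0 ≤ 1 / Real.log t := by positivity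
        calc f t = (1 / Real.log t) * t ^ (-(σ + 1)) := rfl
          _ ≤ (1 / Real.log t) * t⁻¹ := mul_le_mul_of_nonneg_left h7 h8
          _ = t⁻¹ / Real.log t := by ring
    have h5 : Real.log (Real.log Y) = Real.log (1 / σ) := by rw [hY, Real.log_exp]
    have h6 : 0 ≤ Real.log (Real.log X) := Real.log_nonneg (H0_one_le_log hX)
    rw [h5] at h3
    linarith

theorem H0_quad (X : ℝ) (hX : 3 ≤ X) :
    IntegrableOn (fun t : ℝ => t⁻¹ / Real.log t ^ 2) (Set.Ioi X) := by
  refine integrableOn_Ioi_deriv_of_nonneg' (g := fun t => -(Real.log t)⁻¹) (l := 0) ?_ ?_ ?_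
  · intro t ht
    have ht' : X ≤ t := ht
    have h3 := H0_one_le_log (t := t) (by linarith)
    have h4 := ((Real.hasDerivAt_log (x := t) (by linarith)).fun_inv (by linarith)).fun_neg
    exact h4.congr_deriv (by ring)
  · intro t ht
    have ht' : X < t := ht
    have h3 := H0_one_le_log (t := t) (by linarith)
    have h4 : 0 < t := by linarith
    positivity
  · have h5 := (Real.tendsto_log_atTop.inv_tendsto_atTop).neg
    rw [neg_zero] at h5
    exact h5

/-- Boundedness on vertical approach to a point `iγ ≠ 0`: integrate by parts once,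
`H0 X s = X^{-s}/(s log X) - (1/s) ∫_X^∞ t^{-s-1}/(log t)^2 dt`, so
`|H0 X s| ≤ 2/(|γ| log X)` since `∫_X^∞ dt/(t (log t)^2) = 1/log X`. -/
theorem H0_bdd (X : ℝ) (hX : 3 ≤ X) (γ : ℝ) (hγ : γ ≠ 0) :
    ∃ C : ℝ, ∀ σ : ℝ, 0 < σ → σ ≤ 1 → ‖H0 X (σ + γ * I)‖ ≤ C := by
  refine ⟨|γ|⁻¹ + |γ|⁻¹ * ∫ t in Set.Ioi X, t⁻¹ / Real.log t ^ 2, ?_⟩
  intro σ hσ hσ1
  set s : ℂ := σ + γ * I with hs
  have hsre : s.re = σ := by simp [hs]
  have hsim : s.im = γ := by simp [hs]
  have hs0 : s ≠ 0 := by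
    intro h
    rw [h] at hsim
    exact hγ (by simpa using hsim.symm)
  have hsn : |γ| ≤ ‖s‖ := by
    rw [← hsim]
    exact Complex.abs_im_le_norm s
  have hγ0 : 0 < |γ| := abs_pos.2 hγ
  -- the functions
  set u : ℝ → ℂ := fun t => ((1 / Real.log t : ℝ) : ℂ) with hu
  set u' : ℝ → ℂ := fun t => ((-(t⁻¹ / Real.log t ^ 2) : ℝ) : ℂ) with hu'
  set v : ℝ → ℂ := fun t => (-s)⁻¹ * (t : ℂ) ^ (-s) with hv
  set v' : ℝ → ℂ := fun t => (t : ℂ) ^ (-(s + 1)) with hv'
  have hudeq : ∀ t : ℝ, 3 ≤ t → HasDerivAt u (u' t) t := by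
    intro t ht
    have h3 := H0_one_le_log ht
    have h4 := (Real.hasDerivAt_log (x := t) (by linarith)).fun_inv (by linarith)
    have h5 : HasDerivAt (fun t => 1 / Real.log t) (-(t⁻¹ / Real.log t ^ 2)) t := by
      simp only [one_div]
      exact h4.congr_deriv (by ring)
    exact h5.ofReal_comp
  have hvdeq : ∀ t : ℝ, 3 ≤ t → HasDerivAt v (v' t) t := by
    intro t ht
    have h1 := (hasDerivAt_ofReal_cpow_const (x := t) (by linarith) (r := -s)
      (neg_ne_zero.2 hs0)).const_mul (-s)⁻¹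
    refine h1.congr_deriv ?_
    rw [hv', ← mul_assoc, inv_mul_cancel₀ (neg_ne_zero.2 hs0), one_mul]
    congr 1
    ring
  have hvn : ∀ t : ℝ, 3 ≤ t → ‖v t‖ ≤ |γ|⁻¹ := by
    intro t ht
    rw [hv, norm_mul, norm_inv, norm_neg, Complex.norm_cpow_eq_rpow_re_of_pos (by linarith)]
    have h1 : t ^ (-s).re ≤ 1 :=
      Real.rpow_le_one_of_one_le_of_nonpos (by linarith) (by rw [Complex.neg_re, hsre]; linarith)
    have h2 : ‖s‖⁻¹ ≤ |γ|⁻¹ := inv_anti₀ hγ0 hsn
    have h3 : 0 ≤ t ^ (-s).re := Real.rpow_nonneg (by linarith) _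
    calc ‖s‖⁻¹ * t ^ (-s).re ≤ |γ|⁻¹ * 1 := mul_le_mul h2 h1 h3 (by positivity)
      _ = |γ|⁻¹ := mul_one _
  have hun : ∀ t : ℝ, 3 ≤ t → ‖u t‖ ≤ 1 := by
    intro t ht
    have h3 := H0_one_le_log ht
    rw [hu, Complex.norm_real, Real.norm_of_nonneg (by positivity), div_le_one (by linarith)]
    exact h3
  have hmu : Measurable u := Complex.measurable_ofReal.comp H0_meas
  have hmu' : Measurable u' := by
    refine Complex.measurable_ofReal.comp ?_
    exact (measurable_inv.div (Real.measurable_log.pow_const 2)).neg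
  have hmc : ∀ r : ℂ, Measurable fun t : ℝ => (t : ℂ) ^ r := fun r =>
    Complex.measurable_ofReal.pow_const r
  have hq := H0_quad X hX
  have i1 : IntegrableOn (u * v') (Set.Ioi X) := by
    refine Integrable.mono' (integrableOn_Ioi_rpow_of_lt (a := -(σ + 1)) (by linarith)
      (by linarith : 0 < X)) (hmu.mul (hmc _)).aestronglyMeasurable ?_
    refine (ae_restrict_iff' measurableSet_Ioi).2 (Filter.Eventually.of_forall fun t ht => ?_)
    have ht' : X < t := ht
    rw [Pi.mul_apply, norm_mul]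
    have h1 : ‖v' t‖ = t ^ (-(σ + 1)) := by
      rw [hv', Complex.norm_cpow_eq_rpow_re_of_pos (by linarith)]
      congr 1
      rw [Complex.neg_re, Complex.add_re, hsre, Complex.one_re]
    rw [h1]
    have h2 : 0 ≤ t ^ (-(σ + 1)) := Real.rpow_nonneg (by linarith) _
    have h3 := hun t (by linarith)
    nlinarith
  have hb : ∀ t ∈ Set.Ioi X, ‖(u' * v) t‖ ≤ |γ|⁻¹ * (t⁻¹ / Real.log t ^ 2) := by
    intro t ht
    have ht' : X < t := ht
    have h3 := H0_one_le_log (t := t) (by linarith)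
    have h4 : 0 < t := by linarith
    have h5 : ‖u' t‖ = t⁻¹ / Real.log t ^ 2 := by
      rw [hu', Complex.norm_real, norm_neg, Real.norm_of_nonneg (by positivity)]
    rw [Pi.mul_apply, norm_mul, h5, mul_comm]
    exact mul_le_mul_of_nonneg_right (hvn t (by linarith)) (by positivity)
  have i2 : IntegrableOn (u' * v) (Set.Ioi X) := by
    refine Integrable.mono' (hq.const_mul |γ|⁻¹)
      (hmu'.mul ((hmc _).const_mul _)).aestronglyMeasurable ?_
    exact (ae_restrict_iff' measurableSet_Ioi).2 (Filter.Eventually.of_forall hb)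
  have t1 : Filter.Tendsto (u * v) (nhdsWithin X (Set.Ioi X)) (nhds (u X * v X)) := by
    have h1 : ContinuousAt (u * v) X :=
      (hudeq X hX).continuousAt.mul (hvdeq X hX).continuousAt
    exact h1.tendsto.mono_left nhdsWithin_le_nhds
  have t2 : Filter.Tendsto (u * v) Filter.atTop (nhds 0) := by
    rw [tendsto_zero_iff_norm_tendsto_zero]
    have h1 : Filter.Tendsto (fun t : ℝ => (Real.log t)⁻¹ * |γ|⁻¹) Filter.atTop (nhds 0) := by
      have := (Real.tendsto_log_atTop.inv_tendsto_atTop).mul_const |γ|⁻¹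
      rwa [zero_mul] at this
    refine squeeze_zero' (Filter.Eventually.of_forall fun t => norm_nonneg _) ?_ h1
    filter_upwards [Filter.eventually_ge_atTop (3 : ℝ)] with t ht
    have h3 := H0_one_le_log ht
    have h4 : ‖u t‖ = (Real.log t)⁻¹ := by
      rw [hu, Complex.norm_real, Real.norm_of_nonneg (by positivity), one_div]
    rw [Pi.mul_apply, norm_mul, h4]
    exact mul_le_mul_of_nonneg_left (hvn t ht) (by positivity)
  have key := integral_Ioi_mul_deriv_eq_deriv_mul
    (fun t ht => hudeq t (hX.trans (le_of_lt ht))) (fun t ht => hvdeq t (hX.trans (le_of_lt ht)))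
    i1 i2 t1 t2
  have hH : H0 X s = ∫ t in Set.Ioi X, u t * v' t := rfl
  rw [hH, key, zero_sub]
  have h1 : ‖u X * v X‖ ≤ |γ|⁻¹ := by
    rw [norm_mul]
    have h2 := hun X hX
    have h3 := hvn X hX
    calc ‖u X‖ * ‖v X‖ ≤ 1 * |γ|⁻¹ := mul_le_mul h2 h3 (norm_nonneg _) (by norm_num)
      _ = |γ|⁻¹ := one_mul _
  have h2 : ‖∫ t in Set.Ioi X, u' t * v t‖ ≤ |γ|⁻¹ * ∫ t in Set.Ioi X, t⁻¹ / Real.log t ^ 2 := by
    rw [← integral_const_mul]
    exact norm_integral_le_of_norm_le (hq.const_mul _)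
      ((ae_restrict_iff' measurableSet_Ioi).2 (Filter.Eventually.of_forall hb))
  calc ‖-(u X * v X) - ∫ t in Set.Ioi X, u' t * v t‖
      ≤ ‖-(u X * v X)‖ + ‖∫ t in Set.Ioi X, u' t * v t‖ := norm_sub_le _ _
    _ ≤ _ := by
      rw [norm_neg]
      exact add_le_add h1 h2

end W3283e1
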