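import Pool.Agent.W_MP_3283e1_nt.Gint
import Pool.Agent.W_MP_3283e1_nt.H0

set_option autoImplicit false

namespace W3283e1

open Complex MeasureTheory

/-- The nonnegative function to which Landau's lemma is applied. -/
noncomputable def Bf (α : ℕ → ℂ) (lC η c1 X : ℝ) (t : ℝ) : ℝ :=
  if t ≤ X then 14 * Real.sqrt X - η * AA α t
  else c1 / Real.log t - η * (AA α t - lC)

/-- Piecewise measurable (`AA_meas`). -/
theorem Bf_meas (α : ℕ → ℂ) (lC η c1 X : ℝ) : Measurable (Bf α lC η c1 X) := by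
  unfold Bf
  refine Measurable.ite measurableSet_Iic ?_ ?_
  · exact measurable_const.sub (measurable_const.mul (AA_meas α))
  · exact (measurable_const.div Real.measurable_log).sub
      (measurable_const.mul ((AA_meas α).sub measurable_const))

/-- `abs_AA_le` for `t ≤ X`, the hypothesis for `t > X`. -/
theorem Bf_nonneg (α : ℕ → ℂ) (hα : ∀ p : ℕ, p.Prime → p ≠ 2 → ‖α p‖ ^ 2 = p)
    (lC η c1 X : ℝ) (hη : η = 1 ∨ η = -1)
    (h : ∀ x : ℝ, X ≤ x → η * (AA α x - lC) ≤ c1 / Real.log x)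
    (t : ℝ) (ht : 1 < t) : 0 ≤ Bf α lC η c1 X t := by
  unfold Bf
  split_ifs with htX
  · have h1 := abs_AA_le α hα t (by linarith)
    have h2 : Real.sqrt t ≤ Real.sqrt X := Real.sqrt_le_sqrt htX
    obtain ⟨h3, h4⟩ := abs_le.1 h1
    rcases hη with rfl | rfl <;> linarith
  · have := h t (le_of_lt (not_le.1 htX))
    linarith

/-- From real to complex integrability. -/
theorem sb_conv (B : ℝ → ℝ) (hB : Measurable B) (a : ℝ) (ha : 0 ≤ a) (s : ℂ)
    (h : IntegrableOn (fun t : ℝ => B t * t ^ (-(s.re + 1))) (Set.Ioi a)) :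
    IntegrableOn (fun t : ℝ => (B t : ℂ) * (t : ℂ) ^ (-(s + 1))) (Set.Ioi a) := by
  refine Integrable.mono h ?_ ?_
  · apply Measurable.aestronglyMeasurable
    exact (measurable_ofReal.comp hB).mul (measurable_ofReal.pow_const _)
  · refine (ae_restrict_iff' measurableSet_Ioi).2 (Filter.Eventually.of_forall ?_)
    intro t ht
    have ht0 : 0 < t := lt_of_le_of_lt ha ht
    rw [norm_mul, norm_mul, Complex.norm_real, Complex.norm_cpow_eq_rpow_re_of_pos ht0]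
    have h1 : (-(s + 1)).re = -(s.re + 1) := by simp
    rw [h1, Real.norm_eq_abs (t ^ (-(s.re + 1))), abs_of_pos (Real.rpow_pos_of_pos ht0 _)]

/-- The transform of `Bf` for `Re s > 1/2`.  Write `Bf` on `(1,∞)` as
`14 √X 1_{t ≤ X} - η AA t + 1_{t > X} (c1/log t + η lC)`; the transforms are
`14 √X (1 - X^{-s})/s`, `-η GG s / s` (`GG_int`, `AA_integrable`), `c1 H0 X s` and
`η lC X^{-s}/s`. -/
theorem Bf_transform (α : ℕ → ℂ) (hα : ∀ p : ℕ, p.Prime → p ≠ 2 → ‖α p‖ ^ 2 = p)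
    (lC η c1 X : ℝ) (hX : 3 ≤ X) (s : ℂ) (hs : 1 / 2 < s.re) :
    IntegrableOn (fun t : ℝ => Bf α lC η c1 X t * t ^ (-(s.re + 1))) (Set.Ioi 1) ∧
    s * ∫ t in Set.Ioi (1 : ℝ), (Bf α lC η c1 X t : ℂ) * (t : ℂ) ^ (-(s + 1))
      = (14 * Real.sqrt X : ℝ) * (1 - (X : ℂ) ^ (-s)) + c1 * s * H0 X s
        + η * (lC : ℂ) * (X : ℂ) ^ (-s) - η * GG α s := by
  have hσ : 0 < s.re := by linarith
  have hX1 : (1 : ℝ) ≤ X := by linarith
  have hX0 : (0 : ℝ) < X := by linarith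
  have hs0 : s ≠ 0 := by
    rintro rfl
    simp at hσ
  have hunion : Set.Ioc (1 : ℝ) X ∪ Set.Ioi X = Set.Ioi 1 := Set.Ioc_union_Ioi_eq_Ioi hX1
  have hdisj : Disjoint (Set.Ioc (1 : ℝ) X) (Set.Ioi X) := Set.Ioc_disjoint_Ioi le_rfl
  have hsubX : Set.Ioi X ⊆ Set.Ioi (1 : ℝ) := Set.Ioi_subset_Ioi hX1
  have hsubc : Set.Ioc (1 : ℝ) X ⊆ Set.Ioi 1 := Set.Ioc_subset_Ioi_self
  -- real integrability
  have hAA := AA_integrable α hα s.re hs
  have hH := H0_integrable X hX s.re hσ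
  have hK : IntegrableOn (fun t : ℝ => t ^ (-(s.re + 1))) (Set.Ioi 1) :=
    integrableOn_Ioi_rpow_of_lt (by linarith) one_pos
  have hint : IntegrableOn (fun t : ℝ => Bf α lC η c1 X t * t ^ (-(s.re + 1))) (Set.Ioi 1) := by
    rw [← hunion]
    refine IntegrableOn.union ?_ ?_
    · have h1 : IntegrableOn (fun t : ℝ => 14 * Real.sqrt X * t ^ (-(s.re + 1)) -
          η * (AA α t * t ^ (-(s.re + 1)))) (Set.Ioc 1 X) :=
        ((hK.mono_set hsubc).const_mul _).sub ((hAA.mono_set hsubc).const_mul _)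
      refine h1.congr_fun ?_ measurableSet_Ioc
      intro t ht
      have htX : t ≤ X := ht.2
      simp only [Bf, if_pos htX]
      ring
    · have h1 : IntegrableOn (fun t : ℝ => c1 * ((1 / Real.log t) * t ^ (-(s.re + 1))) -
          η * (AA α t * t ^ (-(s.re + 1))) + η * lC * t ^ (-(s.re + 1))) (Set.Ioi X) :=
        ((hH.const_mul _).sub ((hAA.mono_set hsubX).const_mul _)).add
          ((hK.mono_set hsubX).const_mul _)
      refine h1.congr_fun ?_ measurableSet_Ioi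
      intro t ht
      have htX : ¬ t ≤ X := not_le.2 ht
      simp only [Bf, if_neg htX]
      ring
  refine ⟨hint, ?_⟩
  -- complex integrability
  have cB := sb_conv _ (Bf_meas α lC η c1 X) 1 zero_le_one s hint
  have cA := sb_conv _ (AA_meas α) 1 zero_le_one s hAA
  have cH := sb_conv (fun t => 1 / Real.log t) (measurable_const.div Real.measurable_log) X
    hX0.le s hH
  have cK : IntegrableOn (fun t : ℝ => (t : ℂ) ^ (-(s + 1))) (Set.Ioi 1) :=
    integrableOn_Ioi_cpow_of_lt (by simp; linarith) one_pos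
  have e1 : ∫ t in Set.Ioi (1 : ℝ), (Bf α lC η c1 X t : ℂ) * (t : ℂ) ^ (-(s + 1)) =
      (∫ t in Set.Ioc 1 X, (Bf α lC η c1 X t : ℂ) * (t : ℂ) ^ (-(s + 1))) +
        ∫ t in Set.Ioi X, (Bf α lC η c1 X t : ℂ) * (t : ℂ) ^ (-(s + 1)) := by
    rw [← hunion]
    exact setIntegral_union hdisj measurableSet_Ioi (cB.mono_set hsubc) (cB.mono_set hsubX)
  have e2 : ∫ t in Set.Ioc 1 X, (Bf α lC η c1 X t : ℂ) * (t : ℂ) ^ (-(s + 1)) =
      ((14 * Real.sqrt X : ℝ) : ℂ) * (∫ t in Set.Ioc 1 X, (t : ℂ) ^ (-(s + 1))) -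
        (η : ℂ) * ∫ t in Set.Ioc 1 X, (AA α t : ℂ) * (t : ℂ) ^ (-(s + 1)) := by
    rw [← integral_const_mul, ← integral_const_mul, ← integral_sub
      ((cK.mono_set hsubc).const_mul _) ((cA.mono_set hsubc).const_mul _)]
    refine setIntegral_congr_fun measurableSet_Ioc ?_
    intro t ht
    have htX : t ≤ X := ht.2
    simp only [Bf, if_pos htX]
    push_cast
    ring
  have e3 : ∫ t in Set.Ioi X, (Bf α lC η c1 X t : ℂ) * (t : ℂ) ^ (-(s + 1)) =
      (c1 : ℂ) * H0 X s - (η : ℂ) * (∫ t in Set.Ioi X, (AA α t : ℂ) * (t : ℂ) ^ (-(s + 1))) +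
        (η : ℂ) * (lC : ℂ) * ∫ t in Set.Ioi X, (t : ℂ) ^ (-(s + 1)) := by
    unfold H0
    have i1 : IntegrableOn (fun t : ℝ => (c1 : ℂ) * (((1 / Real.log t : ℝ) : ℂ) *
        (t : ℂ) ^ (-(s + 1)))) (Set.Ioi X) := cH.const_mul _
    have i2 : IntegrableOn (fun t : ℝ => (η : ℂ) * ((AA α t : ℂ) * (t : ℂ) ^ (-(s + 1))))
      (Set.Ioi X) := (cA.mono_set hsubX).const_mul _
    have i3 : IntegrableOn (fun t : ℝ => (η : ℂ) * (lC : ℂ) * (t : ℂ) ^ (-(s + 1)))
      (Set.Ioi X) := (cK.mono_set hsubX).const_mul _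
    have i12 : IntegrableOn (fun t : ℝ => (c1 : ℂ) * (((1 / Real.log t : ℝ) : ℂ) *
        (t : ℂ) ^ (-(s + 1))) - (η : ℂ) * ((AA α t : ℂ) * (t : ℂ) ^ (-(s + 1))))
        (Set.Ioi X) := i1.sub i2
    rw [← integral_const_mul, ← integral_const_mul, ← integral_const_mul, ← integral_sub i1 i2,
      ← integral_add i12 i3]
    refine setIntegral_congr_fun measurableSet_Ioi ?_
    intro t ht
    have htX : ¬ t ≤ X := not_le.2 ht
    simp only [Bf, if_neg htX]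
    push_cast
    ring
  have e4 : ∫ t in Set.Ioi (1 : ℝ), (AA α t : ℂ) * (t : ℂ) ^ (-(s + 1)) =
      (∫ t in Set.Ioc 1 X, (AA α t : ℂ) * (t : ℂ) ^ (-(s + 1))) +
        ∫ t in Set.Ioi X, (AA α t : ℂ) * (t : ℂ) ^ (-(s + 1)) := by
    rw [← hunion]
    exact setIntegral_union hdisj measurableSet_Ioi (cA.mono_set hsubc) (cA.mono_set hsubX)
  have e5 : ∫ t in Set.Ioi (1 : ℝ), (t : ℂ) ^ (-(s + 1)) =
      (∫ t in Set.Ioc 1 X, (t : ℂ) ^ (-(s + 1))) + ∫ t in Set.Ioi X, (t : ℂ) ^ (-(s + 1)) := by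
    rw [← hunion]
    exact setIntegral_union hdisj measurableSet_Ioi (cK.mono_set hsubc) (cK.mono_set hsubX)
  have hval : ∀ c : ℝ, 0 < c → s * ∫ t in Set.Ioi c, (t : ℂ) ^ (-(s + 1)) = (c : ℂ) ^ (-s) := by
    intro c hc
    rw [integral_Ioi_cpow_of_lt (by simp; linarith) hc]
    have h1 : -(s + 1) + 1 = -s := by ring
    rw [h1]
    field_simp
  have v1 := hval 1 one_pos
  have vX := hval X hX0
  rw [e5] at v1
  simp only [ofReal_one, one_cpow] at v1
  have hG := GG_int α hα s hs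
  rw [e4] at hG
  rw [e1, e2, e3, hG]
  linear_combination ((14 * Real.sqrt X : ℝ) : ℂ) * v1 +
    ((η : ℂ) * (lC : ℂ) - ((14 * Real.sqrt X : ℝ) : ℂ)) * vX

end W3283e1
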