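import Mathlib

set_option autoImplicit false

namespace W3283e1

/-- A function real analytic at each point of `[0,∞)` with value `lC` at `0`: the numerator
`lC X^{-σ} - g σ = lC (X^{-σ} - 1) - (g σ - g 0)` is `O(σ)` on `(0,1]`:
`|X^{-σ} - 1| ≤ σ log X`, and `|g σ - g 0| ≤ C σ` on `[0,1]` (`g` is continuously differentiable
on a neighbourhood of each point of `[0,1]`: its derivative is continuous on the compact `[0,1]`,
mean value theorem). -/
theorem num_bound (g : ℝ → ℝ) (hg : ∀ σ : ℝ, 0 ≤ σ → AnalyticAt ℝ g σ) (lC : ℝ)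
    (hg0 : g 0 = lC) (X : ℝ) (hX : 3 ≤ X) :
    ∃ C : ℝ, ∀ σ : ℝ, 0 < σ → σ ≤ 1 → |lC * X ^ (-σ) - g σ| ≤ C * σ := by
  have hX0 : (0 : ℝ) < X := by linarith
  have hh : ∀ σ : ℝ, 0 ≤ σ → AnalyticAt ℝ (fun t : ℝ => lC * X ^ (-t) - g t) σ := by
    intro σ hσ
    have h1 : AnalyticAt ℝ (fun t : ℝ => X ^ (-t)) σ := by
      have h2 : (fun t : ℝ => X ^ (-t)) = fun t : ℝ => Real.exp (Real.log X * (-t)) := by
        funext t
        rw [Real.rpow_def_of_pos hX0]
      rw [h2]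
      exact (analyticAt_const.mul analyticAt_id.neg).rexp
    exact (analyticAt_const.mul h1).sub (hg σ hσ)
  have hc : ContinuousOn (deriv (fun t : ℝ => lC * X ^ (-t) - g t)) (Set.Icc 0 1) :=
    fun σ hσ => (hh σ hσ.1).deriv.continuousAt.continuousWithinAt
  obtain ⟨C, hC⟩ := isCompact_Icc.exists_bound_of_continuousOn hc
  refine ⟨C, fun σ h0 h1 => ?_⟩
  have hm := Convex.norm_image_sub_le_of_norm_deriv_le (𝕜 := ℝ)
    (f := fun t : ℝ => lC * X ^ (-t) - g t) (s := Set.Icc 0 1) (C := C) (x := 0) (y := σ)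
    (fun x hx => (hh x hx.1).differentiableAt) hC (convex_Icc 0 1)
    ⟨le_refl 0, zero_le_one⟩ ⟨h0.le, h1⟩
  simp only [neg_zero, Real.rpow_zero, mul_one, hg0, sub_self, sub_zero, Real.norm_eq_abs,
    abs_of_pos h0] at hm
  exact hm

end W3283e1
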