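import Pool.Agent.W_MP_3283e1_nt.Greal
import Pool.Agent.W_MP_3283e1_nt.StepB
import Pool.Agent.W_MP_3283e1_nt.StepN
import Pool.Agent.W_MP_3283e1_nt.Landau

set_option autoImplicit false

namespace W3283e1

open Complex MeasureTheory

/-- `H0` is real analytic on the positive axis. -/
theorem step_H0_analytic (X : ℝ) (hX : 3 ≤ X) (σ : ℝ) (hσ : 0 < σ) :
    AnalyticAt ℝ (fun τ : ℝ => (H0 X τ).re) σ := by
  have hopen : IsOpen {s : ℂ | 0 < s.re} := isOpen_lt continuous_const continuous_re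
  have h1 : AnalyticAt ℂ (H0 X) (σ : ℂ) :=
    (H0_diff X hX).analyticAt (hopen.mem_nhds (by simpa using hσ))
  have h2 : AnalyticAt ℝ (H0 X) (Complex.ofRealCLM σ) := h1.restrictScalars
  have h3 : AnalyticAt ℝ (fun τ : ℝ => H0 X (Complex.ofRealCLM τ)) σ :=
    h2.comp (Complex.ofRealCLM.analyticAt σ)
  have h4 : AnalyticAt ℝ (fun τ : ℝ => Complex.reCLM (H0 X (Complex.ofRealCLM τ))) σ :=
    (Complex.reCLM.analyticAt _).comp h3
  exact h4

/-- The real power `X ^ (-τ)` is real analytic in `τ`. -/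
theorem step_rpow_analytic (X : ℝ) (hX : 3 ≤ X) (σ : ℝ) :
    AnalyticAt ℝ (fun τ : ℝ => X ^ (-τ)) σ := by
  have hX0 : 0 < X := by linarith
  have h1 : (fun τ : ℝ => X ^ (-τ)) = fun τ : ℝ => Real.exp (Real.log X * (-τ)) := by
    funext τ
    rw [Real.rpow_def_of_pos hX0]
  rw [h1]
  have h2 : AnalyticAt ℝ (fun τ : ℝ => Real.log X * (-τ)) σ :=
    analyticAt_const.mul analyticAt_id.neg
  exact h2.rexp

/-- The real transform as a complex integral. -/
theorem step_ofReal_int (B : ℝ → ℝ) (σ : ℝ) :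
    ∫ t in Set.Ioi (1 : ℝ), (B t : ℂ) * (t : ℂ) ^ (-((σ : ℂ) + 1))
      = ((∫ t in Set.Ioi (1 : ℝ), B t * t ^ (-(σ + 1)) : ℝ) : ℂ) := by
  refine Eq.trans ?_ (integral_ofReal (𝕜 := ℂ)
    (f := fun t : ℝ => B t * t ^ (-(σ + 1))) (μ := volume.restrict (Set.Ioi (1 : ℝ))))
  refine setIntegral_congr_fun measurableSet_Ioi ?_
  intro t ht
  have ht0 : (0 : ℝ) ≤ t := le_trans zero_le_one (le_of_lt ht)
  show (B t : ℂ) * (t : ℂ) ^ (-((σ : ℂ) + 1)) = ((B t * t ^ (-(σ + 1)) : ℝ) : ℂ)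
  rw [Complex.ofReal_mul, Complex.ofReal_cpow ht0]
  push_cast
  rfl

/-- The norm of the transform is at most its value at the real part. -/
theorem step_norm_int (B : ℝ → ℝ) (h0 : ∀ t, 1 < t → 0 ≤ B t) (s : ℂ) :
    ‖∫ t in Set.Ioi (1 : ℝ), (B t : ℂ) * (t : ℂ) ^ (-(s + 1))‖
      ≤ ∫ t in Set.Ioi (1 : ℝ), B t * t ^ (-(s.re + 1)) := by
  refine le_trans (norm_integral_le_integral_norm _) (le_of_eq ?_)
  refine setIntegral_congr_fun measurableSet_Ioi ?_
  intro t ht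
  have ht0 : (0 : ℝ) < t := lt_trans zero_lt_one ht
  show ‖(B t : ℂ) * (t : ℂ) ^ (-(s + 1))‖ = B t * t ^ (-(s.re + 1))
  rw [norm_mul, Complex.norm_real, Real.norm_of_nonneg (h0 t ht),
    Complex.norm_cpow_eq_rpow_re_of_pos ht0]
  simp

/-- `(1 - X^{-σ}) / σ ≤ log X`. -/
theorem step_one_sub (X : ℝ) (hX : 3 ≤ X) (σ : ℝ) (hσ : 0 < σ) :
    (1 - X ^ (-σ)) / σ ≤ Real.log X := by
  have hX0 : 0 < X := by linarith
  rw [div_le_iff₀ hσ, Real.rpow_def_of_pos hX0]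
  have := Real.add_one_le_exp (Real.log X * (-σ))
  linarith

/-- One-sided bounds extend `GG` to the right half plane with a logarithmic bound.
Let `lC = log (√2 / L 1)`, `B = Bf α lC η c1 X ≥ 0` and `T s = ∫_1^∞ B t^{-(s+1)}`.  By
`Bf_transform` and `greal`, for real `σ > 1/2`: `T σ = F σ` with
`F σ = (14√X (1 - X^{-σ}) + c1 σ H0 σ + η lC X^{-σ} - η g σ)/σ`, real analytic on `(0,∞)`.
`landau` (with `σ0 = 0`, `σ1 = 1/2`): the integral converges for `σ > 0` and equals `F σ`.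
`param`: `T` is holomorphic on `Re s > 0`.  Put
`Gt s = η (-s T s + 14√X (1 - X^{-s}) + c1 s H0 s) + lC X^{-s}` (`η² = 1`); it agrees with
`GG` for `Re s > 1/2`.  Bound: for `s = σ + iγ`, `0 < σ ≤ 1`:
`‖T s‖ ≤ T σ = F σ ≤ 14√X log X + c1 H0 σ + C` by `num_bound`, and
`H0 σ ≤ log(1/σ) + 1` by `H0_upper`; `‖H0 s‖` is bounded by `H0_bdd`;
`|s| ≤ |γ| + 1`, `‖X^{-s}‖ ≤ 1`. -/
theorem step (α : ℕ → ℂ) (L W : ℂ → ℂ) (hD : Data α L W)
    (η c1 X : ℝ) (hη : η = 1 ∨ η = -1) (hc1 : 0 < c1) (hX : 3 ≤ X)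
    (h : ∀ x : ℝ, X ≤ x →
      η * (AA α x - Real.log (Real.sqrt 2 / (L 1).re)) ≤ c1 / Real.log x) :
    ∃ Gt : ℂ → ℂ, DifferentiableOn ℂ Gt {s : ℂ | 0 < s.re} ∧
      (∀ s : ℂ, 1 / 2 < s.re → Gt s = GG α s) ∧
      ∀ γ : ℝ, γ ≠ 0 → ∃ C : ℝ, ∀ σ : ℝ, 0 < σ → σ ≤ 1 →
        ‖Gt (σ + γ * I)‖ ≤ (|γ| + 1) * c1 * Real.log (1 / σ) + C := by
  have hX0 : 0 < X := by linarith
  have hηη : η * η = 1 := by rcases hη with rfl | rfl <;> norm_num
  have hηabs : |η| = 1 := by rcases hη with rfl | rfl <;> norm_num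
  obtain ⟨g, hg, hg0, hgG⟩ := greal α L W hD
  set lC : ℝ := Real.log (Real.sqrt 2 / (L 1).re) with hlC
  have hα := hD.norm_α
  set B : ℝ → ℝ := Bf α lC η c1 X with hBdef
  have hBm : Measurable B := Bf_meas α lC η c1 X
  have hB0 : ∀ t, 1 < t → 0 ≤ B t := fun t ht => Bf_nonneg α hα lC η c1 X hη h t ht
  set T : ℂ → ℂ := fun s => ∫ t in Set.Ioi (1 : ℝ), (B t : ℂ) * (t : ℂ) ^ (-(s + 1)) with hT
  set F : ℝ → ℝ := fun σ => (14 * Real.sqrt X * (1 - X ^ (-σ)) + c1 * σ * (H0 X σ).re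
      + η * lC * X ^ (-σ) - η * g σ) / σ with hF
  have hFan : ∀ σ : ℝ, 0 < σ → AnalyticAt ℝ F σ := by
    intro σ hσ
    have hp := step_rpow_analytic X hX σ
    have hH := step_H0_analytic X hX σ hσ
    have hgs := hg σ hσ.le
    have hid : AnalyticAt ℝ (fun τ : ℝ => τ) σ := analyticAt_id
    have hnum : AnalyticAt ℝ (fun τ : ℝ => 14 * Real.sqrt X * (1 - X ^ (-τ))
        + c1 * τ * (H0 X τ).re + η * lC * X ^ (-τ) - η * g τ) σ := by
      refine AnalyticAt.sub (AnalyticAt.add (AnalyticAt.add ?_ ?_) ?_) ?_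
      · exact analyticAt_const.mul (analyticAt_const.sub hp)
      · exact (analyticAt_const.mul hid).mul hH
      · exact analyticAt_const.mul hp
      · exact analyticAt_const.mul hgs
    exact hnum.div hid hσ.ne'
  have hint1 : ∀ σ : ℝ, 1 / 2 < σ →
      IntegrableOn (fun t : ℝ => B t * t ^ (-(σ + 1))) (Set.Ioi 1) := by
    intro σ hσ
    have := (Bf_transform α hα lC η c1 X hX (σ : ℂ) (by simpa using hσ)).1
    simpa using this
  have heq1 : ∀ σ : ℝ, 1 / 2 < σ →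
      F σ = ∫ t in Set.Ioi (1 : ℝ), B t * t ^ (-(σ + 1)) := by
    intro σ hσ
    have hσ0 : 0 < σ := by linarith
    have htr := (Bf_transform α hα lC η c1 X hX (σ : ℂ) (by simpa using hσ)).2
    have hHr := H0_real X hX σ
    have hH : H0 X σ = (((H0 X σ).re : ℝ) : ℂ) := by
      apply Complex.ext
      · simp
      · simpa using hHr.1
    have hXp : (X : ℂ) ^ (-(σ : ℂ)) = ((X ^ (-σ) : ℝ) : ℂ) := by
      rw [Complex.ofReal_cpow hX0.le]
      push_cast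
      rfl
    rw [step_ofReal_int B σ, hgG σ hσ, hH, hXp] at htr
    have htr' : σ * (∫ t in Set.Ioi (1 : ℝ), B t * t ^ (-(σ + 1)))
        = (14 * Real.sqrt X) * (1 - X ^ (-σ)) + c1 * σ * (H0 X σ).re
          + η * lC * X ^ (-σ) - η * g σ := by
      exact_mod_cast htr
    rw [hF]
    simp only
    rw [← htr', mul_div_cancel_left₀ _ hσ0.ne']
  have hland := landau B hBm hB0 F 0 (1 / 2) hFan hint1 heq1
  have hTdiff : DifferentiableOn ℂ T {s : ℂ | 0 < s.re} :=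
    param B hBm hB0 0 (fun σ hσ => (hland σ hσ).1)
  have hXne : (X : ℂ) ≠ 0 := by exact_mod_cast hX0.ne'
  refine ⟨fun s => η * (-(s * T s) + ((14 * Real.sqrt X : ℝ) : ℂ) * (1 - (X : ℂ) ^ (-s))
      + c1 * s * H0 X s) + lC * (X : ℂ) ^ (-s), ?_, ?_, ?_⟩
  · have hid : DifferentiableOn ℂ (fun s : ℂ => s) {s : ℂ | 0 < s.re} := differentiableOn_id
    have hpow : DifferentiableOn ℂ (fun s : ℂ => (X : ℂ) ^ (-s)) {s : ℂ | 0 < s.re} :=
      (hid.neg).const_cpow (Or.inl hXne)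
    have hH := H0_diff X hX
    refine DifferentiableOn.add ?_ ?_
    · refine DifferentiableOn.const_mul ?_ _
      refine DifferentiableOn.add (DifferentiableOn.add ?_ ?_) ?_
      · exact (hid.mul hTdiff).neg
      · exact (hpow.const_sub 1).const_mul _
      · exact (hid.const_mul _).mul hH
    · exact hpow.const_mul _
  · intro s hs
    have htr := (Bf_transform α hα lC η c1 X hX s hs).2
    have hηηC : (η : ℂ) * η = 1 := by exact_mod_cast hηη
    show η * (-(s * T s) + ((14 * Real.sqrt X : ℝ) : ℂ) * (1 - (X : ℂ) ^ (-s))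
      + c1 * s * H0 X s) + lC * (X : ℂ) ^ (-s) = GG α s
    rw [hT]
    simp only
    rw [htr]
    linear_combination (GG α s - (lC : ℂ) * (X : ℂ) ^ (-s)) * hηηC
  · intro γ hγ
    obtain ⟨CH, hCH⟩ := H0_bdd X hX γ hγ
    obtain ⟨CN, hCN⟩ := num_bound g hg lC hg0 X hX
    refine ⟨(|γ| + 1) * (14 * Real.sqrt X * Real.log X + c1 + CN) + 14 * Real.sqrt X * 2
      + c1 * ((|γ| + 1) * CH) + |lC|, ?_⟩
    intro σ hσ hσ1
    have hsre : ((σ : ℂ) + γ * I).re = σ := by simp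
    set s : ℂ := (σ : ℂ) + γ * I with hs
    have hsnorm : ‖s‖ ≤ |γ| + 1 := by
      have h1 : ‖s‖ ≤ ‖(σ : ℂ)‖ + ‖(γ : ℂ) * I‖ := norm_add_le _ _
      have h2 : ‖(σ : ℂ)‖ = σ := by
        rw [Complex.norm_real, Real.norm_of_nonneg hσ.le]
      have h3 : ‖(γ : ℂ) * I‖ = |γ| := by
        rw [norm_mul, Complex.norm_I, mul_one, Complex.norm_real, Real.norm_eq_abs]
      rw [h2, h3] at h1
      linarith
    have hXs : ‖(X : ℂ) ^ (-s)‖ ≤ 1 := by
      rw [Complex.norm_cpow_eq_rpow_re_of_pos hX0]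
      apply Real.rpow_le_one_of_one_le_of_nonpos (by linarith)
      rw [Complex.neg_re, hsre]
      linarith
    have hTn : ‖T s‖ ≤ 14 * Real.sqrt X * Real.log X + c1 * (Real.log (1 / σ) + 1) + CN := by
      have h1 : ‖T s‖ ≤ F σ := by
        rw [(hland σ hσ).2]
        have := step_norm_int B hB0 s
        rw [hsre] at this
        exact this
      have h2 : F σ = 14 * Real.sqrt X * ((1 - X ^ (-σ)) / σ) + c1 * (H0 X σ).re
          + η * (lC * X ^ (-σ) - g σ) / σ := by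
        rw [hF]
        field_simp
        ring
      have h3 := step_one_sub X hX σ hσ
      have h4 := H0_upper X hX σ hσ hσ1
      have h5 : η * (lC * X ^ (-σ) - g σ) / σ ≤ CN := by
        rw [div_le_iff₀ hσ]
        refine le_trans (le_abs_self _) ?_
        rw [abs_mul, hηabs, one_mul]
        exact hCN σ hσ hσ1
      have h6 : 14 * Real.sqrt X * ((1 - X ^ (-σ)) / σ) ≤ 14 * Real.sqrt X * Real.log X :=
        mul_le_mul_of_nonneg_left h3 (by positivity)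
      have h7 : c1 * (H0 X σ).re ≤ c1 * (Real.log (1 / σ) + 1) :=
        mul_le_mul_of_nonneg_left h4 hc1.le
      rw [h2] at h1
      linarith
    have hHn : ‖H0 X s‖ ≤ CH := hCH σ hσ hσ1
    have hCH0 : 0 ≤ CH := le_trans (norm_nonneg _) hHn
    have hγ1 : 0 ≤ |γ| + 1 := by positivity
    have e1 : ‖s * T s‖ ≤ (|γ| + 1) *
        (14 * Real.sqrt X * Real.log X + c1 * (Real.log (1 / σ) + 1) + CN) := by
      rw [norm_mul]
      exact mul_le_mul hsnorm hTn (norm_nonneg _) hγ1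
    have e2 : ‖((14 * Real.sqrt X : ℝ) : ℂ) * (1 - (X : ℂ) ^ (-s))‖
        ≤ 14 * Real.sqrt X * 2 := by
      rw [norm_mul, Complex.norm_real, Real.norm_of_nonneg (by positivity)]
      refine mul_le_mul_of_nonneg_left ?_ (by positivity)
      refine le_trans (norm_sub_le _ _) ?_
      rw [norm_one]
      linarith
    have e3 : ‖(c1 : ℂ) * s * H0 X s‖ ≤ c1 * ((|γ| + 1) * CH) := by
      rw [norm_mul, norm_mul, Complex.norm_real, Real.norm_of_nonneg hc1.le, mul_assoc]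
      exact mul_le_mul_of_nonneg_left (mul_le_mul hsnorm hHn (norm_nonneg _) hγ1) hc1.le
    have e4 : ‖(lC : ℂ) * (X : ℂ) ^ (-s)‖ ≤ |lC| := by
      rw [norm_mul, Complex.norm_real, Real.norm_eq_abs]
      exact mul_le_of_le_one_right (abs_nonneg _) hXs
    have e5 : ‖(η : ℂ)‖ = 1 := by
      rw [Complex.norm_real, Real.norm_eq_abs, hηabs]
    have e6 : ‖(η : ℂ) * (-(s * T s) + ((14 * Real.sqrt X : ℝ) : ℂ) * (1 - (X : ℂ) ^ (-s))
      + c1 * s * H0 X s) + lC * (X : ℂ) ^ (-s)‖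
        ≤ ‖s * T s‖ + ‖((14 * Real.sqrt X : ℝ) : ℂ) * (1 - (X : ℂ) ^ (-s))‖
          + ‖(c1 : ℂ) * s * H0 X s‖ + ‖(lC : ℂ) * (X : ℂ) ^ (-s)‖ := by
      refine le_trans (norm_add_le _ _) ?_
      refine add_le_add ?_ le_rfl
      rw [norm_mul, e5, one_mul]
      refine le_trans (norm_add_le _ _) ?_
      refine add_le_add ?_ le_rfl
      refine le_trans (norm_add_le _ _) ?_
      rw [norm_neg]
    show ‖(η : ℂ) * (-(s * T s) + ((14 * Real.sqrt X : ℝ) : ℂ) * (1 - (X : ℂ) ^ (-s))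
      + c1 * s * H0 X s) + lC * (X : ℂ) ^ (-s)‖ ≤ _
    refine le_trans e6 ?_
    have e7 : (|γ| + 1) *
        (14 * Real.sqrt X * Real.log X + c1 * (Real.log (1 / σ) + 1) + CN)
        = (|γ| + 1) * c1 * Real.log (1 / σ)
          + (|γ| + 1) * (14 * Real.sqrt X * Real.log X + c1 + CN) := by ring
    rw [e7] at e1
    linarith

end W3283e1
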