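import Pool.Agent.W_MP_3283e1_nt.Ident

set_option autoImplicit false

namespace W3283e1

open Complex

/-- The identity of `ident` on the whole right half plane. -/
theorem lower_ident (α : ℕ → ℂ) (L W : ℂ → ℂ) (hD : Data α L W)
    (Gt : ℂ → ℂ) (hGt : DifferentiableOn ℂ Gt {s : ℂ | 0 < s.re})
    (heq : ∀ s : ℂ, 1 / 2 < s.re → Gt s = GG α s)
    (R : ℂ → ℂ) (hR : DifferentiableOn ℂ R {s : ℂ | -(1 / 10) < s.re})
    (hid : ∀ s : ℂ, 1 / 2 < s.re →
        (L (1 + s)) ^ 2 * Complex.exp (2 * GG α s) * W s * ZZ (2 * s) * t2 (2 * s)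
          = 2 * W (2 * s) * ZZ s * t2 s * Complex.exp (R s))
    (s : ℂ) (hs : 0 < s.re) :
    (L (1 + s)) ^ 2 * Complex.exp (2 * Gt s) * W s * ZZ (2 * s) * t2 (2 * s)
          = 2 * W (2 * s) * ZZ s * t2 s * Complex.exp (R s) := by
  have hopen : IsOpen {s : ℂ | 0 < s.re} := isOpen_lt continuous_const Complex.continuous_re
  have hconv : Convex ℝ {s : ℂ | 0 < s.re} := convex_halfSpace_re_gt 0
  have hsub : {s : ℂ | 0 < s.re} ⊆ {s : ℂ | -(1 / 10) < s.re} := by
    intro z hz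
    have : 0 < z.re := hz
    show -(1 / 10) < z.re
    linarith
  have hL1 : Differentiable ℂ (fun s : ℂ => L (1 + s)) :=
    hD.L_diff.comp ((differentiable_const 1).add differentiable_id)
  have h2 : Differentiable ℂ (fun s : ℂ => 2 * s) := (differentiable_const 2).mul differentiable_id
  have hW2 : Differentiable ℂ (fun s : ℂ => W (2 * s)) := hD.W_diff.comp h2
  have hZ2 : Differentiable ℂ (fun s : ℂ => ZZ (2 * s)) := ZZ_diff.comp h2
  have ht2 : Differentiable ℂ (fun s : ℂ => t2 (2 * s)) := t2_diff.comp h2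
  have hl : DifferentiableOn ℂ (fun s : ℂ =>
      (L (1 + s)) ^ 2 * Complex.exp (2 * Gt s) * W s * ZZ (2 * s) * t2 (2 * s))
      {s : ℂ | 0 < s.re} := by
    refine ((((hL1.pow 2).differentiableOn.mul ?_).mul hD.W_diff.differentiableOn).mul
      hZ2.differentiableOn).mul ht2.differentiableOn
    exact (hGt.const_mul 2).cexp
  have hr : DifferentiableOn ℂ (fun s : ℂ =>
      2 * W (2 * s) * ZZ s * t2 s * Complex.exp (R s)) {s : ℂ | 0 < s.re} := by
    refine ((((hW2.const_mul 2).mul ZZ_diff).mul t2_diff).differentiableOn.mul ?_)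
    exact (hR.mono hsub).cexp
  have hev : (fun s : ℂ =>
      (L (1 + s)) ^ 2 * Complex.exp (2 * Gt s) * W s * ZZ (2 * s) * t2 (2 * s))
      =ᶠ[nhds (1 : ℂ)] (fun s : ℂ =>
      2 * W (2 * s) * ZZ s * t2 s * Complex.exp (R s)) := by
    have hop : IsOpen {s : ℂ | 1 / 2 < s.re} := isOpen_lt continuous_const Complex.continuous_re
    have h1 : (1 : ℂ) ∈ {s : ℂ | 1 / 2 < s.re} := by
      show 1 / 2 < (1 : ℂ).re
      rw [Complex.one_re]; norm_num
    filter_upwards [hop.mem_nhds h1] with z hz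
    rw [heq z hz]
    exact hid z hz
  have h1 : (1 : ℂ) ∈ {s : ℂ | 0 < s.re} := by
    show 0 < (1 : ℂ).re
    rw [Complex.one_re]; norm_num
  exact (hl.analyticOnNhd hopen).eqOn_of_preconnected_of_eventuallyEq
    (hr.analyticOnNhd hopen) hconv.isPreconnected h1 hev hs

/-- A zero of `L` with real part at least `1` forces a logarithmic lower bound.
With `R` from `ident`, both sides of
`(L(1+s))² exp(2 Gt s) W s ZZ(2s) t2(2s) = 2 W(2s) ZZ s t2 s exp(R s)` are holomorphic on the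
right half plane and agree for `Re s > 1/2`, hence on `Re s > 0`
(`AnalyticOnNhd.eqOn_of_preconnected_of_eventuallyEq`, convex set).  The right side is nonzero on
`Re s > 0` (`W_ne`, `ZZ_ne`, `t2_ne`), so `L(1+s) ≠ 0` there; hence `ρ.re = 1`.
Let `s = σ + iγ`, `γ = ρ.im`, `0 < σ ≤ 1/2`: `1 + s = ρ + σ`, `‖L(ρ+σ)‖ ≤ M σ` (differentiable on
a compact segment, `L ρ = 0`), all other factors on the left are bounded, and on the right
`‖W(2s)‖ ≥ 2 c σ` by `W_low` at `2γ`, the remaining factors are bounded below by continuity on the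
compact segment `{σ + iγ : 0 ≤ σ ≤ 1}` (nonvanishing for `Re ≥ 0`).  So
`exp(2 Re Gt s) ≥ c'/σ`, i.e. `‖Gt s‖ ≥ Re Gt s ≥ (1/2) log(1/σ) - C`.
For `1/2 ≤ σ ≤ 1` take `C ≥ (1/2) log 2`. -/
theorem lower (α : ℕ → ℂ) (L W : ℂ → ℂ) (hD : Data α L W)
    (Gt : ℂ → ℂ) (hGt : DifferentiableOn ℂ Gt {s : ℂ | 0 < s.re})
    (heq : ∀ s : ℂ, 1 / 2 < s.re → Gt s = GG α s)
    (ρ : ℂ) (hρ1 : 1 ≤ ρ.re) (hρ0 : ρ.im ≠ 0) (hL : L ρ = 0) :
    ∃ C : ℝ, ∀ σ : ℝ, 0 < σ → σ ≤ 1 →
      (1 / 2) * Real.log (1 / σ) - C ≤ ‖Gt (σ + ρ.im * I)‖ := by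
  obtain ⟨R, hR, -, -, hid⟩ := ident α L W hD
  have hident := lower_ident α L W hD Gt hGt heq R hR hid
  have hrhs : ∀ s : ℂ, 0 < s.re →
      2 * W (2 * s) * ZZ s * t2 s * Complex.exp (R s) ≠ 0 := by
    intro s hs
    have h2s : 0 < (2 * s).re := by
      rw [Complex.mul_re]; simp; exact hs
    exact mul_ne_zero (mul_ne_zero (mul_ne_zero (mul_ne_zero two_ne_zero (hD.W_ne _ h2s))
      (ZZ_ne s hs.le)) (t2_ne s (by linarith))) (Complex.exp_ne_zero _)
  -- the real part of the zero is one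
  have hre : ρ.re = 1 := by
    by_contra hne
    have hlt : 0 < (ρ - 1).re := by
      rw [Complex.sub_re, Complex.one_re]
      have : 1 < ρ.re := lt_of_le_of_ne hρ1 (Ne.symm hne)
      linarith
    have h := hident (ρ - 1) hlt
    rw [add_sub_cancel, hL] at h
    apply hrhs (ρ - 1) hlt
    rw [← h]
    simp
  set γ : ℝ := ρ.im with hγ
  have hρeq : ρ = 1 + (γ : ℂ) * I := by
    apply Complex.ext
    · simp [hre]
    · simp [hγ]
  -- bound for `L`
  obtain ⟨M, hM0, hM⟩ : ∃ M : ℝ, 0 < M ∧ ∀ σ : ℝ, 0 < σ → σ ≤ 1 →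
      ‖L (ρ + σ)‖ ≤ M * σ := by
    have hc : Continuous (deriv L) :=
      (hD.L_diff.contDiff (n := 1)).continuous_deriv le_rfl
    obtain ⟨M, hM⟩ := (isCompact_closedBall ρ 1).exists_bound_of_continuousOn hc.continuousOn
    refine ⟨max M 1, lt_of_lt_of_le one_pos (le_max_right _ _), ?_⟩
    intro σ hσ0 hσ1
    have hmem : ρ + (σ : ℂ) ∈ Metric.closedBall ρ 1 := by
      rw [Metric.mem_closedBall, dist_eq_norm, add_sub_cancel_left, Complex.norm_real,
        Real.norm_eq_abs, abs_of_pos hσ0]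
      exact hσ1
    have h := Convex.norm_image_sub_le_of_norm_deriv_le (𝕜 := ℂ) (f := L)
      (C := M) (s := Metric.closedBall ρ 1)
      (fun x _ => hD.L_diff x) hM (convex_closedBall ρ 1)
      (Metric.mem_closedBall_self zero_le_one) hmem
    rw [hL, sub_zero, add_sub_cancel_left, Complex.norm_real, Real.norm_eq_abs,
      abs_of_pos hσ0] at h
    exact h.trans (mul_le_mul_of_nonneg_right (le_max_left _ _) hσ0.le)
  -- upper bound for the left factors
  have hseg : Continuous (fun σ : ℝ => (σ : ℂ) + (γ : ℂ) * I) :=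
    Complex.continuous_ofReal.add continuous_const
  have hseg2 : Continuous (fun σ : ℝ => 2 * ((σ : ℂ) + (γ : ℂ) * I)) :=
    continuous_const.mul hseg
  obtain ⟨A, hA0, hA⟩ : ∃ A : ℝ, 0 < A ∧ ∀ σ : ℝ, 0 < σ → σ ≤ 1 →
      ‖W (σ + γ * I) * ZZ (2 * (σ + γ * I)) * t2 (2 * (σ + γ * I))‖ ≤ A := by
    have hc : Continuous (fun σ : ℝ =>
        W (σ + γ * I) * ZZ (2 * (σ + γ * I)) * t2 (2 * (σ + γ * I))) :=
      ((hD.W_diff.continuous.comp hseg).mul (ZZ_diff.continuous.comp hseg2)).mul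
        (t2_diff.continuous.comp hseg2)
    obtain ⟨A, hA⟩ := (isCompact_Icc (a := (0 : ℝ)) (b := 1)).exists_bound_of_continuousOn
      hc.continuousOn
    refine ⟨max A 1, lt_of_lt_of_le one_pos (le_max_right _ _), ?_⟩
    intro σ hσ0 hσ1
    exact (hA σ ⟨hσ0.le, hσ1⟩).trans (le_max_left _ _)
  -- lower bound for the right factors
  obtain ⟨b, hb0, hb⟩ : ∃ b : ℝ, 0 < b ∧ ∀ σ : ℝ, 0 < σ → σ ≤ 1 →
      b ≤ ‖ZZ (σ + γ * I) * t2 (σ + γ * I) * Complex.exp (R (σ + γ * I))‖ := by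
    have hc : ContinuousOn (fun σ : ℝ =>
        ‖ZZ (σ + γ * I) * t2 (σ + γ * I) * Complex.exp (R (σ + γ * I))‖) (Set.Icc 0 1) := by
      refine ContinuousOn.norm ?_
      refine ((((ZZ_diff.continuous.comp hseg).mul
        (t2_diff.continuous.comp hseg)).continuousOn).mul ?_)
      refine ContinuousOn.cexp ?_
      refine hR.continuousOn.comp hseg.continuousOn ?_
      intro σ hσ
      show -(1 / 10) < ((σ : ℂ) + (γ : ℂ) * I).re
      have : ((σ : ℂ) + (γ : ℂ) * I).re = σ := by simp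
      rw [this]
      have := hσ.1
      linarith
    obtain ⟨σ0, hσ0, hmin⟩ := (isCompact_Icc (a := (0 : ℝ)) (b := 1)).exists_isMinOn
      ⟨0, by constructor <;> norm_num⟩ hc
    refine ⟨_, ?_, fun σ hσa hσb => hmin ⟨hσa.le, hσb⟩⟩
    have hr0 : ((σ0 : ℂ) + (γ : ℂ) * I).re = σ0 := by simp
    have h00 : 0 ≤ σ0 := hσ0.1
    rw [norm_pos_iff]
    exact mul_ne_zero (mul_ne_zero (ZZ_ne _ (by rw [hr0]; exact h00))
      (t2_ne _ (by rw [hr0]; linarith))) (Complex.exp_ne_zero _)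
  obtain ⟨c, hc0, hc⟩ := hD.W_low (2 * γ) (mul_ne_zero two_ne_zero hρ0)
  -- the constant
  set K : ℝ := 4 * c * b / (M ^ 2 * A) with hK
  have hK0 : 0 < K := by positivity
  refine ⟨|(1 / 2) * Real.log K| + (1 / 2) * Real.log 2, ?_⟩
  intro σ hσ0 hσ1
  have hlog2 : 0 ≤ Real.log 2 := Real.log_nonneg (by norm_num)
  rcases le_or_gt σ (1 / 2) with hhalf | hhalf
  · set s : ℂ := (σ : ℂ) + (γ : ℂ) * I with hs
    have hsre : s.re = σ := by simp [hs]
    have hspos : 0 < s.re := by rw [hsre]; exact hσ0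
    have hid' := hident s hspos
    have h1s : 1 + s = ρ + σ := by rw [hρeq, hs]; ring
    rw [h1s] at hid'
    have hn := congrArg norm hid'
    have e1 : ‖L (ρ + σ) ^ 2 * Complex.exp (2 * Gt s) * W s * ZZ (2 * s) * t2 (2 * s)‖
        = ‖L (ρ + σ)‖ ^ 2 * Real.exp (2 * (Gt s).re) *
          ‖W s * ZZ (2 * s) * t2 (2 * s)‖ := by
      have : L (ρ + σ) ^ 2 * Complex.exp (2 * Gt s) * W s * ZZ (2 * s) * t2 (2 * s)
        = L (ρ + σ) ^ 2 * Complex.exp (2 * Gt s) * (W s * ZZ (2 * s) * t2 (2 * s)) := by ring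
      rw [this, norm_mul, norm_mul, norm_pow, Complex.norm_exp]
      congr 3
      simp
    have e2 : ‖2 * W (2 * s) * ZZ s * t2 s * Complex.exp (R s)‖
        = 2 * ‖W (2 * s)‖ * ‖ZZ s * t2 s * Complex.exp (R s)‖ := by
      have : 2 * W (2 * s) * ZZ s * t2 s * Complex.exp (R s)
        = 2 * W (2 * s) * (ZZ s * t2 s * Complex.exp (R s)) := by ring
      rw [this, norm_mul, norm_mul]
      congr 2
      simp
    rw [e1, e2] at hn
    have hW : c * (2 * σ) ≤ ‖W (2 * s)‖ := by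
      have h := hc (2 * σ) (by linarith) (by linarith)
      have h2 : 2 * s = ((2 * σ : ℝ) : ℂ) + ((2 * γ : ℝ) : ℂ) * I := by
        rw [hs]; push_cast; ring
      rw [h2]
      exact h
    have hAs := hA σ hσ0 hσ1
    have hbs := hb σ hσ0 hσ1
    rw [← hs] at hAs hbs
    have hMs := hM σ hσ0 hσ1
    have hE : 0 < Real.exp (2 * (Gt s).re) := Real.exp_pos _
    have hup : ‖L (ρ + σ)‖ ^ 2 * Real.exp (2 * (Gt s).re) *
          ‖W s * ZZ (2 * s) * t2 (2 * s)‖ ≤ (M * σ) ^ 2 * Real.exp (2 * (Gt s).re) * A := by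
      gcongr
    have hlo : 2 * (c * (2 * σ)) * b ≤ 2 * ‖W (2 * s)‖ * ‖ZZ s * t2 s * Complex.exp (R s)‖ := by
      gcongr
    have hmain : 2 * (c * (2 * σ)) * b ≤ (M * σ) ^ 2 * Real.exp (2 * (Gt s).re) * A := by
      linarith
    have hmain2 : K / σ ≤ Real.exp (2 * (Gt s).re) := by
      rw [hK, div_div, div_le_iff₀ (by positivity)]
      have hσσ : σ * (4 * c * b) ≤ σ * (Real.exp (2 * (Gt s).re) * (M ^ 2 * A * σ)) := by
        nlinarith [hmain]
      exact le_of_mul_le_mul_left hσσ hσ0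
    have hlog := Real.log_le_log (by positivity) hmain2
    rw [Real.log_exp, Real.log_div hK0.ne' hσ0.ne'] at hlog
    have hl1 : Real.log (1 / σ) = - Real.log σ := by
      rw [one_div, Real.log_inv]
    have habs : -|(1 / 2) * Real.log K| ≤ (1 / 2) * Real.log K := neg_abs_le _
    have hre2 : (Gt s).re ≤ ‖Gt s‖ := Complex.re_le_norm _
    rw [hl1]
    linarith
  · have hl1 : Real.log (1 / σ) ≤ Real.log 2 := by
      apply Real.log_le_log (by positivity)
      rw [div_le_iff₀ hσ0]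
      linarith
    have h0 := norm_nonneg (Gt (σ + γ * I))
    have habs : 0 ≤ |(1 / 2) * Real.log K| := abs_nonneg _
    linarith

end W3283e1
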