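import Mathlib

set_option autoImplicit false

namespace W3283e1

open Complex MeasureTheory

/-- Holomorphy of a Mellin type transform of a nonnegative function in its half plane of
absolute convergence.  With `μ` the measure `B(t) t^{-1} dt` on `(1,∞)` (`withDensity`) and
`X t = -log t`, the integral is `ProbabilityTheory.complexMGF X μ s`, holomorphic where
`s.re ∈ interior (integrableExpSet X μ)` (`ProbabilityTheory.differentiableOn_complexMGF`).
(Or differentiate under the integral sign with `hasDerivAt_integral_of_dominated_loc_of_deriv_le`: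
near `s` the derivative is dominated by `B t * log t * t^{-(σ+1)} ≤ C B t t^{-(σ'+1)}`,
`σ0 < σ' < σ < s.re`.) -/
theorem param (B : ℝ → ℝ) (hB : Measurable B) (h0 : ∀ t, 1 < t → 0 ≤ B t) (σ0 : ℝ)
    (hint : ∀ σ : ℝ, σ0 < σ → IntegrableOn (fun t : ℝ => B t * t ^ (-(σ + 1))) (Set.Ioi 1)) :
    DifferentiableOn ℂ (fun s : ℂ => ∫ t in Set.Ioi (1 : ℝ), (B t : ℂ) * (t : ℂ) ^ (-(s + 1)))
      {s : ℂ | σ0 < s.re} := by
  intro s0 hs0
  have hs0' : σ0 < s0.re := hs0
  obtain ⟨ε, hε, hεeq⟩ : ∃ ε : ℝ, 0 < ε ∧ s0.re = σ0 + 4 * ε :=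
    ⟨(s0.re - σ0) / 4, by linarith, by ring⟩
  have hnorm : ∀ (s : ℂ) (t : ℝ), 1 < t →
      ‖(B t : ℂ) * (t : ℂ) ^ (-(s + 1))‖ = B t * t ^ (-(s.re + 1)) := by
    intro s t ht
    rw [norm_mul, Complex.norm_cpow_eq_rpow_re_of_pos (by linarith), Complex.norm_real,
      Real.norm_of_nonneg (h0 t ht)]
    simp
  have hmeas : ∀ s : ℂ, Measurable (fun t : ℝ => (B t : ℂ) * (t : ℂ) ^ (-(s + 1))) := by
    intro s
    exact (Complex.measurable_ofReal.comp hB).mul (Complex.measurable_ofReal.pow_const _)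
  have key := hasDerivAt_integral_of_dominated_loc_of_deriv_le
    (μ := volume.restrict (Set.Ioi (1 : ℝ))) (s := Metric.ball s0 ε)
    (F := fun (s : ℂ) (t : ℝ) => (B t : ℂ) * (t : ℂ) ^ (-(s + 1)))
    (F' := fun (s : ℂ) (t : ℝ) => (B t : ℂ) * ((t : ℂ) ^ (-(s + 1)) * Complex.log t * (-1)))
    (x₀ := s0) (bound := fun t => ε⁻¹ * (B t * t ^ (-((σ0 + 2 * ε) + 1))))
    (Metric.ball_mem_nhds s0 hε) ?_ ?_ ?_ ?_ ?_ ?_
  · exact key.2.differentiableAt.differentiableWithinAt
  · exact Filter.Eventually.of_forall fun s => (hmeas s).aestronglyMeasurable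
  · have h1 := hint s0.re hs0'
    refine Integrable.mono' h1 (hmeas s0).aestronglyMeasurable ?_
    refine (ae_restrict_iff' measurableSet_Ioi).2 (Filter.Eventually.of_forall fun t ht => ?_)
    exact (hnorm s0 t ht).le
  · refine Measurable.aestronglyMeasurable ?_
    refine (Complex.measurable_ofReal.comp hB).mul (Measurable.mul (Measurable.mul ?_ ?_) ?_)
    · exact Complex.measurable_ofReal.pow_const _
    · exact Complex.measurable_log.comp Complex.measurable_ofReal
    · exact measurable_const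
  · refine (ae_restrict_iff' measurableSet_Ioi).2 (Filter.Eventually.of_forall fun t ht s hs => ?_)
    have ht1 : 1 < t := ht
    have ht0 : 0 < t := by linarith
    have hlog : 0 ≤ Real.log t := Real.log_nonneg ht1.le
    have hre : σ0 + 3 * ε ≤ s.re := by
      rw [Metric.mem_ball, dist_eq_norm] at hs
      have h1 := (Complex.abs_re_le_norm (s - s0)).trans hs.le
      rw [Complex.sub_re] at h1
      have := (abs_le.1 h1).1
      linarith
    have e1 : ‖(B t : ℂ) * ((t : ℂ) ^ (-(s + 1)) * Complex.log t * (-1))‖ =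
        Real.log t * (B t * t ^ (-(s.re + 1))) := by
      rw [← hnorm s t ht1, ← Complex.ofReal_log ht0.le]
      rw [norm_mul, norm_mul, norm_mul, norm_mul, Complex.norm_real (Real.log t),
        Real.norm_of_nonneg hlog, norm_neg, norm_one]
      ring
    rw [e1]
    have h2 : Real.log t ≤ t ^ ε / ε := Real.log_le_rpow_div ht0.le hε
    have h3 : t ^ (-(s.re + 1)) ≤ t ^ (-(σ0 + 3 * ε + 1)) :=
      Real.rpow_le_rpow_of_exponent_le ht1.le (by linarith)
    have h4 : 0 ≤ B t := h0 t ht1
    calc Real.log t * (B t * t ^ (-(s.re + 1)))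
        ≤ (t ^ ε / ε) * (B t * t ^ (-(σ0 + 3 * ε + 1))) := by
          refine mul_le_mul h2 (mul_le_mul_of_nonneg_left h3 h4) ?_ ?_
          · exact mul_nonneg h4 (Real.rpow_nonneg ht0.le _)
          · exact div_nonneg (Real.rpow_nonneg ht0.le _) hε.le
      _ = ε⁻¹ * (B t * (t ^ ε * t ^ (-(σ0 + 3 * ε + 1)))) := by ring
      _ = ε⁻¹ * (B t * t ^ (-((σ0 + 2 * ε) + 1))) := by
          rw [← Real.rpow_add ht0]
          congr 3
          ring
  · exact (hint (σ0 + 2 * ε) (by linarith)).const_mul _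
  · refine (ae_restrict_iff' measurableSet_Ioi).2 (Filter.Eventually.of_forall fun t ht s _ => ?_)
    have ht1 : 1 < t := ht
    have ht0 : (t : ℂ) ≠ 0 := by
      have : t ≠ 0 := by linarith
      exact_mod_cast this
    have h1 : HasDerivAt (fun s : ℂ => -(s + 1)) (-1) s := by
      exact ((hasDerivAt_id s).add_const (1 : ℂ)).neg
    exact (h1.const_cpow (Or.inl ht0)).const_mul _

end W3283e1
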