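import Pool.Agent.W_MP_3283e1_nt.Step
import Pool.Agent.W_MP_3283e1_nt.Lower

set_option autoImplicit false

namespace W3283e1

open Complex

theorem omega_aux (α : ℕ → ℂ) (L W : ℂ → ℂ) (hD : Data α L W)
    (ρ : ℂ) (hρ1 : 1 ≤ ρ.re) (hρ0 : ρ.im ≠ 0) (hL : L ρ = 0) (η : ℝ) (hη : η = 1 ∨ η = -1)
    (X : ℝ) : ∃ x : ℝ, X ≤ x ∧
        1 / (4 * (|ρ.im| + 1)) / Real.log x <
          η * (AA α x - Real.log (Real.sqrt 2 / (L 1).re)) := by
  by_contra hcon
  push Not at hcon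
  have hg : 0 < |ρ.im| + 1 := by positivity
  have hc : 0 < 1 / (4 * (|ρ.im| + 1)) := by positivity
  obtain ⟨Gt, h1, h2, h3⟩ := step α L W hD η (1 / (4 * (|ρ.im| + 1))) (max X 3) hη hc
    (le_max_right _ _) (fun x hx => hcon x ((le_max_left _ _).trans hx))
  obtain ⟨C, hC⟩ := h3 ρ.im hρ0
  obtain ⟨C', hC'⟩ := lower α L W hD Gt h1 h2 ρ hρ1 hρ0 hL
  set T : ℝ := max 0 (4 * (C + C') + 1) with hT
  have hT0 : 0 ≤ T := le_max_left _ _
  have hT1 : 4 * (C + C') + 1 ≤ T := le_max_right _ _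
  have h4 := hC (Real.exp (-T)) (Real.exp_pos _) (Real.exp_le_one_iff.2 (by linarith))
  have h5 := hC' (Real.exp (-T)) (Real.exp_pos _) (Real.exp_le_one_iff.2 (by linarith))
  have e1 : Real.log (1 / Real.exp (-T)) = T := by
    rw [one_div, ← Real.exp_neg, neg_neg, Real.log_exp]
  rw [e1] at h4 h5
  have e2 : (|ρ.im| + 1) * (1 / (4 * (|ρ.im| + 1))) * T = T / 4 := by
    field_simp
  rw [e2] at h4
  linarith

/-- The abstract oscillation theorem.  Take `c = 1/(4(|γ|+1))`, `γ = ρ.im`.  If, for `η = 1` or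
`η = -1`, there is no `x ≥ X` with `η (AA x - lC) > c / log x` (enlarge `X` to be at
least `3`), then `step` gives `‖Gt(σ+iγ)‖ ≤ (1/4) log(1/σ) + C`, while `lower` gives
`(1/2) log(1/σ) - C'`; contradiction as `σ → 0+`. -/
theorem omega_AA (α : ℕ → ℂ) (L W : ℂ → ℂ) (hD : Data α L W)
    (ρ : ℂ) (hρ1 : 1 ≤ ρ.re) (hρ0 : ρ.im ≠ 0) (hL : L ρ = 0) :
    ∃ c : ℝ, 0 < c ∧
      (∀ X : ℝ, ∃ x : ℝ, X ≤ x ∧
        c / Real.log x < AA α x - Real.log (Real.sqrt 2 / (L 1).re)) ∧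
      (∀ X : ℝ, ∃ x : ℝ, X ≤ x ∧
        AA α x - Real.log (Real.sqrt 2 / (L 1).re) < -(c / Real.log x)) := by
  refine ⟨1 / (4 * (|ρ.im| + 1)), by positivity, ?_, ?_⟩
  · intro X
    obtain ⟨x, hx, h⟩ := omega_aux α L W hD ρ hρ1 hρ0 hL 1 (Or.inl rfl) X
    refine ⟨x, hx, ?_⟩
    linarith
  · intro X
    obtain ⟨x, hx, h⟩ := omega_aux α L W hD ρ hρ1 hρ0 hL (-1) (Or.inr rfl) X
    refine ⟨x, hx, ?_⟩
    linarith

open Classical in
/-- The partial Euler product over the odd primes. -/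
noncomputable def PP (α : ℕ → ℂ) (x : ℝ) : ℝ :=
  ∏ p ∈ (Finset.range (⌊x⌋₊ + 1)).filter (fun p => p.Prime ∧ p ≠ 2),
    (((p : ℝ) + 1 - 2 * (α p).re) / p)

/-- `PP = exp AA` (all factors positive by `ratio_pos`). -/
theorem PP_eq (α : ℕ → ℂ) (hα : ∀ p : ℕ, p.Prime → p ≠ 2 → ‖α p‖ ^ 2 = p) (x : ℝ) :
    PP α x = Real.exp (AA α x) := by
  classical
  unfold PP AA
  rw [Real.exp_sum]
  have h1 : (Finset.range (⌊x⌋₊ + 1)).filter (fun p => p.Prime ∧ p ≠ 2) =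
      (Finset.Icc 1 ⌊x⌋₊).filter (fun p => p.Prime ∧ p ≠ 2) := by
    ext p
    simp only [Finset.mem_filter, Finset.mem_range, Finset.mem_Icc]
    constructor
    · rintro ⟨h2, h3⟩
      exact ⟨⟨h3.1.one_lt.le, by omega⟩, h3⟩
    · rintro ⟨h2, h3⟩
      exact ⟨by omega, h3⟩
  have h2 : ∏ n ∈ Finset.Icc 1 ⌊x⌋₊, Real.exp (el α n) =
      ∏ n ∈ (Finset.Icc 1 ⌊x⌋₊).filter (fun p => p.Prime ∧ p ≠ 2), Real.exp (el α n) := by
    symm
    apply Finset.prod_subset (Finset.filter_subset _ _)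
    intro n hn hn'
    have h3 : ¬ (n.Prime ∧ n ≠ 2) := fun h => hn' (Finset.mem_filter.2 ⟨hn, h⟩)
    unfold el
    rw [if_neg h3, Real.exp_zero]
  rw [h2]
  have h4 : ∀ n ∈ (Finset.Icc 1 ⌊x⌋₊).filter (fun p => p.Prime ∧ p ≠ 2),
      ((n : ℝ) + 1 - 2 * (α n).re) / n = Real.exp (el α n) := by
    intro n hn
    have h3 := (Finset.mem_filter.1 hn).2
    unfold el
    rw [if_pos h3]
    unfold ell
    rw [Real.exp_log (ratio_pos (α n) n h3.1 (hα n h3.1 h3.2))]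
  rw [← Finset.prod_congr rfl h4]
  apply Finset.prod_congr
  · convert h1
  · intro n _
    rfl

theorem omega_exp_neg {y : ℝ} (h0 : 0 ≤ y) (h1 : y ≤ 1) : Real.exp (-y) ≤ 1 - y / 2 := by
  have h2 := Real.add_one_le_exp y
  rw [Real.exp_neg, inv_le_comm₀ (Real.exp_pos _) (by linarith)]
  refine le_trans ?_ h2
  rw [inv_le_iff_one_le_mul₀ (by linarith)]
  nlinarith

/-- Product form of `omega_AA`, with the constant of Goldfeld.  `exp y ≥ 1 + y`, and
`exp(-y) ≤ 1 - y/2` for `0 ≤ y ≤ 1`; so the constant `c/2` works for both (take `x ≥ e^c`, `x ≥ 3`).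
-/
theorem omega_PP (α : ℕ → ℂ) (L W : ℂ → ℂ) (hD : Data α L W)
    (ρ : ℂ) (hρ1 : 1 ≤ ρ.re) (hρ0 : ρ.im ≠ 0) (hL : L ρ = 0) :
    ∃ c : ℝ, 0 < c ∧
      (∀ X : ℝ, ∃ x : ℝ, X ≤ x ∧
        Real.sqrt 2 / (L 1).re * (1 + c / Real.log x) ≤ PP α x) ∧
      (∀ X : ℝ, ∃ x : ℝ, X ≤ x ∧
        PP α x ≤ Real.sqrt 2 / (L 1).re * (1 - c / Real.log x)) := by
  obtain ⟨c, hc, h1, h2⟩ := omega_AA α L W hD ρ hρ1 hρ0 hL
  have hL1 : 0 < (L 1).re := by
    have := (hD.L_pos 1 le_rfl).1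
    simpa using this
  have hC0 : 0 < Real.sqrt 2 / (L 1).re := by positivity
  have hPP : ∀ x, PP α x = Real.sqrt 2 / (L 1).re *
      Real.exp (AA α x - Real.log (Real.sqrt 2 / (L 1).re)) := by
    intro x
    rw [PP_eq α hD.norm_α, Real.exp_sub, Real.exp_log hC0]
    field_simp
  refine ⟨c / 2, by positivity, ?_, ?_⟩
  · intro X
    obtain ⟨x, hx, h3⟩ := h1 (max X 3)
    refine ⟨x, (le_max_left _ _).trans hx, ?_⟩
    have hx3 : 3 ≤ x := (le_max_right _ _).trans hx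
    have hlog : 0 < Real.log x := Real.log_pos (by linarith)
    rw [hPP]
    apply mul_le_mul_of_nonneg_left _ hC0.le
    have h4 := Real.add_one_le_exp (AA α x - Real.log (Real.sqrt 2 / (L 1).re))
    have h5 : c / 2 / Real.log x ≤ c / Real.log x := by
      apply div_le_div_of_nonneg_right _ hlog.le
      linarith
    linarith
  · intro X
    obtain ⟨x, hx, h3⟩ := h2 (max X (max 3 (Real.exp c)))
    refine ⟨x, (le_max_left _ _).trans hx, ?_⟩
    have hx' : max 3 (Real.exp c) ≤ x := (le_max_right _ _).trans hx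
    have hx3 : 3 ≤ x := (le_max_left _ _).trans hx'
    have hxc : Real.exp c ≤ x := (le_max_right _ _).trans hx'
    have hlog : 0 < Real.log x := Real.log_pos (by linarith)
    have hlogc : c ≤ Real.log x := by
      rw [Real.le_log_iff_exp_le (by linarith)]
      exact hxc
    rw [hPP]
    apply mul_le_mul_of_nonneg_left _ hC0.le
    have hy0 : 0 ≤ c / Real.log x := by positivity
    have hy1 : c / Real.log x ≤ 1 := by
      rw [div_le_one hlog]
      exact hlogc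
    calc Real.exp (AA α x - Real.log (Real.sqrt 2 / (L 1).re))
        ≤ Real.exp (-(c / Real.log x)) := Real.exp_le_exp.2 h3.le
      _ ≤ 1 - c / Real.log x / 2 := omega_exp_neg hy0 hy1
      _ = 1 - c / 2 / Real.log x := by ring

end W3283e1
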