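import Pool.Agent.W_MP_3283e1_nt.WfunB
import Pool.Agent.W_MP_3283e1_nt.CntAll
import Pool.Agent.W_MP_3283e1_nt.Omega

set_option autoImplicit false

namespace W3283e1

open Complex

/-- The data of the four curves. -/
theorem data_inst (j : ℕ) (hj : j = 0 ∨ j = 1) : Data (alpha j) (LE j) WW := by
  have hj' : j = 0 ∨ j = 1 ∨ j = 2 := by
    rcases hj with h | h
    · exact Or.inl h
    · exact Or.inr (Or.inl h)
  exact
    { norm_α := fun p hp h2 => norm_alpha j p hp h2
      L_diff := LE_diff j hj'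
      L_prod := fun s hs => by
        rw [LE_eq01 j hj s hs]
        exact (euler_cE j s hs).2
      L_pos := fun σ hσ => LE_pos j hj' σ (by linarith)
      W_diff := WW_diff
      W_prod := fun w hw => WW_prod j w hw
      W_pos := fun σ hσ => WW_pos σ hσ
      W_ne := fun w hw => WW_ne w hw
      W_low := fun γ _ => WW_low γ }

/-- The oscillation theorem for the products of the `alpha j`. -/
theorem omega_inst (j : ℕ) (hj : j = 0 ∨ j = 1) :
    ∃ c : ℝ, 0 < c ∧
      (∀ X : ℝ, ∃ x : ℝ, X ≤ x ∧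
        Real.sqrt 2 / (LE j 1).re * (1 + c / Real.log x) ≤ PP (alpha j) x) ∧
      (∀ X : ℝ, ∃ x : ℝ, X ≤ x ∧
        PP (alpha j) x ≤ Real.sqrt 2 / (LE j 1).re * (1 - c / Real.log x)) := by
  obtain ⟨ρ, h1, h2, h3⟩ := LE_zero j hj
  exact omega_PP (alpha j) (LE j) WW (data_inst j hj) ρ h1 h2 h3

end W3283e1
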