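import Pool.Agent.W_MP_3283e1_nt.Wfun

set_option autoImplicit false

namespace W3283e1

open Complex

/-- An elementary inequality for one Euler factor. -/
theorem wfunB_one (u : ℂ) (r : ℝ) (hr : r < 1) (hu : ‖u‖ = r) :
    0 < ‖1 - u‖ ∧ ‖1 - u‖ * (1 - r) ≤ 1 := by
  have hr0 : 0 ≤ r := hu ▸ norm_nonneg u
  have h1 : ‖1 - u‖ ≤ 1 + r := by
    have h := norm_sub_le (1 : ℂ) u
    rwa [norm_one, hu] at h
  have h2 : 1 - r ≤ ‖1 - u‖ := by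
    have h := norm_sub_norm_le (1 : ℂ) u
    rwa [norm_one, hu] at h
  exact ⟨by linarith, by nlinarith⟩

theorem wfunB_inv (a b : ℂ) (ha : 0 < ‖a‖) (hb : 0 < ‖b‖) (h : ‖a‖ * ‖b‖ ≤ 1) :
    1 ≤ ‖a⁻¹ * b⁻¹‖ := by
  rw [← mul_inv, norm_inv, norm_mul]
  exact (one_le_inv₀ (mul_pos ha hb)).2 h

/-- The local estimate. -/
theorem wfunB_local (w : ℂ) (hw : 0 < w.re) (p : ℕ) (hp : p.Prime) :
    1 ≤ ‖(fC 2 p (2 + w))⁻¹ * (fC 0 p ((1 + w.re : ℝ) : ℂ))⁻¹‖ := by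
  have hp0 : 0 < p := hp.pos
  have hp0' : (0 : ℝ) < p := by exact_mod_cast hp0
  have hp1 : (1 : ℝ) < p := by exact_mod_cast hp.one_lt
  set ρ := w.re with hρ
  set r : ℝ := (p : ℝ) ^ (-(1 + ρ)) with hr
  have hr0 : 0 < r := Real.rpow_pos_of_pos hp0' _
  have hr1 : r < 1 := Real.rpow_lt_one_of_one_lt_of_neg hp1 (by linarith)
  have hr2 : r ^ 2 < 1 := by nlinarith
  -- the powers
  have e1 : (p : ℂ) ^ (-((1 + ρ : ℝ) : ℂ)) = (r : ℂ) := by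
    rw [hr, Complex.ofReal_cpow hp0'.le]
    push_cast
    rfl
  have e2 : (p : ℂ) ^ (-(2 * ((1 + ρ : ℝ) : ℂ))) = ((r ^ 2 : ℝ) : ℂ) := by
    have h : (-(2 * ((1 + ρ : ℝ) : ℂ))) = ((-(1 + ρ) * (2 : ℕ) : ℝ) : ℂ) := by
      push_cast; ring
    rw [h, hr, ← Real.rpow_natCast, ← Real.rpow_mul hp0'.le, Complex.ofReal_cpow hp0'.le]
    push_cast
    rfl
  have n1 : ‖(p : ℂ) ^ (-(2 + w))‖ = (p : ℝ) ^ (-(2 + ρ)) := by
    rw [Complex.norm_natCast_cpow_of_pos hp0]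
    congr 1
  have n2 : ‖(p : ℂ) ^ (-(2 * (2 + w)))‖ = (p : ℝ) ^ (-(2 * (2 + ρ))) := by
    rw [Complex.norm_natCast_cpow_of_pos hp0]
    congr 1
    simp [hρ]
  have m1 : (p : ℝ) * (p : ℝ) ^ (-(2 + ρ)) = r := by
    rw [hr, ← Real.rpow_one_add' hp0'.le (by linarith)]
    congr 1
    ring
  have m2 : (p : ℝ) ^ 2 * (p : ℝ) ^ (-(2 * (2 + ρ))) = r ^ 2 := by
    rw [← m1, mul_pow, ← Real.rpow_natCast ((p : ℝ) ^ (-(2 + ρ))) 2, ← Real.rpow_mul hp0'.le]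
    congr 2
    push_cast
    ring
  by_cases h4 : p % 4 = 1
  · have hz := norm_cz p (zp p) (zp_mem p hp h4)
    have u1 : ‖cz (zp p) ^ 2 * (p : ℂ) ^ (-(2 + w))‖ = r := by
      rw [norm_mul, norm_pow, hz, n1, m1]
    have u2 : ‖(starRingEnd ℂ (cz (zp p))) ^ 2 * (p : ℂ) ^ (-(2 + w))‖ = r := by
      rw [norm_mul, norm_pow, RCLike.norm_conj, hz, n1, m1]
    obtain ⟨a1, b1⟩ := wfunB_one _ r hr1 u1
    obtain ⟨a2, b2⟩ := wfunB_one _ r hr1 u2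
    have f2 : fC 2 p (2 + w) = (1 - cz (zp p) ^ 2 * (p : ℂ) ^ (-(2 + w))) *
        (1 - (starRingEnd ℂ (cz (zp p))) ^ 2 * (p : ℂ) ^ (-(2 + w))) := by
      rw [fC, if_pos h4]
    have f0 : fC 0 p ((1 + ρ : ℝ) : ℂ) = (((1 - r) * (1 - r) : ℝ) : ℂ) := by
      rw [fC, if_pos h4, e1]
      push_cast
      ring
    rw [f2, f0]
    have n0 : ‖(((1 - r) * (1 - r) : ℝ) : ℂ)‖ = (1 - r) * (1 - r) := by
      rw [Complex.norm_real, Real.norm_of_nonneg (by nlinarith)]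
    refine wfunB_inv _ _ ?_ ?_ ?_
    · rw [norm_mul]; positivity
    · rw [n0]; nlinarith
    · rw [n0, norm_mul]
      have c1 : 0 ≤ ‖1 - cz (zp p) ^ 2 * (p : ℂ) ^ (-(2 + w))‖ * (1 - r) :=
        mul_nonneg a1.le (by linarith)
      have c2 : 0 ≤ ‖1 - (starRingEnd ℂ (cz (zp p))) ^ 2 * (p : ℂ) ^ (-(2 + w))‖ * (1 - r) :=
        mul_nonneg a2.le (by linarith)
      nlinarith [mul_le_mul b1 b2 c2 zero_le_one]
  · have u1 : ‖(-(p : ℂ)) ^ 2 * (p : ℂ) ^ (-(2 * (2 + w)))‖ = r ^ 2 := by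
      rw [norm_mul, norm_pow, norm_neg, Complex.norm_natCast, n2, m2]
    obtain ⟨a1, b1⟩ := wfunB_one _ (r ^ 2) hr2 u1
    have f2 : fC 2 p (2 + w) = 1 - (-(p : ℂ)) ^ 2 * (p : ℂ) ^ (-(2 * (2 + w))) := by
      rw [fC, if_neg h4]
    have f0 : fC 0 p ((1 + ρ : ℝ) : ℂ) = ((1 - r ^ 2 : ℝ) : ℂ) := by
      rw [fC, if_neg h4, e2]
      push_cast
      ring
    rw [f2, f0]
    have n0 : ‖((1 - r ^ 2 : ℝ) : ℂ)‖ = 1 - r ^ 2 := by
      rw [Complex.norm_real, Real.norm_of_nonneg (by linarith)]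
    refine wfunB_inv _ _ a1 ?_ ?_
    · rw [n0]; linarith
    · rw [n0]; exact b1

/-- Lower bound: for `ρ = Re w > 0` compare `euler_cc` for `k = 2` at `2 + w` with `k = 0` at
`1 + ρ`: for each `p`, `‖(fC 2 p (2+w))⁻¹‖ * ‖(fC 0 p (1+ρ))⁻¹‖ ≥ 1`, since
`‖1 - u‖ ≤ 1 + |u| ≤ (1 - |u|)⁻¹` for `|u| < 1` with `|u| = p^{-1-ρ}` (twice) or `p^{-2-2ρ}`.
All finite subproducts are at least `1`, hence so is the limit. -/
theorem H_low (w : ℂ) (hw : 0 < w.re) :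
    1 ≤ ‖LE 2 (2 + w)‖ * ‖LSeries (cc 0) ((1 + w.re : ℝ) : ℂ)‖ := by
  have h2 : (2 : ℝ) < (2 + w).re := by simp [hw]
  rw [LE_eq2 _ h2]
  have p2 := euler_cc 2 (2 + w) (by simp only [Nat.cast_ofNat]; linarith)
  have p0 := euler_cc 0 ((1 + w.re : ℝ) : ℂ) (by
    rw [Complex.ofReal_re]; simp [hw])
  have hm := p2.mul p0
  rw [← norm_mul]
  refine ge_of_tendsto' (Filter.Tendsto.norm hm) fun s => ?_
  rw [norm_prod]
  exact Finset.one_le_prod fun p _ => wfunB_local w hw p p.2.1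

/-- `∑ cc 0 m m^{-s} = ζ(s) (1 - 2^{-s}) L4 s` for `Re s > 1`: compare Euler products
(`fC 0 p s = (1 - p^{-s}) (1 - sg p p^{-s})`). -/
theorem cc0_eq (s : ℂ) (hs : 1 < s.re) :
    LSeries (cc 0) s = riemannZeta s * (1 - (2 : ℂ) ^ (-s)) * L4 s := by
  have p0 := euler_cc 0 s (by simpa using hs)
  have p1 := (zeta_prod s hs).mul (L4_prod s hs)
  refine p0.unique ?_
  convert p1 using 1
  funext p
  rw [← mul_inv]
  congr 1
  unfold fC sg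
  by_cases h4 : (p : ℕ) % 4 = 1
  · rw [if_pos h4, if_pos h4]
    ring
  · rw [if_neg h4, if_neg h4]
    have h : ((p : ℕ) : ℂ) ^ (-(2 * s)) = (((p : ℕ) : ℂ) ^ (-s)) ^ 2 := by
      rw [← Complex.cpow_nat_mul]
      congr 1
      push_cast
      ring
    rw [h]
    ring

/-- `H_low` and `L4_ne`. -/
theorem WW_ne (w : ℂ) (hw : 0 < w.re) : WW w ≠ 0 := by
  unfold WW
  refine mul_ne_zero ?_ (L4_ne _ (by simp [hw.le]))
  intro h
  have := H_low w hw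
  rw [h, norm_zero, zero_mul] at this
  linarith

/-- `H_low`, `cc0_eq`: `‖LSeries (cc 0) (1+σ)‖ ≤ C/σ` for `0 < σ ≤ 1` (as `ZZ`, `L4` and
`1 - 2^{-s}` are bounded on `[0,1]` resp. `[1,2]`), and `‖L4(1+σ+iγ)‖` is bounded below on
`0 ≤ σ ≤ 1` by continuity and `L4_ne`. -/
theorem WW_low (γ : ℝ) : ∃ c : ℝ, 0 < c ∧ ∀ σ : ℝ, 0 < σ → σ ≤ 1 →
    c * σ ≤ ‖WW (σ + γ * I)‖ := by
  have hL : Continuous L4 := L4_diff.continuous
  -- upper bound of the comparison function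
  have hc1 : Continuous fun σ : ℝ => ZZ σ * t2 σ * L4 (1 + σ) := by
    have h1 : Continuous fun σ : ℝ => ZZ σ := ZZ_diff.continuous.comp Complex.continuous_ofReal
    have h2 : Continuous fun σ : ℝ => t2 σ := t2_diff.continuous.comp Complex.continuous_ofReal
    have h3 : Continuous fun σ : ℝ => L4 (1 + σ) :=
      hL.comp (continuous_const.add Complex.continuous_ofReal)
    exact (h1.mul h2).mul h3
  obtain ⟨M, hM⟩ := (isCompact_Icc (a := (0 : ℝ)) (b := 1)).exists_bound_of_continuousOn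
    hc1.continuousOn
  -- lower bound of L4
  have hc2 : Continuous fun σ : ℝ => ‖L4 (1 + (σ + γ * I))‖ :=
    (hL.comp (continuous_const.add (Complex.continuous_ofReal.add continuous_const))).norm
  obtain ⟨σ₀, hσ₀, hmin⟩ := (isCompact_Icc (a := (0 : ℝ)) (b := 1)).exists_isMinOn
    ⟨0, by simp⟩ hc2.continuousOn
  set m := ‖L4 (1 + (σ₀ + γ * I))‖ with hm
  have hm0 : 0 < m := by
    rw [hm, norm_pos_iff]
    apply L4_ne
    simp [hσ₀.1]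
  refine ⟨m / (max M 1), div_pos hm0 (lt_of_lt_of_le one_pos (le_max_right _ _)),
    fun σ h0 h1 => ?_⟩
  have hM0 : 0 < max M 1 := lt_of_lt_of_le one_pos (le_max_right _ _)
  have hre : ((σ : ℂ) + γ * I).re = σ := by simp
  have hlow := H_low (σ + γ * I) (by rw [hre]; exact h0)
  rw [hre] at hlow
  have hcc := cc0_eq ((1 + σ : ℝ) : ℂ) (by rw [Complex.ofReal_re]; linarith)
  have hσ0 : (σ : ℂ) ≠ 0 := by exact_mod_cast h0.ne'
  have hprod : (σ : ℂ) * LSeries (cc 0) ((1 + σ : ℝ) : ℂ) = ZZ σ * t2 σ * L4 (1 + σ) := by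
    rw [hcc, ZZ, if_neg hσ0, t2]
    push_cast
    rw [show (-(1 + (σ : ℂ))) = -1 - σ by ring]
    ring
  have hbd : σ * ‖LSeries (cc 0) ((1 + σ : ℝ) : ℂ)‖ ≤ max M 1 := by
    have h2 := hM σ ⟨h0.le, h1⟩
    rw [← hprod, norm_mul, Complex.norm_real, Real.norm_of_nonneg h0.le] at h2
    exact h2.trans (le_max_left _ _)
  have hE : σ ≤ max M 1 * ‖LE 2 (2 + (σ + γ * I))‖ := by
    calc σ = σ * 1 := (mul_one _).symm
      _ ≤ σ * (‖LE 2 (2 + (σ + γ * I))‖ * ‖LSeries (cc 0) ((1 + σ : ℝ) : ℂ)‖) :=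
          mul_le_mul_of_nonneg_left hlow h0.le
      _ = (σ * ‖LSeries (cc 0) ((1 + σ : ℝ) : ℂ)‖) * ‖LE 2 (2 + (σ + γ * I))‖ := by ring
      _ ≤ max M 1 * ‖LE 2 (2 + (σ + γ * I))‖ := mul_le_mul_of_nonneg_right hbd (norm_nonneg _)
  have hmσ : m ≤ ‖L4 (1 + (σ + γ * I))‖ := hmin ⟨h0.le, h1⟩
  unfold WW
  rw [norm_mul, div_mul_eq_mul_div, div_le_iff₀ hM0]
  calc m * σ ≤ ‖L4 (1 + (σ + γ * I))‖ * (max M 1 * ‖LE 2 (2 + (σ + γ * I))‖) :=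
        mul_le_mul hmσ hE h0.le (norm_nonneg _)
    _ = ‖LE 2 (2 + (σ + γ * I))‖ * ‖L4 (1 + (σ + γ * I))‖ * max M 1 := by ring

end W3283e1
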