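import Pool.Agent.W_MP_3283e1_nt.Prim

set_option autoImplicit false

namespace W3283e1

open Complex

theorem latt_bound (τ : ℝ) (hτ : 1 < τ) (z : ℤ × ℤ) :
    ((z.1 : ℝ) ^ 2 + (z.2 : ℝ) ^ 2) ^ (-τ) ≤ ‖(![z.1, z.2] : Fin 2 → ℤ)‖ ^ (-(2 * τ)) := by
  by_cases hz : z = 0
  · subst hz
    have h1 : (((0 : ℤ × ℤ).1 : ℝ) ^ 2 + ((0 : ℤ × ℤ).2 : ℝ) ^ 2) ^ (-τ) = 0 := by
      have h2 : (((0 : ℤ × ℤ).1 : ℝ) ^ 2 + ((0 : ℤ × ℤ).2 : ℝ) ^ 2) = 0 := by simp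
      rw [h2]
      exact Real.zero_rpow (by linarith)
    rw [h1]
    positivity
  · have hne : (![z.1, z.2] : Fin 2 → ℤ) ≠ 0 := by
      intro h
      apply hz
      have h0 := congrFun h 0
      have h1 := congrFun h 1
      simp at h0 h1
      exact Prod.ext h0 h1
    have hpos : 0 < ‖(![z.1, z.2] : Fin 2 → ℤ)‖ := norm_pos_iff.mpr hne
    have hle : ‖(![z.1, z.2] : Fin 2 → ℤ)‖ ^ 2 ≤ (z.1 : ℝ) ^ 2 + (z.2 : ℝ) ^ 2 := by
      have h2 : ‖(![z.1, z.2] : Fin 2 → ℤ)‖ ≤ Real.sqrt ((z.1 : ℝ) ^ 2 + (z.2 : ℝ) ^ 2) := by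
        rw [pi_norm_le_iff_of_nonneg (Real.sqrt_nonneg _)]
        intro i
        refine Real.le_sqrt_of_sq_le ?_
        fin_cases i
        · simp [Int.norm_eq_abs]
          positivity
        · simp [Int.norm_eq_abs]
          positivity
      have h3 := pow_le_pow_left₀ (norm_nonneg _) h2 2
      rwa [Real.sq_sqrt (by positivity)] at h3
    have h4 : ‖(![z.1, z.2] : Fin 2 → ℤ)‖ ^ (-(2 * τ)) =
        (‖(![z.1, z.2] : Fin 2 → ℤ)‖ ^ 2) ^ (-τ) := by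
      rw [← Real.rpow_natCast, ← Real.rpow_mul (norm_nonneg _)]
      congr 1
      push_cast
      ring
    rw [h4]
    exact Real.rpow_le_rpow_of_nonpos (by positivity) hle (by linarith)

theorem latt_summable (τ : ℝ) (hτ : 1 < τ) :
    Summable (fun z : ℤ × ℤ => ((z.1 : ℝ) ^ 2 + (z.2 : ℝ) ^ 2) ^ (-τ)) := by
  have h1 : Summable (fun x : Fin 2 → ℤ => ‖x‖ ^ (-(2 * τ))) :=
    EisensteinSeries.summable_one_div_norm_rpow (by linarith)
  have hinj : Function.Injective (fun z : ℤ × ℤ => (![z.1, z.2] : Fin 2 → ℤ)) := by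
    intro a b h
    have h0 := congrFun h 0
    have h1 := congrFun h 1
    simp at h0 h1
    exact Prod.ext h0 h1
  refine Summable.of_nonneg_of_le (fun z => by positivity) (fun z => latt_bound τ hτ z)
    (h1.comp_injective hinj)

/-- Summability over the lattice: `∑_{(A,B) ≠ 0} (A²+B²)^{-τ} < ∞` for `τ > 1`
(`EisensteinSeries.summable_one_div_norm_rpow` with the sup norm on `Fin 2 → ℤ`, exponent `2τ`,
and `A²+B² ≥ max(|A|,|B|)²`), regrouped by the value `m` of the norm. -/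
theorem card_summable (τ : ℝ) (hτ : 1 < τ) :
    Summable (fun m : ℕ => ((prF m).card : ℝ) * (m : ℝ) ^ (-τ)) := by
  have h1 := latt_summable τ hτ
  have hnorm : ∀ (m : ℕ) (z : ℤ × ℤ), z ∈ prF m → (z.1 : ℝ) ^ 2 + (z.2 : ℝ) ^ 2 = m := by
    intro m z hz
    have h2 := ((mem_prF m z).mp hz).2.2
    exact_mod_cast h2
  have hinj : Function.Injective (fun x : (Σ m : ℕ, {z // z ∈ prF m}) => (x.2 : ℤ × ℤ)) := by
    rintro ⟨m, z, hz⟩ ⟨m', z', hz'⟩ h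
    simp only at h
    subst h
    have h2 : (m : ℝ) = m' := (hnorm m z hz).symm.trans (hnorm m' z hz')
    have h3 : m = m' := by exact_mod_cast h2
    subst h3
    rfl
  have h4 := (h1.comp_injective hinj).sigma
  refine h4.congr fun m => ?_
  have h5 : ∑' z : {z // z ∈ prF m}, (((z : ℤ × ℤ).1 : ℝ) ^ 2 + ((z : ℤ × ℤ).2 : ℝ) ^ 2) ^ (-τ) =
      ∑ z ∈ prF m, ((z.1 : ℝ) ^ 2 + (z.2 : ℝ) ^ 2) ^ (-τ) :=
    Finset.tsum_subtype (prF m) (fun z : ℤ × ℤ => ((z.1 : ℝ) ^ 2 + (z.2 : ℝ) ^ 2) ^ (-τ))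
  have h6 : ∑ z ∈ prF m, ((z.1 : ℝ) ^ 2 + (z.2 : ℝ) ^ 2) ^ (-τ) =
      ((prF m).card : ℝ) * (m : ℝ) ^ (-τ) := by
    rw [Finset.sum_congr rfl (fun z hz => by rw [hnorm m z hz]), Finset.sum_const, nsmul_eq_mul]
  exact h5.trans h6

/-- `norm_cc_le` and `card_summable` with `τ = Re s - k/2`. -/
theorem cc_summable (k : ℕ) (s : ℂ) (hs : 1 + (k : ℝ) / 2 < s.re) :
    LSeriesSummable (cc k) s := by
  have h1 := card_summable (s.re - (k : ℝ) / 2) (by linarith)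
  refine Summable.of_norm_bounded h1 fun n => ?_
  rw [LSeries.norm_term_eq]
  by_cases hn : n = 0
  · rw [if_pos hn]
    positivity
  · rw [if_neg hn]
    have hn' : 0 < (n : ℝ) := by exact_mod_cast Nat.pos_of_ne_zero hn
    have h2 := norm_cc_le k n
    have h3 : (n : ℝ) ^ (-(s.re - (k : ℝ) / 2)) = (n : ℝ) ^ ((k : ℝ) / 2) * (n : ℝ) ^ (-s.re) := by
      rw [← Real.rpow_add hn']
      congr 1
      ring
    rw [h3, ← mul_assoc, div_eq_mul_inv, ← Real.rpow_neg hn'.le]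
    exact mul_le_mul_of_nonneg_right h2 (by positivity)

end W3283e1
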