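import Pool.Agent.W_MP_3283e1_nt.Prim

set_option autoImplicit false

namespace W3283e1

open Complex

/-- `A² + B² = p` is impossible mod `4`. -/
theorem cc_p3 (k p : ℕ) (hp : p.Prime) (h3 : p % 4 = 3) : cc k p = 0 := by
  unfold cc
  have h0 : prF p = ∅ := by
    rw [Finset.eq_empty_iff_forall_notMem]
    rintro ⟨a, b⟩ hz
    rw [mem_prF] at hz
    obtain ⟨h1, h2, h4⟩ := hz
    simp only at h1 h2 h4
    obtain ⟨c, rfl⟩ : ∃ c, b = 2 * c := ⟨b / 2, by omega⟩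
    obtain ⟨d, rfl⟩ : ∃ d, a = 2 * d + 1 := ⟨(a - 1) / 2, by omega⟩
    have h5 : (p : ℤ) = 4 * (d ^ 2 + d + c ^ 2) + 1 := by rw [← h4]; ring
    omega
  rw [h0, Finset.sum_empty]

/-- Divisibility by a prime `p ≡ 3 mod 4`. -/
theorem pp3_dvd (p : ℕ) (hp : p.Prime) (h3 : p % 4 = 3) (a b : ℤ)
    (h : (p : ℤ) ∣ a ^ 2 + b ^ 2) : (p : ℤ) ∣ a ∧ (p : ℤ) ∣ b := by
  haveI : Fact p.Prime := ⟨hp⟩
  have h1 : ((a : ZMod p)) ^ 2 = -(b : ZMod p) ^ 2 := by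
    have h2 := (ZMod.intCast_zmod_eq_zero_iff_dvd (a ^ 2 + b ^ 2) p).2 h
    push_cast at h2
    exact eq_neg_of_add_eq_zero_left h2
  have hb : (b : ZMod p) = 0 := by
    by_contra hb
    exact ZMod.mod_four_ne_three_of_sq_eq_neg_sq' hb h1 h3
  have ha : (a : ZMod p) = 0 := by
    rw [hb] at h1
    simpa using h1
  exact ⟨(ZMod.intCast_zmod_eq_zero_iff_dvd a p).1 ha, (ZMod.intCast_zmod_eq_zero_iff_dvd b p).1 hb⟩

/-- The map `z ↦ -p z` is onto. -/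
theorem pp3_image (p e : ℕ) (hp : p.Prime) (h3 : p % 4 = 3) :
    prF (p ^ (e + 2)) = (prF (p ^ e)).image (fun z => (-(p : ℤ) * z.1, -(p : ℤ) * z.2)) := by
  have hp0 : (p : ℤ) ≠ 0 := by exact_mod_cast hp.ne_zero
  have hp2 : (0 : ℤ) < (p : ℤ) ^ 2 := by positivity
  obtain ⟨t, ht⟩ : ∃ t : ℤ, (p : ℤ) = 4 * t + 3 := ⟨(p : ℤ) / 4, by omega⟩
  have hodd : ∀ c : ℤ, (-(p : ℤ) * c) % 2 = c % 2 := by
    intro c
    have h5 : -(p : ℤ) * c = c + 2 * (-2 * (t * c) - 2 * c) := by rw [ht]; ring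
    omega
  have hfour : ∀ a b : ℤ, (-(p : ℤ) * a - -(p : ℤ) * b) % 4 = (a - b) % 4 := by
    intro a b
    have h5 : -(p : ℤ) * a - -(p : ℤ) * b = (a - b) + 4 * (-(t * (a - b)) - (a - b)) := by
      rw [ht]; ring
    omega
  have hnorm : ∀ a b : ℤ, (-(p : ℤ) * a) ^ 2 + (-(p : ℤ) * b) ^ 2 = ((p ^ (e + 2) : ℕ) : ℤ) ↔
      a ^ 2 + b ^ 2 = ((p ^ e : ℕ) : ℤ) := by
    intro a b
    have e1 : (-(p : ℤ) * a) ^ 2 + (-(p : ℤ) * b) ^ 2 = (p : ℤ) ^ 2 * (a ^ 2 + b ^ 2) := by ring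
    have e2 : ((p ^ (e + 2) : ℕ) : ℤ) = (p : ℤ) ^ 2 * ((p ^ e : ℕ) : ℤ) := by push_cast; ring
    rw [e1, e2]
    exact mul_right_inj' hp2.ne'
  have key : ∀ a b : ℤ, ((-(p : ℤ) * a, -(p : ℤ) * b) : ℤ × ℤ) ∈ prF (p ^ (e + 2)) ↔
      ((a, b) : ℤ × ℤ) ∈ prF (p ^ e) := by
    intro a b
    rw [mem_prF, mem_prF]
    simp only
    rw [hodd, hfour, hnorm]
  ext ⟨a, b⟩
  rw [Finset.mem_image]
  constructor
  · intro h
    have h1 := ((mem_prF _ _).1 h).2.2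
    simp only at h1
    have h2 : (p : ℤ) ∣ a ^ 2 + b ^ 2 := by
      rw [h1]
      push_cast
      exact dvd_pow_self _ (by omega)
    obtain ⟨⟨c, rfl⟩, ⟨d, rfl⟩⟩ := pp3_dvd p hp h3 a b h2
    refine ⟨(-c, -d), ?_, ?_⟩
    · rw [← key]
      convert h using 2 <;> ring
    · simp
  · rintro ⟨⟨c, d⟩, h, he⟩
    rw [← he]
    exact (key c d).2 h

/-- For `p ≡ 3 mod 4`, `p ∣ A² + B²` implies `p ∣ A` and `p ∣ B`
(`-1` is not a square mod `p`), so `z ↦ -p z` is a bijection `prF (p^e) → prF (p^(e+2))`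
(`-p ≡ 1 mod 4`, so it preserves and reflects the primary condition). -/
theorem cc_p3_rec (k p e : ℕ) (hp : p.Prime) (h3 : p % 4 = 3) :
    cc k (p ^ (e + 2)) = (-(p : ℂ)) ^ k * cc k (p ^ e) := by
  have hp0 : (p : ℤ) ≠ 0 := by exact_mod_cast hp.ne_zero
  unfold cc
  rw [pp3_image p e hp h3, Finset.sum_image, Finset.mul_sum]
  · refine Finset.sum_congr rfl fun z _ => ?_
    rw [← mul_pow]
    congr 1
    unfold cz
    push_cast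
    ring
  · rintro ⟨a, b⟩ - ⟨c, d⟩ - h
    simp only [Prod.mk.injEq, neg_mul, neg_inj] at h
    exact Prod.ext (mul_left_cancel₀ hp0 h.1) (mul_left_cancel₀ hp0 h.2)

end W3283e1
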