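import Pool.Agent.W_MP_3283e1_nt.Mult
import Pool.Agent.W_MP_3283e1_nt.PP3
import Pool.Agent.W_MP_3283e1_nt.Latt
import Pool.Agent.W_MP_3283e1_nt.EulerA

set_option autoImplicit false

namespace W3283e1

open Complex

/-- A summable sequence with a linear recursion of order two. -/
theorem eulerB_rec (a : ℕ → ℂ) (A B : ℂ) (hs : Summable a)
    (hrec : ∀ e, a (e + 2) = A * a (e + 1) - B * a e) :
    (1 - A + B) * (∑' e, a e) = a 0 + a 1 - A * a 0 := by
  have h1 : ∑' e, a e = a 0 + ∑' e, a (e + 1) := hs.tsum_eq_zero_add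
  have hs1 : Summable fun e => a (e + 1) := (summable_nat_add_iff 1).2 hs
  have h2 : ∑' e, a (e + 1) = a 1 + ∑' e, a (e + 2) := hs1.tsum_eq_zero_add
  have h3 : ∑' e, a (e + 2) = A * (∑' e, a (e + 1)) - B * ∑' e, a e := by
    rw [tsum_congr hrec, (hs1.mul_left A).tsum_sub (hs.mul_left B), tsum_mul_left, tsum_mul_left]
  linear_combination h1 - A * h1 + h2 + h3

theorem eulerB_term_pow (k p e : ℕ) (s : ℂ) (hp : p ≠ 0) :
    LSeries.term (cc k) s (p ^ e) = cc k (p ^ e) * ((p : ℂ) ^ (-s)) ^ e := by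
  rw [LSeries.term_of_ne_zero (pow_ne_zero e hp)]
  rw [div_eq_mul_inv, ← cpow_neg, Nat.cast_pow, ← cpow_nat_mul, ← Complex.natCast_cpow_natCast_mul]

theorem eulerB_mul (k : ℕ) (s : ℂ) {m n : ℕ} (h : Nat.Coprime m n) :
    LSeries.term (cc k) s (m * n) = LSeries.term (cc k) s m * LSeries.term (cc k) s n := by
  rcases eq_or_ne m 0 with hm | hm
  · rw [hm, zero_mul, LSeries.term_zero, zero_mul]
  rcases eq_or_ne n 0 with hn | hn
  · rw [hn, mul_zero, LSeries.term_zero, mul_zero]
  rw [LSeries.term_of_ne_zero (mul_ne_zero hm hn), LSeries.term_of_ne_zero hm,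
    LSeries.term_of_ne_zero hn, cc_mul k m n h, Nat.cast_mul, natCast_mul_natCast_cpow,
    mul_div_mul_comm]

theorem eulerB_one (k : ℕ) (s : ℂ) : LSeries.term (cc k) s 1 = 1 := by
  rw [LSeries.term_of_ne_zero one_ne_zero, cc_one, Nat.cast_one, one_cpow, div_one]

theorem eulerB_inv {S X : ℂ} (h : X * S = 1) : S = X⁻¹ := by
  exact eq_inv_of_mul_eq_one_right h

theorem eulerB_local (k p : ℕ) (s : ℂ) (hs : 1 + (k : ℝ) / 2 < s.re) (hp : p.Prime)
    (h2 : p ≠ 2) : ∑' e, LSeries.term (cc k) s (p ^ e) = (fC k p s)⁻¹ := by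
  have hsum : Summable (fun e : ℕ => LSeries.term (cc k) s (p ^ e)) :=
    (cc_summable k s hs).comp_injective (Nat.pow_right_injective hp.two_le)
  have e0 : LSeries.term (cc k) s (p ^ 0) = 1 := by rw [pow_zero, eulerB_one]
  have e1 : LSeries.term (cc k) s (p ^ 1) = cc k p * (p : ℂ) ^ (-s) := by
    rw [eulerB_term_pow k p 1 s hp.ne_zero, pow_one, pow_one]
  unfold fC
  split_ifs with h
  · set z := zp p with hz
    have hzp : z ∈ prF p := zp_mem p hp h
    set Z : ℂ := cz z ^ k with hZ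
    set Z' : ℂ := (starRingEnd ℂ (cz z)) ^ k with hZ'
    set x : ℂ := (p : ℂ) ^ (-s) with hx
    have hZZ : Z * Z' = (p : ℂ) ^ k := by
      rw [hZ, hZ', ← mul_pow, mul_conj]
      congr 1
      rw [normSq_eq_norm_sq, norm_cz p z hzp, ofReal_natCast]
    have hrec : ∀ e, LSeries.term (cc k) s (p ^ (e + 2)) =
        ((Z + Z') * x) * LSeries.term (cc k) s (p ^ (e + 1)) -
          (Z * Z' * x ^ 2) * LSeries.term (cc k) s (p ^ e) := by
      intro e
      rw [eulerB_term_pow k p _ s hp.ne_zero, eulerB_term_pow k p _ s hp.ne_zero,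
        eulerB_term_pow k p _ s hp.ne_zero, cc_p1_rec k p e hp h z hzp, hZZ]
      ring
    have h3 := eulerB_rec _ _ _ hsum hrec
    rw [e0, e1, cc_p1 k p hp h z hzp] at h3
    apply eulerB_inv
    linear_combination h3
  · have h34 : p % 4 = 3 := by
      rcases hp.eq_two_or_odd with h5 | h5
      · exact absurd h5 h2
      · omega
    set x : ℂ := (p : ℂ) ^ (-s) with hx
    have hx2 : (p : ℂ) ^ (-(2 * s)) = x ^ 2 := by
      rw [hx, ← cpow_nat_mul]
      congr 1
      push_cast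
      ring
    have hrec : ∀ e, LSeries.term (cc k) s (p ^ (e + 2)) =
        0 * LSeries.term (cc k) s (p ^ (e + 1)) -
          (-((-(p : ℂ)) ^ k * x ^ 2)) * LSeries.term (cc k) s (p ^ e) := by
      intro e
      rw [eulerB_term_pow k p _ s hp.ne_zero, eulerB_term_pow k p _ s hp.ne_zero,
        eulerB_term_pow k p _ s hp.ne_zero, cc_p3_rec k p e hp h34]
      ring
    have h3 := eulerB_rec _ _ _ hsum hrec
    rw [e0, e1, cc_p3 k p hp h34] at h3
    apply eulerB_inv
    rw [hx2]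
    linear_combination h3

theorem eulerB_two (k : ℕ) (s : ℂ) : ∑' e, LSeries.term (cc k) s (2 ^ e) = 1 := by
  rw [tsum_eq_single 0]
  · rw [pow_zero, eulerB_one]
  · intro e he
    rw [eulerB_term_pow k 2 e s two_ne_zero, cc_even k, zero_mul]
    exact (even_two).pow_of_ne_zero he

/-- The Euler product (`EulerProduct.eulerProduct_hasProd` for the function
`LSeries.term (cc k) s`, multiplicative on coprime arguments by `cc_mul`, value `1` at `1`,
summable by `cc_summable`).  The local factor at `2` is `1` (`cc_even`), at `p ≡ 1 mod 4` the power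
series `∑_e cc k (p^e) x^e`, `x = p^{-s}`, satisfies `(1 - Z x)(1 - Z' x) · series = 1` by the
recursion `cc_p1_rec` (`Z Z' = p^k`; summability is part of the hypotheses), at `p ≡ 3 mod 4` it is
`(1 - (-p)^k x²)⁻¹` by `cc_p3`, `cc_p3_rec`.  Pass from all primes to `OP` (the factor at `2`
is `1`). -/
theorem euler_cc (k : ℕ) (s : ℂ) (hs : 1 + (k : ℝ) / 2 < s.re) :
    HasProd (fun p : OP => (fC k p s)⁻¹) (LSeries (cc k) s) := by
  have hsum : Summable (fun n => ‖LSeries.term (cc k) s n‖) := (cc_summable k s hs).norm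
  have h1 := EulerProduct.eulerProduct_hasProd (f := LSeries.term (cc k) s) (eulerB_one k s)
    (fun {m n} h => eulerB_mul k s h) hsum (LSeries.term_zero _ _)
  have hinj : Function.Injective (fun p : OP => (⟨p.1, p.2.1⟩ : Nat.Primes)) := by
    intro p q h
    have h' : (⟨p.1, p.2.1⟩ : Nat.Primes) = ⟨q.1, q.2.1⟩ := h
    exact Subtype.ext (congrArg (fun r : Nat.Primes => (r : ℕ)) h')
  have h0 := hinj.hasProd_iff (f := fun p : Nat.Primes =>
    ∑' e, LSeries.term (cc k) s ((p : ℕ) ^ e)) (a := ∑' n, LSeries.term (cc k) s n)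
  rw [← h0] at h1
  · have h2 : ((fun p : Nat.Primes => ∑' e, LSeries.term (cc k) s ((p : ℕ) ^ e)) ∘
        fun p : OP => (⟨p.1, p.2.1⟩ : Nat.Primes)) = fun p : OP => (fC k p s)⁻¹ := by
      funext p
      exact eulerB_local k p s hs p.2.1 p.2.2
    rw [h2] at h1
    exact h1
  · intro p hp
    have h3 : (p : ℕ) = 2 := by
      by_contra h4
      exact hp ⟨⟨p, p.2, h4⟩, rfl⟩
    change ∑' e, LSeries.term (cc k) s ((p : ℕ) ^ e) = 1
    rw [h3]
    exact eulerB_two k s

end W3283e1
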