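import Pool.Agent.W_MP_3283e1_nt.Mult
import Pool.Agent.W_MP_3283e1_nt.PP3
import Pool.Agent.W_MP_3283e1_nt.Latt
import Pool.Agent.W_MP_3283e1_nt.EulerA

set_option autoImplicit false

namespace W3283e1

open Complex

/-- Summation of a linear recursion of order two. -/
theorem eC_rec_sum (g : ℕ → ℂ) (a b : ℂ) (hg : Summable g) (h0 : g 0 = 1) (h1 : g 1 = a)
    (hr : ∀ e, g (e + 2) = a * g (e + 1) - b * g e) :
    (1 - a + b) * ∑' e, g e = 1 := by
  have hg1 : Summable (fun e => g (e + 1)) := (summable_nat_add_iff 1).2 hg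
  have e0 : ∑' e, g e = g 0 + ∑' e, g (e + 1) := hg.tsum_eq_zero_add
  have e1 : ∑' e, g (e + 1) = g 1 + ∑' e, g (e + 2) := hg1.tsum_eq_zero_add
  have e2 : ∑' e, g (e + 2) = a * ∑' e, g (e + 1) - b * ∑' e, g e := by
    rw [← tsum_mul_left, ← tsum_mul_left, ← (hg1.mul_left a).tsum_sub (hg.mul_left b)]
    exact tsum_congr hr
  rw [h0] at e0
  rw [h1] at e1
  have e3 : ∑' e, g (e + 1) = ∑' e, g e - 1 := by rw [e0]; ring
  rw [e3] at e1 e2
  rw [e2] at e1
  linear_combination e1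

/-- The Dirichlet term is multiplicative. -/
theorem eC_term_mul (f : ℕ → ℂ)
    (hf : ∀ m n : ℕ, Nat.Coprime m n → f (m * n) = f m * f n) (s : ℂ) {m n : ℕ}
    (h : Nat.Coprime m n) :
    LSeries.term f s (m * n) = LSeries.term f s m * LSeries.term f s n := by
  rcases Nat.eq_zero_or_pos m with rfl | hm
  · simp
  rcases Nat.eq_zero_or_pos n with rfl | hn
  · simp
  rw [LSeries.term_of_ne_zero (Nat.mul_pos hm hn).ne', LSeries.term_of_ne_zero hm.ne',
    LSeries.term_of_ne_zero hn.ne', hf m n h]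
  push_cast
  rw [natCast_mul_natCast_cpow]
  rw [div_mul_div_comm]

/-- The Dirichlet term at a prime power. -/
theorem eC_term_pow (f : ℕ → ℂ) (s : ℂ) (p : ℕ) (hp : p.Prime) (e : ℕ) :
    LSeries.term f s (p ^ e) = f (p ^ e) * ((p : ℂ) ^ (-s)) ^ e := by
  rw [LSeries.term_of_ne_zero (pow_pos hp.pos e).ne', cpow_neg, inv_pow, div_eq_mul_inv]
  congr 2
  push_cast
  rw [← cpow_nat_mul, ← natCast_cpow_natCast_mul]

/-- The Euler product of a multiplicative function vanishing at the even numbers. -/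
theorem eC_euler (f : ℕ → ℂ) (h1 : f 1 = 1) (h2 : ∀ m, Even m → f m = 0)
    (hf : ∀ m n : ℕ, Nat.Coprime m n → f (m * n) = f m * f n) (s : ℂ)
    (hs : LSeriesSummable f s) (F : ℕ → ℂ)
    (hF : ∀ p : ℕ, p.Prime → p ≠ 2 → F p * ∑' e, LSeries.term f s (p ^ e) = 1) :
    HasProd (fun p : OP => (F p)⁻¹) (LSeries f s) := by
  have hmain := EulerProduct.eulerProduct_hasProd (f := LSeries.term f s)
    (by rw [LSeries.term_of_ne_zero one_ne_zero, h1]; simp)
    (fun {m n} h => eC_term_mul f hf s h) hs.norm (by simp)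
  let i : OP → Nat.Primes := fun p => ⟨p.1, p.2.1⟩
  have hi : Function.Injective i := by
    intro a b hab
    apply Subtype.ext
    exact congrArg (fun q : Nat.Primes => (q : ℕ)) hab
  have hout : ∀ p ∉ Set.range i, ∑' e : ℕ, LSeries.term f s ((p : ℕ) ^ e) = 1 := by
    intro p hp
    have hp2 : (p : ℕ) = 2 := by
      by_contra hne
      exact hp ⟨⟨p.1, p.2, hne⟩, rfl⟩
    rw [tsum_eq_single 0]
    · rw [pow_zero, LSeries.term_of_ne_zero one_ne_zero, h1]; simp
    · intro e he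
      rw [LSeries.term_of_ne_zero (pow_pos p.2.pos e).ne', h2, zero_div]
      rw [hp2]
      exact (even_iff_two_dvd.2 (dvd_pow_self 2 he))
  have h := (hi.hasProd_iff hout).2 hmain
  have hcongr : (fun p : OP => (F p)⁻¹) =
      (fun p : Nat.Primes => ∑' e : ℕ, LSeries.term f s ((p : ℕ) ^ e)) ∘ i := by
    funext p
    have := hF p.1 p.2.1 p.2.2
    exact (eq_inv_of_mul_eq_one_right this).symm
  rw [hcongr]
  exact h

theorem eC_chi8_mul (m n : ℕ) : chi8 (m * n) = chi8 m * chi8 n := by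
  unfold chi8
  push_cast
  rw [map_mul]
  push_cast
  rfl

theorem eC_chi8_one : chi8 1 = 1 := by
  unfold chi8
  simp

theorem eC_chi8_norm_le (m : ℕ) : ‖chi8 m‖ ≤ 1 := by
  unfold chi8
  have h : ∀ a : ZMod 8, ZMod.χ₈ a = 0 ∨ ZMod.χ₈ a = 1 ∨ ZMod.χ₈ a = -1 := by decide
  rcases h (m : ZMod 8) with h | h | h <;> rw [h] <;> simp

theorem eC_chi8_pow (m e : ℕ) : chi8 (m ^ e) = chi8 m ^ e := by
  induction e with
  | zero => simpa using eC_chi8_one
  | succ e ih => rw [pow_succ, eC_chi8_mul, ih, pow_succ]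

theorem eC_chi8_sq (p : ℕ) (hp : p % 2 = 1) : chi8 p ^ 2 = 1 := by
  unfold chi8
  have h : ∀ a : ZMod 8, ZMod.χ₈ a ^ 2 = 1 ∨ a = 0 ∨ a = 2 ∨ a = 4 ∨ a = 6 := by decide
  rcases h (p : ZMod 8) with h | h | h | h | h
  · have : ((ZMod.χ₈ (p : ZMod 8) : ℤ) : ℂ) ^ 2 = ((ZMod.χ₈ (p : ZMod 8) ^ 2 : ℤ) : ℂ) := by
      push_cast; rfl
    rw [this, h]; simp
  all_goals
    exfalso
    have h8 : (((p : ℕ) : ZMod 8)).val = p % 8 := ZMod.val_natCast 8 p
    rw [h] at h8
  · have : ((0 : ZMod 8)).val = 0 := rfl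
    omega
  · have : ((2 : ZMod 8)).val = 2 := rfl
    omega
  · have : ((4 : ZMod 8)).val = 4 := rfl
    omega
  · have : ((6 : ZMod 8)).val = 6 := rfl
    omega

theorem eC_chi8_conj (m : ℕ) : (starRingEnd ℂ) (chi8 m) = chi8 m := by
  unfold chi8
  rw [map_intCast]

theorem eC_cE_norm_le (j m : ℕ) : ‖cE j m‖ ≤ ‖cc 1 m‖ := by
  unfold cE
  rw [norm_mul, norm_pow]
  have h := pow_le_one₀ (n := j) (norm_nonneg _) (eC_chi8_norm_le m)
  nlinarith [norm_nonneg (cc 1 m)]

/-- The same for the twisted coefficients `cE j`: `chi8` is completely multiplicative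
(`map_mul`), so `cE j` is multiplicative on coprime arguments and the local series are those of
`cc 1` at `chi8(p)^j p^{-s}`; for `p ≡ 3 mod 4` only even powers occur and `chi8(p)² = 1`.
`fL (alpha j p) p s` is the local factor: for `p ≡ 1 mod 4` clear (`chi8 p` is real), for
`p ≡ 3 mod 4`: `(1 - i√p x)(1 + i√p x) = 1 + p x²`. -/
theorem euler_cE (j : ℕ) (s : ℂ) (hs : 3 / 2 < s.re) :
    LSeriesSummable (cE j) s ∧
    HasProd (fun p : OP => (fL (alpha j p) p s)⁻¹) (LSeries (cE j) s) := by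
  have hsum0 : LSeriesSummable (cc 1) s := cc_summable 1 s (by push_cast; linarith)
  have hsum : LSeriesSummable (cE j) s :=
    Summable.of_norm_bounded hsum0.norm (fun m => LSeries.norm_term_le s (eC_cE_norm_le j m))
  refine ⟨hsum, ?_⟩
  refine eC_euler (cE j) ?_ ?_ ?_ s hsum (fun p => fL (alpha j p) p s) ?_
  · unfold cE; rw [eC_chi8_one, cc_one]; simp
  · intro m hm
    unfold cE; rw [cc_even 1 m hm]; simp
  · intro m n h
    unfold cE
    rw [cc_mul 1 m n h, eC_chi8_mul, mul_pow]; ring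
  · intro p hp hp2
    have hodd : p % 2 = 1 := hp.eq_two_or_odd.resolve_left hp2
    have hchi : chi8 p ^ 2 = 1 := eC_chi8_sq p hodd
    have hchij : (chi8 p ^ j) ^ 2 = 1 := by rw [← pow_mul, mul_comm, pow_mul, hchi, one_pow]
    obtain ⟨x, hx⟩ : ∃ x : ℂ, x = (p : ℂ) ^ (-s) := ⟨_, rfl⟩
    have hterm : ∀ e, LSeries.term (cE j) s (p ^ e) = cE j (p ^ e) * x ^ e := by
      intro e; rw [hx]; exact eC_term_pow _ s p hp e
    have hcE : ∀ e, cE j (p ^ e) = (chi8 p ^ j) ^ e * cc 1 (p ^ e) := by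
      intro e; unfold cE; rw [eC_chi8_pow, ← pow_mul, mul_comm e j, pow_mul]
    have hsumg : Summable (fun e : ℕ => LSeries.term (cE j) s (p ^ e)) :=
      hsum.comp_injective (Nat.pow_right_injective hp.two_le)
    have h4 : p % 4 = 1 ∨ p % 4 = 3 := by omega
    rcases h4 with h4 | h4
    · obtain ⟨Z, hZ⟩ : ∃ Z : ℂ, Z = cz (zp p) := ⟨_, rfl⟩
      have hZ2 : Z * (starRingEnd ℂ) Z = (p : ℂ) := by
        rw [mul_conj, hZ, normSq_eq_norm_sq, norm_cz p _ (zp_mem p hp h4)]
        simp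
      have hrec : ∀ e, cc 1 (p ^ (e + 2)) = (Z + (starRingEnd ℂ) Z) * cc 1 (p ^ (e + 1))
          - (p : ℂ) * cc 1 (p ^ e) := by
        intro e
        have := cc_p1_rec 1 p e hp h4 (zp p) (zp_mem p hp h4)
        rw [hZ]
        simpa using this
      have hc1 : cc 1 p = Z + (starRingEnd ℂ) Z := by
        have := cc_p1 1 p hp h4 (zp p) (zp_mem p hp h4)
        rw [hZ]; simpa using this
      have key := eC_rec_sum (fun e : ℕ => LSeries.term (cE j) s (p ^ e))
        (chi8 p ^ j * (Z + (starRingEnd ℂ) Z) * x) ((p : ℂ) * x ^ 2) hsumg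
        (by
          show LSeries.term (cE j) s (p ^ 0) = 1
          rw [hterm, hcE]; simp [cc_one])
        (by
          show LSeries.term (cE j) s (p ^ 1) = _
          rw [hterm, hcE, pow_one, pow_one, pow_one, hc1])
        (by
          intro e
          show LSeries.term (cE j) s (p ^ (e + 2)) = _ * LSeries.term (cE j) s (p ^ (e + 1)) -
            _ * LSeries.term (cE j) s (p ^ e)
          rw [hterm, hterm, hterm, hcE, hcE, hcE, hrec]
          linear_combination (-(p : ℂ) * cc 1 (p ^ e) * (chi8 p ^ j) ^ e * x ^ (e + 2)) * hchij)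
      have hfL : fL (alpha j p) p s =
          1 - chi8 p ^ j * (Z + (starRingEnd ℂ) Z) * x + (p : ℂ) * x ^ 2 := by
        unfold fL alpha
        rw [if_pos h4, ← hZ, ← hx, map_mul, map_pow, eC_chi8_conj]
        linear_combination (chi8 p ^ j) ^ 2 * x ^ 2 * hZ2 + (p : ℂ) * x ^ 2 * hchij
      show fL (alpha j p) p s * _ = 1
      rw [hfL]; exact key
    · have hrec : ∀ e, cc 1 (p ^ (e + 2)) = -(p : ℂ) * cc 1 (p ^ e) := by
        intro e
        have := cc_p3_rec 1 p e hp h4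
        simpa using this
      have key := eC_rec_sum (fun e : ℕ => LSeries.term (cE j) s (p ^ e))
        0 ((p : ℂ) * x ^ 2) hsumg
        (by
          show LSeries.term (cE j) s (p ^ 0) = 1
          rw [hterm, hcE]; simp [cc_one])
        (by
          show LSeries.term (cE j) s (p ^ 1) = _
          rw [hterm, hcE, pow_one, pow_one, pow_one, cc_p3 1 p hp h4]; ring)
        (by
          intro e
          show LSeries.term (cE j) s (p ^ (e + 2)) = _ * LSeries.term (cE j) s (p ^ (e + 1)) -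
            _ * LSeries.term (cE j) s (p ^ e)
          rw [hterm, hterm, hterm, hcE, hcE, hcE, hrec]
          linear_combination (-(p : ℂ) * cc 1 (p ^ e) * (chi8 p ^ j) ^ e * x ^ (e + 2)) * hchij)
      have hsq : ((Real.sqrt p : ℝ) : ℂ) ^ 2 = (p : ℂ) := by
        rw [← ofReal_pow, Real.sq_sqrt (Nat.cast_nonneg p)]; simp
      have hfL : fL (alpha j p) p s = 1 - 0 + (p : ℂ) * x ^ 2 := by
        unfold fL alpha
        rw [if_neg (by omega), ← hx, map_mul, conj_I, conj_ofReal]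
        linear_combination (-(x ^ 2) * ((Real.sqrt p : ℝ) : ℂ) ^ 2) * I_sq + x ^ 2 * hsq
      show fL (alpha j p) p s * _ = 1
      rw [hfL]; exact key

end W3283e1
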