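import Pool.Agent.W_MP_3283e1_nt.MelA

set_option autoImplicit false

namespace W3283e1

open Complex MeasureTheory Filter

/-- `u^a e^{-cu} ≤ m! c^{-m}` for `u ≥ 1` and `a ≤ m`. -/
theorem melB_exp {c : ℝ} (hc : 0 < c) {u a : ℝ} (hu : 1 ≤ u) (m : ℕ) (ha : a ≤ m) :
    u ^ a * Real.exp (-c * u) ≤ m.factorial / c ^ m := by
  have hu0 : 0 < u := by linarith
  have h1 : u ^ a ≤ u ^ m := by
    rw [← Real.rpow_natCast]
    exact Real.rpow_le_rpow_of_exponent_le hu ha
  have h2 : (c * u) ^ m / m.factorial ≤ Real.exp (c * u) :=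
    Real.pow_div_factorial_le_exp (c * u) (by positivity) m
  have h3 : Real.exp (-c * u) = (Real.exp (c * u))⁻¹ := by
    rw [← Real.exp_neg]
    congr 1
    ring
  rw [h3, ← div_eq_mul_inv, div_le_div_iff₀ (Real.exp_pos _) (by positivity)]
  have h4 : (0 : ℝ) < m.factorial := by exact_mod_cast m.factorial_pos
  rw [div_le_iff₀ h4, mul_pow] at h2
  calc u ^ a * c ^ m ≤ u ^ m * c ^ m := mul_le_mul_of_nonneg_right h1 (by positivity)
    _ = c ^ m * u ^ m := by ring
    _ ≤ Real.exp (c * u) * m.factorial := h2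
    _ = m.factorial * Real.exp (c * u) := by ring

theorem melB_real_le (F : ℝ → ℝ) (k : ℝ) (h : SelfDual F k) :
    ∃ C c : ℝ, 0 ≤ C ∧ 0 < c ∧ ∀ (σ : ℝ) (m : ℕ), |σ| + |k| + 1 ≤ m →
      ∫ t in Set.Ioi (0 : ℝ), t ^ (σ - 1) * F t ≤ C * (m.factorial / c ^ m) := by
  obtain ⟨C, c, hc, hd⟩ := h.decay
  have hC : 0 ≤ C := by
    have h1 := hd 1 le_rfl
    have h2 := h.pos 1 one_pos
    by_contra hneg
    rw [not_le] at hneg
    have h3 : C * Real.exp (-c * 1) < 0 := mul_neg_of_neg_of_pos hneg (Real.exp_pos _)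
    linarith
  refine ⟨2 * C, c, by positivity, hc, fun σ m hm => ?_⟩
  have hint := melA_integrable F k h σ
  have hM : (0 : ℝ) ≤ m.factorial / c ^ m := by positivity
  have hsplit : Set.Ioi (0 : ℝ) = Set.Ioc 0 1 ∪ Set.Ioi 1 :=
    (Set.Ioc_union_Ioi_eq_Ioi zero_le_one).symm
  have hi1 : IntegrableOn (fun t : ℝ => t ^ (σ - 1) * F t) (Set.Ioc 0 1) :=
    hint.mono_set Set.Ioc_subset_Ioi_self
  have hi2 : IntegrableOn (fun t : ℝ => t ^ (σ - 1) * F t) (Set.Ioi 1) :=
    hint.mono_set (Set.Ioi_subset_Ioi zero_le_one)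
  rw [hsplit, setIntegral_union Set.Ioc_disjoint_Ioi_same measurableSet_Ioi hi1 hi2]
  have b1 : ∫ t in Set.Ioc (0 : ℝ) 1, t ^ (σ - 1) * F t ≤ C * (m.factorial / c ^ m) := by
    have hb : ∫ t in Set.Ioc (0 : ℝ) 1, t ^ (σ - 1) * F t ≤
        ∫ t in Set.Ioc (0 : ℝ) 1, C * (m.factorial / c ^ m) := by
      apply setIntegral_mono_on hi1
        (continuousOn_const.integrableOn_Icc.mono_set Set.Ioc_subset_Icc_self) measurableSet_Ioc
      intro t ht
      have ht0 : 0 < t := ht.1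
      have h1t : 1 ≤ 1 / t := by
        rw [le_div_iff₀ ht0]
        linarith [ht.2]
      have h2 := h.inv t ht0
      have h3 : F t = t ^ (-k) * F (1 / t) := by
        rw [h2, ← mul_assoc, ← Real.rpow_add ht0, neg_add_cancel, Real.rpow_zero, one_mul]
      have h4 := hd (1 / t) h1t
      have h5 : t ^ (σ - 1) * F t = (1 / t) ^ (k + 1 - σ) * F (1 / t) := by
        rw [h3, ← mul_assoc, ← Real.rpow_add ht0, one_div, Real.inv_rpow ht0.le,
          ← Real.rpow_neg ht0.le]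
        congr 2
        ring
      rw [h5]
      have h6 : k + 1 - σ ≤ m := by
        have := neg_abs_le σ
        have := le_abs_self k
        linarith
      calc (1 / t) ^ (k + 1 - σ) * F (1 / t)
          ≤ (1 / t) ^ (k + 1 - σ) * (C * Real.exp (-c * (1 / t))) :=
            mul_le_mul_of_nonneg_left h4 (Real.rpow_nonneg (by linarith) _)
        _ = C * ((1 / t) ^ (k + 1 - σ) * Real.exp (-c * (1 / t))) := by ring
        _ ≤ C * (m.factorial / c ^ m) :=
            mul_le_mul_of_nonneg_left (melB_exp hc h1t m h6) hC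
    refine hb.trans (le_of_eq ?_)
    rw [setIntegral_const]
    simp
  have b2 : ∫ t in Set.Ioi (1 : ℝ), t ^ (σ - 1) * F t ≤ C * (m.factorial / c ^ m) := by
    have hi3 : IntegrableOn (fun t : ℝ => C * (m.factorial / c ^ m) * t ^ (-2 : ℝ))
        (Set.Ioi 1) := (integrableOn_Ioi_rpow_of_lt (by norm_num) one_pos).const_mul _
    have hb : ∫ t in Set.Ioi (1 : ℝ), t ^ (σ - 1) * F t ≤
        ∫ t in Set.Ioi (1 : ℝ), C * (m.factorial / c ^ m) * t ^ (-2 : ℝ) := by
      apply setIntegral_mono_on hi2 hi3 measurableSet_Ioi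
      intro t ht
      have ht1 : 1 < t := ht
      have ht0 : 0 < t := by linarith
      have h4 := hd t ht1.le
      have h6 : σ + 1 ≤ m := by
        have := le_abs_self σ
        have := abs_nonneg k
        linarith
      have h7 : t ^ (σ - 1) = t ^ (σ + 1) * t ^ (-2 : ℝ) := by
        rw [← Real.rpow_add ht0]
        congr 1
        ring
      calc t ^ (σ - 1) * F t ≤ t ^ (σ - 1) * (C * Real.exp (-c * t)) :=
            mul_le_mul_of_nonneg_left h4 (Real.rpow_nonneg ht0.le _)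
        _ = C * (t ^ (σ + 1) * Real.exp (-c * t)) * t ^ (-2 : ℝ) := by rw [h7]; ring
        _ ≤ C * (m.factorial / c ^ m) * t ^ (-2 : ℝ) :=
            mul_le_mul_of_nonneg_right
              (mul_le_mul_of_nonneg_left (melB_exp hc ht1.le m h6) hC)
              (Real.rpow_nonneg ht0.le _)
    refine hb.trans (le_of_eq ?_)
    rw [integral_const_mul, integral_Ioi_rpow_of_lt (by norm_num) one_pos]
    norm_num
  linarith

theorem melB_norm_le (F : ℝ → ℝ) (k : ℝ) (h : SelfDual F k) (s : ℂ) :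
    ‖mellin (fun t => (F t : ℂ)) s‖ ≤ ∫ t in Set.Ioi (0 : ℝ), t ^ (s.re - 1) * F t := by
  unfold mellin
  refine (norm_integral_le_integral_norm _).trans (le_of_eq ?_)
  apply setIntegral_congr_fun measurableSet_Ioi
  intro t ht
  have ht' : 0 < t := ht
  simp only [smul_eq_mul]
  rw [norm_mul, norm_cpow_eq_rpow_re_of_pos ht', Complex.norm_real, Real.norm_eq_abs,
    abs_of_pos (h.pos t ht')]
  simp

theorem melB_factorial {c : ℝ} (hc : 0 < c) {m : ℕ} {y : ℝ} (hm1 : 1 ≤ m) (hm : (m : ℝ) ≤ y) :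
    (m.factorial : ℝ) / c ^ m ≤ Real.exp ((2 + |Real.log c|) * y ^ (3 / 2 : ℝ)) := by
  have hm0 : (1 : ℝ) ≤ m := by exact_mod_cast hm1
  have hm0' : (0 : ℝ) < m := by linarith
  have hy : 1 ≤ y := hm0.trans hm
  have h1 : (m.factorial : ℝ) ≤ (m : ℝ) ^ m := by exact_mod_cast Nat.factorial_le_pow m
  have h2 : (m : ℝ) ^ m = Real.exp (m * Real.log m) := by
    rw [mul_comm, Real.exp_mul, Real.exp_log hm0', Real.rpow_natCast]
  have h3 : c ^ m = Real.exp (m * Real.log c) := by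
    rw [mul_comm, Real.exp_mul, Real.exp_log hc, Real.rpow_natCast]
  calc (m.factorial : ℝ) / c ^ m ≤ (m : ℝ) ^ m / c ^ m :=
        div_le_div_of_nonneg_right h1 (by positivity)
    _ = Real.exp (m * Real.log m - m * Real.log c) := by rw [h2, h3, Real.exp_sub]
    _ ≤ Real.exp ((2 + |Real.log c|) * y ^ (3 / 2 : ℝ)) := by
        apply Real.exp_le_exp.2
        have h4 : Real.log m ≤ 2 * Real.sqrt m := by
          have h5 := Real.log_le_sub_one_of_pos (Real.sqrt_pos.2 hm0')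
          rw [Real.log_sqrt hm0'.le] at h5
          linarith
        have h5 : (m : ℝ) * (2 * Real.sqrt m) ≤ 2 * y ^ (3 / 2 : ℝ) := by
          have h6 : y ^ (3 / 2 : ℝ) = y * Real.sqrt y := by
            rw [Real.sqrt_eq_rpow, show (3 / 2 : ℝ) = 1 + 1 / 2 by norm_num,
              Real.rpow_add (by linarith), Real.rpow_one]
          rw [h6]
          have h7 : Real.sqrt m ≤ Real.sqrt y := Real.sqrt_le_sqrt hm
          have h8 : (m : ℝ) * Real.sqrt m ≤ y * Real.sqrt y :=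
            mul_le_mul hm h7 (Real.sqrt_nonneg _) (by linarith)
          linarith
        have h6 : -((m : ℝ) * Real.log c) ≤ |Real.log c| * y ^ (3 / 2 : ℝ) := by
          have h7 : y ≤ y ^ (3 / 2 : ℝ) := by
            nth_rw 1 [← Real.rpow_one y]
            exact Real.rpow_le_rpow_of_exponent_le hy (by norm_num)
          have h8 : -((m : ℝ) * Real.log c) ≤ m * |Real.log c| := by
            have := neg_abs_le (Real.log c)
            nlinarith
          have h9 : (m : ℝ) * |Real.log c| ≤ y ^ (3 / 2 : ℝ) * |Real.log c| :=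
            mul_le_mul_of_nonneg_right (hm.trans h7) (abs_nonneg _)
          linarith
        have h7 : (m : ℝ) * Real.log m ≤ m * (2 * Real.sqrt m) :=
          mul_le_mul_of_nonneg_left h4 hm0'.le
        linarith

/-- `|mellin s| ≤ mellin (Re s)` and, splitting at `1` and using `inv` on `(0,1)`,
`mellin σ = ∫_1^∞ F(t) (t^{σ-1} + t^{k-σ-1}) dt ≤ C' Γ(n) c^{-n} ≤ exp(C''(1+|σ|)^{3/2})`, where
`n` is a natural number with `|σ| + |k| + 1 ≤ n ≤ |σ| + |k| + 3`
(`∫_0^∞ t^{n-1} e^{-ct} dt = (n-1)!/c^n`, `n! ≤ n^n = exp(n log n)`, and `log n ≤ 2 √n`). -/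
theorem mellin_growth (F : ℝ → ℝ) (k : ℝ) (h : SelfDual F k) :
    ∃ C : ℝ, ∀ s : ℂ, ‖mellin (fun t => (F t : ℂ)) s‖ ≤
      Real.exp (C * (1 + ‖s‖) ^ (3 / 2 : ℝ)) := by
  obtain ⟨C, c, hC, hc, hle⟩ := melB_real_le F k h
  refine ⟨C + (2 + |Real.log c|) * (|k| + 2) ^ (3 / 2 : ℝ), fun s => ?_⟩
  set x : ℝ := 1 + ‖s‖ with hx
  have hx1 : 1 ≤ x := by rw [hx]; linarith [norm_nonneg s]
  set m : ℕ := ⌈|s.re| + |k| + 1⌉₊ with hm
  have hm1 : |s.re| + |k| + 1 ≤ m := Nat.le_ceil _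
  have hm2 : (m : ℝ) ≤ (|k| + 2) * x := by
    have h1 : (m : ℝ) < |s.re| + |k| + 1 + 1 := Nat.ceil_lt_add_one (by positivity)
    have h2 : |s.re| ≤ ‖s‖ := abs_re_le_norm s
    rw [hx]
    nlinarith [abs_nonneg k, norm_nonneg s]
  have hm3 : 1 ≤ m := by
    have h1 : (1 : ℝ) ≤ m := by linarith [abs_nonneg s.re, abs_nonneg k]
    exact_mod_cast h1
  have h1 := (melB_norm_le F k h s).trans (hle s.re m hm1)
  have h2 := melB_factorial hc hm3 hm2
  have hx3 : 1 ≤ x ^ (3 / 2 : ℝ) := Real.one_le_rpow hx1 (by norm_num)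
  have h3 : C ≤ Real.exp (C * x ^ (3 / 2 : ℝ)) := by
    have h4 := Real.add_one_le_exp (C * x ^ (3 / 2 : ℝ))
    nlinarith
  refine h1.trans ?_
  rw [add_mul, Real.exp_add]
  apply mul_le_mul h3 _ (by positivity) (Real.exp_pos _).le
  rw [mul_assoc, ← Real.mul_rpow (by positivity) (by linarith)]
  exact h2

/-- `mellin σ ≥ ∫_2^3 F(t) t^{σ-1} dt ≥ 2^{σ-1} ∫_2^3 F` for `σ ≥ 1`. -/
theorem mellin_top (F : ℝ → ℝ) (k : ℝ) (h : SelfDual F k) :
    Tendsto (fun σ : ℝ => ‖mellin (fun t => (F t : ℂ)) σ‖) atTop atTop := by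
  have hsub : Set.Ioc (2 : ℝ) 3 ⊆ Set.Ioi 0 := fun t ht => by
    have : (2 : ℝ) < t := ht.1
    exact lt_trans two_pos this
  have hF : IntegrableOn F (Set.Ioc 2 3) := by
    have h1 := (melA_integrable F k h 1).mono_set hsub
    refine (integrableOn_congr_fun ?_ measurableSet_Ioc).1 h1
    intro t _
    simp
  set m0 : ℝ := ∫ t in Set.Ioc (2 : ℝ) 3, F t with hm0
  have hm0pos : 0 < m0 := by
    rw [hm0, setIntegral_pos_iff_support_of_nonneg_ae _ hF]
    · have h1 : Set.Ioc (2 : ℝ) 3 ⊆ Function.support F ∩ Set.Ioc 2 3 :=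
        fun t ht => ⟨(h.pos t (hsub ht)).ne', ht⟩
      refine lt_of_lt_of_le ?_ (measure_mono h1)
      rw [Real.volume_Ioc]
      norm_num
    · filter_upwards [ae_restrict_mem measurableSet_Ioc] with t ht using (h.pos t (hsub ht)).le
  have hlow : ∀ σ : ℝ, 1 ≤ σ → 2 ^ (σ - 1) * m0 ≤ ‖mellin (fun t => (F t : ℂ)) σ‖ := by
    intro σ hσ
    rw [melA_real, Complex.norm_real, Real.norm_eq_abs]
    refine le_trans ?_ (le_abs_self _)
    have h1 : ∫ t in Set.Ioc (2 : ℝ) 3, t ^ (σ - 1) * F t ≤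
        ∫ t in Set.Ioi (0 : ℝ), t ^ (σ - 1) * F t := by
      apply setIntegral_mono_set (melA_integrable F k h σ)
      · filter_upwards [ae_restrict_mem measurableSet_Ioi] with t ht
        exact mul_nonneg (Real.rpow_nonneg (le_of_lt ht) _) (h.pos t ht).le
      · exact Eventually.of_forall hsub
    refine le_trans ?_ h1
    rw [hm0, ← integral_const_mul]
    apply setIntegral_mono_on (hF.const_mul _) ((melA_integrable F k h σ).mono_set hsub)
      measurableSet_Ioc
    intro t ht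
    apply mul_le_mul_of_nonneg_right _ (h.pos t (hsub ht)).le
    exact Real.rpow_le_rpow (by norm_num) ht.1.le (by linarith)
  have hT : Tendsto (fun σ : ℝ => (2 : ℝ) ^ (σ - 1) * m0) atTop atTop := by
    apply Tendsto.atTop_mul_const hm0pos
    exact (tendsto_rpow_atTop_of_base_gt_one 2 (by norm_num)).comp
      (tendsto_atTop_add_const_right _ _ tendsto_id)
  exact tendsto_atTop_mono' _ ((eventually_ge_atTop 1).mono hlow) hT

end W3283e1
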