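import Mathlib

set_option autoImplicit false

namespace W3283e1

open Complex Filter

/-- A nonvanishing entire function is the exponential of an entire function. -/
lemma zl_exists_log (f : ℂ → ℂ) (hf : Differentiable ℂ f) (h0 : ∀ s, f s ≠ 0) :
    ∃ h : ℂ → ℂ, Differentiable ℂ h ∧ ∀ s, f s = Complex.exp (h s) := by
  have hd : Differentiable ℂ (deriv f) := fun s =>
    (hf.analyticAt s).deriv.differentiableAt
  have hg : Differentiable ℂ (fun z => deriv f z / f z) := fun z =>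
    (hd z).div (hf z) (h0 z)
  obtain ⟨h, hh0, hh⟩ := (hg.isExactOn_univ).with_val_at 0 (Complex.log (f 0))
  have hh' : ∀ z, HasDerivAt h (deriv f z / f z) z := fun z => hh z (Set.mem_univ z)
  have hdiff : Differentiable ℂ h := fun z => (hh' z).differentiableAt
  refine ⟨h, hdiff, ?_⟩
  have hF : ∀ z, HasDerivAt (fun z => f z * Complex.exp (-h z)) 0 z := by
    intro z
    have h1 := ((hf z).hasDerivAt).mul ((hh' z).neg.cexp)
    have h2 : deriv f z * Complex.exp (-h z) +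
        f z * (Complex.exp (-h z) * -(deriv f z / f z)) = 0 := by
      field_simp [h0 z]
      ring
    exact h1.congr_deriv h2
  have hconst : ∀ s, f s * Complex.exp (-h s) = f 0 * Complex.exp (-h 0) := by
    intro s
    exact is_const_of_deriv_eq_zero (fun z => (hF z).differentiableAt) (fun z => (hF z).deriv) s 0
  intro s
  have h1 := hconst s
  rw [hh0, Complex.exp_neg, Complex.exp_neg, Complex.exp_log (h0 0), mul_inv_cancel₀ (h0 0)] at h1
  have h2 := Complex.exp_ne_zero (h s)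
  field_simp at h1
  exact h1

/-- growth of the logarithm, by the Borel-Caratheodory theorem -/
lemma zl_growth (h : ℂ → ℂ) (hd : Differentiable ℂ h) (C : ℝ) (hC0 : 0 < C)
    (hC : ∀ s : ℂ, (h s).re ≤ C * (1 + ‖s‖) ^ (3 / 2 : ℝ)) (R : ℝ) (hR : 0 < R) (z : ℂ)
    (hz : ‖z‖ ≤ R) : ‖h z‖ ≤ 2 * (C * (1 + 2 * R) ^ (3 / 2 : ℝ)) + 3 * ‖h 0‖ := by
  have hM : 0 < C * (1 + 2 * R) ^ (3 / 2 : ℝ) := by positivity
  have h1 := borelCaratheodory (f := h) (R := 2 * R) (z := z) hM hd.differentiableOn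
    (by
      intro w hw
      have hw' : ‖w‖ < 2 * R := by simpa using hw
      show (h w).re ≤ _
      refine (hC w).trans ?_
      gcongr)
    (by linarith) (by
      have : ‖z‖ < 2 * R := by linarith
      simpa using this)
  refine h1.trans ?_
  have h2 : 0 < 2 * R - ‖z‖ := by linarith
  have h3 : 2 * (C * (1 + 2 * R) ^ (3 / 2 : ℝ)) * ‖z‖ / (2 * R - ‖z‖) ≤
      2 * (C * (1 + 2 * R) ^ (3 / 2 : ℝ)) := by
    rw [div_le_iff₀ h2]
    have : ‖z‖ ≤ 2 * R - ‖z‖ := by linarith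
    exact mul_le_mul_of_nonneg_left this (by positivity)
  have h4 : ‖h 0‖ * (2 * R + ‖z‖) / (2 * R - ‖z‖) ≤ 3 * ‖h 0‖ := by
    rw [div_le_iff₀ h2]
    have h5 : 2 * R + ‖z‖ ≤ 3 * (2 * R - ‖z‖) := by linarith
    nlinarith [mul_le_mul_of_nonneg_left h5 (norm_nonneg (h 0))]
  linarith

/-- the second derivative vanishes -/
lemma zl_second (h : ℂ → ℂ) (hd : Differentiable ℂ h) (C : ℝ) (hC0 : 0 < C)
    (hC : ∀ s : ℂ, (h s).re ≤ C * (1 + ‖s‖) ^ (3 / 2 : ℝ)) (c : ℂ) :
    iteratedDeriv 2 h c = 0 := by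
  have key : ∀ r : ℝ, 1 + 2 * ‖c‖ ≤ r → 0 < r →
      ‖iteratedDeriv 2 h c‖ ≤ (4 * (C * 3 ^ (3 / 2 : ℝ))) * r ^ (-(1 / 2) : ℝ) +
        6 * ‖h 0‖ * r ^ (-2 : ℝ) := by
    intro r hr hr0
    have h1 := norm_iteratedDeriv_le_of_forall_mem_sphere_norm_le (f := h) (c := c) (R := r)
      (C := 2 * (C * (1 + 2 * (‖c‖ + r)) ^ (3 / 2 : ℝ)) + 3 * ‖h 0‖) 2 hr0
      hd.diffContOnCl (by
        intro z hz
        apply zl_growth h hd C hC0 hC (‖c‖ + r) (by positivity) z
        have hz' : ‖z - c‖ = r := by simpa using mem_sphere_iff_norm.mp hz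
        have h2 : ‖z‖ ≤ ‖c‖ + ‖z - c‖ := by
          have := norm_add_le c (z - c)
          simpa using this
        linarith)
    refine h1.trans ?_
    have h2 : (1 + 2 * (‖c‖ + r)) ^ (3 / 2 : ℝ) ≤ (3 * r) ^ (3 / 2 : ℝ) := by
      apply Real.rpow_le_rpow (by positivity) (by linarith) (by norm_num)
    have h3 : (3 * r) ^ (3 / 2 : ℝ) = 3 ^ (3 / 2 : ℝ) * r ^ (3 / 2 : ℝ) :=
      Real.mul_rpow (by norm_num) hr0.le
    have h4 : r ^ (3 / 2 : ℝ) / r ^ 2 = r ^ (-(1 / 2) : ℝ) := by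
      rw [← Real.rpow_natCast r 2, ← Real.rpow_sub hr0]
      norm_num
    have h5 : 1 / r ^ 2 = r ^ (-2 : ℝ) := by
      rw [Real.rpow_neg hr0.le, ← Real.rpow_natCast r 2, one_div]
      norm_num
    have h6 : ((2 : ℕ).factorial : ℝ) * (2 * (C * (1 + 2 * (‖c‖ + r)) ^ (3 / 2 : ℝ)) + 3 * ‖h 0‖) /
        r ^ 2 ≤ 2 * (2 * (C * (3 ^ (3 / 2 : ℝ) * r ^ (3 / 2 : ℝ))) + 3 * ‖h 0‖) / r ^ 2 := by
      rw [h3] at h2
      have : ((2 : ℕ).factorial : ℝ) = 2 := by norm_num [Nat.factorial]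
      rw [this]
      gcongr
    refine h6.trans (le_of_eq ?_)
    rw [← h4, ← h5]
    ring
  have hlim : Tendsto (fun r : ℝ => (4 * (C * 3 ^ (3 / 2 : ℝ))) * r ^ (-(1 / 2) : ℝ) +
        6 * ‖h 0‖ * r ^ (-2 : ℝ)) atTop (nhds 0) := by
    have h1 := (tendsto_rpow_neg_atTop (y := (1 / 2 : ℝ)) (by norm_num)).const_mul
      (4 * (C * 3 ^ (3 / 2 : ℝ)))
    have h2 := (tendsto_rpow_neg_atTop (y := (2 : ℝ)) (by norm_num)).const_mul (6 * ‖h 0‖)
    simpa using h1.add h2
  have hle : ‖iteratedDeriv 2 h c‖ ≤ 0 := by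
    apply ge_of_tendsto hlim
    filter_upwards [eventually_ge_atTop (1 + 2 * ‖c‖), eventually_gt_atTop 0] with r h1 h2
    exact key r h1 h2
  exact norm_le_zero_iff.mp hle

/-- A nonvanishing entire function of order less than `2` is the exponential of an affine
function: `f = exp h` with `h` entire (a primitive of `f'/f`:
`Differentiable.isExactOn_univ` / `Complex.exists_primitive...`; adjust the constant),
`Re h ≤ C (1+|s|)^{3/2}`, by the Borel-Caratheodory theorem (`Complex.borelCaratheodory` on the ball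
of radius `2|s|+1`) `|h s| ≤ C' (1+|s|)^{3/2}`, and Cauchy's estimate for the second derivative
(`Complex.norm_iteratedDeriv_le_of_forall_mem_sphere_norm_le`) shows `h'' = 0`. -/
theorem exp_affine (f : ℂ → ℂ) (hf : Differentiable ℂ f) (h0 : ∀ s, f s ≠ 0) (C : ℝ)
    (hC : ∀ s : ℂ, ‖f s‖ ≤ Real.exp (C * (1 + ‖s‖) ^ (3 / 2 : ℝ))) :
    ∃ a b : ℂ, ∀ s, f s = Complex.exp (a * s + b) := by
  obtain ⟨h, hd, hfh⟩ := zl_exists_log f hf h0
  have hre : ∀ s : ℂ, (h s).re ≤ (|C| + 1) * (1 + ‖s‖) ^ (3 / 2 : ℝ) := by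
    intro s
    have h1 := hC s
    rw [hfh s, Complex.norm_exp, Real.exp_le_exp] at h1
    refine h1.trans ?_
    have h2 : C ≤ |C| + 1 := by linarith [le_abs_self C]
    exact mul_le_mul_of_nonneg_right h2 (by positivity)
  have hsec : ∀ c, iteratedDeriv 2 h c = 0 := fun c =>
    zl_second h hd (|C| + 1) (by positivity) hre c
  have hdd : Differentiable ℂ (deriv h) := fun s => (hd.analyticAt s).deriv.differentiableAt
  have hder : ∀ s, deriv h s = deriv h 0 := by
    intro s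
    apply is_const_of_deriv_eq_zero hdd
    intro z
    have h1 := hsec z
    rw [iteratedDeriv_succ, iteratedDeriv_one] at h1
    exact h1
  refine ⟨deriv h 0, h 0, fun s => ?_⟩
  have hlin : ∀ z, HasDerivAt (fun z => h z - deriv h 0 * z) 0 z := by
    intro z
    have h1 := ((hd z).hasDerivAt).sub ((hasDerivAt_id z).const_mul (deriv h 0))
    refine h1.congr_deriv ?_
    rw [hder z]
    ring
  have hc : h s - deriv h 0 * s = h 0 - deriv h 0 * 0 :=
    is_const_of_deriv_eq_zero (fun z => (hlin z).differentiableAt) (fun z => (hlin z).deriv) s 0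
  rw [hfh s]
  congr 1
  linear_combination hc

/-- A nonconstant entire function of order less than `2` with the symmetry `s ↦ 2 - s` has a zero
with real part at least `1`.  Otherwise it has no zeros at all, so `f s = exp (a s + b)`;
`f 2 = f 0` and `f (2 - s) = f s` give `exp (2a) = exp (2 a s)` for all `s`, so `a = 0`, `f` is
constant, contradicting the growth along the real axis. -/
theorem zero_exists (f : ℂ → ℂ) (hf : Differentiable ℂ f) (C : ℝ)
    (hC : ∀ s : ℂ, ‖f s‖ ≤ Real.exp (C * (1 + ‖s‖) ^ (3 / 2 : ℝ)))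
    (hfe : ∀ s : ℂ, f (2 - s) = f s)
    (htop : Tendsto (fun σ : ℝ => ‖f σ‖) atTop atTop) :
    ∃ ρ : ℂ, 1 ≤ ρ.re ∧ f ρ = 0 := by
  by_contra hcon
  push Not at hcon
  have h0 : ∀ s, f s ≠ 0 := by
    intro s
    by_cases hs : 1 ≤ s.re
    · exact hcon s hs
    · push Not at hs
      rw [← hfe s]
      apply hcon
      simp only [Complex.sub_re, Complex.re_ofNat]
      linarith
  obtain ⟨a, b, hab⟩ := exp_affine f hf h0 C hC
  have ha : a = 0 := by
    by_contra ha
    have h1 := hfe (1 - 1 / (2 * a))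
    rw [hab, hab] at h1
    have h2 : a * (2 - (1 - 1 / (2 * a))) + b = (a * (1 - 1 / (2 * a)) + b) + 1 := by
      field_simp
      ring
    rw [h2, Complex.exp_add] at h1
    have h3 := Complex.exp_ne_zero (a * (1 - 1 / (2 * a)) + b)
    have h4 : Complex.exp 1 = 1 := by
      apply mul_left_cancel₀ h3
      rw [h1, mul_one]
    have h5 : ‖Complex.exp 1‖ = 1 := by rw [h4, norm_one]
    rw [Complex.norm_exp] at h5
    simp at h5
  have hconst : (fun σ : ℝ => ‖f σ‖) = fun _ => ‖Complex.exp b‖ := by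
    funext σ
    rw [hab, ha, zero_mul, zero_add]
  rw [hconst] at htop
  exact not_tendsto_const_atTop _ _ htop

end W3283e1
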