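import Pool.Agent.W_MP_3283e1_nt.FFacts
import Pool.Agent.W_MP_3283e1_nt.MelB
import Pool.Agent.W_MP_3283e1_nt.EulerB
import Pool.Agent.W_MP_3283e1_nt.EulerC
import Pool.Agent.W_MP_3283e1_nt.ZeroL

set_option autoImplicit false

namespace W3283e1

open Complex

/-- The entire functions given by `∑ a_m m^{-s}` (`j = 0, 1`: `a = cE j`; `j = 2`: `a = cc 2`). -/
noncomputable def LE (j : ℕ) (s : ℂ) : ℂ :=
  ((Real.pi * kap j : ℝ) : ℂ) ^ s * (Complex.Gamma s)⁻¹ * mellin (fun t => (FF j t : ℂ)) s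

theorem lfun_kap_pos (j : ℕ) : 0 < kap j := by
  unfold kap
  split_ifs <;> positivity

/-- `FF_pos, FF_cont, FF_inv, FF_decay`. -/
theorem selfDual01 (j : ℕ) (hj : j = 0 ∨ j = 1) : SelfDual (FF j) 2 :=
  ⟨FF_cont j, FF_pos j, FF_inv j hj, FF_decay j⟩

theorem selfDual2 : SelfDual (FF 2) 3 :=
  ⟨FF_cont 2, FF_pos 2, FF2_inv, FF_decay 2⟩

theorem lfun_selfDual (j : ℕ) (hj : j = 0 ∨ j = 1 ∨ j = 2) : ∃ k : ℝ, SelfDual (FF j) k := by
  rcases hj with h | h | h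
  · exact ⟨2, selfDual01 j (Or.inl h)⟩
  · exact ⟨2, selfDual01 j (Or.inr h)⟩
  · subst h
    exact ⟨3, selfDual2⟩

/-- `Complex.differentiable_one_div_Gamma` and `mellin_diff`. -/
theorem LE_diff (j : ℕ) (hj : j = 0 ∨ j = 1 ∨ j = 2) : Differentiable ℂ (LE j) := by
  obtain ⟨k, hk⟩ := lfun_selfDual j hj
  have h1 : Differentiable ℂ (fun s : ℂ => ((Real.pi * kap j : ℝ) : ℂ) ^ s) := by
    intro s
    apply DifferentiableAt.const_cpow differentiableAt_id
    left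
    have := lfun_kap_pos j
    have h2 : 0 < Real.pi * kap j := by positivity
    exact_mod_cast h2.ne'
  exact (h1.mul Complex.differentiable_one_div_Gamma).mul (mellin_diff (FF j) k hk)

/-- Mellin transform of an exponential series and its Dirichlet series. -/
theorem lfun_gen (a : ℕ → ℂ) (F : ℝ → ℝ) (κ : ℝ) (hκ : 0 < κ) (ha0 : a 0 = 0) (s : ℂ)
    (hs : 0 < s.re)
    (hF : ∀ t : ℝ, 0 < t →
      HasSum (fun m : ℕ => a m * ((Real.exp (-Real.pi * (κ * m) * t) : ℝ) : ℂ)) (F t : ℂ))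
    (hsum : LSeriesSummable a s) :
    ((Real.pi * κ : ℝ) : ℂ) ^ s * (Complex.Gamma s)⁻¹ * mellin (fun t => (F t : ℂ)) s =
      LSeries a s := by
  have h1 : Summable fun m : ℕ => ‖a m‖ / (κ * (m : ℝ)) ^ s.re := by
    have h2 := hsum.norm.mul_left (κ ^ (-s.re))
    refine h2.congr fun m => ?_
    rw [LSeries.norm_term_eq]
    by_cases hm : m = 0
    · subst hm
      rw [if_pos rfl, ha0, norm_zero, zero_div, mul_zero]
    · rw [if_neg hm]
      have hm' : 0 < (m : ℝ) := by exact_mod_cast Nat.pos_of_ne_zero hm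
      rw [Real.mul_rpow hκ.le hm'.le, Real.rpow_neg hκ.le]
      have h3 : 0 < κ ^ s.re := Real.rpow_pos_of_pos hκ _
      have h4 : 0 < (m : ℝ) ^ s.re := Real.rpow_pos_of_pos hm' _
      field_simp
  have hq : ∀ m : ℕ, a m = 0 ∨ 0 < κ * (m : ℝ) := by
    intro m
    by_cases hm : m = 0
    · left
      rw [hm, ha0]
    · right
      have hm' : 0 < (m : ℝ) := by exact_mod_cast Nat.pos_of_ne_zero hm
      positivity
  have h2 := hasSum_mellin_pi_mul (a := a) (q := fun m : ℕ => κ * (m : ℝ))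
    (F := fun t => (F t : ℂ)) hq hs (fun t ht => hF t ht) h1
  have h3 := h2.mul_left (((Real.pi * κ : ℝ) : ℂ) ^ s * (Complex.Gamma s)⁻¹)
  rw [← h3.tsum_eq]
  unfold LSeries
  apply tsum_congr
  intro m
  by_cases hm : m = 0
  · subst hm
    rw [ha0]
    simp
  · rw [LSeries.term_of_ne_zero hm]
    have hm' : 0 < (m : ℝ) := by exact_mod_cast Nat.pos_of_ne_zero hm
    have hG : Complex.Gamma s ≠ 0 := Complex.Gamma_ne_zero_of_re_pos hs
    have hpi : ((Real.pi : ℝ) : ℂ) ≠ 0 := by exact_mod_cast Real.pi_ne_zero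
    have hκc : ((κ : ℝ) : ℂ) ≠ 0 := by exact_mod_cast hκ.ne'
    have hmc : ((m : ℝ) : ℂ) ≠ 0 := by exact_mod_cast hm'.ne'
    have e1 : ((Real.pi * κ : ℝ) : ℂ) ^ s = (Real.pi : ℂ) ^ s * (κ : ℂ) ^ s := by
      rw [ofReal_mul, mul_cpow_ofReal_nonneg Real.pi_pos.le hκ.le]
    have e2 : ((κ * (m : ℝ) : ℝ) : ℂ) ^ s = (κ : ℂ) ^ s * (m : ℂ) ^ s := by
      rw [ofReal_mul, mul_cpow_ofReal_nonneg hκ.le hm'.le, ofReal_natCast]
    rw [e1, e2, cpow_neg]
    have p1 : (Real.pi : ℂ) ^ s ≠ 0 := by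
      rw [Ne, cpow_eq_zero_iff]
      tauto
    have p2 : (κ : ℂ) ^ s ≠ 0 := by
      rw [Ne, cpow_eq_zero_iff]
      tauto
    field_simp

theorem lfun_cE_zero (j : ℕ) : cE j 0 = 0 := by
  unfold cE
  rw [cc_zero, mul_zero]

/-- `hasSum_mellin_pi_mul` with `q m = kap j * m`, `FF0_hasSum`, `FF1_hasSum`; summability from
`euler_cE`.  (The term `m = 0` has coefficient `0`.) -/
theorem LE_eq01 (j : ℕ) (hj : j = 0 ∨ j = 1) (s : ℂ) (hs : 3 / 2 < s.re) :
    LE j s = LSeries (cE j) s := by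
  unfold LE
  apply lfun_gen (cE j) (FF j) (kap j) (lfun_kap_pos j) (lfun_cE_zero j) s (by linarith) _
    (euler_cE j s hs).1
  intro t ht
  rcases hj with h | h
  · subst h
    exact FF0_hasSum t ht
  · subst h
    exact FF1_hasSum t ht

/-- The same with `FF2_hasSum` and `cc_summable`. -/
theorem LE_eq2 (s : ℂ) (hs : 2 < s.re) : LE 2 s = LSeries (cc 2) s := by
  unfold LE
  apply lfun_gen (cc 2) (FF 2) (kap 2) (lfun_kap_pos 2) (cc_zero 2) s (by linarith) _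
    (cc_summable 2 s (by norm_num; linarith))
  intro t ht
  exact FF2_hasSum t ht

/-- Positive for positive real arguments: `mellin_pos`, `Γ > 0`, a positive real power. -/
theorem LE_pos (j : ℕ) (hj : j = 0 ∨ j = 1 ∨ j = 2) (σ : ℝ) (hσ : 0 < σ) :
    0 < (LE j σ).re ∧ (LE j σ).im = 0 := by
  obtain ⟨k, hk⟩ := lfun_selfDual j hj
  obtain ⟨h1, h2⟩ := mellin_pos (FF j) k hk σ
  have hκ := lfun_kap_pos j
  have e1 : mellin (fun t => (FF j t : ℂ)) (σ : ℂ) =
      ((mellin (fun t => (FF j t : ℂ)) (σ : ℂ)).re : ℂ) := by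
    apply Complex.ext
    · simp
    · simp [h2]
  have e2 : LE j σ = (((Real.pi * kap j) ^ σ * (Real.Gamma σ)⁻¹ *
      (mellin (fun t => (FF j t : ℂ)) (σ : ℂ)).re : ℝ) : ℂ) := by
    unfold LE
    rw [e1, ← ofReal_cpow (by positivity), Complex.Gamma_ofReal]
    push_cast
    simp
  rw [e2]
  refine ⟨?_, ofReal_im _⟩
  rw [ofReal_re]
  have h3 := Real.Gamma_pos_of_pos hσ
  have h4 : 0 < (Real.pi * kap j) ^ σ := Real.rpow_pos_of_pos (by positivity) _
  positivity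

/-- `zero_exists` for the Mellin transform (`mellin_fe` with `k = 2`, `mellin_growth`,
`mellin_top`). -/
theorem LE_zero (j : ℕ) (hj : j = 0 ∨ j = 1) : ∃ ρ : ℂ, 1 ≤ ρ.re ∧ ρ.im ≠ 0 ∧ LE j ρ = 0 := by
  have hS := selfDual01 j hj
  obtain ⟨C, hC⟩ := mellin_growth (FF j) 2 hS
  obtain ⟨ρ, hρ, h0⟩ := zero_exists (mellin (fun t => (FF j t : ℂ)))
    (mellin_diff (FF j) 2 hS) C hC (by
      intro s
      have := mellin_fe (FF j) 2 hS s
      rw [ofReal_ofNat] at this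
      exact this) (mellin_top (FF j) 2 hS)
  refine ⟨ρ, hρ, ?_, ?_⟩
  · intro him
    have e : ρ = ((ρ.re : ℝ) : ℂ) := by
      apply Complex.ext
      · simp
      · simp [him]
    have h1 := (mellin_pos (FF j) 2 hS ρ.re).1
    rw [← e, h0] at h1
    simp at h1
  · unfold LE
    rw [h0, mul_zero]

end W3283e1
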