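import Pool.Agent.W_MP_3283e1_nt.Ident

set_option autoImplicit false

namespace W3283e1

open Complex

/-- a complex number with positive real part and imaginary part zero -/
theorem Greal_pos {z : ℂ} (h : 0 < z.re ∧ z.im = 0) : ∃ r : ℝ, 0 < r ∧ z = (r : ℂ) :=
  ⟨z.re, h.1, Complex.ext (by simp) (by simp [h.2])⟩

theorem Greal_real (α : ℕ → ℂ) (hα : ∀ p : ℕ, p.Prime → p ≠ 2 → ‖α p‖ ^ 2 = p)
    (σ : ℝ) (hσ : 1 / 2 < σ) : (GG α σ).im = 0 := by
  have h := hasSum_GG α hα (σ : ℂ) (by simpa using hσ)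
  have h1 : HasSum (fun p : OP => ((ell (α p) p * (p : ℝ) ^ (-σ) : ℝ) : ℂ)) (GG α σ) := by
    convert h using 2 with p
    rw [Complex.ofReal_mul, Complex.ofReal_cpow (Nat.cast_nonneg _)]
    push_cast
    rfl
  have h2 := Complex.hasSum_im h1
  simp only [Complex.ofReal_im] at h2
  exact h2.unique hasSum_zero

/-- On the real axis.  With `R` from `ident` put
`q σ = 2 W(2σ) ZZ(σ) t2(σ) exp(R σ) / (L(1+σ)^2 W(σ) ZZ(2σ) t2(2σ))`, all factors real and
positive for real `σ ≥ 0` (`L_pos, W_pos, ZZ_pos, t2_pos`, `R` real on reals), and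
`g σ = (1/2) Real.log (q σ).re`.  `g` is real analytic at each `σ ≥ 0`: `σ ↦ (q σ).re` is real
analytic as real part of a holomorphic function near `σ` composed with the inclusion
(`AnalyticAt.restrictScalars`, `Complex.ofRealCLM.analyticAt`, `Complex.reCLM`), positive at `σ`
(`AnalyticAt.log`).  `q 0 = 2 / L(1)^2`, so `g 0 = log (√2 / L 1)`.
For `σ > 1/2`: `GG σ` is real (a sum of real terms), and `ident` gives
`exp (2 GG σ) = q σ`, so `GG σ = g σ`. -/
theorem greal (α : ℕ → ℂ) (L W : ℂ → ℂ) (hD : Data α L W) :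
    ∃ g : ℝ → ℝ, (∀ σ : ℝ, 0 ≤ σ → AnalyticAt ℝ g σ) ∧
      g 0 = Real.log (Real.sqrt 2 / (L 1).re) ∧
      ∀ σ : ℝ, 1 / 2 < σ → GG α σ = (g σ : ℂ) := by
  obtain ⟨R, hRd, hR0, hRr, hid⟩ := ident α L W hD
  set q : ℂ → ℂ := fun s => 2 * W (2 * s) * ZZ s * t2 s * Complex.exp (R s) /
    ((L (1 + s)) ^ 2 * W s * ZZ (2 * s) * t2 (2 * s)) with hq
  -- values at real points
  have hval : ∀ σ : ℝ, 0 ≤ σ → ∃ l w w2 z z2 t t' : ℝ, 0 < l ∧ 0 < w ∧ 0 < w2 ∧ 0 < z ∧ 0 < z2 ∧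
      0 < t ∧ 0 < t' ∧ L (1 + σ) = l ∧ W σ = w ∧ W (2 * σ) = w2 ∧ ZZ σ = z ∧ ZZ (2 * σ) = z2 ∧
      t2 σ = t ∧ t2 (2 * σ) = t' := by
    intro σ hσ
    obtain ⟨l, hl, el⟩ := Greal_pos (hD.L_pos (1 + σ) (by linarith))
    obtain ⟨w, hw, ew⟩ := Greal_pos (hD.W_pos σ hσ)
    obtain ⟨w2, hw2, ew2⟩ := Greal_pos (hD.W_pos (2 * σ) (by linarith))
    obtain ⟨z, hz, ez⟩ := Greal_pos (ZZ_pos σ hσ)
    obtain ⟨z2, hz2, ez2⟩ := Greal_pos (ZZ_pos (2 * σ) (by linarith))
    obtain ⟨t, ht, et⟩ := Greal_pos (t2_pos σ (by linarith))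
    obtain ⟨t', ht', et'⟩ := Greal_pos (t2_pos (2 * σ) (by linarith))
    push_cast at el ew2 ez2 et'
    exact ⟨l, w, w2, z, z2, t, t', hl, hw, hw2, hz, hz2, ht, ht', el, ew, ew2, ez, ez2, et, et'⟩
  have hRreal : ∀ σ : ℝ, 0 ≤ σ → R σ = ((R σ).re : ℂ) := fun σ hσ =>
    Complex.ext (by simp) (by simp [hRr σ (by linarith)])
  have hqreal : ∀ σ : ℝ, 0 ≤ σ → ∃ r : ℝ, 0 < r ∧ q σ = (r : ℂ) := by
    intro σ hσ
    obtain ⟨l, w, w2, z, z2, t, t', hl, hw, hw2, hz, hz2, ht, ht', el, ew, ew2, ez, ez2, et, et'⟩ :=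
      hval σ hσ
    refine ⟨2 * w2 * z * t * Real.exp (R σ).re / (l ^ 2 * w * z2 * t'), by positivity, ?_⟩
    simp only [hq]
    rw [el, ew, ew2, ez, ez2, et, et', hRreal σ hσ]
    push_cast
    simp
  have hqan : ∀ σ : ℝ, 0 ≤ σ → AnalyticAt ℂ q σ := by
    intro σ hσ
    obtain ⟨l, w, w2, z, z2, t, t', hl, hw, hw2, hz, hz2, ht, ht', el, ew, ew2, ez, ez2, et, et'⟩ :=
      hval σ hσ
    have hopen : IsOpen {s : ℂ | -(1 / 10) < s.re} :=
      isOpen_lt continuous_const Complex.continuous_re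
    have hRan : AnalyticAt ℂ R σ := hRd.analyticAt (hopen.mem_nhds (by
      show -(1 / 10) < ((σ : ℂ)).re
      rw [Complex.ofReal_re]; linarith))
    have h2 : Differentiable ℂ (fun s : ℂ => 2 * s) :=
      (differentiable_const 2).mul differentiable_id
    have h1 : Differentiable ℂ (fun s : ℂ => 1 + s) :=
      (differentiable_const 1).add differentiable_id
    have a1 : AnalyticAt ℂ (fun s : ℂ => W (2 * s)) σ := (hD.W_diff.comp h2).analyticAt _
    have a2 : AnalyticAt ℂ ZZ σ := ZZ_diff.analyticAt _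
    have a3 : AnalyticAt ℂ t2 σ := t2_diff.analyticAt _
    have a4 : AnalyticAt ℂ (fun s : ℂ => L (1 + s)) σ := (hD.L_diff.comp h1).analyticAt _
    have a5 : AnalyticAt ℂ W σ := hD.W_diff.analyticAt _
    have a6 : AnalyticAt ℂ (fun s : ℂ => ZZ (2 * s)) σ := (ZZ_diff.comp h2).analyticAt _
    have a7 : AnalyticAt ℂ (fun s : ℂ => t2 (2 * s)) σ := (t2_diff.comp h2).analyticAt _
    have a8 : AnalyticAt ℂ (fun s : ℂ => Complex.exp (R s)) σ := hRan.cexp
    refine ((((analyticAt_const.mul a1).mul a2).mul a3).mul a8).div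
      ((((a4.pow 2).mul a5).mul a6).mul a7) ?_
    rw [el, ew, ez2, et']
    have : ((l ^ 2 * w * z2 * t' : ℝ) : ℂ) ≠ 0 := by
      rw [Ne, Complex.ofReal_eq_zero]
      positivity
    push_cast at this
    exact this
  refine ⟨fun σ => (1 / 2) * Real.log (q σ).re, ?_, ?_, ?_⟩
  · intro σ hσ
    obtain ⟨r, hr, er⟩ := hqreal σ hσ
    refine analyticAt_const.mul ?_
    refine (hqan σ hσ).re_ofReal.log ?_
    rw [er, Complex.ofReal_re]
    exact hr
  · obtain ⟨l, w, w2, z, z2, t, t', hl, hw, hw2, hz, hz2, ht, ht', el, ew, ew2, ez, ez2, et, et'⟩ :=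
      hval 0 le_rfl
    have hz' : ZZ (2 * (0 : ℂ)) = ZZ 0 := by rw [mul_zero]
    have hw' : W (2 * (0 : ℂ)) = W 0 := by rw [mul_zero]
    have ht'' : t2 (2 * (0 : ℂ)) = t2 0 := by rw [mul_zero]
    simp only [Complex.ofReal_zero, add_zero] at el ew ew2 ez ez2 et et'
    have hq0 : q ((0 : ℝ) : ℂ) = ((2 / l ^ 2 : ℝ) : ℂ) := by
      simp only [hq, Complex.ofReal_zero, add_zero]
      rw [hz', hw', ht'', hR0, el, ew, ez, et, Complex.exp_zero]
      have n1 : (l : ℂ) ≠ 0 := by exact_mod_cast hl.ne'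
      have n2 : (w : ℂ) ≠ 0 := by exact_mod_cast hw.ne'
      have n3 : (z : ℂ) ≠ 0 := by exact_mod_cast hz.ne'
      have n4 : (t : ℂ) ≠ 0 := by exact_mod_cast ht.ne'
      push_cast
      field_simp
    show 1 / 2 * Real.log (q ((0 : ℝ) : ℂ)).re = _
    rw [hq0, Complex.ofReal_re, el, Complex.ofReal_re, Real.log_div (by norm_num) (by positivity),
      Real.log_div (by positivity) hl.ne', Real.log_pow, Real.log_sqrt (by norm_num)]
    push_cast
    ring
  · intro σ hσ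
    have h0 : 0 ≤ σ := by linarith
    obtain ⟨l, w, w2, z, z2, t, t', hl, hw, hw2, hz, hz2, ht, ht', el, ew, ew2, ez, ez2, et, et'⟩ :=
      hval σ h0
    have hG : GG α σ = ((GG α σ).re : ℂ) :=
      Complex.ext (by simp) (by simp [Greal_real α hD.norm_α σ hσ])
    have hmain := hid σ (by simpa using hσ)
    have hexp : Complex.exp (2 * GG α σ) = q σ := by
      simp only [hq]
      rw [eq_div_iff]
      · rw [← hmain]
        ring
      · rw [el, ew, ez2, et']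
        have : ((l ^ 2 * w * z2 * t' : ℝ) : ℂ) ≠ 0 := by
          rw [Ne, Complex.ofReal_eq_zero]
          positivity
        push_cast at this
        exact this
    have hexp2 : (q σ).re = Real.exp (2 * (GG α σ).re) := by
      rw [← hexp, hG]
      have : Complex.exp (2 * (((GG α σ).re : ℝ) : ℂ)) =
          ((Real.exp (2 * (GG α σ).re) : ℝ) : ℂ) := by
        push_cast
        rfl
      rw [this, Complex.ofReal_re, Complex.ofReal_re]
    show GG α σ = ((1 / 2 * Real.log (q σ).re : ℝ) : ℂ)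
    rw [hexp2, Real.log_exp]
    conv_lhs => rw [hG]
    congr 1
    ring

end W3283e1
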