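import Pool.Agent.W_MP_3283e1_nt.Prim

set_option autoImplicit false

namespace W3283e1

open Complex

/-- Product of lattice points as Gaussian integers. -/
def multMul (u v : ℤ × ℤ) : ℤ × ℤ := (u.1 * v.1 - u.2 * v.2, u.1 * v.2 + u.2 * v.1)

/-- The congruence condition. -/
def multPrim (z : GaussianInt) : Prop := z.im % 2 = 0 ∧ (z.re - z.im) % 4 = 1

theorem multPrim_iff (z : GaussianInt) :
    multPrim z ↔ ∃ a b : ℤ, z.im = 2 * b ∧ z.re = 4 * a + 2 * b + 1 := by
  unfold multPrim
  constructor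
  · rintro ⟨h1, h2⟩
    refine ⟨(z.re - z.im) / 4, z.im / 2, by omega, by omega⟩
  · rintro ⟨a, b, h1, h2⟩
    constructor
    · omega
    · omega

theorem multPrim_mul (z w : GaussianInt) (hz : multPrim z) (hw : multPrim w) :
    multPrim (z * w) := by
  rw [multPrim_iff] at hz hw ⊢
  obtain ⟨a, b, h1, h2⟩ := hz
  obtain ⟨c, d, h3, h4⟩ := hw
  have him : (z * w).im = z.re * w.im + z.im * w.re := Zsqrtd.im_mul z w
  have hre : (z * w).re = z.re * w.re + -1 * z.im * w.im := Zsqrtd.re_mul z w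
  rw [him, hre, h1, h2, h3, h4]
  refine ⟨4 * a * c + a + c - 2 * b * d, (4 * a + 2 * b + 1) * d + b * (4 * c + 2 * d + 1), ?_, ?_⟩
  · ring
  · ring

theorem mult_norm (z : GaussianInt) : z.norm = z.re ^ 2 + z.im ^ 2 := by
  rw [Zsqrtd.norm_def]; ring

/-- An element of norm one. -/
theorem mult_unit (t : GaussianInt) (ht : t.norm = 1) :
    t = 1 ∨ t = -1 ∨ t = ⟨0, 1⟩ ∨ t = ⟨0, -1⟩ := by
  rw [mult_norm] at ht
  have h1 : t.re ≤ 1 := by nlinarith [sq_nonneg t.im]
  have h2 : -1 ≤ t.re := by nlinarith [sq_nonneg t.im]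
  have h3 : t.im ≤ 1 := by nlinarith [sq_nonneg t.re]
  have h4 : -1 ≤ t.im := by nlinarith [sq_nonneg t.re]
  have h5 : t.re = -1 ∨ t.re = 0 ∨ t.re = 1 := by omega
  have h6 : t.im = -1 ∨ t.im = 0 ∨ t.im = 1 := by omega
  rcases h5 with h5 | h5 | h5 <;> rcases h6 with h6 | h6 | h6 <;> rw [h5, h6] at ht <;>
    norm_num at ht
  · right; left; ext <;> simp [h5, h6]
  · right; right; right; ext <;> simp [h5, h6]
  · right; right; left; ext <;> simp [h5, h6]
  · left; ext <;> simp [h5, h6]

/-- Uniqueness of the primary associate. -/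
theorem mult_unique (t z : GaussianInt) (ht : t.norm = 1) (hz : multPrim z)
    (hw : multPrim (t * z)) : t = 1 := by
  rcases mult_unit t ht with h | h | h | h
  · exact h
  · exfalso
    rw [h, multPrim_iff] at hw
    rw [multPrim_iff] at hz
    obtain ⟨a, b, h1, h2⟩ := hz
    obtain ⟨c, d, h3, h4⟩ := hw
    rw [Zsqrtd.im_mul] at h3
    rw [Zsqrtd.re_mul] at h4
    simp at h3 h4
    omega
  · exfalso
    rw [h, multPrim_iff] at hw
    rw [multPrim_iff] at hz
    obtain ⟨a, b, h1, h2⟩ := hz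
    obtain ⟨c, d, h3, h4⟩ := hw
    rw [Zsqrtd.im_mul] at h3
    rw [Zsqrtd.re_mul] at h4
    simp at h3 h4
    omega
  · exfalso
    rw [h, multPrim_iff] at hw
    rw [multPrim_iff] at hz
    obtain ⟨a, b, h1, h2⟩ := hz
    obtain ⟨c, d, h3, h4⟩ := hw
    rw [Zsqrtd.im_mul] at h3
    rw [Zsqrtd.re_mul] at h4
    simp at h3 h4
    omega

/-- Existence of the primary associate. -/
theorem mult_exists (z : GaussianInt) (hz : Odd z.norm) :
    ∃ t s : GaussianInt, s * t = 1 ∧ t.norm = 1 ∧ multPrim (t * z) := by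
  rw [mult_norm, ← Int.not_even_iff_odd] at hz
  have key : ∀ t : GaussianInt, (t = 1 ∨ t = -1 ∨ t = ⟨0, 1⟩ ∨ t = ⟨0, -1⟩) →
      multPrim (t * z) → ∃ t s : GaussianInt, s * t = 1 ∧ t.norm = 1 ∧ multPrim (t * z) := by
    intro t ht hp
    have hn : t.norm = 1 := by
      rcases ht with h | h | h | h <;> rw [h, mult_norm] <;> simp
    refine ⟨t, star t, ?_, hn, hp⟩
    have := Zsqrtd.norm_eq_mul_conj t
    rw [hn] at this
    rw [mul_comm, ← this]
    simp
  have hodd : (z.re % 2 = 1 ∧ z.im % 2 = 0) ∨ (z.re % 2 = 0 ∧ z.im % 2 = 1) := by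
    rcases Int.emod_two_eq_zero_or_one z.re with h1 | h1 <;>
      rcases Int.emod_two_eq_zero_or_one z.im with h2 | h2
    · exfalso; apply hz
      have e1 : Even z.re := Int.even_iff.2 h1
      have e2 : Even z.im := Int.even_iff.2 h2
      exact (e1.pow_of_ne_zero two_ne_zero).add (e2.pow_of_ne_zero two_ne_zero)
    · right; exact ⟨h1, h2⟩
    · left; exact ⟨h1, h2⟩
    · exfalso; apply hz
      have e1 : Odd z.re := Int.odd_iff.2 h1
      have e2 : Odd z.im := Int.odd_iff.2 h2
      exact (e1.pow).add_odd (e2.pow)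
  rcases hodd with ⟨h1, h2⟩ | ⟨h1, h2⟩
  · by_cases h : (z.re - z.im) % 4 = 1
    · exact key 1 (Or.inl rfl) (by rw [one_mul]; exact ⟨h2, h⟩)
    · refine key (-1) (Or.inr (Or.inl rfl)) ?_
      constructor
      · rw [Zsqrtd.im_mul]; simp; omega
      · rw [Zsqrtd.im_mul, Zsqrtd.re_mul]; simp; omega
  · by_cases h : (-z.im - z.re) % 4 = 1
    · refine key ⟨0, 1⟩ (Or.inr (Or.inr (Or.inl rfl))) ?_
      constructor
      · rw [Zsqrtd.im_mul]; simp; omega
      · rw [Zsqrtd.im_mul, Zsqrtd.re_mul]; simp; omega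
    · refine key ⟨0, -1⟩ (Or.inr (Or.inr (Or.inr rfl))) ?_
      constructor
      · rw [Zsqrtd.im_mul]; simp; omega
      · rw [Zsqrtd.im_mul, Zsqrtd.re_mul]; simp; omega

/-- Lattice points as Gaussian integers. -/
def multG (z : ℤ × ℤ) : GaussianInt := ⟨z.1, z.2⟩

theorem multG_mul (u v : ℤ × ℤ) : multG (multMul u v) = multG u * multG v := by
  unfold multG multMul
  ext
  · rw [Zsqrtd.re_mul]; simp; ring
  · rw [Zsqrtd.im_mul]

theorem multG_inj (u v : ℤ × ℤ) (h : multG u = multG v) : u = v := by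
  have h1 := congrArg Zsqrtd.re h
  have h2 := congrArg Zsqrtd.im h
  exact Prod.ext h1 h2

theorem mult_mem (m : ℕ) (z : ℤ × ℤ) :
    z ∈ prF m ↔ multPrim (multG z) ∧ (multG z).norm = m := by
  rw [mem_prF, mult_norm]
  unfold multPrim multG
  tauto

theorem mult_cz (u v : ℤ × ℤ) : cz (multMul u v) = cz u * cz v := by
  unfold cz multMul
  push_cast
  have : (I : ℂ) * I = -1 := I_mul_I
  linear_combination (-(u.2 : ℂ) * (v.2 : ℂ)) * this

theorem mult_dvd (m : ℕ) (u : GaussianInt) (h : u.norm = m) : u ∣ (m : GaussianInt) := by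
  refine ⟨star u, ?_⟩
  have := Zsqrtd.norm_eq_mul_conj u
  rw [h] at this
  rw [← this]
  simp

theorem mult_coprime (m n : ℕ) (h : Nat.Coprime m n) :
    IsCoprime (m : GaussianInt) (n : GaussianInt) := by
  have := (Nat.isCoprime_iff_coprime.2 h).map (Int.castRingHom GaussianInt)
  simpa using this

/-- Multiplicativity.  For `m, n` odd and coprime (otherwise both sides vanish, `cc_even`; note
`m * n = 0` is covered) the multiplication of Gaussian integers is a bijection
`prF m × prF n → prF (m n)` and `cz (u v) = cz u * cz v`.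
(Products of primary elements are primary: `A - B ≡ 1 mod 4`, `B` even means
`z ≡ 1 mod (2+2i)`, direct computation.)
Surjective: for `w` of norm `mn` let `d = gcd(w, m)` in `GaussianInt` (a Euclidean domain),
`w = d w'`, `m = d m'`, `gcd(w', m') = 1`; `w * conj w = m n` gives `w' conj w = m' n`, so `w' ∣ n`;
norms: `N d ∣ m²`, `N w' ∣ n²`, `N d * N w' = m n`, coprimality gives `N d = m`, `N w' = n`; replace
`d, w'` by their primary associates (exactly one of the four associates of an element of odd norm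
is primary; the units multiply to `1` because `w` is primary and so is the product).
Injective: `u v = u' v'` with `N u = N u' = m`, `N v = N v' = n` coprime: `u ∣ u' v'` and
`u, v'` are coprime (a common divisor has norm dividing `m` and `n`), so `u ∣ u'`, equal norms make
them associates, both primary, so equal. -/
theorem cc_mul (k m n : ℕ) (h : Nat.Coprime m n) : cc k (m * n) = cc k m * cc k n := by
  unfold cc
  rw [Finset.sum_mul_sum, ← Finset.sum_product']
  symm
  refine Finset.sum_bij (fun p _ => multMul p.1 p.2) ?_ ?_ ?_ ?_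
  · rintro ⟨u, v⟩ huv
    rw [Finset.mem_product, mult_mem, mult_mem] at huv
    rw [mult_mem, multG_mul]
    refine ⟨multPrim_mul _ _ huv.1.1 huv.2.1, ?_⟩
    rw [Zsqrtd.norm_mul, huv.1.2, huv.2.2]
    push_cast; ring
  · rintro ⟨u, v⟩ huv ⟨u', v'⟩ huv' he
    rw [Finset.mem_product, mult_mem, mult_mem] at huv huv'
    obtain ⟨⟨pu, nu⟩, ⟨pv, nv⟩⟩ := huv
    obtain ⟨⟨pu', nu'⟩, ⟨pv', nv'⟩⟩ := huv'
    have he' : multG u * multG v = multG u' * multG v' := by
      rw [← multG_mul, ← multG_mul]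
      exact congrArg multG he
    simp only at nu nv nu' nv' pu pv pu' pv'
    -- nonzero
    have hne : ∀ z : GaussianInt, multPrim z → z.norm ≠ 0 := by
      intro z hz h0
      rw [multPrim_iff] at hz
      obtain ⟨a, b, h1, h2⟩ := hz
      rw [mult_norm, h1, h2] at h0
      have : (4 * a + 2 * b + 1) ^ 2 + (2 * b) ^ 2 =
          2 * (8 * a ^ 2 + 8 * a * b + 4 * a + 4 * b ^ 2 + 2 * b) + 1 := by ring
      omega
    have hu0 : multG u ≠ 0 := by
      intro h0
      apply hne _ pu
      rw [h0]; simp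
    have hcop : IsCoprime (multG u) (multG v') :=
      ((mult_coprime m n h).of_isCoprime_of_dvd_left (mult_dvd m _ nu)).of_isCoprime_of_dvd_right
        (mult_dvd n _ nv')
    have hdvd : multG u ∣ multG u' := by
      apply hcop.dvd_of_dvd_mul_right
      exact ⟨multG v, he'.symm⟩
    obtain ⟨t, ht⟩ := hdvd
    have hnt : t.norm = 1 := by
      have h1 : (multG u').norm = (multG u).norm * t.norm := by rw [ht, Zsqrtd.norm_mul]
      rw [nu', nu] at h1
      have hm : (m : ℤ) ≠ 0 := by rw [← nu]; exact hne _ pu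
      have h2 : (m : ℤ) * 1 = m * t.norm := by rw [mul_one]; exact h1
      exact (mul_left_cancel₀ hm h2).symm
    have ht1 : t = 1 := mult_unique t (multG u) hnt pu (by rw [mul_comm, ← ht]; exact pu')
    have huu : multG u = multG u' := by rw [ht, ht1, mul_one]
    have hvv : multG v = multG v' := by
      rw [← huu] at he'
      exact mul_left_cancel₀ hu0 he'
    exact Prod.ext (multG_inj _ _ huu) (multG_inj _ _ hvv)
  · intro w hw
    rw [mult_mem] at hw
    obtain ⟨pw, nw⟩ := hw
    have hodd : Odd (multG w).norm := by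
      rw [multPrim_iff] at pw
      obtain ⟨a, b, h1, h2⟩ := pw
      rw [mult_norm, h1, h2]
      exact ⟨8 * a ^ 2 + 8 * a * b + 4 * a + 4 * b ^ 2 + 2 * b, by ring⟩
    have hdvd : multG w ∣ (m : GaussianInt) * (n : GaussianInt) := by
      have := mult_dvd (m * n) (multG w) nw
      push_cast at this
      exact this
    obtain ⟨d, e, hd, he, hde⟩ := exists_dvd_and_dvd_of_dvd_mul hdvd
    have hmn : d.norm * e.norm = (m : ℤ) * n := by
      rw [← Zsqrtd.norm_mul, ← hde, nw]; push_cast; ring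
    have hodd' : Odd ((m : ℤ) * n) := by
      rw [← hmn, ← Zsqrtd.norm_mul, ← hde]; exact hodd
    have hdo : Odd d.norm := by
      rw [hde, Zsqrtd.norm_mul] at hodd
      exact Int.Odd.of_mul_left hodd
    have heo : Odd e.norm := by
      rw [hde, Zsqrtd.norm_mul] at hodd
      exact Int.Odd.of_mul_right hodd
    have hnd : d.norm ∣ (m : ℤ) ^ 2 := by
      obtain ⟨d', hd'⟩ := hd
      refine ⟨d'.norm, ?_⟩
      rw [← Zsqrtd.norm_mul, ← hd', Zsqrtd.norm_natCast]; ring
    have hne : e.norm ∣ (n : ℤ) ^ 2 := by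
      obtain ⟨e', he'⟩ := he
      refine ⟨e'.norm, ?_⟩
      rw [← Zsqrtd.norm_mul, ← he', Zsqrtd.norm_natCast]; ring
    have hcz : IsCoprime (m : ℤ) (n : ℤ) := Nat.isCoprime_iff_coprime.2 h
    have hd1 : d.norm ∣ (m : ℤ) := by
      have hc : IsCoprime d.norm (n : ℤ) :=
        (IsCoprime.pow_left hcz).of_isCoprime_of_dvd_left hnd
      apply hc.dvd_of_dvd_mul_right
      exact ⟨e.norm, hmn.symm⟩
    have he1 : e.norm ∣ (n : ℤ) := by
      have hc : IsCoprime e.norm (m : ℤ) :=
        (IsCoprime.pow_left hcz.symm).of_isCoprime_of_dvd_left hne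
      apply hc.dvd_of_dvd_mul_left
      exact ⟨d.norm, by rw [mul_comm e.norm]; exact hmn.symm⟩
    have hd0 : 0 ≤ d.norm := by rw [mult_norm]; positivity
    have he0 : 0 ≤ e.norm := by rw [mult_norm]; positivity
    have hmnz : (m : ℤ) * n ≠ 0 := by
      intro h0; rw [h0] at hodd'; exact absurd hodd' (by decide)
    have hm0 : (m : ℤ) ≠ 0 := left_ne_zero_of_mul hmnz
    have hn0 : (n : ℤ) ≠ 0 := right_ne_zero_of_mul hmnz
    have hmp : 0 < (m : ℤ) := lt_of_le_of_ne (Int.natCast_nonneg m) (Ne.symm hm0)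
    have hnp : 0 < (n : ℤ) := lt_of_le_of_ne (Int.natCast_nonneg n) (Ne.symm hn0)
    have hdle : d.norm ≤ m := Int.le_of_dvd hmp hd1
    have hele : e.norm ≤ n := Int.le_of_dvd hnp he1
    have hdm : d.norm = m := by
      by_contra hcon
      have hlt : d.norm < m := lt_of_le_of_ne hdle hcon
      have : d.norm * e.norm < (m : ℤ) * n := by
        calc d.norm * e.norm ≤ d.norm * n := mul_le_mul_of_nonneg_left hele hd0
          _ < m * n := mul_lt_mul_of_pos_right hlt hnp
      omega
    have hen : e.norm = n := by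
      rw [hdm] at hmn
      exact mul_left_cancel₀ hm0 hmn
    obtain ⟨t, s, hst, hnt, hpt⟩ := mult_exists d hdo
    have hns : s.norm = 1 := by
      have h1 : s.norm * t.norm = 1 := by rw [← Zsqrtd.norm_mul, hst]; simp
      rwa [hnt, mul_one] at h1
    have hnse : (s * e).norm = e.norm := by rw [Zsqrtd.norm_mul, hns, one_mul]
    obtain ⟨t2, s2, hst2, hnt2, hpt2⟩ := mult_exists (s * e) (by rw [hnse]; exact heo)
    have hw2 : t2 * multG w = (t * d) * (t2 * (s * e)) := by
      rw [hde]
      calc t2 * (d * e) = (s * t) * (t2 * (d * e)) := by rw [hst, one_mul]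
        _ = (t * d) * (t2 * (s * e)) := by ring
    have ht2 : t2 = 1 := by
      apply mult_unique t2 (multG w) hnt2 pw
      rw [hw2]
      exact multPrim_mul _ _ hpt hpt2
    rw [ht2, one_mul, one_mul] at hw2
    rw [ht2, one_mul] at hpt2
    refine ⟨(((t * d).re, (t * d).im), ((s * e).re, (s * e).im)), ?_, ?_⟩
    · rw [Finset.mem_product, mult_mem, mult_mem]
      refine ⟨⟨hpt, ?_⟩, ⟨hpt2, ?_⟩⟩
      · show (t * d).norm = m
        rw [Zsqrtd.norm_mul, hnt, one_mul, hdm]
      · show (s * e).norm = n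
        rw [hnse, hen]
    · apply multG_inj
      show multG (multMul _ _) = multG w
      rw [multG_mul, hw2]
      rfl
  · rintro ⟨u, v⟩ _
    simp only
    rw [mult_cz, mul_pow]

end W3283e1
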