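import Pool.Agent.W_MP_3283e1_nt.Prim

set_option autoImplicit false

namespace W3283e1

/-- The primary lattice points. -/
abbrev PL : Type := {z : ℤ × ℤ // z.2 % 2 = 0 ∧ (z.1 - z.2) % 4 = 1}

/-- The norm of a lattice point. -/
def nrm (z : ℤ × ℤ) : ℕ := (z.1 ^ 2 + z.2 ^ 2).toNat

theorem qgrp_cast (z : ℤ × ℤ) : ((nrm z : ℕ) : ℤ) = z.1 ^ 2 + z.2 ^ 2 := by
  unfold nrm
  exact Int.toNat_of_nonneg (by positivity)

theorem qgrp_eq_iff (z : ℤ × ℤ) (m : ℕ) : nrm z = m ↔ z.1 ^ 2 + z.2 ^ 2 = m := by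
  rw [← qgrp_cast]
  exact_mod_cast Iff.rfl

/-- The fibre of the norm is `prF m`. -/
def qgrp_fib (m : ℕ) : ↥((fun z : PL => nrm z) ⁻¹' {m}) ≃ ↥(prF m) where
  toFun z := ⟨z.1.1, (mem_prF m z.1.1).2 ⟨z.1.2.1, z.1.2.2, (qgrp_eq_iff z.1.1 m).1 z.2⟩⟩
  invFun z := ⟨⟨z.1, ((mem_prF m z.1).1 z.2).1, ((mem_prF m z.1).1 z.2).2.1⟩,
    (qgrp_eq_iff z.1 m).2 ((mem_prF m z.1).1 z.2).2.2⟩
  left_inv _ := rfl
  right_inv _ := rfl

/-- Grouping a convergent sum over primary points by the value of the norm (the fibre of `nrm`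
over `m` is `prF m`; `HasSum.sigma` / `HasSum.tsum_fiberwise`). -/
theorem group_sum (f : ℤ × ℤ → ℂ) (S : ℂ) (hf : HasSum (fun z : PL => f z) S) :
    HasSum (fun m : ℕ => ∑ z ∈ prF m, f z) S := by
  have h := hf.tsum_fiberwise (fun z : PL => nrm z)
  have h2 : (fun m : ℕ => ∑ z ∈ prF m, f z) =
      fun m : ℕ => ∑' b : ↥((fun z : PL => nrm z) ⁻¹' {m}), f b.1.1 := by
    funext m
    rw [← Finset.tsum_subtype (prF m) f]
    exact ((qgrp_fib m).tsum_eq (fun z : ↥(prF m) => f z.1)).symm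
  rw [h2]
  exact h

end W3283e1
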