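import Pool.Agent.W_MP_3283e1_nt.Defs

set_option autoImplicit false

namespace W3283e1

open Complex

/-- The character mod 4 with complex values. -/
noncomputable def chi4 : DirichletCharacter ℂ 4 := ZMod.χ₄.ringHomComp (Int.castRingHom ℂ)

/-- Its L-function. -/
noncomputable def L4 (s : ℂ) : ℂ := DirichletCharacter.LFunction chi4 s

theorem chi4_ne_one : chi4 ≠ 1 := by
  intro h
  have h3 : chi4 (3 : ZMod 4) = -1 := by
    rw [chi4, MulChar.ringHomComp_apply]
    have : ZMod.χ₄ (3 : ZMod 4) = -1 := by decide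
    rw [this]; simp
  have hu : IsUnit (3 : ZMod 4) := by decide
  rw [h, MulChar.one_apply hu] at h3
  norm_num at h3

/-- `DirichletCharacter.differentiable_LFunction` (`chi4 ≠ 1`). -/
theorem L4_diff : Differentiable ℂ L4 :=
  DirichletCharacter.differentiable_LFunction chi4_ne_one

/-- `DirichletCharacter.LFunction_ne_zero_of_one_le_re`. -/
theorem L4_ne (s : ℂ) (hs : 1 ≤ s.re) : L4 s ≠ 0 :=
  DirichletCharacter.LFunction_ne_zero_of_one_le_re chi4 (Or.inl chi4_ne_one) hs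

/-- The sign `+1` for `p ≡ 1 mod 4`, `-1` otherwise. -/
noncomputable def sg (p : ℕ) : ℂ := if p % 4 = 1 then 1 else -1

/-- Dropping the prime `2` from a product over the primes. -/
theorem drop_two (f : ℕ → ℂ) (a : ℂ) (h2 : f 2 ≠ 0)
    (h : HasProd (fun p : Nat.Primes => f p) a) :
    HasProd (fun p : OP => f p) (a * (f 2)⁻¹) := by
  have h1 : HasProd (Set.mulIndicator {p : ℕ | p.Prime} f) a :=
    hasProd_subtype_iff_mulIndicator.mp h
  have h3 : HasProd (fun n : ℕ => if n = 2 then (f 2)⁻¹ else 1) (f 2)⁻¹ := by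
    exact hasProd_ite_eq 2 (f 2)⁻¹
  have h4 := h1.mul h3
  have h5 : HasProd (Set.mulIndicator {p : ℕ | p.Prime ∧ p ≠ 2} f) (a * (f 2)⁻¹) := by
    convert h4 using 1
    funext n
    by_cases hn : n.Prime
    · by_cases hn2 : n = 2
      · subst hn2
        simp [Set.mulIndicator, Nat.prime_two, h2]
      · simp [Set.mulIndicator, hn, hn2]
    · have hn2 : n ≠ 2 := by rintro rfl; exact hn Nat.prime_two
      simp [Set.mulIndicator, hn, hn2]
  exact hasProd_subtype_iff_mulIndicator.mpr h5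

/-- `DirichletCharacter.LSeries_eulerProduct_hasProd`, dropping the prime `2` (factor `1`). -/
theorem L4_prod (s : ℂ) (hs : 1 < s.re) :
    HasProd (fun p : OP => (1 - sg p * (p : ℂ) ^ (-s))⁻¹) (L4 s) := by
  have h := DirichletCharacter.LSeries_eulerProduct_hasProd chi4 hs
  rw [← DirichletCharacter.LFunction_eq_LSeries chi4 hs] at h
  have h2 : chi4 ((2 : ℕ) : ZMod 4) = 0 := by
    rw [chi4, MulChar.ringHomComp_apply]
    have : ZMod.χ₄ ((2 : ℕ) : ZMod 4) = 0 := by decide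
    rw [this]; simp
  have h' := drop_two (fun p : ℕ => (1 - chi4 p * (p : ℂ) ^ (-s))⁻¹) _ (by simp only [h2]; simp) h
  have e : (L4 s) = DirichletCharacter.LFunction chi4 s *
      ((fun p : ℕ => (1 - chi4 p * (p : ℂ) ^ (-s))⁻¹) 2)⁻¹ := by
    simp only [h2]
    simp [L4]
  rw [e]
  convert h' using 1
  funext p
  have hp : chi4 ((p : ℕ) : ZMod 4) = sg p := by
    rw [chi4, MulChar.ringHomComp_apply, sg]
    have hodd : (p : ℕ) % 2 = 1 := by
      rcases p.2.1.eq_two_or_odd with h | h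
      · exact absurd h p.2.2
      · exact h
    have h4 : (p : ℕ) % 4 = 1 ∨ (p : ℕ) % 4 = 3 := by omega
    rcases h4 with h4 | h4
    · rw [if_pos h4, ZMod.χ₄_nat_one_mod_four h4]; simp
    · rw [if_neg (by omega), ZMod.χ₄_nat_three_mod_four h4]; simp
  simp only [hp]

/-- `riemannZeta_eulerProduct_hasProd` without the factor at `2`. -/
theorem zeta_prod (s : ℂ) (hs : 1 < s.re) :
    HasProd (fun p : OP => (1 - (p : ℂ) ^ (-s))⁻¹)
      (riemannZeta s * (1 - (2 : ℂ) ^ (-s))) := by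
  have h := riemannZeta_eulerProduct_hasProd hs
  have h2 : (1 - (2 : ℂ) ^ (-s)) ≠ 0 := by
    intro h0
    have h1 : (2 : ℂ) ^ (-s) = 1 := (sub_eq_zero.mp h0).symm
    have h3 : ‖(2 : ℂ) ^ (-s)‖ = (2 : ℝ) ^ (-s.re) := by
      have := Complex.norm_cpow_eq_rpow_re_of_pos (show (0:ℝ) < 2 by norm_num) (-s)
      simpa using this
    rw [h1, norm_one] at h3
    have h4 : (2 : ℝ) ^ (-s.re) < 1 := Real.rpow_lt_one_of_one_lt_of_neg (by norm_num) (by linarith)
    linarith
  have h' := drop_two (fun p : ℕ => (1 - (p : ℂ) ^ (-s))⁻¹) _ (by simpa using h2) h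
  simpa using h'

/-- Closed set of nonnegative reals inside `ℂ`. -/
theorem closed_nn : IsClosed {z : ℂ | 0 ≤ z.re ∧ z.im = 0} := by
  apply IsClosed.inter
  · exact isClosed_le continuous_const Complex.continuous_re
  · exact isClosed_eq Complex.continuous_im continuous_const

/-- For `σ > 1` the Euler product (or the series
`1 - 3^{-σ} + 5^{-σ} - ...`) is real and positive; at `σ = 1` by continuity real and `≥ 0`, and
nonzero by `L4_ne`. -/
theorem L4_pos (σ : ℝ) (hσ : 1 ≤ σ) : 0 < (L4 σ).re ∧ (L4 σ).im = 0 := by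
  have key : ∀ σ : ℝ, 1 < σ → L4 σ ∈ {z : ℂ | 0 ≤ z.re ∧ z.im = 0} := by
    intro σ hσ
    have h := L4_prod (σ : ℂ) (by simpa using hσ)
    refine closed_nn.mem_of_tendsto h (Filter.Eventually.of_forall fun t => ?_)
    refine Finset.prod_induction _ (fun z : ℂ => z ∈ {z : ℂ | 0 ≤ z.re ∧ z.im = 0}) ?_ ?_ ?_
    · rintro a b ⟨ha, ha'⟩ ⟨hb, hb'⟩
      refine ⟨?_, ?_⟩
      · rw [Complex.mul_re, ha', hb']; simpa using mul_nonneg ha hb
      · rw [Complex.mul_im, ha', hb']; simp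
    · simp
    · intro p _
      have hp : (1 : ℝ) < (p : ℕ) := by exact_mod_cast p.2.1.one_lt
      have hp0 : (0 : ℝ) < (p : ℕ) := by linarith
      have e : ((p : ℕ) : ℂ) ^ (-(σ : ℂ)) = (((p : ℕ) : ℝ) ^ (-σ) : ℝ) := by
        rw [Complex.ofReal_cpow hp0.le]; push_cast; rfl
      have hlt : ((p : ℕ) : ℝ) ^ (-σ) < 1 := Real.rpow_lt_one_of_one_lt_of_neg hp (by linarith)
      have hpos : 0 < ((p : ℕ) : ℝ) ^ (-σ) := Real.rpow_pos_of_pos hp0 _
      have : ∃ r : ℝ, 0 < r ∧ (1 - sg p * ((p : ℕ) : ℂ) ^ (-(σ : ℂ))) = (r : ℂ) := by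
        rw [e, sg]
        split_ifs
        · exact ⟨1 - ((p : ℕ) : ℝ) ^ (-σ), by linarith, by push_cast; ring⟩
        · exact ⟨1 + ((p : ℕ) : ℝ) ^ (-σ), by linarith, by push_cast; ring⟩
      obtain ⟨r, hr, hr'⟩ := this
      show (1 - sg p * ((p : ℕ) : ℂ) ^ (-(σ : ℂ)))⁻¹ ∈ {z : ℂ | 0 ≤ z.re ∧ z.im = 0}
      rw [hr', ← Complex.ofReal_inv]
      exact ⟨by simpa using hr.le, by simp⟩
  have key2 : L4 σ ∈ {z : ℂ | 0 ≤ z.re ∧ z.im = 0} := by
    rcases hσ.lt_or_eq with h | h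
    · exact key σ h
    · subst h
      have hc : ContinuousWithinAt (fun σ : ℝ => L4 (σ : ℂ)) (Set.Ioi 1) 1 :=
        (L4_diff.continuous.comp Complex.continuous_ofReal).continuousWithinAt
      refine closed_nn.mem_of_tendsto hc.tendsto ?_
      filter_upwards [self_mem_nhdsWithin] with x hx
      exact key x hx
  obtain ⟨h1, h2⟩ := key2
  refine ⟨lt_of_le_of_ne h1 ?_, h2⟩
  intro h0
  apply L4_ne (σ : ℂ) (by simpa using hσ)
  apply Complex.ext
  · simpa using h0.symm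
  · simpa using h2

end W3283e1
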