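import Mathlib

set_option autoImplicit false

namespace W3283e1

/-- The number of points of the curve `y² = x³ + a x + b` over the field with `p` elements,
including the point at infinity. -/
def npts (a b : ℤ) (p : ℕ) : ℕ :=
  ((Finset.range p ×ˢ Finset.range p).filter
    (fun q : ℕ × ℕ => (p : ℤ) ∣ (q.2 : ℤ) ^ 2 - ((q.1 : ℤ) ^ 3 + a * (q.1 : ℤ) + b))).card + 1

theorem cnt_ringChar (p : ℕ) [Fact p.Prime] (hp2 : p ≠ 2) : ringChar (ZMod p) ≠ 2 := by
  rw [ZMod.ringChar_zmod_n]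
  exact hp2

theorem cnt_two_ne (p : ℕ) [Fact p.Prime] (hp2 : p ≠ 2) : (2 : ZMod p) ≠ 0 :=
  Ring.two_ne_zero (cnt_ringChar p hp2)

/-- For each `x` the number of `y` is `1 + χ(x³+ax+b)` (`quadraticChar_card_sqrts`); identify
`range p` with `ZMod p`. -/
theorem npts_eq (a b : ℤ) (p : ℕ) [Fact p.Prime] (hp2 : p ≠ 2) :
    (npts a b p : ℤ) = p + 1 +
      ∑ x : ZMod p, quadraticChar (ZMod p) (x ^ 3 + (a : ZMod p) * x + (b : ZMod p)) := by
  classical
  have hcard : ((Finset.range p ×ˢ Finset.range p).filter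
      (fun q : ℕ × ℕ => (p : ℤ) ∣ (q.2 : ℤ) ^ 2 - ((q.1 : ℤ) ^ 3 + a * (q.1 : ℤ) + b))).card =
      ((Finset.univ : Finset (ZMod p × ZMod p)).filter
        (fun q => q.2 ^ 2 = q.1 ^ 3 + (a : ZMod p) * q.1 + (b : ZMod p))).card := by
    have key : ∀ x y : ℤ, ((p : ℤ) ∣ y ^ 2 - (x ^ 3 + a * x + b)) ↔
        ((y : ZMod p) ^ 2 = (x : ZMod p) ^ 3 + (a : ZMod p) * (x : ZMod p) + (b : ZMod p)) := by
      intro x y
      rw [← ZMod.intCast_zmod_eq_zero_iff_dvd]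
      push_cast
      exact sub_eq_zero
    refine Finset.card_nbij' (fun q : ℕ × ℕ => ((q.1 : ZMod p), (q.2 : ZMod p)))
      (fun q => (q.1.val, q.2.val)) ?_ ?_ ?_ ?_
    · intro q hq
      rw [Finset.mem_coe, Finset.mem_filter] at hq ⊢
      have h1 := (key _ _).1 hq.2
      push_cast at h1
      exact ⟨Finset.mem_univ _, h1⟩
    · intro q hq
      rw [Finset.mem_coe, Finset.mem_filter] at hq ⊢
      refine ⟨?_, ?_⟩
      · rw [Finset.mem_product, Finset.mem_range, Finset.mem_range]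
        exact ⟨ZMod.val_lt _, ZMod.val_lt _⟩
      · rw [key]
        push_cast
        rw [ZMod.natCast_zmod_val, ZMod.natCast_zmod_val]
        exact hq.2
    · intro q hq
      rw [Finset.mem_coe, Finset.mem_filter, Finset.mem_product, Finset.mem_range,
        Finset.mem_range] at hq
      exact Prod.ext (ZMod.val_cast_of_lt hq.1.1) (ZMod.val_cast_of_lt hq.1.2)
    · intro q _
      exact Prod.ext (ZMod.natCast_zmod_val _) (ZMod.natCast_zmod_val _)
  have hsum : ((((Finset.univ : Finset (ZMod p × ZMod p)).filter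
        (fun q => q.2 ^ 2 = q.1 ^ 3 + (a : ZMod p) * q.1 + (b : ZMod p))).card : ℕ) : ℤ) =
      ∑ x : ZMod p, (quadraticChar (ZMod p) (x ^ 3 + (a : ZMod p) * x + (b : ZMod p)) + 1) := by
    rw [Finset.card_filter, ← Finset.univ_product_univ, Finset.sum_product]
    push_cast
    refine Finset.sum_congr rfl fun x _ => ?_
    rw [← quadraticChar_card_sqrts (cnt_ringChar p hp2)]
    have h1 : ({y : ZMod p | y ^ 2 = x ^ 3 + (a : ZMod p) * x + (b : ZMod p)} : Set (ZMod p)).toFinset =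
        Finset.univ.filter (fun y => y ^ 2 = x ^ 3 + (a : ZMod p) * x + (b : ZMod p)) := by
      ext y
      simp
    rw [h1, Finset.card_filter]
    push_cast
    rfl
  unfold npts
  push_cast
  rw [hcard, hsum, Finset.sum_add_distrib, Finset.sum_const, Finset.card_univ, ZMod.card]
  simp only [nsmul_eq_mul, mul_one]
  ring

/-- For `p ≡ 3 mod 4`, `x ↦ -x` changes the sign of `χ(x³+ax)`. -/
theorem npts_p3 (a : ℤ) (p : ℕ) (hp : p.Prime) (h3 : p % 4 = 3) : npts a 0 p = p + 1 := by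
  haveI : Fact p.Prime := ⟨hp⟩
  have hp2 : p ≠ 2 := by
    rintro rfl
    omega
  have h1 := npts_eq a 0 p hp2
  have hneg : quadraticChar (ZMod p) (-1) = -1 := by
    rw [quadraticChar_neg_one (cnt_ringChar p hp2), ZMod.card]
    exact ZMod.χ₄_nat_three_mod_four h3
  have h2 : ∑ x : ZMod p, quadraticChar (ZMod p) (x ^ 3 + (a : ZMod p) * x + ((0 : ℤ) : ZMod p)) =
      - ∑ x : ZMod p, quadraticChar (ZMod p) (x ^ 3 + (a : ZMod p) * x + ((0 : ℤ) : ZMod p)) := by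
    conv_lhs => rw [← Equiv.sum_comp (Equiv.neg (ZMod p))]
    rw [← Finset.sum_neg_distrib]
    refine Finset.sum_congr rfl fun x _ => ?_
    have h4 : (Equiv.neg (ZMod p)) x ^ 3 + (a : ZMod p) * (Equiv.neg (ZMod p)) x +
        ((0 : ℤ) : ZMod p) = (-1) * (x ^ 3 + (a : ZMod p) * x + ((0 : ℤ) : ZMod p)) := by
      rw [Equiv.neg_apply]
      push_cast
      ring
    rw [h4, map_mul, hneg]
    ring
  have h3 : ∑ x : ZMod p, quadraticChar (ZMod p) (x ^ 3 + (a : ZMod p) * x + ((0 : ℤ) : ZMod p)) =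
      0 := by omega
  rw [h3, add_zero] at h1
  exact_mod_cast h1

/-- Scaling: `x ↦ u x` gives `∑ χ(x³ + a u² ... )`.  In `ZMod p`, for `u ≠ 0`,
`∑_x χ(x³ + c u² x) = χ(u) ∑_x χ(x³ + c x)` (substitute `x = u x'`:
`u³ x'³ + c u³ x' = u³ (x'³ + c x')`, `χ(u³) = χ(u)`). -/
theorem sum_scale (p : ℕ) [Fact p.Prime] (c u : ZMod p) (hu : u ≠ 0) :
    ∑ x : ZMod p, quadraticChar (ZMod p) (x ^ 3 + c * u ^ 2 * x) =
      quadraticChar (ZMod p) u * ∑ x : ZMod p, quadraticChar (ZMod p) (x ^ 3 + c * x) := by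
  rw [← Equiv.sum_comp (Equiv.mulLeft₀ u hu), Finset.mul_sum]
  refine Finset.sum_congr rfl fun x _ => ?_
  have h1 : (Equiv.mulLeft₀ u hu) x ^ 3 + c * u ^ 2 * (Equiv.mulLeft₀ u hu) x =
      u ^ 2 * (u * (x ^ 3 + c * x)) := by
    rw [Equiv.mulLeft₀_apply]
    ring
  rw [h1, map_mul, map_mul, quadraticChar_sq_one' hu, one_mul]

/-- `y² = x³ - 4x` is the twist by `2` of `y² = x³ - x` (`sum_scale` with `u = 2`, `c = -1`). -/
theorem npts_m4 (p : ℕ) [Fact p.Prime] (hp2 : p ≠ 2) :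
    (npts (-4) 0 p : ℤ) = p + 1 + quadraticChar (ZMod p) 2 * ((npts (-1) 0 p : ℤ) - p - 1) := by
  rw [npts_eq (-4) 0 p hp2, npts_eq (-1) 0 p hp2]
  have h1 := sum_scale p (-1) 2 (cnt_two_ne p hp2)
  have e1 : ∀ x : ZMod p, x ^ 3 + ((-4 : ℤ) : ZMod p) * x + ((0 : ℤ) : ZMod p) =
      x ^ 3 + (-1) * 2 ^ 2 * x := by
    intro x
    push_cast
    ring
  have e2 : ∀ x : ZMod p, x ^ 3 + ((-1 : ℤ) : ZMod p) * x + ((0 : ℤ) : ZMod p) =
      x ^ 3 + (-1) * x := by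
    intro x
    push_cast
    ring
  simp only [e1, e2]
  rw [h1]
  ring

/-- A square root of `-1` and the value of the character at `2i`. -/
theorem cnt_exists_i (p : ℕ) [Fact p.Prime] (h1 : p % 4 = 1) :
    ∃ i : ZMod p, i ^ 2 = -1 ∧ 2 * i ≠ 0 ∧ quadraticChar (ZMod p) (2 * i) = 1 := by
  have hp2 : p ≠ 2 := by
    rintro rfl
    omega
  have h2 := cnt_two_ne p hp2
  obtain ⟨i, hi⟩ : IsSquare (-1 : ZMod p) := ZMod.exists_sq_eq_neg_one_iff.2 (by omega)
  have hi2 : i ^ 2 = -1 := by rw [hi]; ring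
  have hi0 : i ≠ 0 := by
    rintro rfl
    rw [zero_pow two_ne_zero] at hi2
    exact one_ne_zero (neg_eq_zero.1 hi2.symm)
  have h3 : (1 : ZMod p) + i ≠ 0 := by
    intro h0
    have h4 : i = -1 := by linear_combination h0
    rw [h4] at hi2
    apply h2
    linear_combination hi2
  refine ⟨i, hi2, mul_ne_zero h2 hi0, ?_⟩
  have h4 : 2 * i = (1 + i) ^ 2 := by linear_combination -hi2
  rw [h4]
  exact quadraticChar_sq_one' h3

/-- For `p ≡ 1 mod 4` let `i² = -1`: `-4 = ((1+i)²)²`, `4 = -1 · (2 i)²`... precisely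
`4 = (-1) · (2i)²` with `χ(2i) = χ((1+i)²) = 1`, so `sum_scale` with `u = 2i`, `c = -1`. -/
theorem npts_4 (p : ℕ) [Fact p.Prime] (h1 : p % 4 = 1) : npts 4 0 p = npts (-1) 0 p := by
  have hp2 : p ≠ 2 := by
    rintro rfl
    omega
  obtain ⟨i, hi, hi0, hchi⟩ := cnt_exists_i p h1
  have h2 := npts_eq 4 0 p hp2
  have h3 := npts_eq (-1) 0 p hp2
  have h4 := sum_scale p (-1) (2 * i) hi0
  have e1 : ∀ x : ZMod p, x ^ 3 + ((4 : ℤ) : ZMod p) * x + ((0 : ℤ) : ZMod p) =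
      x ^ 3 + (-1) * (2 * i) ^ 2 * x := by
    intro x
    push_cast
    linear_combination 4 * x * hi
  have e2 : ∀ x : ZMod p, x ^ 3 + ((-1 : ℤ) : ZMod p) * x + ((0 : ℤ) : ZMod p) =
      x ^ 3 + (-1) * x := by
    intro x
    push_cast
    ring
  simp only [e1] at h2
  simp only [e2] at h3
  rw [h4, hchi, one_mul] at h2
  rw [← h3] at h2
  exact_mod_cast h2

/-- For `p ≡ 1 mod 4`: `1 = (-4) · u²` with `u = i/2`, i.e. `-4 = 1 · (2i)²` and
`χ(2i) = χ((1+i)²) = 1`; `sum_scale` with `u = 2i`, `c = 1`. -/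
theorem npts_1 (p : ℕ) [Fact p.Prime] (h1 : p % 4 = 1) : npts 1 0 p = npts (-4) 0 p := by
  have hp2 : p ≠ 2 := by
    rintro rfl
    omega
  obtain ⟨i, hi, hi0, hchi⟩ := cnt_exists_i p h1
  have h2 := npts_eq 1 0 p hp2
  have h3 := npts_eq (-4) 0 p hp2
  have h4 := sum_scale p 1 (2 * i) hi0
  have e1 : ∀ x : ZMod p, x ^ 3 + ((-4 : ℤ) : ZMod p) * x + ((0 : ℤ) : ZMod p) =
      x ^ 3 + 1 * (2 * i) ^ 2 * x := by
    intro x
    push_cast
    linear_combination -4 * x * hi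
  have e2 : ∀ x : ZMod p, x ^ 3 + ((1 : ℤ) : ZMod p) * x + ((0 : ℤ) : ZMod p) =
      x ^ 3 + 1 * x := by
    intro x
    push_cast
    ring
  simp only [e1] at h3
  simp only [e2] at h2
  rw [h4, hchi, one_mul, ← h2] at h3
  exact_mod_cast h3.symm

end W3283e1
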