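import Pool.Agent.W_MP_3283e1_nt.Defs

set_option autoImplicit false

namespace W3283e1

open Complex

theorem Ell_ppos (p : ℕ) (hp : p.Prime) : (0 : ℝ) < p := by exact_mod_cast hp.pos

theorem Ell_two_le (p : ℕ) (hp : p.Prime) : (2 : ℝ) ≤ p := by exact_mod_cast hp.two_le

theorem Ell_normSq (a : ℂ) (p : ℕ) (ha : ‖a‖ ^ 2 = p) : a.re * a.re + a.im * a.im = p := by
  rw [← ha, ← Complex.normSq_eq_norm_sq, Complex.normSq_apply]

/-- `|1 - a/p|^2 = 1 - 2 Re(a)/p + |a|^2/p^2`, and `|a|^2 = p`. -/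
theorem ratio_eq (a : ℂ) (p : ℕ) (hp : p.Prime) (ha : ‖a‖ ^ 2 = p) :
    ((p : ℝ) + 1 - 2 * a.re) / p = ‖1 - a / p‖ ^ 2 := by
  have hp0 := (Ell_ppos p hp).ne'
  have h := Ell_normSq a p ha
  rw [← Complex.normSq_eq_norm_sq, Complex.normSq_apply]
  have hre : (1 - a / p).re = 1 - a.re / p := by
    rw [Complex.sub_re, Complex.div_natCast_re, Complex.one_re]
  have him : (1 - a / p).im = - (a.im / p) := by
    rw [Complex.sub_im, Complex.div_natCast_im, Complex.one_im, zero_sub]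
  rw [hre, him]
  field_simp
  linear_combination -h

/-- `|a/p| = p^{-1/2} ≤ 2^{-1/2} < 0.7072`. -/
theorem norm_div (a : ℂ) (p : ℕ) (hp : p.Prime) (ha : ‖a‖ ^ 2 = p) :
    ‖a / p‖ = (p : ℝ) ^ (-(1 / 2) : ℝ) ∧ ‖a / p‖ ≤ 7072 / 10000 := by
  have hp0 := Ell_ppos p hp
  have hp2 := Ell_two_le p hp
  have hsq : ‖a / p‖ ^ 2 = 1 / p := by
    rw [_root_.norm_div, Complex.norm_natCast, div_pow, ha]
    field_simp
  constructor
  · have h1 : ((p : ℝ) ^ (-(1 / 2) : ℝ)) ^ 2 = 1 / p := by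
      rw [← Real.rpow_natCast, ← Real.rpow_mul hp0.le]
      norm_num
      exact Real.rpow_neg_one _
    have h2 : (0 : ℝ) ≤ (p : ℝ) ^ (-(1 / 2) : ℝ) := Real.rpow_nonneg hp0.le _
    exact (sq_eq_sq₀ (norm_nonneg _) h2).1 (hsq.trans h1.symm)
  · have h3 : (1 : ℝ) / p ≤ 1 / 2 := one_div_le_one_div_of_le (by norm_num) hp2
    nlinarith [norm_nonneg (a / (p : ℂ))]

/-- The quotient is positive (`ratio_eq` and `|a/p| < 1`). -/
theorem ratio_pos (a : ℂ) (p : ℕ) (hp : p.Prime) (ha : ‖a‖ ^ 2 = p) :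
    0 < ((p : ℝ) + 1 - 2 * a.re) / p := by
  rw [ratio_eq a p hp ha]
  have h := (W3283e1.norm_div a p hp ha).2
  have h1 : (1 : ℝ) - ‖a / p‖ ≤ ‖1 - a / p‖ := by
    have := norm_sub_norm_le (1 : ℂ) (a / p)
    rwa [norm_one] at this
  have h2 : 0 < ‖1 - a / (p : ℂ)‖ := by linarith
  positivity

theorem Ell_re_pos (a : ℂ) (p : ℕ) (hp : p.Prime) (ha : ‖a‖ ^ 2 = p) :
    0 < (1 - a / (p : ℂ)).re := by
  have h := (W3283e1.norm_div a p hp ha).2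
  have h1 := Complex.re_le_norm (a / (p : ℂ))
  rw [Complex.sub_re, Complex.one_re]
  linarith

/-- `log |z|^2 = log z + log (conj z)` with `z = 1 - a/p`, `Re z > 0`: the two logarithms are
conjugate (`Complex.log_conj`) and the real part of each is `log |z|`. -/
theorem ell_eq (a : ℂ) (p : ℕ) (hp : p.Prime) (ha : ‖a‖ ^ 2 = p) :
    (ell a p : ℂ) = Complex.log (1 - a / p) + Complex.log (1 - (starRingEnd ℂ a) / p) := by
  have hpos := Ell_re_pos a p hp ha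
  have harg : (1 - a / (p : ℂ)).arg ≠ Real.pi := by
    intro h
    rw [Complex.arg_eq_pi_iff] at h
    linarith [h.1]
  have hc : 1 - (starRingEnd ℂ a) / (p : ℂ) = starRingEnd ℂ (1 - a / (p : ℂ)) := by
    rw [map_sub, map_one, map_div₀, Complex.conj_natCast]
  rw [hc, Complex.log_conj _ harg, Complex.add_conj, Complex.log_re]
  unfold ell
  rw [ratio_eq a p hp ha, Real.log_pow]
  norm_num

/-- With `u = p^{-1/2} ≤ 0.7072`: the quotient lies in `[(1-u)^2, (1+u)^2]`, so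
`|ell| ≤ max (2 log (1+u), -2 log (1-u)) ≤ 2 u/(1-u) ≤ 7 u` (as `-log (1-u) ≤ u/(1-u)`,
`log(1+u) ≤ u`, and `2/(1-u) ≤ 6.84`). -/
theorem abs_ell_le (a : ℂ) (p : ℕ) (hp : p.Prime) (ha : ‖a‖ ^ 2 = p) :
    |ell a p| ≤ 7 * (p : ℝ) ^ (-(1 / 2) : ℝ) := by
  obtain ⟨hu, hu2⟩ := W3283e1.norm_div a p hp ha
  rw [← hu]
  set u := ‖a / (p : ℂ)‖ with hudef
  have hu0 : 0 ≤ u := norm_nonneg _
  have h1 : (1 : ℝ) - u ≤ ‖1 - a / (p : ℂ)‖ := by
    have := norm_sub_norm_le (1 : ℂ) (a / p)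
    rwa [norm_one] at this
  have h2 : ‖1 - a / (p : ℂ)‖ ≤ 1 + u := by
    have := norm_sub_le (1 : ℂ) (a / p)
    rwa [norm_one] at this
  have hz : 0 < ‖1 - a / (p : ℂ)‖ := by linarith
  unfold ell
  rw [ratio_eq a p hp ha, Real.log_pow]
  have h3 := Real.log_le_sub_one_of_pos hz
  have h4 := Real.one_sub_inv_le_log_of_pos hz
  have h5 : ‖1 - a / (p : ℂ)‖⁻¹ ≤ 1 + (7 / 2) * u := by
    rw [inv_le_iff_one_le_mul₀ hz]
    nlinarith
  rw [abs_le]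
  push_cast
  constructor <;> linarith

/-- `el` is `0` or `ell`; at `n = 0` both sides are `0`. -/
theorem abs_el_le (α : ℕ → ℂ) (hα : ∀ p : ℕ, p.Prime → p ≠ 2 → ‖α p‖ ^ 2 = p) (n : ℕ) :
    |el α n| ≤ 7 * (n : ℝ) ^ (-(1 / 2) : ℝ) := by
  unfold el
  split_ifs with h
  · exact abs_ell_le (α n) n h.1 (hα n h.1 h.2)
  · rw [abs_zero]
    positivity

/-- From `abs_el_le`: the terms are `O(n^{-1/2 - Re s})` (e.g. `LSeriesSummable_of_le_const_mul_rpow`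
with `x = 1/2`: it asks `x < Re s` and `‖f n‖ ≤ C n^(x-1)`). -/
theorem summable_el (α : ℕ → ℂ) (hα : ∀ p : ℕ, p.Prime → p ≠ 2 → ‖α p‖ ^ 2 = p)
    (s : ℂ) (hs : 1 / 2 < s.re) : LSeriesSummable (fun n => (el α n : ℂ)) s := by
  apply LSeriesSummable_of_le_const_mul_rpow (x := 1 / 2) hs
  refine ⟨7, fun n _ => ?_⟩
  rw [Complex.norm_real, Real.norm_eq_abs]
  have h := abs_el_le α hα n
  norm_num at h ⊢
  exact h

/-- The Dirichlet series as a sum over the odd primes: the terms `LSeries.term` vanish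
off the range of the injection `OP → ℕ` (`Function.Injective.hasSum_iff` or
`hasSum_subtype_iff_indicator`). -/
theorem hasSum_GG (α : ℕ → ℂ) (hα : ∀ p : ℕ, p.Prime → p ≠ 2 → ‖α p‖ ^ 2 = p)
    (s : ℂ) (hs : 1 / 2 < s.re) :
    HasSum (fun p : OP => (ell (α p) p : ℂ) * (p : ℂ) ^ (-s)) (GG α s) := by
  have h := (summable_el α hα s hs).LSeriesHasSum
  have h1 : HasSum (LSeries.term (fun n => (el α n : ℂ)) s) (GG α s) := h
  have hinj : Function.Injective (fun p : OP => (p : ℕ)) := Subtype.val_injective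
  have h2 := (hinj.hasSum_iff (f := LSeries.term (fun n => (el α n : ℂ)) s) (a := GG α s) ?_).2 h1
  · convert h2 using 2 with p
    have hp0 : (p : ℕ) ≠ 0 := p.2.1.ne_zero
    simp only [Function.comp]
    rw [LSeries.term_of_ne_zero hp0]
    have he : el α (p : ℕ) = ell (α p) p := by
      unfold el
      rw [if_pos p.2]
    rw [he, Complex.cpow_neg, div_eq_mul_inv]
  · intro n hn
    by_cases h0 : n = 0
    · rw [h0, LSeries.term_zero]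
    · rw [LSeries.term_of_ne_zero h0]
      have he : el α n = 0 := by
        unfold el
        rw [if_neg]
        intro hc
        exact hn ⟨⟨n, hc⟩, rfl⟩
      rw [he, Complex.ofReal_zero, zero_div]

theorem Ell_sqrt_step (N : ℕ) :
    2 * Real.sqrt N + ((N + 1 : ℕ) : ℝ) ^ (-(1 / 2) : ℝ) ≤ 2 * Real.sqrt ((N + 1 : ℕ) : ℝ) := by
  have hN : (0 : ℝ) ≤ N := Nat.cast_nonneg N
  have hpos : (0 : ℝ) < ((N + 1 : ℕ) : ℝ) := by positivity
  have e1 : ((N + 1 : ℕ) : ℝ) ^ (-(1 / 2) : ℝ) = 1 / Real.sqrt ((N + 1 : ℕ) : ℝ) := by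
    rw [Real.rpow_neg hpos.le, Real.sqrt_eq_rpow, ← one_div]
  rw [e1]
  have hs : 0 < Real.sqrt ((N + 1 : ℕ) : ℝ) := Real.sqrt_pos.2 hpos
  set t := Real.sqrt ((N + 1 : ℕ) : ℝ) with ht
  have ht2 : t ^ 2 = (N : ℝ) + 1 := by
    rw [ht, Real.sq_sqrt hpos.le]
    push_cast
    ring
  have hr2 : Real.sqrt (N : ℝ) ^ 2 = N := Real.sq_sqrt hN
  have hr0 : 0 ≤ Real.sqrt (N : ℝ) := Real.sqrt_nonneg _
  set r := Real.sqrt (N : ℝ) with hr
  have key : 2 * r * t + 1 ≤ 2 * t * t := by nlinarith [sq_nonneg (t - r)]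
  have : 2 * r + 1 / t = (2 * r * t + 1) / t := by field_simp
  rw [this, div_le_iff₀ hs]
  exact key

theorem Ell_sum_le (N : ℕ) :
    ∑ n ∈ Finset.Icc 1 N, (n : ℝ) ^ (-(1 / 2) : ℝ) ≤ 2 * Real.sqrt N := by
  induction N with
  | zero => simp
  | succ N ih =>
    rw [Finset.sum_Icc_succ_top (by omega)]
    have := Ell_sqrt_step N
    linarith

/-- `|AA x| ≤ ∑_{n ≤ x} 7 n^{-1/2} ≤ 14 √x` (induction on `N = ⌊x⌋`:
`2√N + 1/√(N+1) ≤ 2 √(N+1)`). -/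
theorem abs_AA_le (α : ℕ → ℂ) (hα : ∀ p : ℕ, p.Prime → p ≠ 2 → ‖α p‖ ^ 2 = p)
    (x : ℝ) (hx : 0 ≤ x) : |AA α x| ≤ 14 * Real.sqrt x := by
  unfold AA
  calc |∑ n ∈ Finset.Icc 1 ⌊x⌋₊, el α n|
      ≤ ∑ n ∈ Finset.Icc 1 ⌊x⌋₊, |el α n| := Finset.abs_sum_le_sum_abs _ _
    _ ≤ ∑ n ∈ Finset.Icc 1 ⌊x⌋₊, 7 * (n : ℝ) ^ (-(1 / 2) : ℝ) :=
        Finset.sum_le_sum (fun n _ => abs_el_le α hα n)
    _ = 7 * ∑ n ∈ Finset.Icc 1 ⌊x⌋₊, (n : ℝ) ^ (-(1 / 2) : ℝ) := by rw [Finset.mul_sum]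
    _ ≤ 7 * (2 * Real.sqrt (⌊x⌋₊ : ℝ)) :=
        mul_le_mul_of_nonneg_left (Ell_sum_le _) (by norm_num)
    _ ≤ 7 * (2 * Real.sqrt x) := by
        have := Real.sqrt_le_sqrt (Nat.floor_le hx)
        linarith
    _ = 14 * Real.sqrt x := by ring

end W3283e1
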