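import Pool.Agent.W_MP_3283e1_nt.KernInv

set_option autoImplicit false

namespace W3283e1

open Real

/-- Sums of positive terms. -/
theorem V0_pos (y : ℝ) (hy : 0 < y) : 0 < V0 y :=
  (V0_summable y hy).tsum_pos (fun _ => (exp_pos _).le) 0 (exp_pos _)

theorem V2_pos (y : ℝ) (hy : 0 < y) : 0 < V2 y :=
  (V2_summable y hy).tsum_pos (fun _ => (exp_pos _).le) 0 (exp_pos _)

/-- `V1_inv` and `V2_pos`. -/
theorem V1_pos (y : ℝ) (hy : 0 < y) : 0 < V1 y := by
  have hy' : 0 < 1 / y := by positivity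
  have h := V1_inv (1 / y) hy'
  rw [one_div_one_div] at h
  rw [h]
  exact mul_pos (Real.sqrt_pos.2 hy') (V2_pos _ hy')

theorem kernPos_term (k : ℕ) (y : ℝ) (hy : 1 ≤ y) :
    (4 * (k : ℝ) + 3) * exp (-π * (4 * (k : ℝ) + 3) ^ 2 * y / 4) ≤
      (1 / 4 : ℝ) ^ (k + 1) * exp (-π * y / 4) := by
  have hk : (0 : ℝ) ≤ k := Nat.cast_nonneg k
  have hpi : 3 < π := pi_gt_three
  have h1 : (4 * (k : ℝ) + 3) ≤ 4 ^ (k + 1) := by
    have h2 : ∀ m : ℕ, 4 * (m : ℝ) + 3 ≤ 4 ^ (m + 1) := by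
      intro m
      induction m with
      | zero => norm_num
      | succ m ih =>
        have hm : (0 : ℝ) ≤ m := Nat.cast_nonneg m
        rw [pow_succ]
        push_cast
        linarith
    exact h2 k
  have h3 : exp (-π * (4 * (k : ℝ) + 3) ^ 2 * y / 4) ≤
      exp (-(6 * (k + 1 : ℝ))) * exp (-π * y / 4) := by
    rw [← exp_add]
    apply exp_le_exp.2
    have h4 : (4 * (k : ℝ) + 3) ^ 2 = 1 + 8 * ((2 * k + 1) * (k + 1)) := by ring
    rw [h4]
    have h5 : 6 * ((k : ℝ) + 1) ≤ 2 * π * ((2 * k + 1) * (k + 1)) * y := by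
      have h6 : ((k : ℝ) + 1) ≤ (2 * k + 1) * (k + 1) := by nlinarith
      have h7 : 6 * ((k : ℝ) + 1) ≤ 2 * π * ((2 * k + 1) * (k + 1)) := by
        have : 0 ≤ (k : ℝ) + 1 := by positivity
        nlinarith
      have h8 : 0 ≤ 2 * π * ((2 * k + 1) * ((k : ℝ) + 1)) := by positivity
      nlinarith
    nlinarith
  have h9 : exp (-(6 * (k + 1 : ℝ))) ≤ (1 / 16 : ℝ) ^ (k + 1) := by
    have h10 : exp (-(6 * (k + 1 : ℝ))) = (exp (-6)) ^ (k + 1) := by
      rw [← exp_nat_mul]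
      congr 1
      push_cast
      ring
    rw [h10]
    refine pow_le_pow_left₀ (exp_pos _).le ?_ _
    rw [exp_neg, one_div]
    refine inv_anti₀ (by norm_num) ?_
    have h11 : (2 : ℝ) ≤ exp 1 := by
      have := add_one_le_exp (1 : ℝ)
      linarith
    have h12 : exp 6 = (exp 1) ^ 6 := by
      rw [← exp_nat_mul]
      norm_num
    rw [h12]
    calc (16 : ℝ) ≤ 2 ^ 6 := by norm_num
      _ ≤ (exp 1) ^ 6 := pow_le_pow_left₀ (by norm_num) h11 6
  calc (4 * (k : ℝ) + 3) * exp (-π * (4 * (k : ℝ) + 3) ^ 2 * y / 4)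
      ≤ 4 ^ (k + 1) * ((1 / 16 : ℝ) ^ (k + 1) * exp (-π * y / 4)) := by
        refine mul_le_mul h1 ?_ (exp_pos _).le (by positivity)
        exact h3.trans (mul_le_mul_of_nonneg_right h9 (exp_pos _).le)
    _ = (1 / 4 : ℝ) ^ (k + 1) * exp (-π * y / 4) := by
        rw [← mul_assoc, ← mul_pow]
        norm_num

theorem U_pos_of_one_le (y : ℝ) (hy1 : 1 ≤ y) : 0 < U y := by
  have hy : 0 < y := by linarith
  have hU := hasSum_U y hy
  set u : ℤ → ℝ := fun n : ℤ => (4 * (n : ℝ) + 1) * exp (-π * (4 * (n : ℝ) + 1) ^ 2 * y / 4)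
    with hu
  have hs := hU.summable
  have hs1 : Summable (fun n : ℕ => u n) := hs.comp_injective Nat.cast_injective
  have hs2 : Summable (fun n : ℕ => u (-(n + 1))) := by
    refine hs.comp_injective (i := fun n : ℕ => (-((n : ℤ) + 1))) ?_
    intro a b hab
    simp only at hab
    omega
  have hsum := hs1.hasSum.of_nat_of_neg_add_one hs2.hasSum
  have hUeq : U y = (∑' n : ℕ, u n) + ∑' n : ℕ, u (-(n + 1)) := hU.unique hsum
  have h0 : exp (-π * y / 4) ≤ ∑' n : ℕ, u n := by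
    have h1 : u ((0 : ℕ) : ℤ) = exp (-π * y / 4) := by
      simp [hu]
    rw [← h1]
    refine hs1.le_tsum 0 ?_
    intro j _
    simp only [hu]
    positivity
  have hneg : ∀ k : ℕ, u (-(k + 1)) =
      -((4 * (k : ℝ) + 3) * exp (-π * (4 * (k : ℝ) + 3) ^ 2 * y / 4)) := by
    intro k
    simp only [hu]
    push_cast
    have h2 : (4 * (-1 + -(k : ℝ)) + 1) = -(4 * (k : ℝ) + 3) := by ring
    have h2' : (4 * -((k : ℝ) + 1) + 1) = -(4 * (k : ℝ) + 3) := by ring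
    first
      | rw [h2]
      | rw [h2']
    rw [neg_sq]
    ring
  have hgeo : HasSum (fun k : ℕ => (1 / 4 : ℝ) ^ (k + 1) * exp (-π * y / 4))
      (1 / 3 * exp (-π * y / 4)) := by
    refine HasSum.mul_right _ ?_
    have h3 := (hasSum_geometric_of_lt_one (r := (1 / 4 : ℝ)) (by norm_num) (by norm_num)).mul_left
      (1 / 4)
    have h4 : (1 / 4 : ℝ) * (1 - 1 / 4)⁻¹ = 1 / 3 := by norm_num
    rw [h4] at h3
    have h5 : (fun k : ℕ => (1 / 4 : ℝ) ^ (k + 1)) = fun k : ℕ => 1 / 4 * (1 / 4 : ℝ) ^ k := by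
      funext k
      rw [pow_succ]
      ring
    rw [h5]
    exact h3
  have h5 : -(1 / 3 * exp (-π * y / 4)) ≤ ∑' n : ℕ, u (-(n + 1)) := by
    rw [← hgeo.tsum_eq, ← tsum_neg]
    refine Summable.tsum_le_tsum ?_ hgeo.summable.neg hs2
    intro k
    rw [hneg]
    exact neg_le_neg (kernPos_term k y hy1)
  rw [hUeq]
  have h6 : 0 < exp (-π * y / 4) := exp_pos _
  linarith

/-- For `y ≥ 1`: `U y = e^{-πy/4} (1 - 3 e^{-2πy} + 5 e^{-6πy} - ...) > 0`: pair the terms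
`n = -k` and `n = k`, `k ≥ 1`: `(4k+1) e^{-π(4k+1)²y/4} - (4k-1) e^{-π(4k-1)²y/4} ≥
-(4k-1) e^{-π(4k-1)²y/4}`; the sum of the negative parts is less than `e^{-πy/4}`
(`(4k-1) e^{-π((4k-1)²-1)/4} ≤ 4^{-k}`).  For `y < 1` use `U_inv`. -/
theorem U_pos (y : ℝ) (hy : 0 < y) : 0 < U y := by
  rcases le_or_gt 1 y with h1 | h1
  · exact U_pos_of_one_le y h1
  · have hy' : 0 < 1 / y := by positivity
    have h2 : 1 ≤ 1 / y := by
      rw [le_div_iff₀ hy]
      linarith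
    have h := U_inv (1 / y) hy'
    rw [one_div_one_div] at h
    rw [h]
    exact mul_pos (Real.rpow_pos_of_pos hy' _) (U_pos_of_one_le _ h2)

end W3283e1
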