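import Pool.Agent.W_MP_3283e1_nt.QUV

set_option autoImplicit false

namespace W3283e1

open Real

/-- Splitting a sum over the integers: even numbers and odd numbers, the latter written
`-2 k - 1`. -/
theorem QUV2_split (f : ℤ → ℝ) (a b : ℝ) (he : HasSum (fun k : ℤ => f (2 * k)) a)
    (ho : HasSum (fun k : ℤ => f (-2 * k - 1)) b) : HasSum f (a + b) := by
  have h1 : Function.Injective (fun k : ℤ => 2 * k) := by
    intro x y h
    have : 2 * x = 2 * y := h
    omega
  have h2 : Function.Injective (fun k : ℤ => -2 * k - 1) := by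
    intro x y h
    have : -2 * x - 1 = -2 * y - 1 := h
    omega
  have he' : HasSum (f ∘ (↑) : Set.range (fun k : ℤ => 2 * k) → ℝ) a :=
    h1.hasSum_range_iff.2 he
  have ho' : HasSum (f ∘ (↑) : Set.range (fun k : ℤ => -2 * k - 1) → ℝ) b :=
    h2.hasSum_range_iff.2 ho
  refine he'.add_isCompl ?_ ho'
  constructor
  · rw [Set.disjoint_left]
    rintro x ⟨k, hk⟩ ⟨l, hl⟩
    have hk' : 2 * k = x := hk
    have hl' : -2 * l - 1 = x := hl
    omega
  · rw [codisjoint_iff_le_sup]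
    intro x _
    rcases Int.even_or_odd' x with ⟨k, hk | hk⟩
    · exact Or.inl ⟨k, hk.symm⟩
    · refine Or.inr ⟨-k - 1, ?_⟩
      change -2 * (-k - 1) - 1 = x
      omega

/-- The second theta function as twice a sum over `1 mod 4`. -/
theorem QUV2_half (y : ℝ) (hy : 0 < y) :
    HasSum (fun k : ℤ => exp (-π * (4 * (k : ℝ) + 1) ^ 2 * y / 4)) (V2 y / 2) := by
  have hV := V2_summable y hy
  have h1 : Function.Injective (fun k : ℤ => 2 * k) := by
    intro x z h
    have : 2 * x = 2 * z := h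
    omega
  have hS : Summable (fun k : ℤ => exp (-π * (4 * (k : ℝ) + 1) ^ 2 * y / 4)) := by
    refine (hV.comp_injective h1).congr fun k => ?_
    simp only [Function.comp]
    congr 1
    push_cast
    ring
  obtain ⟨T, hT⟩ := hS
  have e1 : HasSum (fun k : ℤ => exp (-π * (((2 * k : ℤ) : ℝ) + 1 / 2) ^ 2 * y)) T := by
    convert hT using 2 with k
    congr 1
    push_cast
    ring
  have e2 : HasSum (fun k : ℤ => exp (-π * (((-2 * k - 1 : ℤ) : ℝ) + 1 / 2) ^ 2 * y)) T := by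
    convert hT using 2 with k
    congr 1
    push_cast
    ring
  have h3 := QUV2_split (fun n : ℤ => exp (-π * ((n : ℝ) + 1 / 2) ^ 2 * y)) T T e1 e2
  have h4 : V2 y = T + T := h3.tsum_eq
  have h5 : V2 y / 2 = T := by rw [h4]; ring
  rw [h5]
  exact hT

/-- The bijection of pairs of integers with the primary points. -/
def QUV2_equiv : ℤ × ℤ ≃ PL where
  toFun p := ⟨(2 * (p.1 + p.2) + 1, 2 * (p.2 - p.1)), by constructor <;> simp only <;> omega⟩
  invFun z := ((z.1.1 - z.1.2 - 1) / 4, (z.1.1 + z.1.2 - 1) / 4)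
  left_inv p := by
    apply Prod.ext <;> simp only <;> omega
  right_inv z := by
    obtain ⟨⟨A, B⟩, h1, h2⟩ := z
    simp only at h1 h2
    apply Subtype.ext
    apply Prod.ext <;> simp only <;> omega

/-- The symmetry `B ↦ -B` of the primary points. -/
def QUV2_conj : PL ≃ PL where
  toFun z := ⟨(z.1.1, -z.1.2), by
    obtain ⟨⟨A, B⟩, h1, h2⟩ := z
    simp only at h1 h2 ⊢
    constructor <;> omega⟩
  invFun z := ⟨(z.1.1, -z.1.2), by
    obtain ⟨⟨A, B⟩, h1, h2⟩ := z
    simp only at h1 h2 ⊢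
    constructor <;> omega⟩
  left_inv z := by
    apply Subtype.ext
    apply Prod.ext <;> simp
  right_inv z := by
    apply Subtype.ext
    apply Prod.ext <;> simp

theorem QUV2_nrm (z : ℤ × ℤ) : ((nrm z : ℕ) : ℝ) = (z.1 : ℝ) ^ 2 + (z.2 : ℝ) ^ 2 := by
  have h : ((nrm z : ℕ) : ℤ) = z.1 ^ 2 + z.2 ^ 2 := by
    unfold nrm
    exact Int.toNat_of_nonneg (by positivity)
  exact_mod_cast h

/-- The identity behind the functional equation at level `32`.
`U y * V2 y = ∑_{a ≡ 1 (4), b odd} a e^{-π(a²+b²)y/4} = 2 ∑_{a ≡ b ≡ 1 (4)} a e^{-π(a²+b²)y/4}`;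
with `z = (a+b)/2 + i(b-a)/2`, `a = A - B`, `a²+b² = 2 N z`; the sum of `B` vanishes by the symmetry
`B ↦ -B` of the primary points, and the rest is `U (2y) V1 (2y)` by `UV1_sum`. -/
theorem UV2 (y : ℝ) (hy : 0 < y) : U y * V2 y = 2 * (U (2 * y) * V1 (2 * y)) := by
  have hU : HasSum (fun n : ℤ => (4 * (n : ℝ) + 1) * exp (-π * (4 * (n : ℝ) + 1) ^ 2 * y / 4))
      (U y) := (U_summable y hy).hasSum
  have hV := QUV2_half y hy
  have hUV := hU.mul hV (summable_mul_of_summable_norm hU.summable.norm hV.summable.norm)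
  have h1 : HasSum (fun z : PL => ((z.1.1 : ℝ) - (z.1.2 : ℝ)) *
      exp (-π * (nrm z.1 : ℝ) * (2 * y) / 4)) (U y * (V2 y / 2)) := by
    rw [← QUV2_equiv.hasSum_iff]
    refine hUV.congr_fun ?_
    rintro ⟨m, k⟩
    simp only [Function.comp, QUV2_equiv, Equiv.coe_fn_mk]
    rw [mul_assoc (4 * (m : ℝ) + 1), ← Real.exp_add, QUV2_nrm]
    congr 1
    · push_cast
      ring
    · congr 1
      push_cast
      ring
  have h2 : HasSum (fun z : PL => ((z.1.1 : ℝ) + (z.1.2 : ℝ)) *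
      exp (-π * (nrm z.1 : ℝ) * (2 * y) / 4)) (U y * (V2 y / 2)) := by
    rw [← QUV2_conj.hasSum_iff]
    refine h1.congr_fun ?_
    intro z
    simp only [Function.comp, QUV2_conj, Equiv.coe_fn_mk]
    rw [QUV2_nrm, QUV2_nrm]
    congr 1
    · push_cast
      ring
    · congr 1
      push_cast
      ring
  have h3 := h1.add h2
  have h4 := (UV1_sum (2 * y) (by positivity)).mul_left 2
  have h5 : (fun z : PL => ((z.1.1 : ℝ) - (z.1.2 : ℝ)) *
      exp (-π * (nrm z.1 : ℝ) * (2 * y) / 4) + ((z.1.1 : ℝ) + (z.1.2 : ℝ)) *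
      exp (-π * (nrm z.1 : ℝ) * (2 * y) / 4)) =
      fun z : PL => 2 * ((z.1.1 : ℝ) * exp (-π * (nrm z.1 : ℝ) * (2 * y) / 4)) := by
    funext z
    ring
  rw [h5] at h3
  have h6 := h3.unique h4
  linarith

end W3283e1
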