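import Pool.Agent.W_MP_3283e1_nt.QExp
import Pool.Agent.W_MP_3283e1_nt.QUV2
import Pool.Agent.W_MP_3283e1_nt.KernPos

set_option autoImplicit false

namespace W3283e1

open Real

theorem FF_zero (t : ℝ) : FF 0 t = U (Real.sqrt 2 * t) * V1 (Real.sqrt 2 * t) := by
  simp [FF]

theorem FF_one (t : ℝ) : FF 1 t = U t * V0 t := by
  simp [FF]

theorem FF_else (j : ℕ) (h0 : j ≠ 0) (h1 : j ≠ 1) (t : ℝ) : FF j t = U t ^ 2 := by
  simp [FF, h0, h1]

theorem FF_pos (j : ℕ) (t : ℝ) (ht : 0 < t) : 0 < FF j t := by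
  have h2 : 0 < Real.sqrt 2 * t := by positivity
  by_cases h0 : j = 0
  · subst h0
    rw [FF_zero]
    exact mul_pos (U_pos _ h2) (V1_pos _ h2)
  · by_cases h1 : j = 1
    · subst h1
      rw [FF_one]
      exact mul_pos (U_pos t ht) (V0_pos t ht)
    · rw [FF_else j h0 h1]
      exact pow_pos (U_pos t ht) 2

theorem FF_cont (j : ℕ) : ContinuousOn (FF j) (Set.Ioi 0) := by
  by_cases h0 : j = 0
  · subst h0
    have h1 : FF 0 = fun t => U (Real.sqrt 2 * t) * V1 (Real.sqrt 2 * t) := funext FF_zero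
    rw [h1]
    have hm : Set.MapsTo (fun t : ℝ => Real.sqrt 2 * t) (Set.Ioi 0) (Set.Ioi 0) := by
      intro t ht
      have ht' : 0 < t := ht
      show 0 < Real.sqrt 2 * t
      positivity
    have hc : ContinuousOn (fun t : ℝ => Real.sqrt 2 * t) (Set.Ioi 0) := by fun_prop
    exact (U_cont.comp hc hm).mul (V1_cont.comp hc hm)
  · by_cases h1 : j = 1
    · subst h1
      have h1 : FF 1 = fun t => U t * V0 t := funext FF_one
      rw [h1]
      exact U_cont.mul V0_cont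
    · have h2 : FF j = fun t => U t ^ 2 := funext (FF_else j h0 h1)
      rw [h2]
      exact U_cont.pow 2

/-- `FF 0 (1/t) = U(1/y) V1(1/y)` with `y = t/√2`, `= y² U y V2 y = 2 y² U(2y) V1(2y) = t² FF 0 t`
(`U_inv`, `V1_inv`, `UV2`); `FF 1 (1/t) = t^{3/2} t^{1/2} FF 1 t`. -/
theorem FF_inv (j : ℕ) (hj : j = 0 ∨ j = 1) (t : ℝ) (ht : 0 < t) :
    FF j (1 / t) = t ^ (2 : ℝ) * FF j t := by
  have hpow : ∀ y : ℝ, 0 < y → y ^ (3 / 2 : ℝ) * Real.sqrt y = y ^ 2 := by
    intro y hy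
    rw [Real.sqrt_eq_rpow, ← Real.rpow_add hy, ← Real.rpow_natCast]
    norm_num
  have ht2 : t ^ (2 : ℝ) = t ^ 2 := by
    rw [← Real.rpow_natCast]
    norm_num
  rcases hj with hj | hj
  · subst hj
    have hs : 0 < Real.sqrt 2 := by positivity
    have hss : Real.sqrt 2 * Real.sqrt 2 = 2 := Real.mul_self_sqrt (by norm_num)
    set y : ℝ := t / Real.sqrt 2 with hy
    have hypos : 0 < y := by positivity
    have e1 : Real.sqrt 2 * (1 / t) = 1 / y := by
      rw [hy]
      field_simp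
    have e2 : 2 * y = Real.sqrt 2 * t := by
      rw [hy]
      field_simp
      nlinarith [hss]
    have e3 : 2 * y ^ 2 = t ^ 2 := by
      have : (2 * y) ^ 2 = (Real.sqrt 2 * t) ^ 2 := by rw [e2]
      nlinarith [hss]
    rw [FF_zero, FF_zero, e1, U_inv y hypos, V1_inv y hypos, ht2, ← e2, ← e3]
    have h4 : y ^ (3 / 2 : ℝ) * U y * (Real.sqrt y * V2 y) =
        (y ^ (3 / 2 : ℝ) * Real.sqrt y) * (U y * V2 y) := by ring
    rw [h4, hpow y hypos, UV2 y hypos]
    ring
  · subst hj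
    rw [FF_one, FF_one, U_inv t ht, V0_inv t ht, ht2, ← hpow t ht]
    ring

theorem FF2_inv (t : ℝ) (ht : 0 < t) : FF 2 (1 / t) = t ^ (3 : ℝ) * FF 2 t := by
  rw [FF_else 2 (by norm_num) (by norm_num), FF_else 2 (by norm_num) (by norm_num), U_inv t ht,
    mul_pow]
  congr 1
  rw [← Real.rpow_natCast, ← Real.rpow_mul ht.le]
  norm_num

/-- `U_decay`, `V0_bdd`, `V1_bdd`. -/
theorem FF_decay (j : ℕ) : ∃ C c : ℝ, 0 < c ∧ ∀ t : ℝ, 1 ≤ t → FF j t ≤ C * exp (-c * t) := by
  obtain ⟨C, hC⟩ := U_decay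
  obtain ⟨D0, hD0⟩ := V0_bdd
  obtain ⟨D1, hD1⟩ := V1_bdd
  by_cases h0 : j = 0
  · subst h0
    refine ⟨C * D1, π / 4 * Real.sqrt 2, by positivity, fun t ht => ?_⟩
    have hs : 1 ≤ Real.sqrt 2 := by
      rw [Real.one_le_sqrt]
      norm_num
    have ht' : 1 ≤ Real.sqrt 2 * t := by nlinarith
    have hp : 0 < Real.sqrt 2 * t := by linarith
    have h1 := hC _ ht'
    have h2 := hD1 _ ht'
    have h3 := U_pos _ hp
    have h4 := V1_pos _ hp
    rw [FF_zero]
    calc U (Real.sqrt 2 * t) * V1 (Real.sqrt 2 * t)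
        ≤ (C * exp (-(π / 4) * (Real.sqrt 2 * t))) * D1 :=
          mul_le_mul h1 h2 h4.le (h3.le.trans h1)
      _ = C * D1 * exp (-(π / 4 * Real.sqrt 2) * t) := by
          rw [show -(π / 4) * (Real.sqrt 2 * t) = -(π / 4 * Real.sqrt 2) * t by ring]
          ring
  · by_cases h1 : j = 1
    · subst h1
      refine ⟨C * D0, π / 4, by positivity, fun t ht => ?_⟩
      have hp : 0 < t := by linarith
      have h1 := hC _ ht
      have h2 := hD0 _ ht
      have h3 := U_pos _ hp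
      have h4 := V0_pos _ hp
      rw [FF_one]
      calc U t * V0 t
          ≤ (C * exp (-(π / 4) * t)) * D0 :=
            mul_le_mul h1 h2 h4.le (h3.le.trans h1)
        _ = C * D0 * exp (-(π / 4) * t) := by ring
    · refine ⟨C ^ 2, π / 2, by positivity, fun t ht => ?_⟩
      have hp : 0 < t := by linarith
      have h2 := hC _ ht
      have h3 := U_pos _ hp
      rw [FF_else j h0 h1]
      calc U t ^ 2 ≤ (C * exp (-(π / 4) * t)) ^ 2 := pow_le_pow_left₀ h3.le h2 2
        _ = C ^ 2 * exp (-(π / 2) * t) := by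
          rw [mul_pow, ← Real.exp_nat_mul]
          congr 2
          push_cast
          ring

end W3283e1
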