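import Pool.Agent.W_MP_3283e1_nt.Ell

set_option autoImplicit false

namespace W3283e1

open Complex MeasureTheory

/-- `AA` is a function of `⌊x⌋₊`. -/
theorem AA_meas (α : ℕ → ℂ) : Measurable (AA α) := by
  have h : AA α = (fun n : ℕ => ∑ k ∈ Finset.Icc 1 n, el α k) ∘ (fun x : ℝ => ⌊x⌋₊) := rfl
  rw [h]
  exact (measurable_of_countable _).comp Nat.measurable_floor

/-- `|AA t| ≤ 14 √t`, and `t^{1/2 - σ - 1}` is integrable on `(1,∞)` for `σ > 1/2`. -/
theorem AA_integrable (α : ℕ → ℂ) (hα : ∀ p : ℕ, p.Prime → p ≠ 2 → ‖α p‖ ^ 2 = p)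
    (σ : ℝ) (hσ : 1 / 2 < σ) :
    IntegrableOn (fun t : ℝ => AA α t * t ^ (-(σ + 1))) (Set.Ioi 1) := by
  have h1 : IntegrableOn (fun t : ℝ => 14 * t ^ (1 / 2 - (σ + 1))) (Set.Ioi 1) :=
    (integrableOn_Ioi_rpow_of_lt (by linarith) one_pos).const_mul 14
  refine Integrable.mono' h1 ?_ ?_
  · exact ((AA_meas α).mul (measurable_id.pow_const _)).aestronglyMeasurable
  · refine (ae_restrict_iff' measurableSet_Ioi).2 (Filter.Eventually.of_forall fun t ht => ?_)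
    have ht0 : 0 < t := one_pos.trans ht
    have h2 := abs_AA_le α hα t ht0.le
    have h3 : 0 ≤ t ^ (-(σ + 1)) := Real.rpow_nonneg ht0.le _
    rw [norm_mul, Real.norm_eq_abs, Real.norm_eq_abs, abs_of_nonneg h3]
    calc |AA α t| * t ^ (-(σ + 1)) ≤ 14 * Real.sqrt t * t ^ (-(σ + 1)) :=
          mul_le_mul_of_nonneg_right h2 h3
      _ = 14 * t ^ (1 / 2 - (σ + 1)) := by
          rw [Real.sqrt_eq_rpow, mul_assoc, ← Real.rpow_add ht0]
          congr 2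

/-- Partial summation: `LSeries_eq_mul_integral` with `r = 1/2` (summability from `summable_el`,
the bound on the partial sums from `abs_AA_le` at natural numbers). -/
theorem GG_int (α : ℕ → ℂ) (hα : ∀ p : ℕ, p.Prime → p ≠ 2 → ‖α p‖ ^ 2 = p)
    (s : ℂ) (hs : 1 / 2 < s.re) :
    GG α s = s * ∫ t in Set.Ioi (1 : ℝ), (AA α t : ℂ) * (t : ℂ) ^ (-(s + 1)) := by
  have hO : (fun n : ℕ => ∑ k ∈ Finset.Icc 1 n, (fun n => (el α n : ℂ)) k) =O[Filter.atTop]
      fun n : ℕ => (n : ℝ) ^ (1 / 2 : ℝ) := by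
    refine Asymptotics.IsBigO.of_bound 14 (Filter.Eventually.of_forall fun n => ?_)
    have h1 := abs_AA_le α hα (n : ℝ) (Nat.cast_nonneg n)
    have h2 : ∑ k ∈ Finset.Icc 1 n, (fun n => (el α n : ℂ)) k = ((AA α (n : ℝ) : ℝ) : ℂ) := by
      unfold AA
      rw [Nat.floor_natCast]
      push_cast
      rfl
    rw [h2, Complex.norm_real, Real.norm_eq_abs, Real.norm_eq_abs,
      abs_of_nonneg (Real.rpow_nonneg (Nat.cast_nonneg n) _), ← Real.sqrt_eq_rpow]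
    exact h1
  unfold GG
  rw [LSeries_eq_mul_integral (fun n => (el α n : ℂ)) (by norm_num : (0 : ℝ) ≤ 1 / 2) hs
    (summable_el α hα s hs) hO]
  congr 1
  refine setIntegral_congr_fun measurableSet_Ioi fun t _ => ?_
  change (∑ k ∈ Finset.Icc 1 ⌊t⌋₊, (el α k : ℂ)) * (t : ℂ) ^ (-(s + 1)) =
    ((AA α t : ℝ) : ℂ) * (t : ℂ) ^ (-(s + 1))
  congr 1
  unfold AA
  push_cast
  rfl

end W3283e1
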