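import Pool.Agent.W_MP_3283e1_nt.Defs

set_option autoImplicit false

namespace W3283e1

open Complex Filter Topology

theorem ZZ_tendsto : Tendsto (fun w : ℂ => w * riemannZeta (1 + w)) (𝓝[≠] 0) (𝓝 1) := by
  have h1 : Tendsto (fun w : ℂ => 1 + w) (𝓝[≠] 0) (𝓝[≠] 1) := by
    apply tendsto_nhdsWithin_of_tendsto_nhds_of_eventually_within
    · have : Tendsto (fun w : ℂ => 1 + w) (𝓝 0) (𝓝 (1 + 0)) :=
        tendsto_const_nhds.add tendsto_id
      rw [add_zero] at this
      exact this.mono_left nhdsWithin_le_nhds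
    · filter_upwards [self_mem_nhdsWithin] with w hw
      intro h
      apply hw
      have h' : (1 : ℂ) + w = 1 := h
      simpa using h'
  have h2 := riemannZeta_residue_one.comp h1
  refine h2.congr ?_
  intro w
  simp

theorem ZZ_eq_update : ZZ = Function.update (fun w : ℂ => w * riemannZeta (1 + w)) 0 1 := by
  funext w
  by_cases hw : w = 0
  · subst hw
    simp [ZZ]
  · simp [ZZ, hw]

theorem ZZ_diffAt_of_ne {w : ℂ} (hw : w ≠ 0) : DifferentiableAt ℂ ZZ w := by
  have h1 : DifferentiableAt ℂ (fun w : ℂ => w * riemannZeta (1 + w)) w := by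
    apply differentiableAt_id.mul
    have h2 : DifferentiableAt ℂ riemannZeta (1 + w) := by
      apply differentiableAt_riemannZeta
      intro h
      apply hw
      simpa using h
    exact h2.comp w ((differentiableAt_const _).add differentiableAt_id)
  refine h1.congr_of_eventuallyEq ?_
  filter_upwards [isOpen_ne.mem_nhds hw] with v hv
  simp [ZZ, hv]

/-- `w ζ(1+w)` is entire: away from `0` it is a product of differentiable functions
(`differentiableAt_riemannZeta`), at `0` it is continuous (`riemannZeta_residue_one`), hence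
differentiable there by the removable singularity theorem
(`Complex.analyticAt_of_differentiable_on_punctured_nhds_of_continuousAt`). -/
theorem ZZ_diff : Differentiable ℂ ZZ := by
  intro w
  by_cases hw : w = 0
  · subst hw
    apply AnalyticAt.differentiableAt
    apply Complex.analyticAt_of_differentiable_on_punctured_nhds_of_continuousAt
    · filter_upwards [self_mem_nhdsWithin] with v hv
      exact ZZ_diffAt_of_ne hv
    · rw [ZZ_eq_update, continuousAt_update_same]
      exact ZZ_tendsto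
  · exact ZZ_diffAt_of_ne hw

/-- `riemannZeta_ne_zero_of_one_le_re`. -/
theorem ZZ_ne (w : ℂ) (hw : 0 ≤ w.re) : ZZ w ≠ 0 := by
  by_cases h : w = 0
  · simp [ZZ, h]
  · simp only [ZZ, h, if_false]
    apply mul_ne_zero h
    apply riemannZeta_ne_zero_of_one_le_re
    simpa using hw

theorem ZZ_zeta_real {σ : ℝ} (hσ : 0 < σ) :
    riemannZeta (1 + (σ : ℂ)) = ((∑' n : ℕ, 1 / (n : ℝ) ^ (1 + σ) : ℝ) : ℂ) := by
  rw [zeta_eq_tsum_one_div_nat_cpow (by simpa using hσ), Complex.ofReal_tsum]
  congr 1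
  funext n
  push_cast
  rw [Complex.ofReal_cpow (Nat.cast_nonneg n)]
  push_cast
  rfl

/-- For `σ > 0`, `ζ(1+σ) = ∑ n^{-(1+σ)}` is real and positive
(`zeta_eq_tsum_one_div_nat_cpow`). -/
theorem ZZ_pos (σ : ℝ) (hσ : 0 ≤ σ) : 0 < (ZZ σ).re ∧ (ZZ σ).im = 0 := by
  rcases hσ.eq_or_lt with h | h
  · rw [← h]
    simp [ZZ]
  · have h1 : ZZ σ = ((σ * ∑' n : ℕ, 1 / (n : ℝ) ^ (1 + σ) : ℝ) : ℂ) := by
      have h2 : (σ : ℂ) ≠ 0 := by exact_mod_cast h.ne'
      simp only [ZZ, h2, if_false]
      rw [ZZ_zeta_real h]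
      push_cast
      rfl
    have h3 : 0 < ∑' n : ℕ, 1 / (n : ℝ) ^ (1 + σ) := by
      have hs : Summable (fun n : ℕ => 1 / (n : ℝ) ^ (1 + σ)) :=
        Real.summable_one_div_nat_rpow.mpr (by linarith)
      refine hs.tsum_pos (fun n => by positivity) 1 ?_
      simp
    rw [h1]
    constructor
    · rw [Complex.ofReal_re]
      positivity
    · exact Complex.ofReal_im _

theorem t2_diff : Differentiable ℂ t2 := by
  intro w
  unfold t2
  apply (differentiableAt_const _).sub
  apply DifferentiableAt.const_cpow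
  · exact (differentiableAt_const _).sub differentiableAt_id
  · left
    norm_num

/-- `|2^{-1-w}| < 1`. -/
theorem t2_ne (w : ℂ) (hw : -1 < w.re) : t2 w ≠ 0 := by
  intro h
  have h1 : (2 : ℂ) ^ (-1 - w) = 1 := by
    unfold t2 at h
    exact (sub_eq_zero.mp h).symm
  have h2 : ‖(2 : ℂ) ^ (-1 - w)‖ = (2 : ℝ) ^ (-1 - w).re := by
    have := Complex.norm_cpow_eq_rpow_re_of_pos (x := 2) (by norm_num) (-1 - w)
    simpa using this
  rw [h1, norm_one] at h2
  have h3 : (2 : ℝ) ^ (-1 - w).re < 1 := by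
    apply Real.rpow_lt_one_of_one_lt_of_neg (by norm_num)
    simp only [Complex.sub_re, Complex.neg_re, Complex.one_re]
    linarith
  linarith

theorem t2_pos (σ : ℝ) (hσ : -1 < σ) : 0 < (t2 σ).re ∧ (t2 σ).im = 0 := by
  have h1 : t2 σ = ((1 - (2 : ℝ) ^ (-1 - σ) : ℝ) : ℂ) := by
    unfold t2
    rw [Complex.ofReal_sub, Complex.ofReal_cpow (by norm_num)]
    push_cast
    rfl
  have h2 : (2 : ℝ) ^ (-1 - σ) < 1 := by
    apply Real.rpow_lt_one_of_one_lt_of_neg (by norm_num)
    linarith
  rw [h1]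
  constructor
  · rw [Complex.ofReal_re]
    linarith
  · exact Complex.ofReal_im _

end W3283e1
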