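import Pool.Agent.W_MP_3283e1_nt.RSum
import Pool.Agent.W_MP_3283e1_nt.Zfun

set_option autoImplicit false

namespace W3283e1

open Complex

/-- The basic identity.  For `Re s > 1/2` multiply `rp_exp` over all odd primes: the left side
gives `exp (R s)` (`HasSum.cexp`: `HasSum f a → HasProd (exp ∘ f) (exp a)`), the right side
`exp (2 GG s) * (L(1+s))^2 * (W s/(ζ(1+s) t2 s)) * (W (2s)/(ζ(1+2s) t2 (2s)))⁻¹`
by `hasSum_GG`, `L_prod` at `1+s`, `W_prod` at `s` and `W_prod` at `2s` inverted (the value is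
nonzero by `W_ne`, so the inverse product converges to the inverse: `HasProd.inv₀` or tendsto of
inverses).  Then `ζ(1+s) = ZZ s / s`, `ζ(1+2s) = ZZ (2s)/(2s)` and `ZZ, t2, W` are nonzero. -/
theorem ident (α : ℕ → ℂ) (L W : ℂ → ℂ) (hD : Data α L W) :
    ∃ R : ℂ → ℂ, DifferentiableOn ℂ R {s : ℂ | -(1 / 10) < s.re} ∧ R 0 = 0 ∧
      (∀ σ : ℝ, -(1 / 10) < σ → (R σ).im = 0) ∧
      ∀ s : ℂ, 1 / 2 < s.re →
        (L (1 + s)) ^ 2 * Complex.exp (2 * GG α s) * W s * ZZ (2 * s) * t2 (2 * s)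
          = 2 * W (2 * s) * ZZ s * t2 s * Complex.exp (R s) := by
  obtain ⟨R, hRd, hR0, hRr, hRs⟩ := R_exists α hD.norm_α
  refine ⟨R, hRd, hR0, hRr, fun s hs => ?_⟩
  have hs0 : s ≠ 0 := by
    rintro rfl
    norm_num at hs
  have h2s0 : 2 * s ≠ 0 := mul_ne_zero two_ne_zero hs0
  have hre2 : (2 * s).re = 2 * s.re := by simp
  have hre1 : (1 + s).re = 1 + s.re := by simp
  have hζ1 : riemannZeta (1 + s) ≠ 0 :=
    riemannZeta_ne_zero_of_one_le_re (by rw [hre1]; linarith)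
  have hζ2 : riemannZeta (1 + 2 * s) ≠ 0 :=
    riemannZeta_ne_zero_of_one_le_re (by simp only [Complex.add_re, Complex.one_re, hre2]; linarith)
  have ht1 : t2 s ≠ 0 := t2_ne s (by linarith)
  have ht2 : t2 (2 * s) ≠ 0 := t2_ne (2 * s) (by rw [hre2]; linarith)
  have hW2 : W (2 * s) ≠ 0 := hD.W_ne (2 * s) (by rw [hre2]; linarith)
  have hA : HasProd (fun p : OP => Complex.exp (rp (α p) p s)) (Complex.exp (R s)) :=
    (hRs s (by linarith)).cexp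
  have hB : HasProd (fun p : OP => Complex.exp (2 * ((ell (α p) p : ℂ) * (p : ℂ) ^ (-s))))
      (Complex.exp (2 * GG α s)) := ((hasSum_GG α hD.norm_α s hs).mul_left 2).cexp
  have hC := hD.L_prod (1 + s) (by rw [hre1]; linarith)
  have hE := hD.W_prod s (by linarith)
  have hF := (hD.W_prod (2 * s) (by rw [hre2]; linarith)).inv₀
    (div_ne_zero hW2 (mul_ne_zero hζ2 ht2))
  have hG := ((hB.mul (hC.mul hC)).mul hE).mul hF
  have hfun : (fun p : OP => Complex.exp (rp (α p) p s)) = fun p : OP =>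
      Complex.exp (2 * ((ell (α p) p : ℂ) * (p : ℂ) ^ (-s))) *
        ((fL (α p) p (1 + s))⁻¹ * (fL (α p) p (1 + s))⁻¹) * (fM (α p) p s)⁻¹ *
        ((fM (α p) p (2 * s))⁻¹)⁻¹ := by
    funext p
    rw [rp_exp (α p) p p.2.1 (hD.norm_α p p.2.1 p.2.2) s (by linarith), inv_inv, sq]
  rw [hfun] at hA
  have hfin := hA.unique hG
  rw [hfin]
  have hZ1 : ZZ s = s * riemannZeta (1 + s) := if_neg hs0
  have hZ2 : ZZ (2 * s) = (2 * s) * riemannZeta (1 + 2 * s) := if_neg h2s0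
  rw [hZ1, hZ2]
  have key : ∀ l e w1 z2 u2 w2 z1 u1 : ℂ, w2 ≠ 0 → z2 ≠ 0 → u2 ≠ 0 → z1 ≠ 0 → u1 ≠ 0 →
      l ^ 2 * e * w1 * (2 * s * z2) * u2 =
        2 * w2 * (s * z1) * u1 * (e * (l * l) * (w1 / (z1 * u1)) * (w2 / (z2 * u2))⁻¹) := by
    intro l e w1 z2 u2 w2 z1 u1 h1 h2 h3 h4 h5
    field_simp
  exact key _ _ _ _ _ _ _ _ hW2 hζ2 ht2 hζ1 ht1

end W3283e1
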