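import Mathlib

set_option autoImplicit false

namespace W3283e1

open Complex

/-- The primary Gaussian integers `A + B i` (`B` even, `A - B ≡ 1 mod 4`) of norm `m`. -/
noncomputable def prF (m : ℕ) : Finset (ℤ × ℤ) :=
  (Finset.Icc (-(m : ℤ)) m ×ˢ Finset.Icc (-(m : ℤ)) m).filter
    (fun z => z.2 % 2 = 0 ∧ (z.1 - z.2) % 4 = 1 ∧ z.1 ^ 2 + z.2 ^ 2 = m)

/-- The complex number of a lattice point. -/
noncomputable def cz (z : ℤ × ℤ) : ℂ := (z.1 : ℂ) + (z.2 : ℂ) * I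

/-- `∑ z^k` over the primary Gaussian integers of norm `m`. -/
noncomputable def cc (k m : ℕ) : ℂ := ∑ z ∈ prF m, cz z ^ k

/-- The box condition is automatic. -/
theorem mem_prF (m : ℕ) (z : ℤ × ℤ) :
    z ∈ prF m ↔ z.2 % 2 = 0 ∧ (z.1 - z.2) % 4 = 1 ∧ z.1 ^ 2 + z.2 ^ 2 = m := by
  unfold prF
  simp only [Finset.mem_filter, Finset.mem_product, Finset.mem_Icc]
  constructor
  · exact fun h => h.2
  · intro h
    refine ⟨⟨⟨?_, ?_⟩, ⟨?_, ?_⟩⟩, h⟩ <;> nlinarith [h.2.2, sq_nonneg (z.1 - 1), sq_nonneg (z.1 + 1),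
      sq_nonneg (z.2 - 1), sq_nonneg (z.2 + 1), sq_nonneg z.1, sq_nonneg z.2]

theorem prim_re (z : ℤ × ℤ) : (cz z).re = z.1 := by
  simp [cz]

theorem prim_im (z : ℤ × ℤ) : (cz z).im = z.2 := by
  simp [cz]

/-- The norm of a point of `prF m` is `√m`. -/
theorem norm_cz (m : ℕ) (z : ℤ × ℤ) (hz : z ∈ prF m) : ‖cz z‖ ^ 2 = m := by
  rw [Complex.sq_norm, Complex.normSq_apply, prim_re, prim_im]
  have h := ((mem_prF m z).1 hz).2.2
  have h2 : ((z.1 : ℝ)) ^ 2 + (z.2 : ℝ) ^ 2 = m := by exact_mod_cast h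
  rw [← h2]
  ring

/-- `prF 0 = ∅`. -/
theorem cc_zero (k : ℕ) : cc k 0 = 0 := by
  unfold cc
  apply Finset.sum_eq_zero
  intro z hz
  exfalso
  obtain ⟨-, h2, h3⟩ := (mem_prF 0 z).1 hz
  have h4 : z.1 = 0 := by
    have : z.1 ^ 2 = 0 := by
      push_cast at h3
      nlinarith [sq_nonneg z.1, sq_nonneg z.2]
    exact pow_eq_zero_iff (two_ne_zero) |>.1 this
  have h5 : z.2 = 0 := by
    have : z.2 ^ 2 = 0 := by
      push_cast at h3
      nlinarith [sq_nonneg z.1, sq_nonneg z.2]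
    exact pow_eq_zero_iff (two_ne_zero) |>.1 this
  rw [h4, h5] at h2
  norm_num at h2

/-- `prF 1 = {(1,0)}`. -/
theorem cc_one (k : ℕ) : cc k 1 = 1 := by
  have h : prF 1 = {((1 : ℤ), (0 : ℤ))} := by
    ext ⟨a, b⟩
    rw [mem_prF, Finset.mem_singleton]
    constructor
    · rintro ⟨h1, h2, h3⟩
      simp only at h1 h2 h3
      rw [Nat.cast_one] at h3
      have hb1 : b ≤ 1 := by nlinarith [sq_nonneg a]
      have hb2 : -1 ≤ b := by nlinarith [sq_nonneg a]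
      have hb : b = 0 := by omega
      subst hb
      have ha1 : a ≤ 1 := by nlinarith
      have ha2 : -1 ≤ a := by nlinarith
      have ha : a = 1 := by omega
      rw [ha]
    · intro h
      obtain ⟨rfl, rfl⟩ := Prod.mk.inj h
      norm_num
  unfold cc
  rw [h, Finset.sum_singleton]
  simp [cz]

/-- `A` odd and `B` even make the norm odd. -/
theorem cc_even (k m : ℕ) (hm : Even m) : cc k m = 0 := by
  unfold cc
  apply Finset.sum_eq_zero
  intro z hz
  exfalso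
  obtain ⟨h1, h2, h3⟩ := (mem_prF m z).1 hz
  obtain ⟨r, hr⟩ := hm
  obtain ⟨b, hb⟩ : ∃ b, z.2 = 2 * b := ⟨z.2 / 2, by omega⟩
  obtain ⟨a, ha⟩ : ∃ a, z.1 = 2 * a + 1 := ⟨z.1 / 2, by omega⟩
  rw [ha, hb, hr] at h3
  push_cast at h3
  have h4 : 2 * (2 * a ^ 2 + 2 * a + 2 * b ^ 2) + 1 = 2 * (r : ℤ) := by linarith
  omega

theorem prim_conj (z : ℤ × ℤ) : cz (z.1, -z.2) = starRingEnd ℂ (cz z) := by
  apply Complex.ext
  · rw [Complex.conj_re, prim_re, prim_re]
  · rw [Complex.conj_im, prim_im, prim_im]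
    push_cast
    ring

theorem prim_conj_mem {m : ℕ} {z : ℤ × ℤ} (hz : z ∈ prF m) : (z.1, -z.2) ∈ prF m := by
  rw [mem_prF] at hz ⊢
  obtain ⟨h1, h2, h3⟩ := hz
  refine ⟨?_, ?_, ?_⟩
  · simp only
    omega
  · simp only
    omega
  · simp only
    rw [neg_sq]
    exact h3

/-- Complex conjugation is a symmetry of `prF m`: the values are real. -/
theorem cc_real (k m : ℕ) : (cc k m).im = 0 ∧ (cc k m).re = ∑ z ∈ prF m, (cz z ^ k).re := by
  constructor
  · rw [← Complex.conj_eq_iff_im]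
    unfold cc
    rw [map_sum]
    refine Finset.sum_bij' (fun z _ => (z.1, -z.2)) (fun z _ => (z.1, -z.2))
      (fun z hz => prim_conj_mem hz) (fun z hz => prim_conj_mem hz) ?_ ?_ ?_
    · intro z _
      simp
    · intro z _
      simp
    · intro z _
      rw [map_pow, prim_conj]
  · unfold cc
    rw [Complex.re_sum]

/-- The triangle inequality with `norm_cz`. -/
theorem norm_cc_le (k m : ℕ) : ‖cc k m‖ ≤ (prF m).card * (m : ℝ) ^ ((k : ℝ) / 2) := by
  unfold cc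
  refine (norm_sum_le _ _).trans ?_
  have h : ∀ z ∈ prF m, ‖cz z ^ k‖ = (m : ℝ) ^ ((k : ℝ) / 2) := by
    intro z hz
    rw [norm_pow, ← norm_cz m z hz, ← Real.rpow_natCast (‖cz z‖) 2,
      ← Real.rpow_mul (norm_nonneg _), ← Real.rpow_natCast (‖cz z‖) k]
    congr 1
    push_cast
    ring
  rw [Finset.sum_congr rfl h, Finset.sum_const, nsmul_eq_mul]

/-- `cc 0 m` counts. -/
theorem cc_card (m : ℕ) : cc 0 m = (prF m).card := by
  unfold cc
  simp

end W3283e1
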