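import Pool.Agent.W_MP_3283e1_nt.Cnt
import Pool.Agent.W_MP_3283e1_nt.Prim

set_option autoImplicit false

namespace W3283e1

/-- `i` is a primitive fourth root of unity in `ℤ[i]` -/
theorem Jac_prim : IsPrimitiveRoot (⟨0, 1⟩ : GaussianInt) 4 := by
  rw [IsPrimitiveRoot.iff (by norm_num)]
  constructor
  · decide
  · intro l h0 hl
    interval_cases l <;> decide

/-- the conjugate of a fourth root of unity -/
theorem Jac_star {w : GaussianInt} (hw : w ^ 4 = 1) : star w = w ^ 3 := by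
  have h1 : (Zsqrtd.norm w) ^ 4 = 1 := by
    have h2 := congrArg Zsqrtd.norm hw
    rw [Zsqrtd.norm_one] at h2
    have h3 : w ^ 4 = w * w * (w * w) := by ring
    rw [h3, Zsqrtd.norm_mul, Zsqrtd.norm_mul] at h2
    linarith
  have h2 : Zsqrtd.norm w = 1 :=
    (pow_eq_one_iff_of_nonneg (GaussianInt.norm_nonneg w) (by norm_num)).mp h1
  have h3 : w * star w = 1 := by
    rw [← Zsqrtd.norm_eq_mul_conj, h2]
    norm_num
  calc star w = star w * w ^ 4 := by rw [hw, mul_one]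
    _ = w * star w * w ^ 3 := by ring
    _ = w ^ 3 := by rw [h3, one_mul]

/-- the two dimensional divisibility condition -/
def Jac_P (t : GaussianInt) : Prop := 2 ∣ t.im ∧ 4 ∣ (t.re - t.im)

theorem Jac_P_zero : Jac_P 0 := by
  constructor
  · exact dvd_zero _
  · exact dvd_zero _

theorem Jac_P_add (a b : GaussianInt) (ha : Jac_P a) (hb : Jac_P b) : Jac_P (a + b) := by
  obtain ⟨a1, a2⟩ := ha
  obtain ⟨b1, b2⟩ := hb
  constructor
  · rw [Zsqrtd.im_add]
    exact dvd_add a1 b1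
  · rw [Zsqrtd.im_add, Zsqrtd.re_add]
    have := dvd_add a2 b2
    have e : a.re - a.im + (b.re - b.im) = a.re + b.re - (a.im + b.im) := by ring
    rwa [e] at this

theorem Jac_root {w : GaussianInt} (hw : w ^ 4 = 1) :
    w = 1 ∨ w = ⟨0, 1⟩ ∨ w = -1 ∨ w = ⟨0, -1⟩ := by
  obtain ⟨i, hi, h⟩ := Jac_prim.eq_pow_of_pow_eq_one hw
  rw [← h]
  interval_cases i
  · left; decide
  · right; left; decide
  · right; right; left; decide
  · right; right; right; decide

theorem Jac_term {w e : GaussianInt} (hw : w ^ 4 = 1) (he : e = 1 ∨ e = -1) :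
    Jac_P ((w - 1) * (e - 1)) := by
  rcases Jac_root hw with h | h | h | h <;> rcases he with h' | h' <;> rw [h, h'] <;>
    constructor <;> decide

section

variable {p : ℕ} [Fact p.Prime]

/-- the quadratic character with values in the Gaussian integers -/
noncomputable def Jac_chi (p : ℕ) [Fact p.Prime] : MulChar (ZMod p) GaussianInt :=
  (quadraticChar (ZMod p)).ringHomComp (Int.castRingHom GaussianInt)

theorem Jac_chi_apply (x : ZMod p) :
    Jac_chi p x = ((quadraticChar (ZMod p) x : ℤ) : GaussianInt) := rfl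

theorem Jac_ringChar (hp2 : p ≠ 2) : ringChar (ZMod p) ≠ 2 := by
  rw [ZMod.ringChar_zmod_n]
  exact hp2

theorem Jac_sq (hp2 : p ≠ 2) {ψ : MulChar (ZMod p) GaussianInt} (hψ : orderOf ψ = 4) :
    ψ ^ 2 = Jac_chi p := by
  obtain ⟨g, hg⟩ := IsCyclic.exists_generator (α := (ZMod p)ˣ)
  rw [MulChar.eq_iff hg]
  have h4 : ψ ^ 4 = 1 := by
    rw [← hψ]
    exact pow_orderOf_eq_one ψ
  have h1 : (ψ ^ 2) (g : ZMod p) = -1 := by
    have h2 : (ψ ^ 2) (g : ZMod p) ^ 2 = 1 := by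
      rw [← MulChar.pow_apply_coe, ← pow_mul, h4]
      exact MulChar.one_apply_coe g
    rw [sq] at h2
    rcases mul_self_eq_one_iff.mp h2 with h | h
    · exfalso
      have h3 : ψ ^ 2 = 1 := by
        rw [MulChar.eq_iff hg, h]
        exact (MulChar.one_apply_coe g).symm
      have h5 := orderOf_dvd_of_pow_eq_one h3
      rw [hψ] at h5
      revert h5
      decide
    · exact h
  have h2 : quadraticChar (ZMod p) (g : ZMod p) = -1 := by
    rcases quadraticChar_dichotomy (F := ZMod p) g.ne_zero with h | h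
    · exfalso
      have h3 : quadraticChar (ZMod p) = 1 := by
        rw [MulChar.eq_iff hg, h]
        exact (MulChar.one_apply_coe g).symm
      exact quadraticChar_ne_one (Jac_ringChar hp2) h3
    · exact h
  rw [h1, Jac_chi_apply, h2]
  norm_num

theorem Jac_pow4 {ψ : MulChar (ZMod p) GaussianInt} (hψ : orderOf ψ = 4) {x : ZMod p}
    (hx : x ≠ 0) : ψ x ^ 4 = 1 := by
  have h4 : ψ ^ 4 = 1 := by
    rw [← hψ]
    exact pow_orderOf_eq_one ψ
  have h := MulChar.pow_apply_coe ψ 4 (Units.mk0 x hx)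
  rw [h4, MulChar.one_apply_coe] at h
  exact h.symm

theorem Jac_sq_apply (hp2 : p ≠ 2) {ψ : MulChar (ZMod p) GaussianInt} (hψ : orderOf ψ = 4)
    (x : ZMod p) : ψ x ^ 2 = Jac_chi p x := by
  rw [← Jac_sq hp2 hψ, MulChar.pow_apply' ψ (by norm_num)]

theorem Jac_star_apply (hp2 : p ≠ 2) {ψ : MulChar (ZMod p) GaussianInt} (hψ : orderOf ψ = 4)
    (x : ZMod p) : star (ψ x) = Jac_chi p x * ψ x := by
  by_cases hx : x = 0
  · rw [hx, MulChar.map_zero, mul_zero, star_zero]
  · rw [Jac_star (Jac_pow4 hψ hx), ← Jac_sq_apply hp2 hψ]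
    ring

/-- the Jacobi sum -/
noncomputable def Jac_J (ψ : MulChar (ZMod p) GaussianInt) : GaussianInt :=
  jacobiSum ψ (Jac_chi p)

theorem Jac_J_eq (ψ : MulChar (ZMod p) GaussianInt) :
    Jac_J ψ = ∑ x : ZMod p, ψ x * Jac_chi p (1 - x) := rfl

theorem Jac_star_chi (x : ZMod p) : star (Jac_chi p x) = Jac_chi p x := by
  rw [Jac_chi_apply]
  exact star_intCast _

theorem Jac_star_J (hp2 : p ≠ 2) {ψ : MulChar (ZMod p) GaussianInt} (hψ : orderOf ψ = 4) :
    star (Jac_J ψ) = ∑ x : ZMod p, Jac_chi p x * ψ x * Jac_chi p (1 - x) := by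
  rw [Jac_J_eq, star_sum]
  refine Finset.sum_congr rfl fun x _ => ?_
  rw [star_mul', Jac_star_chi, Jac_star_apply hp2 hψ]

/-- sums over squares -/
theorem Jac_sum_sq (hp2 : p ≠ 2) (g : ZMod p → GaussianInt) :
    ∑ x : ZMod p, g (x ^ 2) = ∑ u : ZMod p, (Jac_chi p u + 1) * g u := by
  classical
  rw [← Finset.sum_fiberwise Finset.univ (fun x : ZMod p => x ^ 2)]
  refine Finset.sum_congr rfl fun u _ => ?_
  have h1 : ∑ x ∈ Finset.univ.filter (fun x : ZMod p => x ^ 2 = u), g (x ^ 2) =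
      ∑ _x ∈ Finset.univ.filter (fun x : ZMod p => x ^ 2 = u), g u := by
    refine Finset.sum_congr rfl fun x hx => ?_
    rw [(Finset.mem_filter.mp hx).2]
  rw [h1, Finset.sum_const, nsmul_eq_mul]
  have h2 := quadraticChar_card_sqrts (Jac_ringChar hp2) u
  have h3 : ({x : ZMod p | x ^ 2 = u}.toFinset) =
      Finset.univ.filter (fun x : ZMod p => x ^ 2 = u) := by
    ext x
    simp
  rw [h3] at h2
  congr 1
  rw [Jac_chi_apply]
  have h4 := congrArg (fun n : ℤ => (n : GaussianInt)) h2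
  push_cast at h4
  exact h4

/-- the character sum of the curve -/
theorem Jac_sum (h1 : p % 4 = 1) {ψ : MulChar (ZMod p) GaussianInt} (hψ : orderOf ψ = 4) :
    ∑ x : ZMod p, Jac_chi p (x ^ 3 + ((-1 : ℤ) : ZMod p) * x + ((0 : ℤ) : ZMod p)) =
      Jac_J ψ + star (Jac_J ψ) := by
  have hp2 : p ≠ 2 := by
    rintro rfl
    norm_num at h1
  have hneg : Jac_chi p (-1) = 1 := by
    rw [Jac_chi_apply]
    have h2 : quadraticChar (ZMod p) (-1) = 1 := by
      rw [quadraticChar_one_iff_isSquare (by simp)]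
      rw [FiniteField.isSquare_neg_one_iff, ZMod.card, h1]
      decide
    rw [h2]
    norm_num
  have e : ∀ x : ZMod p,
      Jac_chi p (x ^ 3 + ((-1 : ℤ) : ZMod p) * x + ((0 : ℤ) : ZMod p)) =
      (fun u => ψ u * Jac_chi p (1 - u)) (x ^ 2) := by
    intro x
    have e1 : x ^ 3 + ((-1 : ℤ) : ZMod p) * x + ((0 : ℤ) : ZMod p) =
        x * ((-1) * (1 - x ^ 2)) := by
      push_cast
      ring
    rw [e1, map_mul, map_mul, hneg, one_mul, ← Jac_sq_apply hp2 hψ x]
    simp only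
    rw [map_pow]
  rw [Finset.sum_congr rfl fun x _ => e x, Jac_sum_sq hp2 (fun u => ψ u * Jac_chi p (1 - u)),
    Jac_star_J hp2 hψ, Jac_J_eq, ← Finset.sum_add_distrib]
  refine Finset.sum_congr rfl fun x _ => ?_
  ring

omit [Fact p.Prime] in
theorem Jac_ne_one {ψ : MulChar (ZMod p) GaussianInt} (hψ : orderOf ψ = 4) : ψ ≠ 1 := by
  rintro rfl
  rw [orderOf_one] at hψ
  norm_num at hψ

theorem Jac_chi_ne_one (hp2 : p ≠ 2) : Jac_chi p ≠ 1 := by
  unfold Jac_chi
  rw [MulChar.ringHomComp_ne_one_iff]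
  · exact quadraticChar_ne_one (Jac_ringChar hp2)
  · exact Int.cast_injective

/-- the norm of the Jacobi sum -/
theorem Jac_norm (hp2 : p ≠ 2) {ψ : MulChar (ZMod p) GaussianInt} (hψ : orderOf ψ = 4) :
    Zsqrtd.norm (Jac_J ψ) = p := by
  have hinj := GaussianInt.toComplex_injective
  have hne : ψ * Jac_chi p ≠ 1 := by
    rw [← Jac_sq hp2 hψ, ← pow_succ']
    intro h
    have h5 := orderOf_dvd_of_pow_eq_one h
    rw [hψ] at h5
    revert h5
    decide
  have hr : ringChar ℂ ≠ ringChar (ZMod p) := by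
    rw [ringChar.eq_zero, ZMod.ringChar_zmod_n]
    exact (Fact.out : p.Prime).ne_zero.symm
  have h := jacobiSum_mul_jacobiSum_inv hr (χ := ψ.ringHomComp GaussianInt.toComplex)
    (φ := (Jac_chi p).ringHomComp GaussianInt.toComplex)
    ((MulChar.ringHomComp_ne_one_iff hinj).mpr (Jac_ne_one hψ))
    ((MulChar.ringHomComp_ne_one_iff hinj).mpr (Jac_chi_ne_one hp2))
    (by
      rw [← MulChar.ringHomComp_mul]
      exact (MulChar.ringHomComp_ne_one_iff hinj).mpr hne)
  have h2 : jacobiSum (ψ.ringHomComp GaussianInt.toComplex)⁻¹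
      ((Jac_chi p).ringHomComp GaussianInt.toComplex)⁻¹ =
      (starRingEnd ℂ) (jacobiSum (ψ.ringHomComp GaussianInt.toComplex)
        ((Jac_chi p).ringHomComp GaussianInt.toComplex)) := by
    unfold jacobiSum
    rw [map_sum]
    refine Finset.sum_congr rfl fun x _ => ?_
    rw [map_mul, ← MulChar.star_apply', ← MulChar.star_apply']
    rfl
  rw [h2, jacobiSum_ringHomComp, Complex.mul_conj, ZMod.card] at h
  have h3 : ((Zsqrtd.norm (Jac_J ψ) : ℤ) : ℂ) = ((p : ℤ) : ℂ) := by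
    rw [GaussianInt.intCast_complex_norm]
    exact h
  exact_mod_cast h3

/-- the congruence -/
theorem Jac_congr (hp2 : p ≠ 2) {ψ : MulChar (ZMod p) GaussianInt} (hψ : orderOf ψ = 4) :
    Jac_P (Jac_J ψ + p) := by
  have h1 : ∑ x : ZMod p, (ψ x - 1) * (Jac_chi p (1 - x) - 1) = Jac_J ψ + p := by
    have e : ∀ x : ZMod p, (ψ x - 1) * (Jac_chi p (1 - x) - 1) =
        ψ x * Jac_chi p (1 - x) - ψ x - Jac_chi p (1 - x) + 1 := fun x => by ring
    rw [Finset.sum_congr rfl fun x _ => e x, Finset.sum_add_distrib, Finset.sum_sub_distrib,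
      Finset.sum_sub_distrib, MulChar.sum_eq_zero_of_ne_one (Jac_ne_one hψ), Jac_J_eq]
    have e2 : ∑ x : ZMod p, Jac_chi p (1 - x) = 0 := by
      rw [← MulChar.sum_eq_zero_of_ne_one (Jac_chi_ne_one hp2)]
      exact Fintype.sum_equiv (Equiv.subLeft 1) _ _ fun x => rfl
    rw [e2]
    simp [ZMod.card]
  rw [← h1]
  refine Finset.sum_induction _ Jac_P Jac_P_add Jac_P_zero fun x _ => ?_
  by_cases hx : x = 0
  · rw [hx, sub_zero, map_one, sub_self, mul_zero]
    exact Jac_P_zero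
  · by_cases hx1 : x = 1
    · rw [hx1, map_one, sub_self, zero_mul]
      exact Jac_P_zero
    · refine Jac_term (Jac_pow4 hψ hx) ?_
      have h2 : (1 : ZMod p) - x ≠ 0 := sub_ne_zero.mpr (Ne.symm hx1)
      rcases quadraticChar_dichotomy h2 with h | h
      · left
        rw [Jac_chi_apply, h]
        norm_num
      · right
        rw [Jac_chi_apply, h]
        norm_num

end

/-- The number of points of `y² = x³ - x` for `p ≡ 1 mod 4` (Gauss).
Let `ψ` be a multiplicative character of `ZMod p` of order `4` with values in `GaussianInt`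
(`MulChar.exists_mulChar_orderOf` for the primitive fourth root of unity `i`), `χ = ψ²` the
quadratic character.  With `J = jacobiSum ψ χ = ∑ ψ(x) χ(1-x)`:
`∑_x χ(x³-x) = ∑_x χ(x) χ(x²-1) = ∑_x ψ(x²) χ(x²-1) = ∑_u ψ(u) χ(u-1) (1 + χ(u))
= J + conj J` (as `χ(-1) = 1`, `ψ χ = ψ³ = conj ψ`), so the sum is `2 Re J`.
Norm: `J conj J = p` (`jacobiSum_mul_jacobiSum_inv` after mapping to `ℂ`).
Congruence: `∑_{x ≠ 0,1} (ψ(x)-1)(χ(1-x)-1) = J + 1 + 1 + (p-2) = J + p`, and each term is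
divisible by `(1+i)³` (`1+i` divides `ψ-1`, `2` divides `χ-1`), so `-J ≡ p ≡ 1 mod (1+i)³`,
i.e. `-J` is primary: `-J = A + B i` with `(A,B) ∈ prF p`.  Hence
`∑_x χ(x³-x) = -2A`.
(Alternative without characters of order 4: the Jacobsthal sums `S(D) = ∑ χ(x) χ(x²+D)` satisfy
`S(-1)² + S(-n)² = 4p`-type relations, and the residue of `S(-1)` mod `8` comes from the group of
order 8 generated by `x ↦ -x, -1/x, (x+1)/(x-1)` acting on the projective line.) -/
theorem npts_p1 (p : ℕ) (hp : p.Prime) (h1 : p % 4 = 1) :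
    ∃ z ∈ prF p, (npts (-1) 0 p : ℤ) = p + 1 - 2 * z.1 := by
  have : Fact p.Prime := ⟨hp⟩
  have hp2 : p ≠ 2 := by
    rintro rfl
    norm_num at h1
  have hdvd : 4 ∣ Fintype.card (ZMod p) - 1 := by
    rw [ZMod.card]
    omega
  obtain ⟨ψ, hψ⟩ := MulChar.exists_mulChar_orderOf (ZMod p) hdvd Jac_prim
  have hsum := Jac_sum h1 hψ
  have hnorm := Jac_norm hp2 hψ
  obtain ⟨hc1, hc2⟩ := Jac_congr hp2 hψ
  have hS : ∑ x : ZMod p, quadraticChar (ZMod p)
      (x ^ 3 + ((-1 : ℤ) : ZMod p) * x + ((0 : ℤ) : ZMod p)) = 2 * (Jac_J ψ).re := by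
    have h2 : ((∑ x : ZMod p, quadraticChar (ZMod p)
        (x ^ 3 + ((-1 : ℤ) : ZMod p) * x + ((0 : ℤ) : ZMod p)) : ℤ) : GaussianInt) =
        Jac_J ψ + star (Jac_J ψ) := by
      rw [← hsum, Int.cast_sum]
      rfl
    have h3 := congrArg Zsqrtd.re h2
    rw [Zsqrtd.re_add, Zsqrtd.re_star, Zsqrtd.re_intCast] at h3
    rw [h3]
    ring
  refine ⟨(-(Jac_J ψ).re, -(Jac_J ψ).im), ?_, ?_⟩
  · rw [mem_prF]
    rw [Zsqrtd.im_add, Zsqrtd.re_add, Zsqrtd.re_natCast, Zsqrtd.im_natCast] at hc2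
    rw [Zsqrtd.im_add, Zsqrtd.im_natCast] at hc1
    rw [Zsqrtd.norm_def] at hnorm
    refine ⟨?_, ?_, ?_⟩
    · simp only
      omega
    · simp only
      omega
    · simp only
      linarith
  · rw [npts_eq (-1) 0 p hp2, hS]
    ring

end W3283e1
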