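import Mathlib

set_option autoImplicit false

namespace W3283e1

open Real

/-- `∑_{A ≡ 1 mod 4} A exp(-π A² y/4)`. -/
noncomputable def U (y : ℝ) : ℝ := ∑' n : ℤ, (4 * (n : ℝ) + 1) * exp (-π * (4 * (n : ℝ) + 1) ^ 2 * y / 4)

/-- `∑ exp(-π n² y)`. -/
noncomputable def V0 (y : ℝ) : ℝ := ∑' n : ℤ, exp (-π * (n : ℝ) ^ 2 * y)

/-- `∑ (-1)^n exp(-π n² y)`. -/
noncomputable def V1 (y : ℝ) : ℝ := ∑' n : ℤ, (Int.negOnePow n : ℝ) * exp (-π * (n : ℝ) ^ 2 * y)

/-- `∑ exp(-π (n+1/2)² y)`. -/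
noncomputable def V2 (y : ℝ) : ℝ := ∑' n : ℤ, exp (-π * ((n : ℝ) + 1 / 2) ^ 2 * y)

/-- A summable majorant of the terms of `U`. -/
noncomputable def kernBU (δ : ℝ) (n : ℤ) : ℝ :=
  |4 * (n : ℝ) + 1| * exp (-π * (4 * (n : ℝ) + 1) ^ 2 * δ / 4)

theorem kernBU_summable (δ : ℝ) (hδ : 0 < δ) : Summable (kernBU δ) := by
  have h1 := summable_pow_mul_jacobiTheta₂_term_bound δ (T := 4 * δ) (by positivity) 1
  have h0 := summable_pow_mul_jacobiTheta₂_term_bound δ (T := 4 * δ) (by positivity) 0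
  refine Summable.of_nonneg_of_le (fun n => by unfold kernBU; positivity) (fun n => ?_)
    ((h1.mul_left 4).add h0)
  unfold kernBU
  have h2 : exp (-π * (4 * (n : ℝ) + 1) ^ 2 * δ / 4) ≤
      exp (-π * (4 * δ * (n : ℝ) ^ 2 - 2 * δ * |n|)) := by
    apply exp_le_exp.2
    have h3 : -((n : ℝ)) ≤ |(n : ℝ)| := neg_le_abs _
    push_cast
    have h4 : 0 ≤ π * δ * (2 * ((n : ℝ) + |(n : ℝ)|) + 1 / 4) := by
      have := pi_pos
      have h5 : 0 ≤ (n : ℝ) + |(n : ℝ)| := by linarith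
      positivity
    nlinarith
  have h3 : |4 * (n : ℝ) + 1| ≤ 4 * |(n : ℝ)| + 1 := by
    refine (abs_add_le _ _).trans ?_
    rw [abs_mul, abs_one]
    norm_num
  calc |4 * (n : ℝ) + 1| * exp (-π * (4 * (n : ℝ) + 1) ^ 2 * δ / 4)
      ≤ (4 * |(n : ℝ)| + 1) * exp (-π * (4 * δ * (n : ℝ) ^ 2 - 2 * δ * |n|)) :=
        mul_le_mul h3 h2 (exp_pos _).le (by positivity)
    _ = _ := by
        push_cast
        ring

/-- The term of `U` at `y ≥ δ` is bounded by the majorant. -/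
theorem kernBU_bound {δ y : ℝ} (h : δ ≤ y) (n : ℤ) :
    ‖(4 * (n : ℝ) + 1) * exp (-π * (4 * (n : ℝ) + 1) ^ 2 * y / 4)‖ ≤ kernBU δ n := by
  unfold kernBU
  rw [norm_mul, Real.norm_eq_abs, Real.norm_eq_abs, abs_of_pos (exp_pos _)]
  refine mul_le_mul_of_nonneg_left (exp_le_exp.2 ?_) (abs_nonneg _)
  have h2 : 0 ≤ π * (4 * (n : ℝ) + 1) ^ 2 := by positivity
  nlinarith

theorem kern0_summable (δ : ℝ) (hδ : 0 < δ) : Summable fun n : ℤ => exp (-π * (n : ℝ) ^ 2 * δ) := by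
  have h0 := summable_pow_mul_jacobiTheta₂_term_bound 0 hδ 0
  refine h0.congr fun n => ?_
  rw [pow_zero, one_mul]
  congr 1
  ring

theorem kern0_le {δ y : ℝ} (h : δ ≤ y) (n : ℤ) :
    exp (-π * (n : ℝ) ^ 2 * y) ≤ exp (-π * (n : ℝ) ^ 2 * δ) := by
  apply exp_le_exp.2
  have h2 : 0 ≤ π * (n : ℝ) ^ 2 := by positivity
  nlinarith

theorem kern_sign (n : ℤ) : |(Int.negOnePow n : ℝ)| = 1 := by
  rw [Int.cast_negOnePow, abs_zpow, abs_neg, abs_one, one_zpow]

theorem U_summable (y : ℝ) (hy : 0 < y) :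
    Summable (fun n : ℤ => (4 * (n : ℝ) + 1) * exp (-π * (4 * (n : ℝ) + 1) ^ 2 * y / 4)) :=
  Summable.of_norm_bounded (kernBU_summable y hy) (kernBU_bound le_rfl)

theorem V0_summable (y : ℝ) (hy : 0 < y) :
    Summable (fun n : ℤ => exp (-π * (n : ℝ) ^ 2 * y)) :=
  kern0_summable y hy

theorem V1_summable (y : ℝ) (hy : 0 < y) :
    Summable (fun n : ℤ => (Int.negOnePow n : ℝ) * exp (-π * (n : ℝ) ^ 2 * y)) := by
  refine Summable.of_norm_bounded (kern0_summable y hy) fun n => ?_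
  rw [norm_mul, Real.norm_eq_abs, Real.norm_eq_abs, kern_sign, one_mul, abs_of_pos (exp_pos _)]

theorem V2_summable (y : ℝ) (hy : 0 < y) :
    Summable (fun n : ℤ => exp (-π * ((n : ℝ) + 1 / 2) ^ 2 * y)) := by
  have h0 := summable_pow_mul_jacobiTheta₂_term_bound (y / 2) hy 0
  refine Summable.of_nonneg_of_le (fun n => (exp_pos _).le) (fun n => ?_) h0
  rw [pow_zero, one_mul]
  apply exp_le_exp.2
  have h3 : -((n : ℝ)) ≤ |(n : ℝ)| := neg_le_abs _
  push_cast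
  have h4 : 0 ≤ π * y * (((n : ℝ) + |(n : ℝ)|) + 1 / 4) := by
    have := pi_pos
    have h5 : 0 ≤ (n : ℝ) + |(n : ℝ)| := by linarith
    positivity
  nlinarith

/-- Locally uniform convergence (or continuity of the kernels:
`HurwitzZeta.continuousOn_oddKernel` etc.). -/
theorem U_cont : ContinuousOn U (Set.Ioi 0) := by
  intro y hy
  have hy' : 0 < y := hy
  have h1 : ContinuousOn U (Set.Ioi (y / 2)) := by
    unfold U
    refine continuousOn_tsum (fun n => ?_) (kernBU_summable (y / 2) (by positivity))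
      (fun n x hx => kernBU_bound (le_of_lt hx) n)
    exact Continuous.continuousOn (by fun_prop)
  exact (h1.continuousAt (Ioi_mem_nhds (by linarith))).continuousWithinAt

theorem V0_cont : ContinuousOn V0 (Set.Ioi 0) := by
  intro y hy
  have hy' : 0 < y := hy
  have h1 : ContinuousOn V0 (Set.Ioi (y / 2)) := by
    unfold V0
    refine continuousOn_tsum (fun n => ?_) (kern0_summable (y / 2) (by positivity))
      (fun n x hx => ?_)
    · exact Continuous.continuousOn (by fun_prop)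
    · rw [Real.norm_eq_abs, abs_of_pos (exp_pos _)]
      exact kern0_le (le_of_lt hx) n
  exact (h1.continuousAt (Ioi_mem_nhds (by linarith))).continuousWithinAt

theorem V1_cont : ContinuousOn V1 (Set.Ioi 0) := by
  intro y hy
  have hy' : 0 < y := hy
  have h1 : ContinuousOn V1 (Set.Ioi (y / 2)) := by
    unfold V1
    refine continuousOn_tsum (fun n => ?_) (kern0_summable (y / 2) (by positivity))
      (fun n x hx => ?_)
    · exact Continuous.continuousOn (by fun_prop)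
    · rw [norm_mul, Real.norm_eq_abs, Real.norm_eq_abs, kern_sign, one_mul, abs_of_pos (exp_pos _)]
      exact kern0_le (le_of_lt hx) n
  exact (h1.continuousAt (Ioi_mem_nhds (by linarith))).continuousWithinAt

/-- Exponential decay: `(4n+1)² ≥ 1`, so for `y ≥ 1`:
`|term| ≤ e^{-π(y-1)/4} |4n+1| e^{-π(4n+1)²/4}`. -/
theorem U_decay : ∃ C : ℝ, ∀ y : ℝ, 1 ≤ y → U y ≤ C * exp (-(π / 4) * y) := by
  refine ⟨exp (π / 4) * ∑' n : ℤ, kernBU 1 n, fun y hy => ?_⟩
  have hs := kernBU_summable 1 one_pos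
  have h1 : ∀ n : ℤ, (4 * (n : ℝ) + 1) * exp (-π * (4 * (n : ℝ) + 1) ^ 2 * y / 4) ≤
      exp (π / 4) * exp (-(π / 4) * y) * kernBU 1 n := by
    intro n
    unfold kernBU
    have h2 : (1 : ℝ) ≤ (4 * (n : ℝ) + 1) ^ 2 := by
      have h3 : (1 : ℤ) ≤ (4 * n + 1) ^ 2 := by
        rcases le_or_gt 0 n with h | h
        · nlinarith
        · nlinarith
      exact_mod_cast h3
    have h4 : exp (-π * (4 * (n : ℝ) + 1) ^ 2 * y / 4) ≤
        exp (π / 4) * exp (-(π / 4) * y) * exp (-π * (4 * (n : ℝ) + 1) ^ 2 * 1 / 4) := by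
      rw [← exp_add, ← exp_add]
      apply exp_le_exp.2
      have h5 : 0 ≤ π / 4 * (((4 * (n : ℝ) + 1) ^ 2 - 1) * (y - 1)) := by
        have := pi_pos
        have h6 : 0 ≤ (4 * (n : ℝ) + 1) ^ 2 - 1 := by linarith
        have h7 : 0 ≤ y - 1 := by linarith
        positivity
      nlinarith
    calc (4 * (n : ℝ) + 1) * exp (-π * (4 * (n : ℝ) + 1) ^ 2 * y / 4)
        ≤ |4 * (n : ℝ) + 1| * exp (-π * (4 * (n : ℝ) + 1) ^ 2 * y / 4) :=
          mul_le_mul_of_nonneg_right (le_abs_self _) (exp_pos _).le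
      _ ≤ |4 * (n : ℝ) + 1| * (exp (π / 4) * exp (-(π / 4) * y) *
            exp (-π * (4 * (n : ℝ) + 1) ^ 2 * 1 / 4)) :=
          mul_le_mul_of_nonneg_left h4 (abs_nonneg _)
      _ = _ := by ring
  have h2 := (U_summable y (by linarith)).tsum_le_tsum h1 (hs.mul_left _)
  rw [tsum_mul_left] at h2
  unfold U
  refine h2.trans (le_of_eq ?_)
  ring

/-- Each term is decreasing in `y`: `V0 y ≤ V0 1`. -/
theorem V0_bdd : ∃ C : ℝ, ∀ y : ℝ, 1 ≤ y → V0 y ≤ C := by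
  refine ⟨V0 1, fun y hy => ?_⟩
  unfold V0
  exact (V0_summable y (by linarith)).tsum_le_tsum (kern0_le hy) (V0_summable 1 one_pos)

theorem V1_bdd : ∃ C : ℝ, ∀ y : ℝ, 1 ≤ y → V1 y ≤ C := by
  refine ⟨V0 1, fun y hy => ?_⟩
  unfold V0 V1
  refine (V1_summable y (by linarith)).tsum_le_tsum (fun n => ?_) (V0_summable 1 one_pos)
  have h1 : (Int.negOnePow n : ℝ) ≤ 1 := (le_abs_self _).trans (kern_sign n).le
  calc (Int.negOnePow n : ℝ) * exp (-π * (n : ℝ) ^ 2 * y)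
      ≤ 1 * exp (-π * (n : ℝ) ^ 2 * y) := mul_le_mul_of_nonneg_right h1 (exp_pos _).le
    _ = exp (-π * (n : ℝ) ^ 2 * y) := one_mul _
    _ ≤ _ := kern0_le hy n

end W3283e1
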