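import Pool.Agent.W_MP_3283e1_nt.Kern

set_option autoImplicit false

namespace W3283e1

open Real

theorem hasSum_U (y : ℝ) (hy : 0 < y) :
    HasSum (fun n : ℤ => (4 * (n : ℝ) + 1) * exp (-π * (4 * (n : ℝ) + 1) ^ 2 * y / 4)) (U y) :=
  (U_summable y hy).hasSum

theorem U_eq_oddKernel (y : ℝ) (hy : 0 < y) :
    U y = 4 * HurwitzZeta.oddKernel ((1 / 4 : ℝ) : UnitAddCircle) (4 * y) := by
  have h1 := (HurwitzZeta.hasSum_int_oddKernel (1 / 4) (x := 4 * y) (by positivity)).mul_left 4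
  rw [U, ← h1.tsum_eq]
  congr 1
  funext n
  have h2 : -π * ((n : ℝ) + 1 / 4) ^ 2 * (4 * y) = -π * (4 * (n : ℝ) + 1) ^ 2 * y / 4 := by ring
  rw [h2]
  ring

theorem sinKernel_quarter (t : ℝ) (ht : 0 < t) :
    HurwitzZeta.sinKernel ((1 / 4 : ℝ) : UnitAddCircle) t = 2 * U (4 * t) := by
  have hU := hasSum_U (4 * t) (by positivity)
  set u : ℤ → ℝ := fun n : ℤ => (4 * (n : ℝ) + 1) * exp (-π * (4 * (n : ℝ) + 1) ^ 2 * (4 * t) / 4)
    with hu
  have hs := hU.summable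
  have hs1 : Summable (fun n : ℕ => u n) := hs.comp_injective Nat.cast_injective
  have hs2 : Summable (fun n : ℕ => u (-(n + 1))) := by
    refine hs.comp_injective (i := fun n : ℕ => (-((n : ℤ) + 1))) ?_
    intro a b hab
    simp only at hab
    omega
  have hsum := hs1.hasSum.of_nat_of_neg_add_one hs2.hasSum
  have hUeq : U (4 * t) = (∑' n : ℕ, u n) + ∑' n : ℕ, u (-(n + 1)) := hU.unique hsum
  set g : ℕ → ℝ := fun n : ℕ => 2 * n * Real.sin (2 * π * (1 / 4) * n) * exp (-π * n ^ 2 * t)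
    with hg
  have hgs : HasSum g (HurwitzZeta.sinKernel ((1 / 4 : ℝ) : UnitAddCircle) t) :=
    HurwitzZeta.hasSum_nat_sinKernel (1 / 4) ht
  have he : ∀ k : ℕ, g (2 * k) = 0 := by
    intro k
    have h1 : 2 * π * (1 / 4) * ((2 * k : ℕ) : ℝ) = (k : ℕ) * π := by
      push_cast
      ring
    simp only [hg]
    rw [h1, Real.sin_nat_mul_pi]
    ring
  have ho1 : ∀ j : ℕ, g (2 * (2 * j) + 1) = 2 * u j := by
    intro j
    have h1 : 2 * π * (1 / 4) * ((2 * (2 * j) + 1 : ℕ) : ℝ) = π / 2 + (j : ℕ) * (2 * π) := by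
      push_cast
      ring
    simp only [hg, hu]
    rw [h1, Real.sin_add_nat_mul_two_pi, Real.sin_pi_div_two]
    have h2 : -π * ((2 * (2 * j) + 1 : ℕ) : ℝ) ^ 2 * t =
        -π * (4 * ((j : ℤ) : ℝ) + 1) ^ 2 * (4 * t) / 4 := by
      push_cast
      ring
    rw [h2]
    push_cast
    ring
  have ho2 : ∀ j : ℕ, g (2 * (2 * j + 1) + 1) = 2 * u (-(j + 1)) := by
    intro j
    have h1 : 2 * π * (1 / 4) * ((2 * (2 * j + 1) + 1 : ℕ) : ℝ) =
        (-(π / 2)) + ((j + 1 : ℕ) : ℝ) * (2 * π) := by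
      push_cast
      ring
    simp only [hg, hu]
    rw [h1, Real.sin_add_nat_mul_two_pi, Real.sin_neg, Real.sin_pi_div_two]
    have h2 : -π * ((2 * (2 * j + 1) + 1 : ℕ) : ℝ) ^ 2 * t =
        -π * (4 * ((-((j : ℤ) + 1) : ℤ) : ℝ) + 1) ^ 2 * (4 * t) / 4 := by
      push_cast
      ring
    rw [h2]
    push_cast
    ring
  have hE : HasSum (fun k : ℕ => g (2 * k)) 0 := by
    simp only [he]
    exact hasSum_zero
  have hO : HasSum (fun k : ℕ => g (2 * k + 1))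
      ((2 * ∑' n : ℕ, u n) + 2 * ∑' n : ℕ, u (-(n + 1))) := by
    refine HasSum.even_add_odd (f := fun k : ℕ => g (2 * k + 1)) ?_ ?_
    · simp only [ho1]
      exact hs1.hasSum.mul_left 2
    · simp only [ho2]
      exact hs2.hasSum.mul_left 2
  have hfin := hgs.unique (hE.even_add_odd hO)
  rw [hfin, hUeq]
  ring

/-- `U y = 4 oddKernel (1/4) (4y)` (`HurwitzZeta.hasSum_int_oddKernel`) and
`sinKernel (1/4) x = 2 U (4x)`: in `hasSum_int_sinKernel` the terms with even `n` cancel and those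
with `n ≡ 3 mod 4` equal those with `-n ≡ 1 mod 4`.  Then
`HurwitzZeta.oddKernel_functional_equation`. -/
theorem U_inv (y : ℝ) (hy : 0 < y) : U (1 / y) = y ^ (3 / 2 : ℝ) * U y := by
  have h1 := U_eq_oddKernel y hy
  rw [HurwitzZeta.oddKernel_functional_equation, sinKernel_quarter _ (by positivity)] at h1
  have h2 : 4 * (1 / (4 * y)) = 1 / y := by
    field_simp
  have h3 : (4 * y) ^ (3 / 2 : ℝ) = 8 * y ^ (3 / 2 : ℝ) := by
    rw [Real.mul_rpow (by norm_num) hy.le]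
    congr 1
    rw [show (4 : ℝ) = 2 ^ (2 : ℝ) by norm_num, ← Real.rpow_mul (by norm_num)]
    norm_num
  have h4 : 0 < y ^ (3 / 2 : ℝ) := Real.rpow_pos_of_pos hy _
  rw [h2, h3] at h1
  rw [h1]
  field_simp
  ring

theorem V0_eq_evenKernel (y : ℝ) (hy : 0 < y) : V0 y = HurwitzZeta.evenKernel 0 y := by
  have h1 := HurwitzZeta.hasSum_int_evenKernel 0 hy
  rw [V0]
  have h2 : ((0 : ℝ) : UnitAddCircle) = 0 := by simp
  rw [h2] at h1
  rw [← h1.tsum_eq]
  simp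

theorem V2_eq_evenKernel (y : ℝ) (hy : 0 < y) :
    V2 y = HurwitzZeta.evenKernel ((1 / 2 : ℝ) : UnitAddCircle) y := by
  have h1 := HurwitzZeta.hasSum_int_evenKernel (1 / 2) hy
  rw [V2, ← h1.tsum_eq]

theorem V1_eq_cosKernel (y : ℝ) (hy : 0 < y) :
    V1 y = HurwitzZeta.cosKernel ((1 / 2 : ℝ) : UnitAddCircle) y := by
  have h1 := HurwitzZeta.hasSum_int_cosKernel (1 / 2) hy
  have h2 : ∀ n : ℤ, Complex.exp (2 * π * Complex.I * ((1 / 2 : ℝ) : ℂ) * n) =
      (((Int.negOnePow n : ℤˣ) : ℤ) : ℂ) := by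
    intro n
    rw [Int.cast_negOnePow, ← Complex.exp_pi_mul_I, ← Complex.exp_int_mul]
    congr 1
    push_cast
    ring
  simp only [h2] at h1
  have h3 : HasSum (fun n : ℤ => (Int.negOnePow n : ℝ) * exp (-π * (n : ℝ) ^ 2 * y))
      (HurwitzZeta.cosKernel ((1 / 2 : ℝ) : UnitAddCircle) y) := by
    rw [← Complex.hasSum_ofReal]
    convert h1 using 2 with n
    push_cast
    rfl
  rw [V1, h3.tsum_eq]

/-- `V0 = evenKernel 0 = cosKernel 0`, `evenKernel_functional_equation`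
(or `Real.tsum_exp_neg_mul_int_sq`). -/
theorem V0_inv (y : ℝ) (hy : 0 < y) : V0 (1 / y) = Real.sqrt y * V0 y := by
  rw [V0_eq_evenKernel y hy, V0_eq_evenKernel (1 / y) (by positivity),
    HurwitzZeta.evenKernel_functional_equation 0 y, HurwitzZeta.evenKernel_eq_cosKernel_of_zero,
    Real.sqrt_eq_rpow]
  have h4 : 0 < y ^ (1 / 2 : ℝ) := Real.rpow_pos_of_pos hy _
  field_simp

/-- `V1 = cosKernel (1/2)`, `V2 = evenKernel (1/2)`, `evenKernel_functional_equation`. -/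
theorem V1_inv (y : ℝ) (hy : 0 < y) : V1 (1 / y) = Real.sqrt y * V2 y := by
  rw [V2_eq_evenKernel y hy, V1_eq_cosKernel (1 / y) (by positivity),
    HurwitzZeta.evenKernel_functional_equation _ y, Real.sqrt_eq_rpow]
  have h4 : 0 < y ^ (1 / 2 : ℝ) := Real.rpow_pos_of_pos hy _
  field_simp

end W3283e1
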