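import Mathlib

set_option autoImplicit false

namespace W3283e1

open Complex MeasureTheory Filter

/-- Hypotheses on a positive self-dual function of rapid decay. -/
structure SelfDual (F : ℝ → ℝ) (k : ℝ) : Prop where
  cont : ContinuousOn F (Set.Ioi 0)
  pos : ∀ t : ℝ, 0 < t → 0 < F t
  inv : ∀ t : ℝ, 0 < t → F (1 / t) = t ^ k * F t
  decay : ∃ C c : ℝ, 0 < c ∧ ∀ t : ℝ, 1 ≤ t → F t ≤ C * Real.exp (-c * t)

theorem melA_top (F : ℝ → ℝ) (k : ℝ) (h : SelfDual F k) (a : ℝ) :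
    F =O[atTop] (fun t : ℝ => t ^ (-a)) := by
  obtain ⟨C, c, hc, hd⟩ := h.decay
  have h1 : F =O[atTop] (fun t : ℝ => Real.exp (-c * t)) := by
    apply Asymptotics.IsBigO.of_bound |C|
    filter_upwards [eventually_ge_atTop 1] with t ht
    rw [Real.norm_eq_abs, abs_of_pos (h.pos t (by linarith)), Real.norm_eq_abs,
      abs_of_pos (Real.exp_pos _)]
    exact (hd t ht).trans (mul_le_mul_of_nonneg_right (le_abs_self C) (Real.exp_pos _).le)
  exact h1.trans (isLittleO_exp_neg_mul_rpow_atTop hc (-a)).isBigO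

theorem melA_bot (F : ℝ → ℝ) (k : ℝ) (h : SelfDual F k) (b : ℝ) :
    F =O[nhdsWithin 0 (Set.Ioi 0)] (fun t : ℝ => t ^ (-b)) := by
  have h1 := (melA_top F k h (k - b)).comp_tendsto tendsto_inv_nhdsGT_zero
  have h2 : F =ᶠ[nhdsWithin 0 (Set.Ioi 0)] fun t => t ^ (-k) * F t⁻¹ := by
    filter_upwards [self_mem_nhdsWithin] with t ht
    have ht' : 0 < t := ht
    have h3 := h.inv t ht'
    rw [one_div] at h3
    rw [h3, ← mul_assoc, ← Real.rpow_add ht', neg_add_cancel, Real.rpow_zero, one_mul]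
  have h3 : (fun t : ℝ => t ^ (-k) * F t⁻¹) =O[nhdsWithin 0 (Set.Ioi 0)]
      (fun t : ℝ => t ^ (-k) * (t⁻¹) ^ (-(k - b))) :=
    (Asymptotics.isBigO_refl _ _).mul h1
  refine (h2.trans_isBigO h3).trans_eventuallyEq ?_
  filter_upwards [self_mem_nhdsWithin] with t ht
  have ht' : 0 < t := ht
  rw [Real.inv_rpow ht'.le, ← Real.rpow_neg ht'.le, ← Real.rpow_add ht']
  congr 1
  ring

theorem melA_locInt (F : ℝ → ℝ) (k : ℝ) (h : SelfDual F k) :
    LocallyIntegrableOn (fun t => (F t : ℂ)) (Set.Ioi 0) :=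
  (Complex.continuous_ofReal.comp_continuousOn h.cont).locallyIntegrableOn measurableSet_Ioi

theorem melA_topC (F : ℝ → ℝ) (k : ℝ) (h : SelfDual F k) (a : ℝ) :
    (fun t => (F t : ℂ)) =O[atTop] (fun t : ℝ => t ^ (-a)) :=
  ((Asymptotics.isBigO_of_le _ fun t => by rw [Complex.norm_real])).trans (melA_top F k h a)

theorem melA_botC (F : ℝ → ℝ) (k : ℝ) (h : SelfDual F k) (b : ℝ) :
    (fun t => (F t : ℂ)) =O[nhdsWithin 0 (Set.Ioi 0)] (fun t : ℝ => t ^ (-b)) :=
  ((Asymptotics.isBigO_of_le _ fun t => by rw [Complex.norm_real])).trans (melA_bot F k h b)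

/-- The Mellin transform converges everywhere and is entire (decay at `∞`, and by `inv` decay
faster than any power at `0`: `mellinConvergent_of_isBigO_rpow`,
`mellin_differentiableAt_of_isBigO_rpow`; or build a `WeakFEPair` with zero constant terms and use
`IsStrongFEPair`/`differentiable_Λ`). -/
theorem mellin_conv (F : ℝ → ℝ) (k : ℝ) (h : SelfDual F k) (s : ℂ) :
    MellinConvergent (fun t => (F t : ℂ)) s :=
  mellinConvergent_of_isBigO_rpow (melA_locInt F k h) (melA_topC F k h (s.re + 1))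
    (by linarith) (melA_botC F k h (s.re - 1)) (by linarith)

theorem mellin_diff (F : ℝ → ℝ) (k : ℝ) (h : SelfDual F k) :
    Differentiable ℂ (mellin (fun t => (F t : ℂ))) := fun s =>
  mellin_differentiableAt_of_isBigO_rpow (melA_locInt F k h) (melA_topC F k h (s.re + 1))
    (by linarith) (melA_botC F k h (s.re - 1)) (by linarith)

/-- Substitute `t ↦ 1/t` (`mellin_comp_inv` and `mellin_cpow_smul`). -/
theorem mellin_fe (F : ℝ → ℝ) (k : ℝ) (h : SelfDual F k) (s : ℂ) :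
    mellin (fun t => (F t : ℂ)) (k - s) = mellin (fun t => (F t : ℂ)) s := by
  have h1 := mellin_comp_inv (fun t => (F t : ℂ)) (s - k)
  rw [neg_sub] at h1
  rw [← h1]
  have h2 := mellin_cpow_smul (fun t => (F t : ℂ)) (s - k) (k : ℂ)
  rw [sub_add_cancel] at h2
  rw [← h2]
  unfold mellin
  apply setIntegral_congr_fun measurableSet_Ioi
  intro t ht
  have ht' : 0 < t := ht
  have h3 := h.inv t ht'
  rw [one_div] at h3
  simp only [smul_eq_mul]
  rw [h3, ofReal_mul, ofReal_cpow ht'.le]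

/-- The Mellin transform at a real point is a real integral. -/
theorem melA_real (F : ℝ → ℝ) (σ : ℝ) :
    mellin (fun t => (F t : ℂ)) σ = ((∫ t in Set.Ioi (0 : ℝ), t ^ (σ - 1) * F t : ℝ) : ℂ) := by
  unfold mellin
  refine Eq.trans ?_ (integral_ofReal (𝕜 := ℂ) (μ := volume.restrict (Set.Ioi (0 : ℝ)))
    (f := fun t : ℝ => t ^ (σ - 1) * F t))
  apply setIntegral_congr_fun measurableSet_Ioi
  intro t ht
  have ht' : 0 < t := ht
  simp only [smul_eq_mul]
  change _ = ((t ^ (σ - 1) * F t : ℝ) : ℂ)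
  rw [ofReal_mul, ofReal_cpow ht'.le, ofReal_sub, ofReal_one]

theorem melA_integrable (F : ℝ → ℝ) (k : ℝ) (h : SelfDual F k) (σ : ℝ) :
    IntegrableOn (fun t : ℝ => t ^ (σ - 1) * F t) (Set.Ioi 0) := by
  have h1 := mellin_conv F k h (σ : ℂ)
  unfold MellinConvergent at h1
  have h2 := h1.norm
  refine (integrableOn_congr_fun ?_ measurableSet_Ioi).1 h2
  intro t ht
  have ht' : 0 < t := ht
  simp only [smul_eq_mul]
  rw [norm_mul, norm_cpow_eq_rpow_re_of_pos ht', Complex.norm_real, Real.norm_eq_abs,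
    abs_of_pos (h.pos t ht')]
  simp

/-- Positive integrand. -/
theorem mellin_pos (F : ℝ → ℝ) (k : ℝ) (h : SelfDual F k) (σ : ℝ) :
    0 < (mellin (fun t => (F t : ℂ)) σ).re ∧ (mellin (fun t => (F t : ℂ)) σ).im = 0 := by
  rw [melA_real]
  refine ⟨?_, ofReal_im _⟩
  rw [ofReal_re]
  have hp : ∀ t ∈ Set.Ioi (0 : ℝ), 0 < t ^ (σ - 1) * F t := fun t ht =>
    mul_pos (Real.rpow_pos_of_pos ht _) (h.pos t ht)
  rw [setIntegral_pos_iff_support_of_nonneg_ae _ (melA_integrable F k h σ)]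
  · have h1 : Set.Ioi (0 : ℝ) ⊆ Function.support (fun t : ℝ => t ^ (σ - 1) * F t) ∩ Set.Ioi 0 :=
      fun t ht => ⟨(hp t ht).ne', ht⟩
    refine lt_of_lt_of_le ?_ (measure_mono h1)
    rw [Real.volume_Ioi]
    exact ENNReal.zero_lt_top
  · filter_upwards [ae_restrict_mem measurableSet_Ioi] with t ht using (hp t ht).le

end W3283e1
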