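import Pool.Agent.W_MP_3283e1_nt.Kern
import Pool.Agent.W_MP_3283e1_nt.QGrp

set_option autoImplicit false

namespace W3283e1

open Real

theorem quu_nrm (z : ℤ × ℤ) : (nrm z : ℝ) = (z.1 : ℝ) ^ 2 + (z.2 : ℝ) ^ 2 := by
  have h : ((nrm z : ℕ) : ℤ) = z.1 ^ 2 + z.2 ^ 2 := by
    unfold nrm
    exact Int.toNat_of_nonneg (by positivity)
  have h2 : (((nrm z : ℕ) : ℤ) : ℝ) = ((z.1 ^ 2 + z.2 ^ 2 : ℤ) : ℝ) := by rw [h]
  push_cast at h2
  exact h2

/-- Pairs of numbers which are `1` modulo `4` and primary points. -/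
def quuEquiv : ℤ × ℤ ≃ PL where
  toFun p := ⟨(2 * p.1 + 2 * p.2 + 1, 2 * p.2 - 2 * p.1), by constructor <;> simp only <;> omega⟩
  invFun z := ((z.1.1 - z.1.2 - 1) / 4, (z.1.1 + z.1.2 - 1) / 4)
  left_inv p := by
    ext
    · simp only; omega
    · simp only; omega
  right_inv z := by
    obtain ⟨⟨a, b⟩, h1, h2⟩ := z
    simp only at h1 h2
    apply Subtype.ext
    ext
    · simp only; omega
    · simp only; omega

/-- `U²`: pairs `(a,b)`, `a ≡ b ≡ 1 mod 4`, correspond to primary `z = (a+b)/2 + i (b-a)/2`, with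
`a b = Re z²` and `a² + b² = 2 N z`. -/
theorem UU_sum (y : ℝ) (hy : 0 < y) :
    HasSum (fun z : PL => ((z.1.1 : ℝ) ^ 2 - (z.1.2 : ℝ) ^ 2) *
      exp (-π * (nrm z.1 : ℝ) * y / 2)) (U y ^ 2) := by
  rw [← quuEquiv.hasSum_iff]
  have hs := U_summable y hy
  have h1 := hs.hasSum.mul hs.hasSum (summable_mul_of_summable_norm hs.norm hs.norm)
  rw [show U y ^ 2 = U y * U y from sq _]
  refine h1.congr_fun ?_
  rintro ⟨n, k⟩
  simp only [Function.comp_apply, quuEquiv, Equiv.coe_fn_mk]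
  rw [quu_nrm]
  rw [mul_mul_mul_comm, ← exp_add]
  push_cast
  congr 1
  · ring
  · congr 1
    ring

end W3283e1
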