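import Pool.Agent.W_MP_3283e1_nt.QUV
import Pool.Agent.W_MP_3283e1_nt.QUU
import Pool.Agent.W_MP_3283e1_nt.EulerA

set_option autoImplicit false

namespace W3283e1

open Real

/-- The three theta products. -/
noncomputable def FF (j : ℕ) (t : ℝ) : ℝ :=
  if j = 0 then U (Real.sqrt 2 * t) * V1 (Real.sqrt 2 * t)
  else if j = 1 then U t * V0 t
  else U t ^ 2

/-- The exponents. -/
noncomputable def kap (j : ℕ) : ℝ := if j = 0 then Real.sqrt 2 / 4 else if j = 1 then 1 / 4 else 1 / 2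

theorem qexp_nrm {m : ℕ} {z : ℤ × ℤ} (hz : z ∈ prF m) : nrm z = m := by
  have h := ((mem_prF m z).1 hz).2.2
  unfold nrm
  rw [h]
  exact Int.toNat_natCast m

theorem qexp_cc (k m : ℕ) (r : ℝ) (h : ∑ z ∈ prF m, (cz z ^ k).re = r) :
    cc k m = (r : ℂ) := by
  apply Complex.ext
  · rw [(cc_real k m).2, h, Complex.ofReal_re]
  · rw [(cc_real k m).1, Complex.ofReal_im]

/-- The general regrouping step. -/
theorem qexp_aux (k : ℕ) (g : ℕ → ℝ) (w : ℤ × ℤ → ℝ) (S : ℝ)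
    (hw : ∀ z, w z = (cz z ^ k).re)
    (hS : HasSum (fun z : PL => g (nrm z.1) * w z.1) S) :
    HasSum (fun m : ℕ => (g m : ℂ) * cc k m) (S : ℂ) := by
  have h1 : HasSum (fun z : PL => ((g (nrm z.1) * w z.1 : ℝ) : ℂ)) (S : ℂ) :=
    Complex.hasSum_ofReal.2 hS
  have h2 := group_sum (fun z => ((g (nrm z) * w z : ℝ) : ℂ)) (S : ℂ) h1
  convert h2 using 1
  funext m
  rw [qexp_cc k m _ rfl, ← Complex.ofReal_mul, ← Complex.ofReal_sum, Finset.mul_sum]
  congr 1
  refine Finset.sum_congr rfl fun z hz => ?_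
  rw [qexp_nrm hz, hw]

/-- Expansion of `FF 0`: `UV1_sum` at `√2 t`, `group_sum`, `cE 0 m = cc 1 m = ∑ Re z` (`cc_real`). -/
theorem FF0_hasSum (t : ℝ) (ht : 0 < t) :
    HasSum (fun m : ℕ => cE 0 m * (exp (-π * (kap 0 * m) * t) : ℂ)) (FF 0 t : ℂ) := by
  have hy : 0 < Real.sqrt 2 * t := mul_pos (Real.sqrt_pos.2 two_pos) ht
  have h := UV1_sum (Real.sqrt 2 * t) hy
  have h1 := qexp_aux 1 (fun m => exp (-π * (m : ℝ) * (Real.sqrt 2 * t) / 4)) (fun z => (z.1 : ℝ))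
    (U (Real.sqrt 2 * t) * V1 (Real.sqrt 2 * t)) (fun z => by rw [pow_one, prim_re])
    (by convert h using 1; funext z; ring)
  have hF : FF 0 t = U (Real.sqrt 2 * t) * V1 (Real.sqrt 2 * t) := by
    unfold FF
    rw [if_pos rfl]
  rw [hF]
  convert h1 using 1
  funext m
  have hk : kap 0 = Real.sqrt 2 / 4 := by
    unfold kap
    rw [if_pos rfl]
  have he : -π * (kap 0 * m) * t = -π * (m : ℝ) * (Real.sqrt 2 * t) / 4 := by
    rw [hk]
    ring
  unfold cE
  rw [pow_zero, one_mul, mul_comm, he]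

/-- Expansion of `FF 1`: `UV0_sum`, `group_sum`; `chi8 m` is constant on the fibre. -/
theorem FF1_hasSum (t : ℝ) (ht : 0 < t) :
    HasSum (fun m : ℕ => cE 1 m * (exp (-π * (kap 1 * m) * t) : ℂ)) (FF 1 t : ℂ) := by
  have h := UV0_sum t ht
  have h1 := qexp_aux 1
    (fun m => ((ZMod.χ₈ (m : ZMod 8) : ℤ) : ℝ) * exp (-π * (m : ℝ) * t / 4)) (fun z => (z.1 : ℝ))
    (U t * V0 t) (fun z => by rw [pow_one, prim_re])
    (by convert h using 1; funext z; ring)
  have hF : FF 1 t = U t * V0 t := by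
    unfold FF
    rw [if_neg one_ne_zero, if_pos rfl]
  rw [hF]
  convert h1 using 1
  funext m
  have hk : kap 1 = 1 / 4 := by
    unfold kap
    rw [if_neg one_ne_zero, if_pos rfl]
  have he : -π * (kap 1 * m) * t = -π * (m : ℝ) * t / 4 := by
    rw [hk]
    ring
  unfold cE chi8
  rw [he]
  push_cast
  ring

/-- Expansion of `FF 2`: `UU_sum`, `group_sum`, `cc 2 m = ∑ Re z²`. -/
theorem FF2_hasSum (t : ℝ) (ht : 0 < t) :
    HasSum (fun m : ℕ => cc 2 m * (exp (-π * (kap 2 * m) * t) : ℂ)) (FF 2 t : ℂ) := by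
  have h := UU_sum t ht
  have h1 := qexp_aux 2 (fun m => exp (-π * (m : ℝ) * t / 2))
    (fun z => (z.1 : ℝ) ^ 2 - (z.2 : ℝ) ^ 2)
    (U t ^ 2) (fun z => by
      rw [sq (cz z), Complex.mul_re, prim_re, prim_im]
      ring)
    (by convert h using 1; funext z; ring)
  have hF : FF 2 t = U t ^ 2 := by
    unfold FF
    rw [if_neg two_ne_zero, if_neg (by norm_num)]
  rw [hF]
  convert h1 using 1
  funext m
  have hk : kap 2 = 1 / 2 := by
    unfold kap
    rw [if_neg two_ne_zero, if_neg (by norm_num)]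
  have he : -π * (kap 2 * m) * t = -π * (m : ℝ) * t / 2 := by
    rw [hk]
    ring
  rw [he, mul_comm]

end W3283e1
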