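import Pool.Agent.W_MP_3283e1_nt.Kern
import Pool.Agent.W_MP_3283e1_nt.QGrp

set_option autoImplicit false

namespace W3283e1

open Real

theorem quv_nrm (z : ℤ × ℤ) : (nrm z : ℝ) = (z.1 : ℝ) ^ 2 + (z.2 : ℝ) ^ 2 := by
  have h : ((nrm z : ℕ) : ℤ) = z.1 ^ 2 + z.2 ^ 2 := by
    unfold nrm
    exact Int.toNat_of_nonneg (by positivity)
  have h2 : (((nrm z : ℕ) : ℤ) : ℝ) = ((z.1 ^ 2 + z.2 ^ 2 : ℤ) : ℝ) := by rw [h]
  push_cast at h2
  exact h2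

/-- `(A, n) ↦ (A (-1)^n, 2n)` for `A ≡ 1 mod 4`. -/
def quvEquiv : ℤ × ℤ ≃ PL where
  toFun p := ⟨(if p.2 % 2 = 0 then 4 * p.1 + 1 else -(4 * p.1 + 1), 2 * p.2), by
    constructor
    · simp only; omega
    · simp only; split_ifs <;> omega⟩
  invFun z := ((if (z.1.2 / 2) % 2 = 0 then z.1.1 - 1 else -z.1.1 - 1) / 4, z.1.2 / 2)
  left_inv p := by
    have h2 : 2 * p.2 / 2 = p.2 := by omega
    ext
    · simp only [h2]
      split_ifs <;> omega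
    · simp only [h2]
  right_inv z := by
    obtain ⟨⟨a, b⟩, h1, h2⟩ := z
    simp only at h1 h2
    apply Subtype.ext
    ext
    · simp only
      split_ifs <;> omega
    · simp only
      omega

theorem quv_sign (n : ℤ) :
    ((Int.negOnePow n : ℤ) : ℝ) = if n % 2 = 0 then 1 else -1 := by
  by_cases h : n % 2 = 0
  · rw [if_pos h, Int.negOnePow_even n (Int.even_iff.2 h)]
    simp
  · rw [if_neg h, Int.negOnePow_odd n (Int.odd_iff.2 (by omega))]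
    simp

theorem quv_exp (n k : ℤ) (y : ℝ) :
    exp (-π * ((4 * (n : ℝ) + 1) ^ 2 + (2 * (k : ℝ)) ^ 2) * y / 4) =
      exp (-π * (4 * (n : ℝ) + 1) ^ 2 * y / 4) * exp (-π * (k : ℝ) ^ 2 * y) := by
  rw [← exp_add]; congr 1; ring

theorem quv_exp_neg (n k : ℤ) (y : ℝ) :
    exp (-π * ((-(4 * (n : ℝ) + 1)) ^ 2 + (2 * (k : ℝ)) ^ 2) * y / 4) =
      exp (-π * (4 * (n : ℝ) + 1) ^ 2 * y / 4) * exp (-π * (k : ℝ) ^ 2 * y) := by
  rw [← exp_add]; congr 1; ring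

/-- `U V1`: multiply the two absolutely convergent series (`Summable.tsum_mul_tsum`), with
`A ≡ 1 mod 4`, `B = 2n`; the map `(A, n) ↦ (A, 2n)` for even `n`, `(A, n) ↦ (-A, 2n)` for odd `n`
is a bijection of `{A ≡ 1 mod 4} × ℤ` onto the primary points and `A (-1)^n = A'`. -/
theorem UV1_sum (y : ℝ) (hy : 0 < y) :
    HasSum (fun z : PL => ((z.1.1 : ℝ) * exp (-π * (nrm z.1 : ℝ) * y / 4) : ℝ)) (U y * V1 y) := by
  rw [← quvEquiv.hasSum_iff]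
  have hs := U_summable y hy
  have hv := V1_summable y hy
  have h1 := hs.hasSum.mul hv.hasSum (summable_mul_of_summable_norm hs.norm hv.norm)
  refine h1.congr_fun ?_
  rintro ⟨n, k⟩
  simp only [Function.comp_apply, quvEquiv, Equiv.coe_fn_mk]
  rw [quv_nrm, quv_sign]
  split_ifs with hk
  · push_cast
    rw [quv_exp]
    ring
  · push_cast
    rw [quv_exp_neg]
    ring

theorem quv_chi (z : PL) : ((ZMod.χ₈ (nrm z.1 : ZMod 8) : ℤ) : ℝ) =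
    if (z.1.2 / 2) % 2 = 0 then 1 else -1 := by
  obtain ⟨⟨a, b⟩, h1, h2⟩ := z
  simp only at h1 h2 ⊢
  have hn : ((nrm (a, b) : ℕ) : ℤ) = a ^ 2 + b ^ 2 := by
    unfold nrm
    exact Int.toNat_of_nonneg (by positivity)
  have hz : ((nrm (a, b) : ℕ) : ZMod 8) = ((a ^ 2 + b ^ 2 : ℤ) : ZMod 8) := by
    rw [← hn]; simp
  by_cases hb : b / 2 % 2 = 0
  · rw [if_pos hb]
    obtain ⟨c, hc⟩ : ∃ c, b = 4 * c := ⟨b / 4, by omega⟩
    obtain ⟨d, hd⟩ : ∃ d, a = 4 * d + 1 := ⟨(a - 1) / 4, by omega⟩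
    have he : (a ^ 2 + b ^ 2 : ℤ) = 8 * (2 * d ^ 2 + d + 2 * c ^ 2) + 1 := by rw [hc, hd]; ring
    rw [hz, he]
    push_cast
    have h8 : (8 : ZMod 8) = 0 := by decide
    rw [h8, zero_mul, zero_add]
    simp
  · rw [if_neg hb]
    obtain ⟨c, hc⟩ : ∃ c, b = 4 * c + 2 := ⟨b / 4, by omega⟩
    obtain ⟨d, hd⟩ : ∃ d, a = 4 * d + 3 := ⟨(a - 3) / 4, by omega⟩
    have he : (a ^ 2 + b ^ 2 : ℤ) = 8 * (2 * d ^ 2 + 3 * d + 1 + 2 * c ^ 2 + 2 * c) + 5 := by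
      rw [hc, hd]; ring
    rw [hz, he]
    push_cast
    have h8 : (8 : ZMod 8) = 0 := by decide
    rw [h8, zero_mul, zero_add]
    have h5 : ZMod.χ₈ (5 : ZMod 8) = -1 := by decide
    rw [h5]
    simp

/-- `U V0`: the same with the sign `(-1)^{B/2} = χ₈(A²+B²)`
(`A² ≡ 1 mod 8`, `B² ≡ 0 mod 16` or `4 mod 32`...: `A²+B² ≡ 1` or `5 mod 8`). -/
theorem UV0_sum (y : ℝ) (hy : 0 < y) :
    HasSum (fun z : PL => ((ZMod.χ₈ (nrm z.1 : ZMod 8) : ℤ) : ℝ) *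
      ((z.1.1 : ℝ) * exp (-π * (nrm z.1 : ℝ) * y / 4))) (U y * V0 y) := by
  rw [← quvEquiv.hasSum_iff]
  have hs := U_summable y hy
  have hv := V0_summable y hy
  have h1 := hs.hasSum.mul hv.hasSum (summable_mul_of_summable_norm hs.norm hv.norm)
  refine h1.congr_fun ?_
  rintro ⟨n, k⟩
  simp only [Function.comp_apply]
  rw [quv_chi]
  simp only [quvEquiv, Equiv.coe_fn_mk]
  rw [quv_nrm]
  have h2 : 2 * k / 2 = k := by omega
  rw [h2]
  split_ifs with hk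
  · push_cast
    rw [quv_exp]
    ring
  · push_cast
    rw [quv_exp_neg]
    ring

end W3283e1
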