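import Pool.Agent.W_MP_3283e1_nt.RpB

set_option autoImplicit false

namespace W3283e1

open Complex

theorem summable_OP_rpow (C : ℝ) :
    Summable (fun p : OP => C * ((p : ℕ) : ℝ) ^ (-(6 / 5) : ℝ)) := by
  have h1 : Summable (fun n : ℕ => (n : ℝ) ^ (-(6 / 5) : ℝ)) :=
    Real.summable_nat_rpow.mpr (by norm_num)
  exact (h1.comp_injective Subtype.val_injective).mul_left C

/-- The remainder function `R s = ∑_p rp (α p) p s`.  The bound `rp_bound` is uniform on
`Re s > -1/10` and summable, so the sum is holomorphic there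
(`differentiableOn_tsum_of_summable_norm`); the value at `0` and reality come from `rp_zero`
and `rp_real`. -/
theorem R_exists (α : ℕ → ℂ) (hα : ∀ p : ℕ, p.Prime → p ≠ 2 → ‖α p‖ ^ 2 = p) :
    ∃ R : ℂ → ℂ, DifferentiableOn ℂ R {s : ℂ | -(1 / 10) < s.re} ∧ R 0 = 0 ∧
      (∀ σ : ℝ, -(1 / 10) < σ → (R σ).im = 0) ∧
      ∀ s : ℂ, -(1 / 10) < s.re → HasSum (fun p : OP => rp (α p) p s) (R s) := by
  obtain ⟨C, hC, hb⟩ := rp_bound
  have hsum := summable_OP_rpow C
  have hbd : ∀ (p : OP) (s : ℂ), s ∈ {s : ℂ | -(1 / 10) < s.re} →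
      ‖rp (α p) p s‖ ≤ C * ((p : ℕ) : ℝ) ^ (-(6 / 5) : ℝ) := by
    intro p s hs
    have hs' : -(1 / 10) < s.re := hs
    exact hb (α p) p s p.2.1 (hα p p.2.1 p.2.2) hs'.le
  have hopen : IsOpen {s : ℂ | -(1 / 10) < s.re} :=
    isOpen_lt continuous_const Complex.continuous_re
  have hHS : ∀ s : ℂ, -(1 / 10) < s.re →
      HasSum (fun p : OP => rp (α p) p s) (∑' p : OP, rp (α p) p s) := by
    intro s hs
    exact (Summable.of_norm_bounded hsum (fun p => hbd p s hs)).hasSum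
  refine ⟨fun s => ∑' p : OP, rp (α p) p s, ?_, ?_, ?_, hHS⟩
  · exact differentiableOn_tsum_of_summable_norm hsum
      (fun p => rp_diff (α p) p p.2.1 (hα p p.2.1 p.2.2)) hopen hbd
  · have h1 : ∀ p : OP, rp (α p) p 0 = 0 := fun p => rp_zero (α p) p p.2.1 (hα p p.2.1 p.2.2)
    simp only [h1, tsum_zero]
  · intro σ hσ
    have h2 := hHS (σ : ℂ) (by rw [Complex.ofReal_re]; exact hσ)
    have h3 := Complex.hasSum_im h2
    have h4 : ∀ p : OP, (rp (α p) p (σ : ℂ)).im = 0 := fun p =>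
      rp_real (α p) p p.2.1 (hα p p.2.1 p.2.2) σ hσ.le
    simp only [h4] at h3
    exact h3.unique hasSum_zero

end W3283e1
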