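import Pool.Agent.W_MP_3283e1_nt.Ell

set_option autoImplicit false

namespace W3283e1

open Complex

/-- The contribution of one prime to the remainder function. -/
noncomputable def rp (a : ℂ) (p : ℕ) (s : ℂ) : ℂ :=
  2 * (ell a p : ℂ) * (p : ℂ) ^ (-s)
    - 2 * Complex.log (1 - a * (p : ℂ) ^ (-1 - s))
    - 2 * Complex.log (1 - (starRingEnd ℂ a) * (p : ℂ) ^ (-1 - s))
    - Complex.log (1 - a ^ 2 * (p : ℂ) ^ (-2 - s))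
    - Complex.log (1 - (starRingEnd ℂ a) ^ 2 * (p : ℂ) ^ (-2 - s))
    + Complex.log (1 - a ^ 2 * (p : ℂ) ^ (-2 - 2 * s))
    + Complex.log (1 - (starRingEnd ℂ a) ^ 2 * (p : ℂ) ^ (-2 - 2 * s))

theorem Rp_two : (2 : ℝ) ^ (-(2 / 5) : ℝ) ≤ 4 / 5 := by
  have h : ((2 : ℝ) ^ (-(2 / 5) : ℝ)) ^ 5 = 1 / 4 := by
    rw [← Real.rpow_natCast, ← Real.rpow_mul (by norm_num)]
    have : (-(2 / 5) : ℝ) * ((5 : ℕ) : ℝ) = -2 := by norm_num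
    rw [this, Real.rpow_neg (by norm_num)]
    norm_num
  refine le_of_pow_le_pow_left₀ (n := 5) (by norm_num) (by norm_num) ?_
  rw [h]
  norm_num

theorem Rp_le {p : ℕ} (hp : p.Prime) : (p : ℝ) ^ (-(2 / 5) : ℝ) ≤ 4 / 5 := by
  have h2 : (2 : ℝ) ≤ p := by exact_mod_cast hp.two_le
  exact (Real.rpow_le_rpow_of_nonpos (by norm_num) h2 (by norm_num)).trans Rp_two

theorem Rp_mono {p : ℕ} (hp : p.Prime) {x y : ℝ} (h : x ≤ y) : (p : ℝ) ^ x ≤ (p : ℝ) ^ y :=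
  Real.rpow_le_rpow_of_exponent_le (by exact_mod_cast hp.one_le) h

theorem Rp_norm {p : ℕ} (hp : p.Prime) (w : ℂ) : ‖(p : ℂ) ^ w‖ = (p : ℝ) ^ w.re :=
  Complex.norm_natCast_cpow_of_pos hp.pos w

theorem Rp_norm_a {a : ℂ} {p : ℕ} (ha : ‖a‖ ^ 2 = p) : ‖a‖ = (p : ℝ) ^ (1 / 2 : ℝ) := by
  rw [← Real.sqrt_eq_rpow, ← ha, Real.sqrt_sq (norm_nonneg a)]

theorem Rp_conj {a : ℂ} {p : ℕ} (ha : ‖a‖ ^ 2 = p) : ‖(starRingEnd ℂ) a‖ ^ 2 = p := by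
  rw [RCLike.norm_conj, ha]

theorem Rp_slit {z : ℂ} (hz : ‖z‖ ≤ 4 / 5) : 1 - z ∈ Complex.slitPlane := by
  rw [Complex.mem_slitPlane_iff]
  left
  have h := Complex.re_le_norm z
  rw [Complex.sub_re, Complex.one_re]
  linarith

theorem Rp_ne {z : ℂ} (hz : ‖z‖ ≤ 4 / 5) : 1 - z ≠ 0 :=
  Complex.slitPlane_ne_zero (Rp_slit hz)

theorem Rp_im (c : ℂ) (P : ℝ) (h : ‖c * (P : ℂ)‖ ≤ 4 / 5) :
    (Complex.log (1 - c * (P : ℂ))).im + (Complex.log (1 - (starRingEnd ℂ) c * (P : ℂ))).im = 0 := by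
  have e : 1 - (starRingEnd ℂ) c * (P : ℂ) = (starRingEnd ℂ) (1 - c * (P : ℂ)) := by
    rw [map_sub, map_one, map_mul, Complex.conj_ofReal]
  rw [e, Complex.log_conj _ (Complex.slitPlane_arg_ne_pi (Rp_slit h)), Complex.conj_im]
  ring

theorem Rp_real {p : ℕ} (t : ℝ) : (p : ℂ) ^ (t : ℂ) = (((p : ℝ) ^ t : ℝ) : ℂ) := by
  rw [Complex.ofReal_cpow (Nat.cast_nonneg p), Complex.ofReal_natCast]

/-- Sizes of the four arguments for `Re s ≥ -1/10` (all are less than `1`):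
`|a p^{-1-s}| ≤ p^{-2/5}`, `|a^2 p^{-2-s}| ≤ p^{-9/10}`, `|a^2 p^{-2-2s}| ≤ p^{-4/5}`. -/
theorem size_bounds (a : ℂ) (p : ℕ) (hp : p.Prime) (ha : ‖a‖ ^ 2 = p) (s : ℂ)
    (hs : -(1 / 10) ≤ s.re) :
    ‖a * (p : ℂ) ^ (-1 - s)‖ ≤ (p : ℝ) ^ (-(2 / 5) : ℝ) ∧
    ‖a ^ 2 * (p : ℂ) ^ (-2 - s)‖ ≤ (p : ℝ) ^ (-(9 / 10) : ℝ) ∧
    ‖a ^ 2 * (p : ℂ) ^ (-2 - 2 * s)‖ ≤ (p : ℝ) ^ (-(4 / 5) : ℝ) ∧
    (p : ℝ) ^ (-(2 / 5) : ℝ) ≤ 4 / 5 ∧ (p : ℝ) ^ (-(9 / 10) : ℝ) ≤ 4 / 5 ∧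
    (p : ℝ) ^ (-(4 / 5) : ℝ) ≤ 4 / 5 := by
  have hp0 : (0 : ℝ) < p := by exact_mod_cast hp.pos
  have e1 : (-1 - s).re = -1 - s.re := by simp
  have e2 : (-2 - s).re = -2 - s.re := by simp
  have e3 : (-2 - 2 * s).re = -2 - 2 * s.re := by simp
  refine ⟨?_, ?_, ?_, Rp_le hp, (Rp_mono hp (by norm_num)).trans (Rp_le hp),
    (Rp_mono hp (by norm_num)).trans (Rp_le hp)⟩
  · rw [norm_mul, Rp_norm hp, Rp_norm_a ha, e1, ← Real.rpow_add hp0]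
    exact Rp_mono hp (by linarith)
  · rw [norm_mul, Rp_norm hp, norm_pow, ha, e2]
    conv_lhs => rw [← Real.rpow_one (p : ℝ)]
    rw [← Real.rpow_mul hp0.le, one_mul, ← Real.rpow_add hp0]
    exact Rp_mono hp (by linarith)
  · rw [norm_mul, Rp_norm hp, norm_pow, ha, e3]
    conv_lhs => rw [← Real.rpow_one (p : ℝ)]
    rw [← Real.rpow_mul hp0.le, one_mul, ← Real.rpow_add hp0]
    exact Rp_mono hp (by linarith)

/-- the six arguments are at most `4/5` in absolute value -/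
theorem Rp_all (a : ℂ) (p : ℕ) (hp : p.Prime) (ha : ‖a‖ ^ 2 = p) (s : ℂ)
    (hs : -(1 / 10) ≤ s.re) :
    ‖a * (p : ℂ) ^ (-1 - s)‖ ≤ 4 / 5 ∧ ‖(starRingEnd ℂ) a * (p : ℂ) ^ (-1 - s)‖ ≤ 4 / 5 ∧
    ‖a ^ 2 * (p : ℂ) ^ (-2 - s)‖ ≤ 4 / 5 ∧ ‖(starRingEnd ℂ) a ^ 2 * (p : ℂ) ^ (-2 - s)‖ ≤ 4 / 5 ∧
    ‖a ^ 2 * (p : ℂ) ^ (-2 - 2 * s)‖ ≤ 4 / 5 ∧
    ‖(starRingEnd ℂ) a ^ 2 * (p : ℂ) ^ (-2 - 2 * s)‖ ≤ 4 / 5 := by
  obtain ⟨h1, h2, h3, h4, h5, h6⟩ := size_bounds a p hp ha s hs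
  obtain ⟨k1, k2, k3, -, -, -⟩ := size_bounds _ p hp (Rp_conj ha) s hs
  exact ⟨h1.trans h4, k1.trans h4, h2.trans h5, k2.trans h5, h3.trans h6, k3.trans h6⟩

/-- Exponentiate; all arguments of the logarithms are nonzero by `size_bounds`
(also for `conj a`, which satisfies the same hypothesis). -/
theorem rp_exp (a : ℂ) (p : ℕ) (hp : p.Prime) (ha : ‖a‖ ^ 2 = p) (s : ℂ)
    (hs : -(1 / 10) ≤ s.re) :
    Complex.exp (rp a p s) = Complex.exp (2 * ((ell a p : ℂ) * (p : ℂ) ^ (-s))) *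
      ((fL a p (1 + s))⁻¹) ^ 2 * (fM a p s)⁻¹ * fM a p (2 * s) := by
  obtain ⟨h1, h2, h3, h4, h5, h6⟩ := Rp_all a p hp ha s hs
  have e1 : -(1 + s) = -1 - s := by ring
  unfold rp fL fM
  rw [e1]
  rw [Complex.exp_add, Complex.exp_add, Complex.exp_sub, Complex.exp_sub, Complex.exp_sub,
    Complex.exp_sub, Complex.exp_log (Rp_ne h3), Complex.exp_log (Rp_ne h4),
    Complex.exp_log (Rp_ne h5), Complex.exp_log (Rp_ne h6)]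
  have e2 : ∀ z : ℂ, ‖z‖ ≤ 4 / 5 → Complex.exp (2 * Complex.log (1 - z)) = (1 - z) ^ 2 := by
    intro z hz
    rw [two_mul, Complex.exp_add, Complex.exp_log (Rp_ne hz)]
    ring
  rw [e2 _ h1, e2 _ h2, mul_assoc (2 : ℂ)]
  have n1 := Rp_ne h1
  have n2 := Rp_ne h2
  have n3 := Rp_ne h3
  have n4 := Rp_ne h4
  field_simp

/-- Each logarithm has its argument in the slit plane (real part at least `1/5`). -/
theorem rp_diff (a : ℂ) (p : ℕ) (hp : p.Prime) (ha : ‖a‖ ^ 2 = p) :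
    DifferentiableOn ℂ (rp a p) {s : ℂ | -(1 / 10) < s.re} := by
  intro s hs
  obtain ⟨h1, h2, h3, h4, h5, h6⟩ := Rp_all a p hp ha s (le_of_lt hs)
  have hp0 : (p : ℂ) ≠ 0 := by exact_mod_cast hp.ne_zero
  have hpow : ∀ f : ℂ → ℂ, DifferentiableAt ℂ f s →
      DifferentiableAt ℂ (fun s => (p : ℂ) ^ (f s)) s := fun f hf =>
    hf.const_cpow (Or.inl hp0)
  have d1 : DifferentiableAt ℂ (fun s : ℂ => (p : ℂ) ^ (-1 - s)) s :=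
    hpow _ (differentiableAt_id.const_sub _)
  have d2 : DifferentiableAt ℂ (fun s : ℂ => (p : ℂ) ^ (-2 - s)) s :=
    hpow _ (differentiableAt_id.const_sub _)
  have d3 : DifferentiableAt ℂ (fun s : ℂ => (p : ℂ) ^ (-2 - 2 * s)) s :=
    hpow _ ((differentiableAt_id.const_mul _).const_sub _)
  have d0 : DifferentiableAt ℂ (fun s : ℂ => (p : ℂ) ^ (-s)) s :=
    hpow _ differentiableAt_id.neg
  have l : ∀ (c : ℂ) (f : ℂ → ℂ), DifferentiableAt ℂ f s → ‖c * f s‖ ≤ 4 / 5 →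
      DifferentiableAt ℂ (fun s => Complex.log (1 - c * f s)) s := fun c f hf h =>
    ((hf.const_mul c).const_sub 1).clog (Rp_slit h)
  have := ((((((d0.const_mul (2 * (ell a p : ℂ))).sub ((l a _ d1 h1).const_mul 2)).sub
    ((l _ _ d1 h2).const_mul 2)).sub (l _ _ d2 h3)).sub (l _ _ d2 h4)).add
    (l _ _ d3 h5)).add (l _ _ d3 h6)
  exact DifferentiableAt.differentiableWithinAt this

/-- At `s = 0` the first three terms cancel by `ell_eq`, the last four by pairs. -/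
theorem rp_zero (a : ℂ) (p : ℕ) (hp : p.Prime) (ha : ‖a‖ ^ 2 = p) : rp a p 0 = 0 := by
  unfold rp
  have e1 : (p : ℂ) ^ (-1 - 0 : ℂ) = (p : ℂ)⁻¹ := by
    rw [sub_zero, Complex.cpow_neg_one]
  rw [e1, ell_eq a p hp ha, mul_zero, neg_zero, Complex.cpow_zero, ← div_eq_mul_inv,
    ← div_eq_mul_inv]
  ring

/-- For real `s` the function is its own conjugate (`Complex.log_conj`, positive real parts). -/
theorem rp_real (a : ℂ) (p : ℕ) (hp : p.Prime) (ha : ‖a‖ ^ 2 = p) (σ : ℝ)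
    (hσ : -(1 / 10) ≤ σ) : (rp a p (σ : ℂ)).im = 0 := by
  obtain ⟨h1, -, h3, -, h5, -⟩ := Rp_all a p hp ha (σ : ℂ) (by simpa using hσ)
  have e0 : (p : ℂ) ^ (-(σ : ℂ)) = (((p : ℝ) ^ (-σ) : ℝ) : ℂ) := by
    rw [← Rp_real]
    push_cast
    rfl
  have e1 : (p : ℂ) ^ (-1 - (σ : ℂ)) = (((p : ℝ) ^ (-1 - σ) : ℝ) : ℂ) := by
    rw [← Rp_real]
    push_cast
    rfl
  have e2 : (p : ℂ) ^ (-2 - (σ : ℂ)) = (((p : ℝ) ^ (-2 - σ) : ℝ) : ℂ) := by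
    rw [← Rp_real]
    push_cast
    rfl
  have e3 : (p : ℂ) ^ (-2 - 2 * (σ : ℂ)) = (((p : ℝ) ^ (-2 - 2 * σ) : ℝ) : ℂ) := by
    rw [← Rp_real]
    push_cast
    rfl
  rw [e1] at h1
  rw [e2] at h3
  rw [e3] at h5
  have k1 := Rp_im _ _ h1
  have k2 := Rp_im _ _ h3
  have k3 := Rp_im _ _ h5
  rw [map_pow] at k2 k3
  have k0 : (2 * (ell a p : ℂ) * (((p : ℝ) ^ (-σ) : ℝ) : ℂ)).im = 0 := by
    have : (2 * (ell a p : ℂ) * (((p : ℝ) ^ (-σ) : ℝ) : ℂ)) =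
        ((2 * ell a p * (p : ℝ) ^ (-σ) : ℝ) : ℂ) := by push_cast; ring
    rw [this, Complex.ofReal_im]
  have m2 : ∀ z : ℂ, (2 * z).im = 2 * z.im := by
    intro z
    simp
  unfold rp
  rw [e0, e1, e2, e3, Complex.add_im, Complex.add_im, Complex.sub_im, Complex.sub_im,
    Complex.sub_im, Complex.sub_im, k0, m2, m2]
  linarith

end W3283e1
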