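import Pool.Agent.W_MP_3283e1_nt.Rp

set_option autoImplicit false

namespace W3283e1

open Complex

/-- second order expansion of the logarithm -/
theorem RpB_log2 {z : ℂ} (hz : ‖z‖ ≤ 4 / 5) :
    ‖Complex.log (1 - z) + z + z ^ 2 / 2‖ ≤ 5 / 3 * ‖z‖ ^ 3 := by
  have h1 : ‖-z‖ < 1 := by
    rw [norm_neg]
    linarith
  have h := Complex.norm_log_sub_logTaylor_le 2 h1
  have h2 : Complex.logTaylor (2 + 1) (-z) = -z - z ^ 2 / 2 := by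
    simp [Complex.logTaylor, Finset.sum_range_succ]
    ring
  rw [h2, norm_neg] at h
  have h3 : Complex.log (1 + -z) - (-z - z ^ 2 / 2) = Complex.log (1 - z) + z + z ^ 2 / 2 := by
    rw [← sub_eq_add_neg]
    ring
  rw [h3] at h
  refine h.trans ?_
  have h4 : (1 - ‖z‖)⁻¹ ≤ 5 := by
    rw [inv_le_comm₀ (by linarith) (by norm_num)]
    linarith
  have h5 : ‖z‖ ^ (2 + 1) * (1 - ‖z‖)⁻¹ ≤ ‖z‖ ^ (2 + 1) * 5 :=
    mul_le_mul_of_nonneg_left h4 (by positivity)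
  have h6 : ((2 : ℕ) : ℝ) + 1 = 3 := by norm_num
  rw [h6]
  have h7 : ‖z‖ ^ (2 + 1) = ‖z‖ ^ 3 := by norm_num
  rw [h7] at h5 ⊢
  linarith

/-- first order expansion of the logarithm -/
theorem RpB_log1 {z : ℂ} (hz : ‖z‖ ≤ 4 / 5) :
    ‖Complex.log (1 - z) + z‖ ≤ 5 / 2 * ‖z‖ ^ 2 := by
  have h1 : ‖-z‖ < 1 := by
    rw [norm_neg]
    linarith
  have h := Complex.norm_log_sub_logTaylor_le 1 h1
  have h2 : Complex.logTaylor (1 + 1) (-z) = -z := by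
    simp [Complex.logTaylor, Finset.sum_range_succ]
  rw [h2, norm_neg] at h
  have h3 : Complex.log (1 + -z) - (-z) = Complex.log (1 - z) + z := by
    rw [← sub_eq_add_neg]
    ring
  rw [h3] at h
  refine h.trans ?_
  have h4 : (1 - ‖z‖)⁻¹ ≤ 5 := by
    rw [inv_le_comm₀ (by linarith) (by norm_num)]
    linarith
  have h5 : ‖z‖ ^ (1 + 1) * (1 - ‖z‖)⁻¹ ≤ ‖z‖ ^ (1 + 1) * 5 :=
    mul_le_mul_of_nonneg_left h4 (by positivity)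
  have h6 : ((1 : ℕ) : ℝ) + 1 = 2 := by norm_num
  rw [h6]
  have h7 : ‖z‖ ^ (1 + 1) = ‖z‖ ^ 2 := by norm_num
  rw [h7] at h5 ⊢
  linarith

/-- one half of the function `rp` -/
noncomputable def RpB_f (u y : ℂ) : ℂ :=
  2 * y * Complex.log (1 - u) - 2 * Complex.log (1 - u * y) - Complex.log (1 - u ^ 2 * y)
    + Complex.log (1 - u ^ 2 * y ^ 2)

theorem RpB_half {u y : ℂ} {P : ℝ} (h1 : ‖u‖ ≤ 4 / 5) (h2 : ‖u * y‖ ≤ 4 / 5)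
    (h3 : ‖u ^ 2 * y‖ ≤ 4 / 5) (h4 : ‖u ^ 2 * y ^ 2‖ ≤ 4 / 5) (k1 : ‖y‖ * ‖u‖ ^ 3 ≤ P)
    (k2 : ‖u * y‖ ^ 3 ≤ P) (k3 : ‖u ^ 2 * y‖ ^ 2 ≤ P) (k4 : ‖u ^ 2 * y ^ 2‖ ^ 2 ≤ P) :
    ‖RpB_f u y‖ ≤ 12 * P := by
  have e : RpB_f u y = 2 * y * (Complex.log (1 - u) + u + u ^ 2 / 2)
      - 2 * (Complex.log (1 - u * y) + u * y + (u * y) ^ 2 / 2)
      - (Complex.log (1 - u ^ 2 * y) + u ^ 2 * y)
      + (Complex.log (1 - u ^ 2 * y ^ 2) + u ^ 2 * y ^ 2) := by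
    unfold RpB_f
    ring
  have b1 : ‖2 * y * (Complex.log (1 - u) + u + u ^ 2 / 2)‖ ≤ 10 / 3 * P := by
    rw [norm_mul, norm_mul, Complex.norm_ofNat]
    have := mul_le_mul_of_nonneg_left (RpB_log2 h1) (norm_nonneg y)
    linarith
  have b2 : ‖2 * (Complex.log (1 - u * y) + u * y + (u * y) ^ 2 / 2)‖ ≤ 10 / 3 * P := by
    rw [norm_mul, Complex.norm_ofNat]
    have := RpB_log2 h2
    linarith
  have b3 : ‖Complex.log (1 - u ^ 2 * y) + u ^ 2 * y‖ ≤ 5 / 2 * P := by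
    have := RpB_log1 h3
    linarith
  have b4 : ‖Complex.log (1 - u ^ 2 * y ^ 2) + u ^ 2 * y ^ 2‖ ≤ 5 / 2 * P := by
    have := RpB_log1 h4
    linarith
  have hP : 0 ≤ P := le_trans (by positivity) k1
  rw [e]
  refine (norm_add_le _ _).trans ?_
  refine (add_le_add (norm_sub_le _ _) le_rfl).trans ?_
  refine (add_le_add (add_le_add (norm_sub_le _ _) le_rfl) le_rfl).trans ?_
  linarith

theorem RpB_pow {p : ℕ} (hp : p.Prime) (s : ℂ) :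
    (p : ℂ) ^ (-1 - s) = (p : ℂ) ^ (-s) / p ∧ (p : ℂ) ^ (-2 - s) = (p : ℂ) ^ (-s) / p ^ 2 ∧
      (p : ℂ) ^ (-2 - 2 * s) = ((p : ℂ) ^ (-s)) ^ 2 / p ^ 2 := by
  have h0 : (p : ℂ) ≠ 0 := Nat.cast_ne_zero.mpr hp.ne_zero
  refine ⟨?_, ?_, ?_⟩
  · rw [show (-1 - s : ℂ) = -s - 1 by ring, Complex.cpow_sub _ _ h0, Complex.cpow_one]
  · rw [show (-2 - s : ℂ) = -s - 2 by ring, Complex.cpow_sub _ _ h0, Complex.cpow_ofNat]
  · rw [show (-2 - 2 * s : ℂ) = (-s + -s) - 2 by ring, Complex.cpow_sub _ _ h0,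
      Complex.cpow_add _ _ h0, Complex.cpow_ofNat]
    ring

theorem RpB_eq {a : ℂ} {p : ℕ} (hp : p.Prime) (ha : ‖a‖ ^ 2 = p) (s : ℂ) :
    rp a p s = RpB_f (a / p) ((p : ℂ) ^ (-s)) + RpB_f ((starRingEnd ℂ a) / p) ((p : ℂ) ^ (-s)) := by
  obtain ⟨e1, e2, e3⟩ := RpB_pow hp s
  have a1 : ∀ b : ℂ, b * (p : ℂ) ^ (-1 - s) = b / p * (p : ℂ) ^ (-s) := by
    intro b
    rw [e1]
    ring
  have a2 : ∀ b : ℂ, b ^ 2 * (p : ℂ) ^ (-2 - s) = (b / p) ^ 2 * (p : ℂ) ^ (-s) := by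
    intro b
    rw [e2]
    ring
  have a3 : ∀ b : ℂ, b ^ 2 * (p : ℂ) ^ (-2 - 2 * s) = (b / p) ^ 2 * ((p : ℂ) ^ (-s)) ^ 2 := by
    intro b
    rw [e3]
    ring
  unfold rp RpB_f
  rw [ell_eq a p hp ha, a1, a1, a2, a2, a3, a3]
  ring

/-- bound of one half -/
theorem RpB_bound_half {a : ℂ} {p : ℕ} (hp : p.Prime) (ha : ‖a‖ ^ 2 = p) {s : ℂ}
    (hs : -(1 / 10) ≤ s.re) :
    ‖RpB_f (a / p) ((p : ℂ) ^ (-s))‖ ≤ 12 * (p : ℝ) ^ (-(6 / 5) : ℝ) := by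
  obtain ⟨e1, e2, e3⟩ := RpB_pow hp s
  obtain ⟨s1, s2, s3, t1, t2, t3⟩ := size_bounds a p hp ha s hs
  obtain ⟨n1, n2⟩ := norm_div a p hp ha
  have hp0 : (0 : ℝ) < p := Nat.cast_pos.mpr hp.pos
  have hp1 : (1 : ℝ) ≤ p := by exact_mod_cast hp.one_lt.le
  have a1 : a * (p : ℂ) ^ (-1 - s) = a / p * (p : ℂ) ^ (-s) := by
    rw [e1]
    ring
  have a2 : a ^ 2 * (p : ℂ) ^ (-2 - s) = (a / p) ^ 2 * (p : ℂ) ^ (-s) := by
    rw [e2]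
    ring
  have a3 : a ^ 2 * (p : ℂ) ^ (-2 - 2 * s) = (a / p) ^ 2 * ((p : ℂ) ^ (-s)) ^ 2 := by
    rw [e3]
    ring
  rw [a1] at s1
  rw [a2] at s2
  rw [a3] at s3
  have hy : ‖(p : ℂ) ^ (-s)‖ ≤ (p : ℝ) ^ (1 / 10 : ℝ) := by
    rw [Complex.norm_natCast_cpow_of_pos hp.pos]
    refine Real.rpow_le_rpow_of_exponent_le hp1 ?_
    rw [Complex.neg_re]
    linarith
  refine RpB_half ?_ (s1.trans t1) (s2.trans t2) (s3.trans t3) ?_ ?_ ?_ ?_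
  · linarith
  · have h1 : ‖(p : ℂ) ^ (-s)‖ * ‖a / p‖ ^ 3 ≤
        (p : ℝ) ^ (1 / 10 : ℝ) * ((p : ℝ) ^ (-(1 / 2) : ℝ)) ^ 3 := by
      rw [n1]
      exact mul_le_mul_of_nonneg_right hy (by positivity)
    refine h1.trans ?_
    rw [← Real.rpow_natCast, ← Real.rpow_mul hp0.le, ← Real.rpow_add hp0]
    refine Real.rpow_le_rpow_of_exponent_le hp1 ?_
    norm_num
  · have h1 := pow_le_pow_left₀ (norm_nonneg _) s1 3
    refine h1.trans (le_of_eq ?_)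
    rw [← Real.rpow_natCast, ← Real.rpow_mul hp0.le]
    norm_num
  · have h1 := pow_le_pow_left₀ (norm_nonneg _) s2 2
    refine h1.trans ?_
    rw [← Real.rpow_natCast, ← Real.rpow_mul hp0.le]
    refine Real.rpow_le_rpow_of_exponent_le hp1 ?_
    norm_num
  · have h1 := pow_le_pow_left₀ (norm_nonneg _) s3 2
    refine h1.trans ?_
    rw [← Real.rpow_natCast, ← Real.rpow_mul hp0.le]
    refine Real.rpow_le_rpow_of_exponent_le hp1 ?_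
    norm_num

/-- The two halves: with `u = a/p`, `y = p^{-s}` one has `rp = f u y + f (conj u) y`,
`f u y = 2 y log(1-u) - 2 log(1-uy) - log(1-u²y) + log(1-u²y²)` (use `ell_eq` and
`p^{-1-s} = y/p`, `p^{-2-s} = y/p²`, `p^{-2-2s} = y²/p²`).  Expand
`log(1-z) = -z - z²/2 + O(|z|³)` for `z = u, uy` and `log(1-z) = -z + O(|z|²)` for
`z = u²y, u²y²` (all `|z| ≤ 4/5`; `Complex.norm_log_sub_logTaylor_le`); the main terms
`2y(-u-u²/2) + 2uy + u²y² + u²y - u²y²` cancel.  With `|u| = p^{-1/2}`, `|y| ≤ p^{1/10}` the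
errors are `p^{1/10 - 3/2}`, `p^{-6/5}`, `p^{-9/5}`, `p^{-8/5}`, all at most `p^{-6/5}`. -/
theorem rp_bound : ∃ C : ℝ, 0 < C ∧ ∀ (a : ℂ) (p : ℕ) (s : ℂ), p.Prime → ‖a‖ ^ 2 = p →
    -(1 / 10) ≤ s.re → ‖rp a p s‖ ≤ C * (p : ℝ) ^ (-(6 / 5) : ℝ) := by
  refine ⟨24, by norm_num, fun a p s hp ha hs => ?_⟩
  have ha' : ‖(starRingEnd ℂ) a‖ ^ 2 = p := by
    rw [RCLike.norm_conj]
    exact ha
  rw [RpB_eq hp ha s]
  have h1 := RpB_bound_half hp ha hs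
  have h2 := RpB_bound_half hp ha' hs
  refine (norm_add_le _ _).trans ?_
  linarith

end W3283e1
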