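import Pool.Agent.W_MP_3283e1_nt.Lfun
import Pool.Agent.W_MP_3283e1_nt.Chi4
import Pool.Agent.W_MP_3283e1_nt.Zfun

set_option autoImplicit false

namespace W3283e1

open Complex

/-- The symmetric square L-function (without its factor at `2`) at `2 + w`. -/
noncomputable def WW (w : ℂ) : ℂ := LE 2 (2 + w) * L4 (1 + w)

theorem WW_diff : Differentiable ℂ WW := by
  have h1 : Differentiable ℂ (fun w : ℂ => LE 2 (2 + w)) :=
    (LE_diff 2 (by simp)).comp (differentiable_id.const_add 2)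
  have h2 : Differentiable ℂ (fun w : ℂ => L4 (1 + w)) :=
    L4_diff.comp (differentiable_id.const_add 1)
  exact h1.mul h2

theorem WW_pos (σ : ℝ) (hσ : 0 ≤ σ) : 0 < (WW σ).re ∧ (WW σ).im = 0 := by
  have h1 := LE_pos 2 (by simp) (2 + σ) (by linarith)
  have h2 := L4_pos (1 + σ) (by linarith)
  push_cast at h1 h2
  unfold WW
  rw [Complex.mul_re, Complex.mul_im, h1.2, h2.2]
  refine ⟨?_, by ring⟩
  have := mul_pos h1.1 h2.1
  linarith

theorem wfun_norm_lt (p : ℕ) (hp : p.Prime) (w : ℂ) (hw : 0 < w.re) :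
    ‖(p : ℂ) ^ (-(1 + w))‖ < 1 := by
  have hp1 : (1 : ℝ) < p := by exact_mod_cast hp.one_lt
  have e : ((p : ℕ) : ℂ) = ((p : ℝ) : ℂ) := by push_cast; rfl
  rw [e, Complex.norm_cpow_eq_rpow_re_of_pos (by linarith)]
  apply Real.rpow_lt_one_of_one_lt_of_neg hp1
  simp
  linarith

theorem wfun_ne (p : ℕ) (hp : p.Prime) (w : ℂ) (hw : 0 < w.re) (ε : ℂ) (hε : ‖ε‖ = 1) :
    1 - ε * (p : ℂ) ^ (-(1 + w)) ≠ 0 := by
  intro h
  have h1 : ε * (p : ℂ) ^ (-(1 + w)) = 1 := by linear_combination -h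
  have h2 := wfun_norm_lt p hp w hw
  have h3 := congrArg norm h1
  rw [norm_mul, hε, one_mul, norm_one] at h3
  linarith

theorem wfun_chi8 (p : ℕ) (hp : p.Prime) (h2 : p ≠ 2) : chi8 p = 1 ∨ chi8 p = -1 := by
  have hodd : ¬ p % 2 = 0 := by
    rcases hp.eq_two_or_odd with h | h
    · exact absurd h h2
    · omega
  unfold chi8
  rw [ZMod.χ₈_nat_eq_if_mod_eight, if_neg hodd]
  split_ifs
  · left
    norm_num
  · right
    norm_num

/-- The local identity: for `p ≡ 1 mod 4`, `alpha² = cz(zp)²` (`chi8(p)² = 1`), and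
`(fM)⁻¹ = (fC 2 p (2+w))⁻¹`; for `p ≡ 3 mod 4`, `alpha² = -p`, so
`(fM)⁻¹ = (1+p^{-1-w})^{-2} = (1-p^{-2-2w})⁻¹ (1+p^{-1-w})⁻¹ (1-p^{-1-w})`.
In both cases `(fM)⁻¹ = (fC 2 p (2+w))⁻¹ (1 - sg p p^{-1-w})⁻¹ (1 - p^{-1-w})`. -/
theorem fM_local (j p : ℕ) (hp : p.Prime) (h2 : p ≠ 2) (w : ℂ) (hw : 0 < w.re) :
    (fM (alpha j p) p w)⁻¹ =
      (fC 2 p (2 + w))⁻¹ * (1 - sg p * (p : ℂ) ^ (-(1 + w)))⁻¹ * (1 - (p : ℂ) ^ (-(1 + w))) := by
  have hp0 : (p : ℂ) ≠ 0 := by exact_mod_cast hp.ne_zero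
  have hne1 := wfun_ne p hp w hw 1 (by simp)
  have hne2 := wfun_ne p hp w hw (-1) (by simp)
  rw [one_mul] at hne1
  by_cases h1 : p % 4 = 1
  · have hα : alpha j p ^ 2 = cz (zp p) ^ 2 ∧
        (starRingEnd ℂ (alpha j p)) ^ 2 = (starRingEnd ℂ (cz (zp p))) ^ 2 := by
      unfold alpha
      rw [if_pos h1]
      have h3 : chi8 p ^ 2 = 1 := by
        rcases wfun_chi8 p hp h2 with h | h <;> rw [h] <;> norm_num
      have h4 : starRingEnd ℂ (chi8 p) = chi8 p := by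
        rcases wfun_chi8 p hp h2 with h | h <;> rw [h] <;> simp
      constructor
      · rw [mul_pow, ← pow_mul, mul_comm j 2, pow_mul, h3, one_pow, one_mul]
      · rw [map_mul, map_pow, h4, mul_pow, ← pow_mul, mul_comm j 2, pow_mul, h3, one_pow, one_mul]
    unfold fM fC sg
    rw [if_pos h1, if_pos h1, hα.1, hα.2, one_mul, mul_assoc _ _ (1 - (p : ℂ) ^ (-(1 + w))),
      inv_mul_cancel₀ hne1, mul_one]
    have e : (-2 - w : ℂ) = -(2 + w) := by ring
    rw [e]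
  · have hs : ((Real.sqrt p : ℝ) : ℂ) ^ 2 = p := by
      rw [← Complex.ofReal_pow, Real.sq_sqrt (by positivity)]
      simp
    have hα : alpha j p ^ 2 = -p ∧ (starRingEnd ℂ (alpha j p)) ^ 2 = -p := by
      unfold alpha
      rw [if_neg h1]
      constructor
      · rw [mul_pow, I_sq, hs]
        ring
      · rw [map_mul, conj_I, Complex.conj_ofReal, mul_pow, neg_sq, I_sq, hs]
        ring
    unfold fM fC sg
    rw [if_neg h1, if_neg h1, hα.1, hα.2]
    have e1 : (p : ℂ) ^ (-2 - w) * p = (p : ℂ) ^ (-(1 + w)) := by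
      have : (p : ℂ) ^ (-2 - w) * p = (p : ℂ) ^ (-2 - w) * (p : ℂ) ^ (1 : ℂ) := by rw [cpow_one]
      rw [this, ← cpow_add _ _ hp0]
      congr 1
      ring
    have e2 : (p : ℂ) ^ (-(2 * (2 + w))) * p ^ 2 = ((p : ℂ) ^ (-(1 + w))) ^ 2 := by
      have h5 : ((p : ℂ) ^ (-(1 + w))) ^ 2 = (p : ℂ) ^ (-(1 + w) * 2) := by
        rw [← cpow_mul_nat]
        norm_num
      have h6 : (p : ℂ) ^ 2 = (p : ℂ) ^ (2 : ℂ) := by
        rw [← cpow_natCast]
        norm_num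
      rw [h5, h6, ← cpow_add _ _ hp0]
      congr 1
      ring
    set y := (p : ℂ) ^ (-(1 + w)) with hy
    have e3 : 1 - -(p : ℂ) * (p : ℂ) ^ (-2 - w) = 1 + y := by rw [← e1]; ring
    have e4 : 1 - (-(p : ℂ)) ^ 2 * (p : ℂ) ^ (-(2 * (2 + w))) = (1 - y) * (1 + y) := by
      have : (1 - y) * (1 + y) = 1 - y ^ 2 := by ring
      rw [this, ← e2]
      ring
    rw [e3, e4]
    have hne3 : 1 + y ≠ 0 := by
      intro h
      apply hne2
      rw [← h]
      ring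
    have e5 : 1 - -1 * y = 1 + y := by ring
    rw [e5]
    field_simp

/-- Multiply `euler_cc` (`k = 2`, at `2 + w`), `L4_prod` at `1 + w` and the inverse of `zeta_prod`
at `1 + w` (the limit is nonzero, so the product of the inverses converges to the inverse). -/
theorem WW_prod (j : ℕ) (w : ℂ) (hw : 0 < w.re) :
    HasProd (fun p : OP => (fM (alpha j p) p w)⁻¹)
      (WW w / (riemannZeta (1 + w) * t2 w)) := by
  have h1 := euler_cc 2 (2 + w) (by simp; linarith)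
  rw [← LE_eq2 (2 + w) (by simp; linarith)] at h1
  have h2 := L4_prod (1 + w) (by simp; linarith)
  have h3 := zeta_prod (1 + w) (by simp; linarith)
  have ht : (1 - (2 : ℂ) ^ (-(1 + w))) = t2 w := by
    unfold t2
    congr 2
    ring
  rw [ht] at h3
  have hz : riemannZeta (1 + w) ≠ 0 := riemannZeta_ne_zero_of_one_le_re (by simp; linarith)
  have h4 := h3.inv₀ (mul_ne_zero hz (t2_ne w (by linarith)))
  have h5 := (h1.mul h2).mul h4
  unfold WW
  rw [div_eq_mul_inv]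
  have e : (fun p : OP => (fM (alpha j p) p w)⁻¹) = fun p : OP =>
      (fC 2 p (2 + w))⁻¹ * (1 - sg p * ((p : ℕ) : ℂ) ^ (-(1 + w)))⁻¹ *
        ((1 - ((p : ℕ) : ℂ) ^ (-(1 + w)))⁻¹)⁻¹ := by
    funext p
    rw [fM_local j p p.2.1 p.2.2 w hw, inv_inv]
  rw [e]
  exact h5

end W3283e1
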